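import Mathlib

-- part Pool.Agent.P.MP_e72dc0_lc.Koszul
section

/-! Koszul flattenings with explicit creation operators. -/

namespace Pool.Agent.P.MP_e72dc0_lc

open Finset

variable {K : Type*} [Field K]

/-- the sign of `l` in `T` -/
def sgn (K : Type*) [Field K] (l : ℕ) (T : Finset ℕ) : K := (-1) ^ (T.filter (· < l)).card

lemma sgn_ne_zero (l : ℕ) (T : Finset ℕ) : sgn K l T ≠ 0 := by
  unfold sgn; exact pow_ne_zero _ (neg_ne_zero.mpr one_ne_zero)

/-- exterior multiplication by the basis vector `e l` on functions of finite sets -/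
def cre (l : ℕ) (ω : Finset ℕ → K) (T : Finset ℕ) : K :=
  if l ∈ T then sgn K l T * ω (T.erase l) else 0

lemma cre_zero (l : ℕ) (T : Finset ℕ) : cre l (fun _ => (0 : K)) T = 0 := by
  unfold cre; simp

lemma cre_eq_zero_of (l : ℕ) (ω : Finset ℕ → K) (h : ∀ S, ω S = 0) (T : Finset ℕ) :
    cre l ω T = 0 := by
  unfold cre; simp [h]

lemma cre_sum {ι : Type*} (s : Finset ι) (l : ℕ) (c : ι → K) (ω : ι → Finset ℕ → K)
    (T : Finset ℕ) :
    cre l (fun S => ∑ i ∈ s, c i * ω i S) T = ∑ i ∈ s, c i * cre l (ω i) T := by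
  unfold cre
  split_ifs
  · rw [Finset.mul_sum]; apply Finset.sum_congr rfl; intro i _; ring
  · simp

lemma sgn_erase_of_lt {l l' : ℕ} {T : Finset ℕ} (h : l < l') (hl : l ∈ T) :
    sgn K l' (T.erase l) = - sgn K l' T := by
  unfold sgn
  have h1 : (T.erase l).filter (· < l') = (T.filter (· < l')).erase l := by
    ext x; simp only [mem_filter, mem_erase]; tauto
  have h2 : l ∈ T.filter (· < l') := by simp [hl, h]
  rw [h1]
  have h3 := Finset.card_erase_add_one h2
  rw [← h3, pow_succ]; ring

lemma sgn_erase_of_gt {l l' : ℕ} {T : Finset ℕ} (h : l' < l) :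
    sgn K l' (T.erase l) = sgn K l' T := by
  unfold sgn
  have h1 : (T.erase l).filter (· < l') = T.filter (· < l') := by
    ext x; simp only [mem_filter, mem_erase]
    constructor
    · tauto
    · rintro ⟨h1, h2⟩; exact ⟨⟨by omega, h1⟩, h2⟩
  rw [h1]

lemma cre_cre_anti (l l' : ℕ) (ω : Finset ℕ → K) (T : Finset ℕ) :
    cre l (cre l' ω) T + cre l' (cre l ω) T = 0 ∧ cre l (cre l ω) T = 0 := by
  constructor
  · unfold cre
    rcases lt_trichotomy l l' with h | h | h
    · by_cases hl : l ∈ T <;> by_cases hl' : l' ∈ T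
      · have a1 : l' ∈ T.erase l := by simp [hl', h.ne']
        have a2 : l ∈ T.erase l' := by simp [hl, h.ne]
        simp only [hl, hl', a1, a2, if_true]
        rw [sgn_erase_of_lt h hl, sgn_erase_of_gt h, Finset.erase_right_comm]; ring
      · have a1 : l' ∉ T.erase l := by simp [hl']
        simp [hl, hl', a1]
      · have a2 : l ∉ T.erase l' := by simp [hl]
        simp [hl, hl', a2]
      · simp [hl, hl']
    · subst h; simp
    · by_cases hl : l ∈ T <;> by_cases hl' : l' ∈ T
      · have a1 : l' ∈ T.erase l := by simp [hl', h.ne]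
        have a2 : l ∈ T.erase l' := by simp [hl, h.ne']
        simp only [hl, hl', a1, a2, if_true]
        rw [sgn_erase_of_lt h hl', sgn_erase_of_gt h, Finset.erase_right_comm]; ring
      · have a1 : l' ∉ T.erase l := by simp [hl']
        simp [hl, hl', a1]
      · have a2 : l ∉ T.erase l' := by simp [hl]
        simp [hl, hl', a2]
      · simp [hl, hl']
  · unfold cre; simp

/-- exterior multiplication by the vector `w` -/
def wedge (N : ℕ) (w : ℕ → K) (ω : Finset ℕ → K) (T : Finset ℕ) : K :=
  ∑ l ∈ range N, w l * cre l ω T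

lemma sum_antisymm_zero (N : ℕ) (f : ℕ → ℕ → K) (h1 : ∀ a b, f a b + f b a = 0)
    (h2 : ∀ a, f a a = 0) : ∑ a ∈ range N, ∑ b ∈ range N, f a b = 0 := by
  induction N with
  | zero => simp
  | succ n ih =>
    rw [Finset.sum_range_succ]
    simp only [Finset.sum_range_succ]
    rw [Finset.sum_add_distrib, ih, h2, zero_add, add_zero, ← Finset.sum_add_distrib]
    exact Finset.sum_eq_zero (fun a _ => h1 a n)

lemma wedge_wedge (N : ℕ) (w : ℕ → K) (ω : Finset ℕ → K) (T : Finset ℕ) :
    wedge N w (wedge N w ω) T = 0 := by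
  have : wedge N w (wedge N w ω) T
      = ∑ a ∈ range N, ∑ b ∈ range N, w a * (w b * cre a (cre b ω) T) := by
    unfold wedge
    apply Finset.sum_congr rfl; intro a _
    rw [cre_sum, Finset.mul_sum]
  rw [this]
  apply sum_antisymm_zero
  · intro a b
    have := (cre_cre_anti a b ω T).1
    linear_combination (w a * w b) * this
  · intro a
    rw [(cre_cre_anti a a ω T).2]; ring

/-- an element of the image of `wedge w` vanishing on all sets through `j`, where `w j ≠ 0`,
vanishes -/
lemma wedge_eq_zero_of (N : ℕ) (w : ℕ → K) (ω : Finset ℕ → K) (j : ℕ) (hj : j < N)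
    (hw : w j ≠ 0) (h : ∀ T, j ∈ T → wedge N w ω T = 0) (T : Finset ℕ) :
    wedge N w ω T = 0 := by
  by_cases hT : j ∈ T
  · exact h T hT
  have h0 := wedge_wedge N w ω (insert j T)
  set η := wedge N w ω with hη
  unfold wedge at h0
  rw [Finset.sum_eq_single j] at h0
  · unfold cre at h0
    simp only [mem_insert_self, if_true, Finset.erase_insert hT] at h0
    rcases mul_eq_zero.mp h0 with h1 | h1
    · exact absurd h1 hw
    · rcases mul_eq_zero.mp h1 with h2 | h2
      · exact absurd h2 (sgn_ne_zero _ _)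
      · exact h2
  · intro b _ hb
    unfold cre
    split_ifs with hb'
    · rw [h _ (by simp [hb.symm])]; ring
    · ring
  · intro hj'; exact absurd (mem_range.mpr hj) hj'

/-- support condition: `ω` lives in degree `q` on the first `N` basis vectors -/
def Supp (N q : ℕ) (ω : Finset ℕ → K) : Prop :=
  ∀ S, ω S ≠ 0 → S ∈ (range N).powersetCard q

lemma wedge_supp {N q : ℕ} (w : ℕ → K) {ω : Finset ℕ → K} (h : Supp N q ω) :
    Supp N (q + 1) (wedge N w ω) := by
  intro T hT
  unfold wedge at hT
  obtain ⟨l, hl, hne⟩ := Finset.exists_ne_zero_of_sum_ne_zero hT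
  have h2 : cre l ω T ≠ 0 := fun h => hne (by rw [h, mul_zero])
  unfold cre at h2
  split_ifs at h2 with hlT
  · have h3 : ω (T.erase l) ≠ 0 := fun h => h2 (by rw [h, mul_zero])
    have h4 := h _ h3
    rw [mem_powersetCard] at h4 ⊢
    constructor
    · intro x hx
      by_cases hxl : x = l
      · rw [hxl]; exact hl
      · exact h4.1 (by simp [hx, hxl])
    · rw [← h4.2, Finset.card_erase_add_one hlT]
  · exact absurd rfl h2

/-- The Hankel tuple has an injective Koszul flattening. -/
lemma hankel_inj (n : ℕ) : ∀ (u v q : ℕ), u + v = n → q < v →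
    ∀ ω : ℕ → Finset ℕ → K, (∀ a, a < u → Supp (u + v - 1) q (ω a)) →
    (∀ b, b < v → ∀ T, ∑ a ∈ range u, cre (a + b) (ω a) T = 0) →
    ∀ a, a < u → ∀ S, ω a S = 0 := by
  induction n with
  | zero => intro u v q h hq; omega
  | succ n ih =>
    intro u v q huv hq ω hs he
    rcases Nat.eq_zero_or_pos u with hu | hu
    · intro a ha; omega
    set L := u + v - 2 with hL
    -- step 1: no support on sets containing L
    have step1 : ∀ a, a < u → ∀ S, L ∈ S → ω a S = 0 := by
      rcases Nat.eq_zero_or_pos q with hq0 | hq0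
      · intro a ha S hS
        by_contra hne
        have := (mem_powersetCard.mp (hs a ha S hne)).2
        rw [hq0, Finset.card_eq_zero] at this
        rw [this] at hS; simp at hS
      · have key := ih u (v - 1) (q - 1) (by omega) (by omega)
          (fun a S => if L ∈ S then 0 else ω a (insert L S)) ?_ ?_
        · intro a ha S hS
          have := key a ha (S.erase L)
          simpa [Finset.insert_erase hS] using this
        · intro a ha S hS
          have hLS : L ∉ S := by
            intro h; simp [h] at hS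
          simp only [hLS, if_false] at hS
          have h4 := mem_powersetCard.mp (hs a ha _ hS)
          rw [mem_powersetCard]
          constructor
          · intro x hx
            have h5 := mem_range.mp (h4.1 (mem_insert_of_mem hx))
            have h6 : x ≠ L := fun h => hLS (h ▸ hx)
            rw [mem_range]; omega
          · have := h4.2
            rw [Finset.card_insert_of_notMem hLS] at this
            omega
        · intro b hb T
          by_cases hT : L ∈ T
          · apply Finset.sum_eq_zero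
            intro a ha
            have ha' := mem_range.mp ha
            unfold cre
            have : L ∈ T.erase (a + b) := by
              rw [mem_erase]; exact ⟨by omega, hT⟩
            simp [this]
          · rw [← he b (by omega) (insert L T)]
            apply Finset.sum_congr rfl
            intro a ha
            have ha' := mem_range.mp ha
            have hlt : a + b < L := by omega
            unfold cre
            have e1 : (a + b ∈ insert L T) ↔ a + b ∈ T := by
              rw [mem_insert]; constructor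
              · rintro (h | h)
                · omega
                · exact h
              · exact Or.inr
            have e2 : L ∉ T.erase (a + b) := fun h => hT (mem_of_mem_erase h)
            have e3 : sgn K (a + b) (insert L T) = sgn K (a + b) T := by
              rw [← sgn_erase_of_gt (K := K) (T := insert L T) hlt, Finset.erase_insert hT]
            have e4 : (insert L T).erase (a + b) = insert L (T.erase (a + b)) := by
              rw [Finset.erase_insert_of_ne (by omega)]
            simp only [e1, e2, e3, e4, if_false]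
    -- step 2: the last component vanishes
    have step2 : ∀ S, ω (u - 1) S = 0 := by
      intro S
      by_cases hS : L ∈ S
      · exact step1 _ (by omega) S hS
      have h0 := he (v - 1) (by omega) (insert L S)
      rw [Finset.sum_eq_single (u - 1)] at h0
      · have e : u - 1 + (v - 1) = L := by omega
        rw [e] at h0
        unfold cre at h0
        simp only [mem_insert_self, if_true, Finset.erase_insert hS] at h0
        rcases mul_eq_zero.mp h0 with h2 | h2
        · exact absurd h2 (sgn_ne_zero _ _)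
        · exact h2
      · intro a ha hne
        have ha' := mem_range.mp ha
        unfold cre
        split_ifs
        · rw [step1 a ha' _ (by rw [mem_erase]; exact ⟨by omega, mem_insert_self _ _⟩)]; ring
        · rfl
      · intro h; exact absurd (mem_range.mpr (by omega)) h
    -- step 3
    have step3 := ih (u - 1) v q (by omega) hq ω ?_ ?_
    · intro a ha S
      by_cases h : a = u - 1
      · rw [h]; exact step2 S
      · exact step3 a (by omega) S
    · intro a ha S hS
      have h4 := mem_powersetCard.mp (hs a (by omega) _ hS)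
      have hLS : L ∉ S := fun h => hS (step1 a (by omega) S h)
      rw [mem_powersetCard]
      refine ⟨?_, h4.2⟩
      intro x hx
      have h5 := mem_range.mp (h4.1 hx)
      have h6 : x ≠ L := fun h => hLS (h ▸ hx)
      rw [mem_range]; omega
    · intro b hb T
      have h0 := he b hb T
      have e : u = (u - 1) + 1 := by omega
      rw [e, Finset.sum_range_succ, cre_eq_zero_of _ _ step2, add_zero] at h0
      exact h0

lemma hankel (p : ℕ) (ω : Fin (p + 1) → Finset ℕ → K) (hs : ∀ a, Supp (2 * p + 1) p (ω a))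
    (he : ∀ (b : Fin (p + 1)) T, ∑ a : Fin (p + 1), cre (a.val + b.val) (ω a) T = 0) :
    ∀ a S, ω a S = 0 := by
  have key := hankel_inj (K := K) (2 * p + 2) (p + 1) (p + 1) p (by omega) (by omega)
    (fun a S => if h : a < p + 1 then ω ⟨a, h⟩ S else 0) ?_ ?_
  · intro a S
    have := key a.val a.isLt S
    simpa [a.isLt] using this
  · intro a ha S hS
    simp only [ha, dif_pos] at hS
    have := hs _ S hS
    have e : p + 1 + (p + 1) - 1 = 2 * p + 1 := by omega
    rw [e]; exact this
  · intro b hb T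
    rw [← he ⟨b, hb⟩ T, Finset.sum_range]
    apply Finset.sum_congr rfl
    intro a _
    simp [a.isLt]

/-- injectivity of the Koszul flattening of the tuple of matrices `Q` -/
def KInj (p : ℕ) {V₁ V₂ : Type*} [Fintype V₁] (Q : ℕ → V₂ → V₁ → K) : Prop :=
  ∀ ω : V₁ → Finset ℕ → K, (∀ v, Supp (2 * p + 1) p (ω v)) →
    (∀ v₂ T, ∑ l ∈ range (2 * p + 1), ∑ v₁, Q l v₂ v₁ * cre l (ω v₁) T = 0) → ∀ v S, ω v S = 0

/-- extension by zero -/
def ext0 (N q : ℕ) (f : {S // S ∈ (range N).powersetCard q} → K) (S : Finset ℕ) : K :=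
  if h : S ∈ (range N).powersetCard q then f ⟨S, h⟩ else 0

lemma ext0_supp (N q : ℕ) (f : {S // S ∈ (range N).powersetCard q} → K) :
    Supp N q (ext0 N q f) := by
  intro S hS
  by_contra h
  exact hS (by simp [ext0, h])

lemma card_through (p j : ℕ) (hj : j < 2 * p + 1) :
    (((range (2 * p + 1)).powersetCard (p + 1)).filter (j ∈ ·)).card ≤ (2 * p).choose p := by
  have h1 : (((range (2 * p + 1)).erase j).powersetCard p).card = (2 * p).choose p := by
    rw [Finset.card_powersetCard, Finset.card_erase_of_mem (mem_range.mpr hj)]; simp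
  rw [← h1]
  apply Finset.card_le_card_of_injOn (fun T => T.erase j)
  · intro T hT
    simp only [coe_filter, mem_powersetCard, Set.mem_ofPred_eq] at hT
    simp only [mem_coe, mem_powersetCard]
    refine ⟨Finset.erase_subset_erase _ hT.1.1, ?_⟩
    have := Finset.card_erase_add_one hT.2
    omega
  · intro T hT T' hT' h
    simp only [coe_filter, Set.mem_ofPred_eq] at hT hT'
    rw [← Finset.insert_erase hT.2, ← Finset.insert_erase hT'.2]
    simp only at h
    rw [h]

/-- The Koszul flattening bound. -/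
theorem koszul_bound (p : ℕ) {V₁ V₂ ι : Type*} [Fintype V₁] [Fintype ι]
    (Q : ℕ → V₂ → V₁ → K) (w : ι → ℕ → K) (y : ι → V₂ → K) (z : ι → V₁ → K)
    (hQ : ∀ l, l < 2 * p + 1 → ∀ v₂ v₁, Q l v₂ v₁ = ∑ t, w t l * (y t v₂ * z t v₁))
    (hinj : KInj p Q) :
    Fintype.card V₁ * (2 * p + 1) ≤ Fintype.card ι * (p + 1) := by
  classical
  set N := 2 * p + 1 with hN
  -- pivot for each t
  have hpiv : ∀ t, ∃ j, j < N ∧ (w t j ≠ 0 ∨ ∀ l, l < N → w t l = 0) := by
    intro t
    by_cases h : ∀ l, l < N → w t l = 0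
    · exact ⟨0, by omega, Or.inr h⟩
    · push Not at h
      obtain ⟨l, hl, hne⟩ := h
      exact ⟨l, hl, Or.inl hne⟩
  choose j hjN hj using hpiv
  let P := {S // S ∈ (range N).powersetCard p}
  let R : ι → Type := fun t => {T // T ∈ ((range N).powersetCard (p + 1)).filter (j t ∈ ·)}
  let iR : ∀ t, Fintype (R t) := fun t => Finset.Subtype.fintype _
  let Ψ : (V₁ × P → K) →ₗ[K] ((Σ t, R t) → K) :=
    { toFun := fun f x => wedge N (w x.1)
        (fun S => ∑ v, z x.1 v * ext0 N p (fun S' => f (v, S')) S) x.2.1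
      map_add' := by
        intro f g
        funext x
        simp only [Pi.add_apply, wedge, cre_sum]
        rw [← Finset.sum_add_distrib]
        apply Finset.sum_congr rfl; intro l _
        rw [← mul_add, ← Finset.sum_add_distrib]
        congr 1
        apply Finset.sum_congr rfl; intro v _
        rw [← mul_add]; congr 1
        unfold cre ext0
        split_ifs <;> simp [mul_add]
      map_smul' := by
        intro c f
        funext x
        simp only [Pi.smul_apply, wedge, cre_sum, smul_eq_mul, RingHom.id_apply]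
        rw [Finset.mul_sum]
        apply Finset.sum_congr rfl; intro l _
        rw [Finset.mul_sum, Finset.mul_sum, Finset.mul_sum]
        apply Finset.sum_congr rfl; intro v _
        unfold cre ext0
        split_ifs
        · simp; ring
        · simp
        · simp }
  have hΨ : Function.Injective Ψ := by
    rw [injective_iff_map_eq_zero]
    intro f hf
    have hsupp : ∀ t, Supp N p (fun S => ∑ v, z t v * ext0 N p (fun S' => f (v, S')) S) := by
      intro t S hS
      by_contra h
      apply hS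
      apply Finset.sum_eq_zero
      intro v _
      simp [ext0, h]
    have hw : ∀ t T, wedge N (w t) (fun S => ∑ v, z t v * ext0 N p (fun S' => f (v, S')) S) T = 0 := by
      intro t
      rcases hj t with h | h
      · apply wedge_eq_zero_of N _ _ (j t) (hjN t) h
        intro T hT
        by_contra hne
        have h1 := wedge_supp (w t) (hsupp t) T hne
        have h2 := congrFun hf ⟨t, ⟨T, by simp only [mem_filter]; exact ⟨h1, hT⟩⟩⟩
        exact hne h2
      · intro T
        unfold wedge
        apply Finset.sum_eq_zero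
        intro l hl
        rw [h l (mem_range.mp hl), zero_mul]
    have key := hinj (fun v => ext0 N p (fun S' => f (v, S'))) (fun v => ext0_supp _ _ _) ?_
    · funext x
      have := key x.1 x.2.1
      simpa [ext0, x.2.2] using this
    · intro v₂ T
      have : ∑ l ∈ range (2 * p + 1), ∑ v₁, Q l v₂ v₁ * cre l (ext0 N p (fun S' => f (v₁, S'))) T
          = ∑ t, y t v₂ * wedge N (w t)
            (fun S => ∑ v, z t v * ext0 N p (fun S' => f (v, S')) S) T := by
        simp only [wedge, cre_sum, Finset.mul_sum]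
        rw [Finset.sum_comm (s := univ) (t := range N)]
        apply Finset.sum_congr rfl; intro l hl
        rw [Finset.sum_comm]
        apply Finset.sum_congr rfl; intro v _
        rw [hQ l (mem_range.mp hl), Finset.sum_mul]
        apply Finset.sum_congr rfl; intro t _
        ring
      rw [this]
      apply Finset.sum_eq_zero
      intro t _
      rw [hw, mul_zero]
  have hle := LinearMap.finrank_le_finrank_of_injective hΨ
  rw [Module.finrank_fintype_fun_eq_card, Module.finrank_fintype_fun_eq_card, Fintype.card_prod,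
    Fintype.card_sigma] at hle
  have hP : Fintype.card P = N.choose p := by
    simp only [P, Fintype.card_coe, Finset.card_powersetCard, card_range]
  have hR : ∑ t, Fintype.card (R t) ≤ Fintype.card ι * (2 * p).choose p := by
    rw [← Finset.card_univ, ← smul_eq_mul]
    apply Finset.sum_le_card_nsmul
    intro t _
    have := card_through p (j t) (hjN t)
    rw [← Fintype.card_coe] at this
    exact this
  rw [hP] at hle
  have hch : (2 * p + 1) * (2 * p).choose p = (2 * p + 1).choose p * (p + 1) := by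
    have h1 := Nat.add_one_mul_choose_eq (2 * p) p
    have h2 : (2 * p + 1).choose (p + 1) = (2 * p + 1).choose p := by
      exact Nat.choose_symm_half p
    rw [h1, h2]
  have hpos : 0 < (2 * p).choose p := Nat.choose_pos (by omega)
  apply Nat.le_of_mul_le_mul_right _ hpos
  calc Fintype.card V₁ * (2 * p + 1) * (2 * p).choose p
      = Fintype.card V₁ * (2 * p + 1).choose p * (p + 1) := by rw [mul_assoc, hch, mul_assoc]
    _ ≤ (Fintype.card ι * (2 * p).choose p) * (p + 1) :=
        Nat.mul_le_mul_right _ (le_trans hle hR)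
    _ = Fintype.card ι * (p + 1) * (2 * p).choose p := by ring

end Pool.Agent.P.MP_e72dc0_lc
end

-- part Pool.Agent.P.MP_e72dc0_lc.Sparse
section

/-! Layered injectivity criterion and the sparsification lemma. -/

namespace Pool.Agent.P.MP_e72dc0_lc

open Finset

variable {K : Type*} [Field K]

/-- A block triangular criterion for the injectivity of a Koszul flattening. -/
theorem kinj_of_layers (p : ℕ) {V₁ V₂ : Type*} [Fintype V₁] (Q : ℕ → V₂ → V₁ → K)
    (pos : V₁ → ℕ)
    (h : ∀ y₀ : V₁, ∃ (ψ : Fin (p + 1) → V₁) (ρ : Fin (p + 1) → V₂), Function.Injective ψ ∧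
      (∃ a, ψ a = y₀) ∧
      (∀ l b a, Q l (ρ b) (ψ a) = if a.val + b.val = l then 1 else 0) ∧
      (∀ l b y, (∀ a, ψ a ≠ y) → Q l (ρ b) y = 0 ∨ pos y < pos y₀)) :
    KInj p Q := by
  classical
  intro ω hs he
  have main : ∀ n y, pos y = n → ∀ S, ω y S = 0 := by
    intro n
    induction n using Nat.strong_induction_on with
    | _ n ih =>
      intro y₀ hy₀
      obtain ⟨ψ, ρ, hψ, ⟨a₀, ha₀⟩, h1, h2⟩ := h y₀
      have key := hankel p (fun a => ω (ψ a)) (fun a => hs _) ?_
      · intro S; rw [← ha₀]; exact key a₀ S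
      · intro b T
        rw [← he (ρ b) T, Finset.sum_comm]
        apply Fintype.sum_of_injective ψ hψ
        · intro y hy
          apply Finset.sum_eq_zero
          intro l _
          rcases h2 l b y (fun a ha => hy ⟨a, ha⟩) with h3 | h3
          · rw [h3, zero_mul]
          · rw [cre_eq_zero_of _ _ (ih (pos y) (hy₀ ▸ h3) y rfl), mul_zero]
        · intro a
          simp only [h1]
          rw [Finset.sum_eq_single (a.val + b.val)]
          · simp
          · intro l _ hl; simp [hl.symm]
          · intro hl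
            exact absurd (mem_range.mpr (by have := a.isLt; have := b.isLt; omega)) hl
  intro v S
  exact main _ v rfl S

/-- If a sum of square matrices is nonsingular, so is a subsum with at most as many terms as the
order of the matrices. -/
theorem sparse_det {ι D : Type*} [Fintype ι] [Fintype D] [DecidableEq D]
    (M : ι → Matrix D D K) (h : (∑ j, M j).det ≠ 0) :
    ∃ J : Finset ι, J.card ≤ Fintype.card D ∧ (∑ j ∈ J, M j).det ≠ 0 := by
  classical
  by_contra hcon
  push Not at hcon
  let f : (D → ι) → K := fun τ => Matrix.det (Matrix.of fun r => M (τ r) r)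
  have hF : ∀ J : Finset ι, (∑ j ∈ J, M j).det
      = ∑ τ ∈ univ.filter (fun τ : D → ι => univ.image τ ⊆ J), f τ := by
    intro J
    have h1 : (∑ j ∈ J, M j).det
        = (Matrix.detRowAlternating : (D → K) [⋀^D]→ₗ[K] K).toMultilinearMap
          (fun r => ∑ j ∈ J, M j r) := by
      have : (∑ j ∈ J, M j) = Matrix.of (fun r => ∑ j ∈ J, M j r) := by
        ext r c; simp [Matrix.sum_apply, Finset.sum_apply]
      rw [this]; rfl
    rw [h1, MultilinearMap.map_sum_finset]
    apply Finset.sum_congr
    · ext τ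
      simp [Fintype.mem_piFinset, Finset.image_subset_iff]
    · intro τ _; rfl
  let g : Finset ι → K := fun U => ∑ τ ∈ univ.filter (fun τ : D → ι => univ.image τ = U), f τ
  have hg : ∀ J : Finset ι, (∑ j ∈ J, M j).det = ∑ U ∈ J.powerset, g U := by
    intro J
    rw [hF, ← Finset.sum_fiberwise_of_maps_to (t := J.powerset) (g := fun τ => univ.image τ)]
    · apply Finset.sum_congr rfl
      intro U hU
      apply Finset.sum_congr _ (fun _ _ => rfl)
      ext τ
      simp only [mem_filter, mem_univ, true_and]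
      constructor
      · exact fun h => h.2
      · intro h; exact ⟨h ▸ mem_powerset.mp hU, h⟩
    · intro τ hτ
      simpa using hτ
  have hz : ∀ U : Finset ι, g U = 0 := by
    intro U
    induction U using Finset.strongInduction with
    | H U ih =>
      by_cases hU : U.card ≤ Fintype.card D
      · have h1 := hcon U hU
        rw [hg, Finset.sum_eq_single U] at h1
        · exact h1
        · intro U' hU' hne
          exact ih U' (Finset.ssubset_iff_subset_ne.mpr ⟨mem_powerset.mp hU', hne⟩)
        · intro h; exact absurd (mem_powerset_self U) h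
      · apply Finset.sum_eq_zero
        intro τ hτ
        exfalso
        apply hU
        rw [← (mem_filter.mp hτ).2]
        exact le_trans Finset.card_image_le (by simp)
  apply h
  rw [hg]
  exact Finset.sum_eq_zero (fun U _ => hz U)

lemma cre_ext0_add (N q l : ℕ) (f g : {S // S ∈ (range N).powersetCard q} → K) (T : Finset ℕ) :
    cre l (ext0 N q (f + g)) T = cre l (ext0 N q f) T + cre l (ext0 N q g) T := by
  unfold cre ext0
  split_ifs <;> simp [mul_add]

lemma cre_ext0_smul (N q l : ℕ) (c : K) (f : {S // S ∈ (range N).powersetCard q} → K)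
    (T : Finset ℕ) : cre l (ext0 N q (c • f)) T = c * cre l (ext0 N q f) T := by
  unfold cre ext0
  split_ifs
  · simp; ring
  · simp
  · simp

/-- the Koszul flattening as a linear map -/
def kmap (p : ℕ) {V₁ V₂ : Type*} [Fintype V₁] (Q : ℕ → V₂ → V₁ → K) :
    (V₁ × {S // S ∈ (range (2 * p + 1)).powersetCard p} → K) →ₗ[K] (V₂ × Finset ℕ → K) where
  toFun f x := ∑ l ∈ range (2 * p + 1), ∑ v₁,
    Q l x.1 v₁ * cre l (ext0 (2 * p + 1) p (fun S => f (v₁, S))) x.2
  map_add' f g := by
    funext x
    simp only [Pi.add_apply]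
    rw [← Finset.sum_add_distrib]
    apply Finset.sum_congr rfl; intro l _
    rw [← Finset.sum_add_distrib]
    apply Finset.sum_congr rfl; intro v _
    rw [← mul_add, ← cre_ext0_add]; rfl
  map_smul' c f := by
    funext x
    simp only [Pi.smul_apply, smul_eq_mul, RingHom.id_apply]
    rw [Finset.mul_sum]
    apply Finset.sum_congr rfl; intro l _
    rw [Finset.mul_sum]
    apply Finset.sum_congr rfl; intro v _
    have := cre_ext0_smul (2 * p + 1) p l c (fun S => f (v, S)) x.2
    rw [mul_left_comm, ← this]; rfl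

lemma kinj_iff (p : ℕ) {V₁ V₂ : Type*} [Fintype V₁] (Q : ℕ → V₂ → V₁ → K) :
    KInj p Q ↔ Function.Injective (kmap p Q) := by
  rw [injective_iff_map_eq_zero]
  constructor
  · intro h f hf
    have key := h (fun v => ext0 (2 * p + 1) p (fun S' => f (v, S'))) (fun v => ext0_supp _ _ _)
      (fun v₂ T => congrFun hf (v₂, T))
    funext x
    have h1 := key x.1 x.2.1
    unfold ext0 at h1
    rw [dif_pos x.2.2] at h1
    exact h1
  · intro h ω hs he
    have hω : ∀ v, ext0 (2 * p + 1) p (fun S => ω v S.1) = ω v := by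
      intro v; funext S
      unfold ext0
      split_ifs with hS
      · rfl
      · by_contra hne
        exact hS (hs v S (fun h => hne h.symm))
    have key := h (fun x => ω x.1 x.2.1) (by
      funext x
      have := he x.1 x.2
      simp only [kmap, LinearMap.coe_mk, AddHom.coe_mk, hω, Pi.zero_apply]
      exact this)
    intro v S
    rw [← hω v]
    unfold ext0
    split_ifs with hS
    · exact congrFun key (v, ⟨S, hS⟩)
    · rfl

lemma kmap_sum (p : ℕ) {V₁ V₂ ι : Type*} [Fintype V₁] (J : Finset ι)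
    (Q : ι → ℕ → V₂ → V₁ → K) :
    kmap p (fun l v₂ v₁ => ∑ j ∈ J, Q j l v₂ v₁) = ∑ j ∈ J, kmap p (Q j) := by
  apply LinearMap.ext
  intro f
  funext x
  simp only [kmap, LinearMap.coe_mk, AddHom.coe_mk, LinearMap.sum_apply, Finset.sum_apply,
    Finset.sum_mul]
  rw [Finset.sum_comm (s := J)]
  apply Finset.sum_congr rfl; intro l _
  rw [Finset.sum_comm]

theorem sparse_kinj (p : ℕ) {V₁ V₂ ι : Type*} [Fintype V₁] [Fintype ι]
    (Q : ι → ℕ → V₂ → V₁ → K) (h : KInj p (fun l v₂ v₁ => ∑ j, Q j l v₂ v₁)) :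
    ∃ J : Finset ι, J.card ≤ Fintype.card V₁ * (2 * p + 1).choose p ∧
      KInj p (fun l v₂ v₁ => ∑ j ∈ J, Q j l v₂ v₁) := by
  classical
  rw [kinj_iff, kmap_sum] at h
  obtain ⟨L, hL⟩ := LinearMap.exists_leftInverse_of_injective _ (LinearMap.ker_eq_bot.mpr h)
  have hsum : ∀ J : Finset ι, ∑ j ∈ J, LinearMap.toMatrix' (L ∘ₗ kmap p (Q j))
      = LinearMap.toMatrix' (L ∘ₗ ∑ j ∈ J, kmap p (Q j)) := by
    intro J
    rw [← map_sum]
    congr 1
    apply LinearMap.ext
    intro f
    simp [LinearMap.sum_apply, map_sum]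
  obtain ⟨J, hJ, hdet⟩ := sparse_det (fun j => LinearMap.toMatrix' (L ∘ₗ kmap p (Q j))) (by
    rw [hsum, hL]; simp)
  refine ⟨J, ?_, ?_⟩
  · rw [Fintype.card_prod, Fintype.card_coe, Finset.card_powersetCard, card_range] at hJ
    exact hJ
  · rw [kinj_iff, kmap_sum]
    rw [hsum, LinearMap.det_toMatrix'] at hdet
    have h2 : Function.Injective (L ∘ₗ ∑ j ∈ J, kmap p (Q j)) := by
      rw [← LinearMap.ker_eq_bot]
      by_contra hne
      exact hdet (LinearMap.det_eq_zero_iff_ker_ne_bot.mpr hne)
    exact Function.Injective.of_comp (f := L) h2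

end Pool.Agent.P.MP_e72dc0_lc
end

-- part Pool.Agent.P.MP_e72dc0_lc.Hess
section

/-! Hessians and logarithmic Hessians of the nodes of a circuit. -/

namespace Pool.Agent.P.MP_e72dc0_lc

open Finset MvPolynomial

variable {F : Type*} [Field F] {σ : Type*}

/-- the field of rational functions -/
abbrev KK (σ F : Type*) [Field F] := FractionRing (MvPolynomial σ F)

noncomputable def emb (g : MvPolynomial σ F) : KK σ F := algebraMap (MvPolynomial σ F) (KK σ F) g

noncomputable def grad (g : MvPolynomial σ F) (x : σ) : KK σ F := emb (pderiv x g)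

noncomputable def hess (g : MvPolynomial σ F) (x y : σ) : KK σ F := emb (pderiv x (pderiv y g))

noncomputable def lhess (g : MvPolynomial σ F) (x y : σ) : KK σ F :=
  emb g * hess g x y - grad g x * grad g y

lemma emb_add (g h : MvPolynomial σ F) : emb (g + h) = emb g + emb h := map_add _ _ _
lemma emb_mul (g h : MvPolynomial σ F) : emb (g * h) = emb g * emb h := map_mul _ _ _
lemma emb_zero : emb (0 : MvPolynomial σ F) = 0 := map_zero _
lemma emb_one : emb (1 : MvPolynomial σ F) = 1 := map_one _
lemma emb_eq_zero {g : MvPolynomial σ F} : emb g = 0 ↔ g = 0 :=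
  map_eq_zero_iff _ (IsFractionRing.injective _ _)

lemma grad_add (g h : MvPolynomial σ F) (x : σ) : grad (g + h) x = grad g x + grad h x := by
  simp [grad, emb_add]

lemma grad_mul (g h : MvPolynomial σ F) (x : σ) :
    grad (g * h) x = emb g * grad h x + emb h * grad g x := by
  simp [grad, emb_add, emb_mul, Derivation.leibniz]

lemma hess_add (g h : MvPolynomial σ F) (x y : σ) :
    hess (g + h) x y = hess g x y + hess h x y := by
  simp [hess, emb_add]

lemma hess_mul (g h : MvPolynomial σ F) (x y : σ) :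
    hess (g * h) x y = emb g * hess h x y + emb h * hess g x y
      + (grad g x * grad h y + grad h x * grad g y) := by
  simp only [hess, grad, Derivation.leibniz, smul_eq_mul, map_add, emb_add, emb_mul]
  ring

lemma grad_C (c : F) (x : σ) : grad (C c : MvPolynomial σ F) x = 0 := by
  simp [grad, emb_zero]

lemma hess_C (c : F) (x y : σ) : hess (C c : MvPolynomial σ F) x y = 0 := by
  simp [hess, emb_zero]

lemma grad_X [DecidableEq σ] (z x : σ) :
    grad (X z : MvPolynomial σ F) x = if z = x then 1 else 0 := by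
  unfold grad
  rw [pderiv_X]
  by_cases h : z = x
  · simp [h, emb_one]
  · simp [h, emb_zero]

lemma hess_X (z x y : σ) : hess (X z : MvPolynomial σ F) x y = 0 := by
  classical
  unfold hess
  rw [pderiv_X]
  by_cases h : z = y
  · simp [h, emb_zero]
  · simp [h, emb_zero]

lemma lhess_mul (g h : MvPolynomial σ F) (x y : σ) :
    lhess (g * h) x y = emb h ^ 2 * lhess g x y + emb g ^ 2 * lhess h x y := by
  simp only [lhess, hess_mul, grad_mul, emb_mul]
  ring

lemma lhess_add (u v : MvPolynomial σ F) (x y : σ) :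
    emb u * emb v * lhess (u + v) x y = emb (u + v) * emb v * lhess u x y
      + emb (u + v) * emb u * lhess v x y
      + (emb u * grad v x - emb v * grad u x) * (emb u * grad v y - emb v * grad u y) := by
  simp only [lhess, hess_add, grad_add, emb_add]
  ring

/-- induction over the nodes of a circuit -/
lemma node_ind {s : ℕ} (g : Fin s → MvPolynomial σ F) (P : MvPolynomial σ F → Prop)
    (hX : ∀ x, P (X x)) (hC : ∀ c, P (C c)) (u v : Fin s → MvPolynomial σ F)
    (hu : ∀ t, u t ∈ Set.range X ∪ Set.range C ∪ g '' Set.Iio t)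
    (hv : ∀ t, v t ∈ Set.range X ∪ Set.range C ∪ g '' Set.Iio t)
    (hstep : ∀ t, P (u t) → P (v t) → P (g t)) :
    ∀ f ∈ Set.range X ∪ Set.range C ∪ Set.range g, P f := by
  have main : ∀ t, P (g t) := by
    intro t
    induction t using WellFoundedLT.induction with
    | _ t ih =>
      have aux : ∀ f ∈ Set.range X ∪ Set.range C ∪ g '' Set.Iio t, P f := by
        rintro f ((⟨x, rfl⟩ | ⟨c, rfl⟩) | ⟨t', ht', rfl⟩)
        · exact hX x
        · exact hC c
        · exact ih t' ht'
      exact hstep t (aux _ (hu t)) (aux _ (hv t))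
  rintro f ((⟨x, rfl⟩ | ⟨c, rfl⟩) | ⟨t, rfl⟩)
  · exact hX x
  · exact hC c
  · exact main t

/-- Every nonscalar product contributes one symmetric matrix of rank at most two. -/
theorem hess_span {s : ℕ} (g : Fin s → MvPolynomial σ F) (M : Finset (Fin s))
    (hg : ∀ t, ∃ u ∈ Set.range X ∪ Set.range C ∪ g '' Set.Iio t,
      ∃ v ∈ Set.range X ∪ Set.range C ∪ g '' Set.Iio t,
        g t = u + v ∨ (∃ c : F, g t = C c * u) ∨ (t ∈ M ∧ g t = u * v)) :
    ∃ y z : M → σ → KK σ F, ∀ f ∈ Set.range X ∪ Set.range C ∪ Set.range g,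
      ∃ w : M → KK σ F, ∀ a b, hess f a b = ∑ t, w t * (y t a * z t b + z t a * y t b) := by
  classical
  choose u hu v hv huv using hg
  refine ⟨fun t => grad (u t), fun t => grad (v t), ?_⟩
  refine node_ind g (fun f => ∃ w : M → KK σ F, ∀ a b, hess f a b
    = ∑ t, w t * (grad (u t) a * grad (v t) b + grad (v t) a * grad (u t) b))
    ?hX ?hC u v hu hv ?step
  rotate_left 2
  · rintro t ⟨w₁, h₁⟩ ⟨w₂, h₂⟩
    rcases huv t with h | ⟨c, h⟩ | ⟨ht, h⟩
    · refine ⟨w₁ + w₂, fun a b => ?_⟩
      rw [h, hess_add, h₁, h₂, ← Finset.sum_add_distrib]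
      apply Finset.sum_congr rfl; intro i _; simp only [Pi.add_apply]; ring
    · refine ⟨fun i => emb (C c : MvPolynomial σ F) * w₁ i, fun a b => ?_⟩
      rw [h, hess_mul, h₁, hess_C, grad_C, grad_C, Finset.mul_sum]
      simp only [mul_zero, zero_mul, add_zero]
      apply Finset.sum_congr rfl; intro i _; ring
    · refine ⟨fun i => emb (u t) * w₂ i + emb (v t) * w₁ i + if i = ⟨t, ht⟩ then 1 else 0,
        fun a b => ?_⟩
      rw [h, hess_mul, h₁, h₂]
      simp only [add_mul, Finset.sum_add_distrib, ite_mul, one_mul, zero_mul, Finset.sum_ite_eq',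
        mem_univ, if_true, Finset.mul_sum, mul_assoc]
  · intro x; exact ⟨0, fun a b => by simp [hess_X]⟩
  · intro c; exact ⟨0, fun a b => by simp [hess_C]⟩

/-- Every addition contributes one square to the logarithmic Hessian, up to diagonal terms. -/
theorem lhess_span [DecidableEq σ] {s : ℕ} (g : Fin s → MvPolynomial σ F) (A : Finset (Fin s))
    (hg : ∀ t, ∃ u ∈ Set.range X ∪ Set.range C ∪ g '' Set.Iio t,
      ∃ v ∈ Set.range X ∪ Set.range C ∪ g '' Set.Iio t,
        g t = u * v ∨ (t ∈ A ∧ g t = u + v)) :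
    ∃ y : A → σ → KK σ F, ∀ f ∈ Set.range X ∪ Set.range C ∪ Set.range g,
      ∃ (w : A → KK σ F) (d : σ → KK σ F), ∀ a b,
        lhess f a b = ∑ t, w t * (y t a * y t b) + if a = b then d a else 0 := by
  choose u hu v hv huv using hg
  refine ⟨fun t a => emb (u t) * grad (v t) a - emb (v t) * grad (u t) a, ?_⟩
  refine node_ind g (fun f => ∃ (w : A → KK σ F) (d : σ → KK σ F), ∀ a b, lhess f a b
    = ∑ t, w t * ((emb (u t) * grad (v t) a - emb (v t) * grad (u t) a)
      * (emb (u t) * grad (v t) b - emb (v t) * grad (u t) b)) + if a = b then d a else 0)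
    ?hX ?hC u v hu hv ?step
  rotate_left 2
  · rintro t ⟨w₁, d₁, h₁⟩ ⟨w₂, d₂, h₂⟩
    rcases huv t with h | ⟨ht, h⟩
    · refine ⟨fun i => emb (v t) ^ 2 * w₁ i + emb (u t) ^ 2 * w₂ i,
        fun a => emb (v t) ^ 2 * d₁ a + emb (u t) ^ 2 * d₂ a, fun a b => ?_⟩
      rw [h, lhess_mul, h₁, h₂]
      simp only [add_mul, Finset.sum_add_distrib, mul_add, Finset.mul_sum, mul_assoc]
      split_ifs <;> ring
    · by_cases hu0 : u t = 0
      · refine ⟨w₂, d₂, fun a b => ?_⟩
        rw [h, hu0, zero_add, h₂]
      by_cases hv0 : v t = 0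
      · refine ⟨w₁, d₁, fun a b => ?_⟩
        rw [h, hv0, add_zero, h₁]
      have hu1 : emb (u t) ≠ 0 := fun h => hu0 (emb_eq_zero.mp h)
      have hv1 : emb (v t) ≠ 0 := fun h => hv0 (emb_eq_zero.mp h)
      set α := emb (u t + v t) / emb (u t) with hα
      set β := emb (u t + v t) / emb (v t) with hβ
      set γ := 1 / (emb (u t) * emb (v t)) with hγ
      refine ⟨fun i => α * w₁ i + β * w₂ i + if i = ⟨t, ht⟩ then γ else 0,
        fun a => α * d₁ a + β * d₂ a, fun a b => ?_⟩
      have key : lhess (u t + v t) a b = α * lhess (u t) a b + β * lhess (v t) a b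
          + γ * ((emb (u t) * grad (v t) a - emb (v t) * grad (u t) a)
            * (emb (u t) * grad (v t) b - emb (v t) * grad (u t) b)) := by
        have := lhess_add (u t) (v t) a b
        rw [hα, hβ, hγ]
        field_simp
        linear_combination this
      rw [h, key, h₁, h₂]
      simp only [add_mul, Finset.sum_add_distrib, ite_mul, zero_mul, Finset.sum_ite_eq',
        mem_univ, if_true, Finset.mul_sum, mul_assoc, mul_add]
      split_ifs <;> ring
  · intro x
    refine ⟨0, fun a => if x = a then -1 else 0, fun a b => ?_⟩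
    simp only [lhess, hess_X, grad_X, Pi.zero_apply, zero_mul, Finset.sum_const_zero]
    by_cases h1 : a = b
    · subst h1; by_cases h2 : x = a <;> simp [h2]
    · by_cases h2 : x = a
      · subst h2; simp [h1]
      · simp [h1, h2]
  · intro c
    exact ⟨0, 0, fun a b => by simp [lhess, hess_C, grad_C]⟩

/-- the entries of the product of two generic matrices -/
noncomputable def cc (F : Type*) [Field F] {m : ℕ} (i j : Fin m) :
    MvPolynomial ((Fin m × Fin m) ⊕ (Fin m × Fin m)) F :=
  ∑ k, X (Sum.inl (i, k)) * X (Sum.inr (k, j))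

/-- Hessian of the form `trace (Z^T A B)` -/
def mmH {K : Type*} [Field K] {I J κ : Type*} [DecidableEq κ] (Z : I → J → K) :
    (I × κ) ⊕ (κ × J) → (I × κ) ⊕ (κ × J) → K
  | Sum.inl (i, k), Sum.inr (k', j) => if k = k' then Z i j else 0
  | Sum.inr (k', j), Sum.inl (i, k) => if k = k' then Z i j else 0
  | Sum.inl _, Sum.inl _ => 0
  | Sum.inr _, Sum.inr _ => 0

lemma hess_sum {ι : Type*} (s : Finset ι) (f : ι → MvPolynomial σ F) (x y : σ) :
    hess (∑ i ∈ s, f i) x y = ∑ i ∈ s, hess (f i) x y := by
  simp [hess, emb, map_sum]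

lemma hess_cc {m : ℕ} (i j : Fin m) (x y : (Fin m × Fin m) ⊕ (Fin m × Fin m)) :
    hess (cc F i j) x y = mmH (fun i' j' => if i' = i ∧ j' = j then 1 else 0) x y := by
  unfold cc
  rw [hess_sum]
  simp only [hess_mul, hess_X, grad_X, mul_zero, zero_add]
  rcases x with ⟨i₁, k₁⟩ | ⟨k₁, j₁⟩ <;> rcases y with ⟨i₂, k₂⟩ | ⟨k₂, j₂⟩
  · simp [mmH]
  · simp only [mmH, Sum.inl.injEq, Prod.mk.injEq, Sum.inr.injEq, reduceCtorEq, if_false, mul_zero,
      add_zero]
    rw [Finset.sum_eq_single k₁]
    · by_cases h1 : i = i₁ <;> by_cases h2 : k₁ = k₂ <;> by_cases h3 : j = j₂ <;>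
        simp [h1, h2, h3, eq_comm]
    · intro b _ hb; simp [hb]
    · simp
  · simp only [mmH, Sum.inl.injEq, Prod.mk.injEq, Sum.inr.injEq, reduceCtorEq, if_false, mul_zero,
      zero_add]
    rw [Finset.sum_eq_single k₂]
    · by_cases h1 : i = i₂ <;> by_cases h2 : k₂ = k₁ <;> by_cases h3 : j = j₁ <;>
        simp [h1, h2, h3, eq_comm]
    · intro b _ hb; simp [hb]
    · simp
  · simp [mmH]

lemma cc_ne_zero {m : ℕ} (i j : Fin m) : cc F i j ≠ 0 := by
  intro h
  have h1 := hess_cc (F := F) i j (Sum.inl (i, i)) (Sum.inr (i, j))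
  rw [h] at h1
  simp [hess, emb_zero, mmH] at h1

end Pool.Agent.P.MP_e72dc0_lc
end

-- part Pool.Agent.P.MP_e72dc0_lc.Add
section

/-! The lower bound for the number of additions. -/

namespace Pool.Agent.P.MP_e72dc0_lc

open Finset MvPolynomial

variable {F : Type*} [Field F]

lemma mmH_sum {K : Type*} [Field K] {I J κ ι : Type*} [DecidableEq κ] (S : Finset ι) (c : ι → K)
    (Z : ι → I → J → K) (x y : (I × κ) ⊕ (κ × J)) :
    ∑ z ∈ S, c z * mmH (Z z) x y = mmH (fun i j => ∑ z ∈ S, c z * Z z i j) x y := by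
  rcases x with ⟨i₁, k₁⟩ | ⟨k₁, j₁⟩ <;> rcases y with ⟨i₂, k₂⟩ | ⟨k₂, j₂⟩
  · simp [mmH]
  · simp only [mmH]; split_ifs <;> simp
  · simp only [mmH]; split_ifs <;> simp
  · simp [mmH]

/-- the block embedding -/
def blk {r q m : ℕ} (h : r * q ≤ m) (b : Fin r × Fin q) : Fin m :=
  Fin.castLE h (finProdFinEquiv b)

lemma blk_inj {r q m : ℕ} (h : r * q ≤ m) : Function.Injective (blk h) :=
  (Fin.castLE_injective h).comp finProdFinEquiv.injective

theorem add_core {K : Type*} [Field K] {m p r : ℕ} (e : Fin (r + 1) × Fin (p + 1) → Fin m)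
    (he : Function.Injective e) {A : Type*} [Fintype A]
    (y : A → (Fin m × Fin m) ⊕ (Fin m × Fin m) → K)
    (G : Fin m → Fin m → (Fin m × Fin m) ⊕ (Fin m × Fin m) → K)
    (h : ∀ i j, ∃ (w : A → K) (γ : K) (d : (Fin m × Fin m) ⊕ (Fin m × Fin m) → K), ∀ a b,
      mmH (fun i' j' => if i' = i ∧ j' = j then 1 else 0) a b
        = ∑ t, w t * (y t a * y t b) + γ * (G i j a * G i j b) + if a = b then d a else 0) :
    (2 * r + 1) * m * (2 * p + 1) ≤ Fintype.card A + 2 * (r + 1) * (p + 1) ^ 2 := by
  classical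
  choose w γ d hw using h
  let B := Fin (r + 1) × Fin (p + 1)
  let S : Finset (B × B) :=
    univ.filter (fun z => z.1.1.val = z.2.1.val ∨ z.1.1.val = z.2.1.val + 1)
  let pat : ℕ → B × B → K := fun l z => if z.1.2.val + z.2.2.val = l then 1 else 0
  let V₁ := ((Fin r × Fin (p + 1)) × Fin m) ⊕ (Fin m × B)
  let ε : V₁ → (Fin m × Fin m) ⊕ (Fin m × Fin m) := fun v => match v with
    | Sum.inl ((s, a), k) => Sum.inl (e (s.succ, a), k)
    | Sum.inr (k, b) => Sum.inr (k, e b)
  let Z : ℕ → Fin m → Fin m → K := fun l i j =>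
    ∑ z ∈ S, pat l z * (if i = e z.1 ∧ j = e z.2 then 1 else 0)
  have hZ : ∀ l b b', Z l (e b) (e b') = if (b, b') ∈ S then pat l (b, b') else 0 := by
    intro l b b'
    simp only [Z, he.eq_iff]
    split_ifs with hS
    · rw [Finset.sum_eq_single (b, b')]
      · simp
      · intro z _ hz
        have : ¬ (b = z.1 ∧ b' = z.2) := fun h => hz (Prod.ext h.1.symm h.2.symm)
        simp [this]
      · intro h; exact absurd hS h
    · apply Finset.sum_eq_zero
      intro z hz
      have : ¬ (b = z.1 ∧ b' = z.2) := fun h => hS (by rw [h.1, h.2]; exact hz)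
      simp [this]
  let D : ℕ → (Fin m × Fin m) ⊕ (Fin m × Fin m) → K := fun l x =>
    ∑ z ∈ S, pat l z * d (e z.1) (e z.2) x
  let Q : ℕ → (Fin m × Fin m) ⊕ (Fin m × Fin m) → V₁ → K := fun l x v =>
    mmH (Z l) x (ε v) - if x = ε v then D l x else 0
  have hinj : KInj p Q := by
    apply kinj_of_layers p Q (fun v => match v with
      | Sum.inl ((s, _), _) => 2 * s.val + 2
      | Sum.inr (_, (s, _)) => 2 * s.val + 1)
    rintro (⟨⟨s, a₀⟩, k⟩ | ⟨k, ⟨s, b₀⟩⟩)
    · refine ⟨fun a => Sum.inl ((s, a), k), fun b => Sum.inr (k, e (s.castSucc, b)), ?_,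
        ⟨a₀, rfl⟩, ?_, ?_⟩
      · intro a a' h
        exact congrArg (fun x => x.1.2) (Sum.inl.inj h)
      · intro l b a
        simp only [Q, ε, mmH, hZ, if_true, reduceCtorEq, if_false, sub_zero]
        have : ((s.succ, a), (s.castSucc, b)) ∈ S := by simp [S]
        rw [if_pos this]
      · rintro l b (⟨⟨s', a'⟩, k'⟩ | ⟨k', ⟨s', b'⟩⟩) hy
        · simp only [Q, ε, mmH, hZ, reduceCtorEq, if_false, sub_zero]
          by_cases hk : k' = k
          · by_cases hS : ((s'.succ, a'), (s.castSucc, b)) ∈ S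
            · right
              simp only [S, mem_filter, mem_univ, true_and, Fin.val_succ, Fin.val_castSucc] at hS
              rcases hS with hS | hS
              · omega
              · exfalso
                apply hy a'
                have : s' = s := Fin.ext (by omega)
                rw [this, hk]
            · left; simp [hS]
          · left; simp [hk]
        · simp only [Q, ε, mmH, zero_sub, neg_eq_zero, Sum.inr.injEq, Prod.mk.injEq, he.eq_iff]
          by_cases hs : s.castSucc = s'
          · right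
            have : s'.val = s.val := by rw [← hs]; simp
            omega
          · left; simp [hs]
    · refine ⟨fun b => Sum.inr (k, (s, b)), fun a => Sum.inl (e (s, a), k), ?_,
        ⟨b₀, rfl⟩, ?_, ?_⟩
      · intro a a' h
        exact congrArg (fun x => x.2.2) (Sum.inr.inj h)
      · intro l a b
        simp only [Q, ε, mmH, hZ, if_true, reduceCtorEq, if_false, sub_zero]
        have : ((s, a), (s, b)) ∈ S := by simp [S]
        rw [if_pos this]
        simp only [pat, add_comm]
      · rintro l a (⟨⟨s', a'⟩, k'⟩ | ⟨k', ⟨s', b'⟩⟩) hy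
        · simp only [Q, ε, mmH, zero_sub, neg_eq_zero, Sum.inl.injEq, Prod.mk.injEq, he.eq_iff]
          by_cases hs : s = s'.succ
          · right
            have : s.val = s'.val + 1 := by rw [hs]; simp
            omega
          · left; simp [hs]
        · simp only [Q, ε, mmH, hZ, reduceCtorEq, if_false, sub_zero]
          by_cases hk : k = k'
          · by_cases hS : ((s, a), (s', b')) ∈ S
            · right
              simp only [S, mem_filter, mem_univ, true_and] at hS
              rcases hS with hS | hS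
              · exfalso
                apply hy b'
                have : s' = s := Fin.ext (by omega)
                rw [this, hk]
              · omega
            · left; simp [hS]
          · left; simp [hk]
  let W : A ⊕ S → ℕ → K := fun t l => match t with
    | Sum.inl t => ∑ z ∈ S, pat l z * w (e z.1) (e z.2) t
    | Sum.inr z => pat l z.1 * γ (e z.1.1) (e z.1.2)
  let Y : A ⊕ S → (Fin m × Fin m) ⊕ (Fin m × Fin m) → K := fun t => match t with
    | Sum.inl t => y t
    | Sum.inr z => G (e z.1.1) (e z.1.2)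
  have hb := koszul_bound p Q W Y (fun t v => Y t (ε v)) ?_ hinj
  · have c1 : Fintype.card V₁ = (2 * r + 1) * (p + 1) * m := by
      simp only [V₁, B, Fintype.card_sum, Fintype.card_prod, Fintype.card_fin]; ring
    have c2 : S.card ≤ 2 * (r + 1) * (p + 1) ^ 2 := by
      have : Fintype.card (Bool × Fin (r + 1) × Fin (p + 1) × Fin (p + 1))
          = 2 * (r + 1) * (p + 1) ^ 2 := by
        simp only [Fintype.card_prod, Fintype.card_fin, Fintype.card_bool]; ring
      rw [← this, ← Finset.card_univ]
      apply Finset.card_le_card_of_injOn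
        (fun z => (decide (z.1.1.val = z.2.1.val), z.2.1, z.1.2, z.2.2))
      · intro z _; simp
      · rintro ⟨⟨s₁, a₁⟩, ⟨t₁, b₁⟩⟩ h₁ ⟨⟨s₂, a₂⟩, ⟨t₂, b₂⟩⟩ h₂ h
        simp only [S, coe_filter, mem_univ, true_and, Set.mem_ofPred_eq] at h₁ h₂
        simp only [Prod.mk.injEq, decide_eq_decide] at h
        obtain ⟨h3, h4, h5, h6⟩ := h
        subst h4 h5 h6
        have : s₁ = s₂ := Fin.ext (by omega)
        rw [this]
    rw [c1, Fintype.card_sum, Fintype.card_coe] at hb
    have hb2 : (2 * r + 1) * m * (2 * p + 1) * (p + 1) ≤ (Fintype.card A + S.card) * (p + 1) := by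
      calc (2 * r + 1) * m * (2 * p + 1) * (p + 1) = (2 * r + 1) * (p + 1) * m * (2 * p + 1) := by
            ring
        _ ≤ _ := hb
    have := Nat.le_of_mul_le_mul_right hb2 (Nat.succ_pos p)
    omega
  · intro l _ x v
    simp only [Q, Z, ← mmH_sum, hw, Fintype.sum_sum_type, W, Y, D]
    rw [Finset.sum_coe_sort S (fun z => pat l z * γ (e z.1) (e z.2)
      * (G (e z.1) (e z.2) x * G (e z.1) (e z.2) (ε v)))]
    simp only [mul_add, Finset.sum_add_distrib, Finset.mul_sum, Finset.sum_mul]
    rw [Finset.sum_comm (s := S) (t := univ)]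
    split_ifs
    · simp only [mul_assoc]; ring
    · simp only [mul_assoc, mul_zero, Finset.sum_const_zero]; ring

theorem add_nat {m s : ℕ} (g : Fin s → MvPolynomial ((Fin m × Fin m) ⊕ (Fin m × Fin m)) F)
    (A : Finset (Fin s))
    (hg : ∀ t, ∃ u ∈ Set.range X ∪ Set.range C ∪ g '' Set.Iio t,
      ∃ v ∈ Set.range X ∪ Set.range C ∪ g '' Set.Iio t,
        g t = u * v ∨ (t ∈ A ∧ g t = u + v))
    (hout : ∀ i j, cc F i j ∈ Set.range X ∪ Set.range C ∪ Set.range g)
    (p r : ℕ) (hm : (r + 1) * (p + 1) ≤ m) :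
    (2 * r + 1) * m * (2 * p + 1) ≤ A.card + 2 * (r + 1) * (p + 1) ^ 2 := by
  classical
  obtain ⟨y, hy⟩ := lhess_span g A hg
  have := add_core (blk hm) (blk_inj hm) y (fun i j => grad (cc F i j)) ?_
  · rwa [Fintype.card_coe] at this
  · intro i j
    obtain ⟨w, d, h⟩ := hy _ (hout i j)
    have hc : emb (cc F i j) ≠ 0 := fun h => cc_ne_zero i j (emb_eq_zero.mp h)
    refine ⟨fun t => w t / emb (cc F i j), 1 / emb (cc F i j), fun a => d a / emb (cc F i j),
      fun a b => ?_⟩
    rw [← hess_cc]
    have h1 := h a b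
    unfold lhess at h1
    have h2 : ∑ t, w t / emb (cc F i j) * (y t a * y t b)
        = (∑ t, w t * (y t a * y t b)) / emb (cc F i j) := by
      rw [Finset.sum_div]; apply Finset.sum_congr rfl; intro t _; ring
    rw [h2]
    generalize ∑ t, w t * (y t a * y t b) = σ at h1 ⊢
    split_ifs at h1 ⊢
    · field_simp; linear_combination h1
    · field_simp; linear_combination h1

end Pool.Agent.P.MP_e72dc0_lc
end

-- part Pool.Agent.P.MP_e72dc0_lc.Mul
section

/-! The lower bound for the number of nonscalar multiplications. -/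

namespace Pool.Agent.P.MP_e72dc0_lc

open Finset MvPolynomial

variable {F : Type*} [Field F]

lemma kinj_blockHankel {K : Type*} [Field K] (p r : ℕ) :
    KInj p (fun l => mmH (K := K) (κ := Unit)
      (fun (b b' : Fin r × Fin (p + 1)) =>
        if b.1 = b'.1 ∧ b.2.val + b'.2.val = l then 1 else 0)) := by
  apply kinj_of_layers p _ (fun _ => 0)
  rintro (⟨⟨s, a₀⟩, k⟩ | ⟨k, ⟨s, b₀⟩⟩)
  · refine ⟨fun a => Sum.inl ((s, a), k), fun b => Sum.inr (k, (s, b)), ?_, ⟨a₀, rfl⟩, ?_, ?_⟩
    · intro a a' h
      exact congrArg (fun x => x.1.2) (Sum.inl.inj h)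
    · intro l b a
      simp [mmH]
    · rintro l b (⟨⟨s', a'⟩, k'⟩ | ⟨k', ⟨s', b'⟩⟩) hy
      · left
        have : s' ≠ s := fun h => hy a' (by rw [h])
        simp [mmH, this]
      · left; simp [mmH]
  · refine ⟨fun b => Sum.inr (k, (s, b)), fun a => Sum.inl ((s, a), k), ?_, ⟨b₀, rfl⟩, ?_, ?_⟩
    · intro a a' h
      exact congrArg (fun x => x.2.2) (Sum.inr.inj h)
    · intro l a b
      simp [mmH, add_comm]
    · rintro l a (⟨⟨s', a'⟩, k'⟩ | ⟨k', ⟨s', b'⟩⟩) hy
      · left; simp [mmH]
      · left
        have : s ≠ s' := fun h => hy b' (by rw [h])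
        simp [mmH, this]

lemma kinj_extend {K : Type*} [Field K] (p : ℕ) {I J κ : Type*} [Fintype I] [Fintype J]
    [Fintype κ] [DecidableEq κ] (Z : ℕ → I → J → K)
    (h : KInj p (fun l => mmH (κ := Unit) (Z l))) : KInj p (fun l => mmH (κ := κ) (Z l)) := by
  intro ω hs he
  let ω' : κ → (I × Unit) ⊕ (Unit × J) → Finset ℕ → K := fun k v => match v with
      | Sum.inl (i, _) => ω (Sum.inl (i, k))
      | Sum.inr (_, j) => ω (Sum.inr (k, j))
  have main : ∀ k : κ, ∀ v S, ω' k v S = 0 := by
    intro k
    apply h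
    · rintro (⟨i, _⟩ | ⟨_, j⟩)
      · exact hs _
      · exact hs _
    · rintro (⟨i, _⟩ | ⟨_, j⟩) T
      · rw [← he (Sum.inl (i, k)) T]
        apply Finset.sum_congr rfl; intro l _
        simp [Fintype.sum_sum_type, Fintype.sum_prod_type, mmH, ω']
      · rw [← he (Sum.inr (k, j)) T]
        apply Finset.sum_congr rfl; intro l _
        simp [Fintype.sum_sum_type, Fintype.sum_prod_type, mmH, ω']
  rintro (⟨i, k⟩ | ⟨k, j⟩) S
  · exact main k (Sum.inl (i, ())) S
  · exact main k (Sum.inr ((), j)) S

theorem mul_core {K : Type*} [Field K] {p r : ℕ} {κ M : Type*} [Fintype κ] [DecidableEq κ]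
    [Nonempty κ] [Fintype M]
    (y z : M → ((Fin r × Fin (p + 1)) × κ) ⊕ (κ × (Fin r × Fin (p + 1))) → K)
    (w : (Fin r × Fin (p + 1)) × (Fin r × Fin (p + 1)) → M → K)
    (h : ∀ c a b, mmH (fun i j => if i = c.1 ∧ j = c.2 then 1 else 0) a b
        = ∑ t, w c t * (y t a * z t b + z t a * y t b)) :
    (p + 1) * (r * (p + 1)) ^ 2 + r * (p + 1) * Fintype.card κ * (2 * p + 1)
      ≤ (p + 1) * (Fintype.card M + 2 * (r * (p + 1)) * (2 * p + 1).choose p) := by
  classical
  let B := Fin r × Fin (p + 1)
  have cB : Fintype.card B = r * (p + 1) := by simp [B]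
  -- the coefficient map
  let φ : (B × B → K) →ₗ[K] (M → K) :=
    { toFun := fun Z t => ∑ c, Z c * w c t
      map_add' := by
        intro Z Z'; funext t; simp [add_mul, Finset.sum_add_distrib]
      map_smul' := by
        intro c Z; funext t; simp [Finset.mul_sum, mul_assoc] }
  have hφ : ∀ (Z : B × B → K) a b, mmH (κ := κ) (fun i j => Z (i, j)) a b
      = ∑ t, φ Z t * (y t a * z t b + z t a * y t b) := by
    intro Z a b
    have e1 : (fun i j => Z (i, j))
        = fun i j => ∑ c ∈ univ, Z c * (if i = c.1 ∧ j = c.2 then 1 else 0) := by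
      funext i j
      rw [Finset.sum_eq_single (i, j)]
      · simp
      · intro c _ hc
        have : ¬ (i = c.1 ∧ j = c.2) := fun h => hc (Prod.ext h.1.symm h.2.symm)
        simp [this]
      · simp
    rw [e1, ← mmH_sum]
    simp only [φ, LinearMap.coe_mk, AddHom.coe_mk, Finset.sum_mul]
    rw [Finset.sum_comm]
    apply Finset.sum_congr rfl; intro c _
    rw [show mmH (fun i j => if i = c.1 ∧ j = c.2 then (1 : K) else 0) a b = _ from h c a b,
      Finset.mul_sum]
    simp only [mul_assoc]
  have hφinj : ∀ Z, φ Z = 0 → Z = 0 := by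
    intro Z hZ
    funext c
    obtain ⟨k⟩ := ‹Nonempty κ›
    have := hφ Z (Sum.inl (c.1, k)) (Sum.inr (k, c.2))
    simpa [mmH, hZ] using this
  obtain ⟨ι, a, ha, hspan, hli⟩ := exists_linearIndependent' K (fun (t : M) (c : B × B) => w c t)
  let iι : Fintype ι := Fintype.ofInjective a ha
  let ψ : (B × B → K) →ₗ[K] (ι → K) := (LinearMap.funLeft K K a) ∘ₗ φ
  have hψ : ∀ Z i, ψ Z i = φ Z (a i) := fun _ _ => rfl
  have hψinj : Function.Injective ψ := by
    rw [injective_iff_map_eq_zero]
    intro Z hZ
    apply hφinj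
    funext t
    have hmem : (fun c : B × B => w c t) ∈ Submodule.span K
        (Set.range ((fun (t : M) (c : B × B) => w c t) ∘ a)) := by
      rw [hspan]; exact Submodule.subset_span ⟨t, rfl⟩
    obtain ⟨μ, hμ⟩ := (Submodule.mem_span_range_iff_exists_fun K).mp hmem
    have e1 : φ Z t = ∑ i, μ i * ψ Z i := by
      simp only [hψ, φ, LinearMap.coe_mk, AddHom.coe_mk, Finset.mul_sum]
      rw [Finset.sum_comm]
      apply Finset.sum_congr rfl; intro c _
      rw [← congrFun hμ c]
      simp only [Finset.sum_apply, Pi.smul_apply, Function.comp_apply, smul_eq_mul, Finset.mul_sum]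
      apply Finset.sum_congr rfl; intro i _; ring
    rw [e1, hZ]; simp
  have hcard : Fintype.card ι = Fintype.card (B × B) := by
    apply le_antisymm
    · have := hli.fintype_card_le_finrank
      rwa [Module.finrank_fintype_fun_eq_card] at this
    · have := LinearMap.finrank_le_finrank_of_injective hψinj
      rwa [Module.finrank_fintype_fun_eq_card, Module.finrank_fintype_fun_eq_card] at this
  let Ψ : (B × B → K) ≃ₗ[K] (ι → K) := LinearMap.linearEquivOfInjective ψ hψinj (by
    rw [Module.finrank_fintype_fun_eq_card, Module.finrank_fintype_fun_eq_card, hcard])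
  have hΨ : ∀ Z, Ψ Z = ψ Z := fun _ => rfl
  let X₀ : ℕ → B × B → K := fun l c =>
    if c.1.1 = c.2.1 ∧ c.1.2.val + c.2.2.val = l then 1 else 0
  let E : ι → B × B → K := fun i => Ψ.symm (Pi.single i 1)
  have hE : ∀ (J : Finset ι) (x : ι → K) (i : ι),
      ψ (fun c => ∑ j ∈ J, x j * E j c) i = if i ∈ J then x i else 0 := by
    intro J x i
    have : (fun c => ∑ j ∈ J, x j * E j c) = ∑ j ∈ J, x j • E j := by
      funext c; simp [Finset.sum_apply]
    rw [this, ← hΨ, map_sum]
    simp only [E, map_smul, LinearEquiv.apply_symm_apply, Finset.sum_apply, Pi.smul_apply,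
      Pi.single_apply, smul_eq_mul, mul_ite, mul_one, mul_zero, Finset.sum_ite_eq]
  have hX₀ : ∀ l, X₀ l = fun c => ∑ j, ψ (X₀ l) j * E j c := by
    intro l
    apply hψinj
    funext i
    rw [hE]; simp
  obtain ⟨J, hJ, hJinj⟩ := sparse_kinj p
    (fun j l v₂ v₁ => ψ (X₀ l) j * mmH (κ := Unit) (fun b b' => E j (b, b')) v₂ v₁) (by
      have := kinj_blockHankel (K := K) p r
      convert this using 4 with l v₂ v₁
      rw [mmH_sum]
      congr 1
      funext b b'
      exact (congrFun (hX₀ l) (b, b')).symm)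
  let X₁ : ℕ → B × B → K := fun l c => ∑ j ∈ J, ψ (X₀ l) j * E j c
  have hinj : KInj p (fun l => mmH (κ := κ) (fun b b' => X₁ l (b, b'))) := by
    apply kinj_extend
    convert hJinj using 4 with l v₂ v₁
    rw [mmH_sum]
  let M' : Finset M := univ \ (univ \ J).image a
  have hM' : M'.card + Fintype.card ι = Fintype.card M + J.card := by
    have h1 : ((univ \ J).image a).card + J.card = Fintype.card ι := by
      rw [Finset.card_image_of_injective _ ha, Finset.card_sdiff_add_card_eq_card (subset_univ _)]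
      simp
    have h2 : M'.card + ((univ \ J).image a).card = Fintype.card M := by
      rw [Finset.card_sdiff_add_card_eq_card (subset_univ _)]
      simp
    omega
  have hb := koszul_bound p (ι := M' ⊕ M') _
    (fun t l => match t with
      | Sum.inl t => φ (X₁ l) t
      | Sum.inr t => φ (X₁ l) t)
    (fun t => match t with
      | Sum.inl t => y t
      | Sum.inr t => z t)
    (fun t => match t with
      | Sum.inl t => z t
      | Sum.inr t => y t) ?_ hinj
  · simp only [Fintype.card_sum, Fintype.card_prod, Fintype.card_coe, cB, Fintype.card_unit,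
      Fintype.card_fin] at hb hJ hcard
    rw [hcard] at hM'
    generalize r * (p + 1) = n at *
    generalize (2 * p + 1).choose p = D at *
    have h3 : M'.card + n * n ≤ Fintype.card M + 2 * n * D := by nlinarith
    have h4 := Nat.mul_le_mul_left (p + 1) h3
    nlinarith
  · intro l _ v₂ v₁
    rw [hφ, Fintype.sum_sum_type, ← Finset.sum_add_distrib]
    simp only [← mul_add]
    rw [Finset.sum_coe_sort M' (fun t => φ (X₁ l) t * (y t v₂ * z t v₁ + z t v₂ * y t v₁))]
    symm
    apply Finset.sum_subset (subset_univ _)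
    intro t _ ht
    have : t ∈ (univ \ J).image a := by
      by_contra h'
      exact ht (mem_sdiff.mpr ⟨mem_univ _, h'⟩)
    obtain ⟨i, hi, rfl⟩ := mem_image.mp this
    rw [← hψ, hE, if_neg (mem_sdiff.mp hi).2, zero_mul]

theorem mul_nat {m s : ℕ} (g : Fin s → MvPolynomial ((Fin m × Fin m) ⊕ (Fin m × Fin m)) F)
    (M : Finset (Fin s))
    (hg : ∀ t, ∃ u ∈ Set.range X ∪ Set.range C ∪ g '' Set.Iio t,
      ∃ v ∈ Set.range X ∪ Set.range C ∪ g '' Set.Iio t,
        g t = u + v ∨ (∃ c : F, g t = C c * u) ∨ (t ∈ M ∧ g t = u * v))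
    (hout : ∀ i j, cc F i j ∈ Set.range X ∪ Set.range C ∪ Set.range g)
    (p r : ℕ) (hm0 : 0 < m) (hm : r * (p + 1) ≤ m) :
    (p + 1) * (r * (p + 1)) ^ 2 + r * (p + 1) * m * (2 * p + 1)
      ≤ (p + 1) * (M.card + 2 * (r * (p + 1)) * (2 * p + 1).choose p) := by
  classical
  obtain ⟨y, z, hy⟩ := hess_span g M hg
  have : Nonempty (Fin m) := ⟨⟨0, hm0⟩⟩
  choose w hw using fun (c : (Fin r × Fin (p + 1)) × (Fin r × Fin (p + 1))) =>
    hy _ (hout (blk hm c.1) (blk hm c.2))
  let ε : ((Fin r × Fin (p + 1)) × Fin m) ⊕ (Fin m × (Fin r × Fin (p + 1)))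
      → (Fin m × Fin m) ⊕ (Fin m × Fin m) := fun v => match v with
    | Sum.inl (b, k) => Sum.inl (blk hm b, k)
    | Sum.inr (k, b) => Sum.inr (k, blk hm b)
  have := mul_core (κ := Fin m) (fun t a => y t (ε a)) (fun t a => z t (ε a)) w ?_
  · rwa [Fintype.card_coe, Fintype.card_fin] at this
  · intro c a b
    rw [← hw, hess_cc]
    rcases a with ⟨i₁, k₁⟩ | ⟨k₁, j₁⟩ <;> rcases b with ⟨i₂, k₂⟩ | ⟨k₂, j₂⟩ <;>
      simp [mmH, ε, (blk_inj hm).eq_iff]

end Pool.Agent.P.MP_e72dc0_lc
end

-- part Pool.Agent.P.MP_e72dc0_lc.Main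
section

/-! Numerical forms of the bounds. -/

namespace Pool.Agent.P.MP_e72dc0_lc

open Finset MvPolynomial

variable {F : Type*} [Field F]

theorem add_main {m s : ℕ} (g : Fin s → MvPolynomial ((Fin m × Fin m) ⊕ (Fin m × Fin m)) F)
    (A : Finset (Fin s))
    (hg : ∀ t, ∃ u ∈ Set.range X ∪ Set.range C ∪ g '' Set.Iio t,
      ∃ v ∈ Set.range X ∪ Set.range C ∪ g '' Set.Iio t,
        g t = u * v ∨ (t ∈ A ∧ g t = u + v))
    (hout : ∀ i j, cc F i j ∈ Set.range X ∪ Set.range C ∪ Set.range g) :
    4 * (m : ℝ) ^ 2 - 10 * m * Real.sqrt m ≤ A.card := by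
  rcases Nat.eq_zero_or_pos m with hm | hm
  · subst hm; simp
  obtain ⟨p, hp⟩ : ∃ p, Nat.sqrt m = p + 1 :=
    ⟨Nat.sqrt m - 1, by have := Nat.sqrt_pos.mpr hm; omega⟩
  have h1 : (p + 1) * (p + 1) ≤ m := by rw [← hp]; exact Nat.sqrt_le m
  have h2 : m < (p + 2) * (p + 2) := by
    have := Nat.lt_succ_sqrt m
    rw [hp] at this; exact this
  have hq : p + 1 ≤ m := by nlinarith
  obtain ⟨r, hr⟩ : ∃ r, m / (p + 1) = r + 1 :=
    ⟨m / (p + 1) - 1, by have := Nat.div_pos hq (Nat.succ_pos p); omega⟩
  have h3 : (r + 1) * (p + 1) ≤ m := by rw [← hr]; exact Nat.div_mul_le_self _ _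
  have h4 : m < (r + 2) * (p + 1) := by
    have := Nat.lt_mul_div_succ m (Nat.succ_pos p)
    rw [Nat.succ_eq_add_one, hr] at this; nlinarith
  have h5 : r ≤ p + 2 := by
    by_contra h
    have : (p + 4) * (p + 1) ≤ (r + 1) * (p + 1) := Nat.mul_le_mul_right _ (by omega)
    nlinarith
  have key := add_nat g A hg hout p r h3
  have h6 : 4 * m ≤ (2 * r + 1) * (2 * p + 1) + 8 * (p + 1) := by nlinarith
  have h7 : 4 * m ^ 2 ≤ A.card + 10 * m * (p + 1) := by
    have a1 := Nat.mul_le_mul_left m h6
    have a2 := Nat.mul_le_mul_left (2 * (p + 1)) h3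
    nlinarith
  have h8 : ((p + 1 : ℕ) : ℝ) ≤ Real.sqrt m := by
    apply Real.le_sqrt_of_sq_le
    have : ((p + 1 : ℕ) : ℝ) * ((p + 1 : ℕ) : ℝ) ≤ m := by exact_mod_cast h1
    nlinarith
  have h9 : (4 : ℝ) * m ^ 2 ≤ A.card + 10 * m * ((p + 1 : ℕ) : ℝ) := by exact_mod_cast h7
  have h10 : (0 : ℝ) ≤ m := Nat.cast_nonneg m
  nlinarith [mul_le_mul_of_nonneg_left h8 h10]

theorem mul_main {m s : ℕ} (g : Fin s → MvPolynomial ((Fin m × Fin m) ⊕ (Fin m × Fin m)) F)
    (M : Finset (Fin s))
    (hg : ∀ t, ∃ u ∈ Set.range X ∪ Set.range C ∪ g '' Set.Iio t,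
      ∃ v ∈ Set.range X ∪ Set.range C ∪ g '' Set.Iio t,
        g t = u + v ∨ (∃ c : F, g t = C c * u) ∨ (t ∈ M ∧ g t = u * v))
    (hout : ∀ i j, cc F i j ∈ Set.range X ∪ Set.range C ∪ Set.range g) (p : ℕ) :
    (3 - 1 / ((p : ℝ) + 1)) * (m : ℝ) ^ 2 - (4 * p + 2 * ((2 * p + 1).choose p : ℝ)) * m
      ≤ M.card := by
  rcases Nat.eq_zero_or_pos m with hm | hm
  · subst hm; simp
  have h3 : m / (p + 1) * (p + 1) ≤ m := Nat.div_mul_le_self _ _
  have h4 : m ≤ m / (p + 1) * (p + 1) + p := by
    have := Nat.lt_mul_div_succ m (Nat.succ_pos p)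
    rw [Nat.succ_eq_add_one] at this; nlinarith
  have key := mul_nat g M hg hout p (m / (p + 1)) hm h3
  generalize m / (p + 1) * (p + 1) = n at h3 h4 key
  generalize (2 * p + 1).choose p = D at key ⊢
  have h3' : (n : ℝ) ≤ m := by exact_mod_cast h3
  have h4' : (m : ℝ) ≤ n + p := by exact_mod_cast h4
  have key' : ((p : ℝ) + 1) * n ^ 2 + n * m * (2 * p + 1) ≤ (p + 1) * (M.card + 2 * n * D) := by
    exact_mod_cast key
  have hp : (0 : ℝ) ≤ p := Nat.cast_nonneg p
  have hn : (0 : ℝ) ≤ n := Nat.cast_nonneg n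
  have hm' : (0 : ℝ) ≤ m := Nat.cast_nonneg m
  have hD : (0 : ℝ) ≤ D := Nat.cast_nonneg D
  have hq : (0 : ℝ) < p + 1 := by linarith
  have e : (3 - 1 / ((p : ℝ) + 1)) * (m : ℝ) ^ 2 - (4 * p + 2 * (D : ℝ)) * m
      = ((3 * p + 2) * (m : ℝ) ^ 2 - (p + 1) * (4 * p + 2 * D) * m) / (p + 1) := by
    field_simp; ring
  rw [e, div_le_iff₀ hq]
  have a1 : (m : ℝ) ^ 2 - 2 * p * m ≤ n ^ 2 := by nlinarith
  have a2 : (m : ℝ) ^ 2 - p * m ≤ n * m := by nlinarith
  have a3 : (n : ℝ) * D ≤ m * D := mul_le_mul_of_nonneg_right h3' hD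
  have a4 := mul_le_mul_of_nonneg_left a1 hq.le
  have a5 := mul_le_mul_of_nonneg_left a2 (show (0 : ℝ) ≤ 2 * p + 1 by linarith)
  have a6 := mul_le_mul_of_nonneg_left a3 hq.le
  have a7 : (0 : ℝ) ≤ p * m := mul_nonneg hp hm'
  nlinarith

theorem total_main {m s : ℕ} (g : Fin s → MvPolynomial ((Fin m × Fin m) ⊕ (Fin m × Fin m)) F)
    (hg : ∀ t, ∃ u ∈ Set.range X ∪ Set.range C ∪ g '' Set.Iio t,
      ∃ v ∈ Set.range X ∪ Set.range C ∪ g '' Set.Iio t, g t = u + v ∨ g t = u * v)
    (hout : ∀ i j, cc F i j ∈ Set.range X ∪ Set.range C ∪ Set.range g) (p : ℕ) :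
    (7 - 1 / ((p : ℝ) + 1)) * (m : ℝ) ^ 2 - 10 * m * Real.sqrt m
      - (4 * p + 2 * ((2 * p + 1).choose p : ℝ)) * m ≤ s := by
  classical
  choose u hu v hv huv using hg
  let A : Finset (Fin s) := univ.filter (fun t => g t = u t + v t)
  have h1 := add_main g A (fun t => ⟨u t, hu t, v t, hv t, by
    rcases huv t with h | h
    · exact Or.inr ⟨by simp [A, ← h], h⟩
    · exact Or.inl h⟩) hout
  have h2 := mul_main g (univ \ A) (fun t => ⟨u t, hu t, v t, hv t, by
    by_cases h : g t = u t + v t
    · exact Or.inl h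
    · exact Or.inr (Or.inr ⟨by simp [A, h], (huv t).resolve_left h⟩)⟩) hout p
  have h3 : (univ \ A).card + A.card = s := by
    rw [Finset.card_sdiff_add_card_eq_card (subset_univ _)]; simp
  have h3' : ((univ \ A).card : ℝ) + A.card = s := by exact_mod_cast h3
  linarith

end Pool.Agent.P.MP_e72dc0_lc
end
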