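import Mathlib

-- part Pool.Agent.P.MP_e72dc0_lc.Sn.Basic
section

/-! Partitions as multisets of contents, standard tableaux as content sequences. -/

namespace Pool.Agent.P.MP_e72dc0_lc.Sn

open Finset
open scoped Classical

/-- `+1` on addable contents, `-1` on removable contents, `0` otherwise (for valid states). -/
def hh (μ : Multiset ℤ) (c : ℤ) : ℤ :=
  (if c = 0 then 1 else 0) + (μ.count (c - 1) : ℤ) + (μ.count (c + 1) : ℤ) - 2 * (μ.count c : ℤ)

/-- Occupation number of site `a` in the Maya diagram. -/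
def eta (μ : Multiset ℤ) (a : ℤ) : ℤ :=
  (if a < 0 then 1 else 0) + (μ.count a : ℤ) - (μ.count (a + 1) : ℤ)

/-- The multiset is the content multiset of a partition. -/
def Valid (μ : Multiset ℤ) : Prop := ∀ a, eta μ a = 0 ∨ eta μ a = 1

/-- A finite set containing the support of `hh μ`. -/
def supp3 (μ : Multiset ℤ) : Finset ℤ :=
  insert 0 (μ.toFinset.biUnion fun b => {b - 1, b, b + 1})

/-- Addable contents. -/
def add (μ : Multiset ℤ) : Finset ℤ := (supp3 μ).filter fun c => hh μ c = 1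

/-- Removable contents. -/
def rem (μ : Multiset ℤ) : Finset ℤ := μ.toFinset.filter fun c => hh μ c = -1

/-- State after `k` steps. -/
def st (t : ℕ → ℤ) (k : ℕ) : Multiset ℤ := (Multiset.range k).map t

/-- Standard tableaux with `n` boxes, as content sequences padded by zeros. -/
noncomputable def Std : ℕ → Finset (ℕ → ℤ)
  | 0 => {0}
  | n + 1 => (Std n).biUnion fun t => (add (st t n)).image fun c => Function.update t n c

/-- Pairs of standard tableaux of the same shape. -/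
noncomputable def pairs (n : ℕ) : Finset ((ℕ → ℤ) × (ℕ → ℤ)) :=
  (Std n ×ˢ Std n).filter fun p => st p.1 n = st p.2 n

/-- The pairing of `hh μ` with a test function. -/
def Lam (μ : Multiset ℤ) (f : ℤ → ℤ) : ℤ :=
  f 0 + (μ.map fun b => f (b - 1) + f (b + 1) - 2 * f b).sum

/-- Signed count: same parity, below minus above. -/
def eps (μ : Multiset ℤ) (c : ℤ) : ℤ :=
  Lam μ fun x => if x % 2 = c % 2 then Int.sign (c - x) else 0

/-- Signed count: same parity, below. -/
def degStep (μ : Multiset ℤ) (c : ℤ) : ℤ :=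
  Lam μ fun x => if x % 2 = c % 2 ∧ x < c then 1 else 0

/-- Signed count: same parity, different from `c`. -/
def wStep (μ : Multiset ℤ) (c : ℤ) : ℤ :=
  Lam μ fun x => if x % 2 = c % 2 ∧ x ≠ c then 1 else 0

def ee (t : ℕ → ℤ) (n : ℕ) : ℤ := ∑ k ∈ range n, eps (st t k) (t k)
def dg (t : ℕ → ℤ) (n : ℕ) : ℤ := ∑ k ∈ range n, degStep (st t k) (t k)
def ww (t : ℕ → ℤ) (n : ℕ) : ℤ := ∑ k ∈ range n, wStep (st t k) (t k)

/-- Charge: number of even contents minus number of odd contents. -/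
def dd (μ : Multiset ℤ) : ℤ := (μ.map fun c => if c % 2 = 0 then (1 : ℤ) else -1).sum

/-- Six times the normalised degree of the basis element attached to a pair. -/
def D6 (n : ℕ) (p : (ℕ → ℤ) × (ℕ → ℤ)) : ℤ := 3 * (dg p.1 n + dg p.2 n) - 2 * ww p.1 n

lemma hh_eq_eta (μ : Multiset ℤ) (c : ℤ) : hh μ c = eta μ (c - 1) - eta μ c := by
  unfold hh eta
  rw [sub_add_cancel]
  split_ifs <;> omega

lemma hh_cons (μ : Multiset ℤ) (b c : ℤ) :
    hh (b ::ₘ μ) c = hh μ c + (if c = b + 1 then 1 else 0) + (if c = b - 1 then 1 else 0)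
      - (if c = b then 2 else 0) := by
  unfold hh
  simp only [Multiset.count_cons]
  push_cast
  split_ifs <;> omega

lemma eta_cons (μ : Multiset ℤ) (b a : ℤ) :
    eta (b ::ₘ μ) a = eta μ a + (if a = b then 1 else 0) - (if a = b - 1 then 1 else 0) := by
  unfold eta
  simp only [Multiset.count_cons]
  push_cast
  split_ifs <;> omega

lemma hh_zero (c : ℤ) : hh 0 c = if c = 0 then 1 else 0 := by simp [hh]

lemma valid_zero : Valid 0 := by
  intro a; unfold eta; split_ifs <;> simp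

lemma Valid.hh_cases {μ : Multiset ℤ} (h : Valid μ) (c : ℤ) :
    hh μ c = 1 ∨ hh μ c = 0 ∨ hh μ c = -1 := by
  rw [hh_eq_eta]; rcases h (c - 1) with h1 | h1 <;> rcases h c with h2 | h2 <;> omega

lemma Valid.hh_eq_one {μ : Multiset ℤ} (h : Valid μ) {c : ℤ} :
    hh μ c = 1 ↔ eta μ (c - 1) = 1 ∧ eta μ c = 0 := by
  rw [hh_eq_eta]; rcases h (c - 1) with h1 | h1 <;> rcases h c with h2 | h2 <;> omega

lemma Valid.hh_eq_neg_one {μ : Multiset ℤ} (h : Valid μ) {c : ℤ} :
    hh μ c = -1 ↔ eta μ (c - 1) = 0 ∧ eta μ c = 1 := by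
  rw [hh_eq_eta]; rcases h (c - 1) with h1 | h1 <;> rcases h c with h2 | h2 <;> omega

lemma Valid.cons {μ : Multiset ℤ} (h : Valid μ) {c : ℤ} (hc : hh μ c = 1) : Valid (c ::ₘ μ) := by
  intro a
  have h1 := h.hh_eq_one.1 hc
  rw [eta_cons]
  rcases h a with h2 | h2 <;> split_ifs <;> subst_vars <;> omega

lemma Valid.of_cons {μ : Multiset ℤ} {c : ℤ} (h : Valid (c ::ₘ μ)) (hc : hh (c ::ₘ μ) c = -1) :
    Valid μ ∧ hh μ c = 1 := by
  have h1 := h.hh_eq_neg_one.1 hc
  rw [eta_cons, eta_cons] at h1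
  refine ⟨fun a => ?_, ?_⟩
  · have h2 := h a
    rw [eta_cons] at h2
    split_ifs at h1 h2 <;> subst_vars <;> omega
  · rw [hh_cons] at hc
    split_ifs at hc <;> omega

lemma mem_supp3_of_ne {μ : Multiset ℤ} {c : ℤ} (h : hh μ c ≠ 0) : c ∈ supp3 μ := by
  by_contra hn
  apply h
  simp only [supp3, mem_insert, mem_biUnion, Multiset.mem_toFinset, mem_singleton, not_or,
    not_exists, not_and] at hn
  obtain ⟨h0, hb⟩ := hn
  have e1 : μ.count (c - 1) = 0 := Multiset.count_eq_zero.2 fun hm => (hb _ hm).2.2 (by ring)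
  have e2 : μ.count (c + 1) = 0 := Multiset.count_eq_zero.2 fun hm => (hb _ hm).1 (by ring)
  have e3 : μ.count c = 0 := Multiset.count_eq_zero.2 fun hm => (hb _ hm).2.1 rfl
  simp [hh, h0, e1, e2, e3]

lemma mem_add {μ : Multiset ℤ} {c : ℤ} : c ∈ add μ ↔ hh μ c = 1 := by
  unfold add
  rw [mem_filter]
  exact ⟨fun h => h.2, fun h => ⟨mem_supp3_of_ne (by omega), h⟩⟩

lemma mem_of_hh_neg {μ : Multiset ℤ} {c : ℤ} (h : hh μ c < 0) : c ∈ μ := by
  by_contra hn
  have e3 : μ.count c = 0 := Multiset.count_eq_zero.2 hn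
  unfold hh at h
  split_ifs at h <;> omega

lemma mem_rem {μ : Multiset ℤ} {c : ℤ} : c ∈ rem μ ↔ hh μ c = -1 := by
  unfold rem
  rw [mem_filter, Multiset.mem_toFinset]
  exact ⟨fun h => h.2, fun h => ⟨mem_of_hh_neg (by omega), h⟩⟩

@[simp] lemma st_zero (t : ℕ → ℤ) : st t 0 = 0 := by simp [st]

lemma st_succ (t : ℕ → ℤ) (k : ℕ) : st t (k + 1) = t k ::ₘ st t k := by
  simp [st, Multiset.range_succ]

@[simp] lemma card_st (t : ℕ → ℤ) (k : ℕ) : Multiset.card (st t k) = k := by simp [st]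

lemma st_congr {s t : ℕ → ℤ} {k : ℕ} (h : ∀ j < k, s j = t j) : st s k = st t k := by
  unfold st
  exact Multiset.map_congr rfl fun j hj => h j (Multiset.mem_range.1 hj)

lemma st_update (t : ℕ → ℤ) {n k : ℕ} (c : ℤ) (h : k ≤ n) :
    st (Function.update t n c) k = st t k :=
  st_congr fun j hj => Function.update_of_ne (by omega) _ _

lemma mem_st {t : ℕ → ℤ} {k : ℕ} {b : ℤ} : b ∈ st t k ↔ ∃ j < k, t j = b := by
  simp [st]

lemma mem_Std {n : ℕ} {t : ℕ → ℤ} :
    t ∈ Std n ↔ (∀ k < n, hh (st t k) (t k) = 1) ∧ ∀ k, n ≤ k → t k = 0 := by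
  induction n generalizing t with
  | zero =>
    simp only [Std, mem_singleton, Nat.not_lt_zero, false_imp_iff, implies_true, true_and,
      Nat.zero_le, forall_const]
    exact ⟨fun h k => by simp [h], fun h => funext h⟩
  | succ n ih =>
    simp only [Std, mem_biUnion, mem_image, mem_add]
    constructor
    · rintro ⟨s, hs, c, hc, rfl⟩
      obtain ⟨h1, h2⟩ := ih.1 hs
      refine ⟨fun k hk => ?_, fun k hk => ?_⟩
      · rw [st_update _ _ (by omega)]
        by_cases hkn : k = n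
        · subst hkn; simpa using hc
        · rw [Function.update_of_ne hkn]; exact h1 k (by omega)
      · rw [Function.update_of_ne (by omega)]; exact h2 k (by omega)
    · rintro ⟨h1, h2⟩
      refine ⟨Function.update t n 0, ih.2 ⟨fun k hk => ?_, fun k hk => ?_⟩, t n, ?_, ?_⟩
      · rw [st_update _ _ (by omega), Function.update_of_ne (by omega)]; exact h1 k (by omega)
      · by_cases hkn : k = n
        · subst hkn; simp
        · rw [Function.update_of_ne hkn]; exact h2 k (by omega)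
      · rw [st_update _ _ le_rfl]; exact h1 n (by omega)
      · simp

lemma valid_st {n : ℕ} {t : ℕ → ℤ} (ht : t ∈ Std n) {k : ℕ} (hk : k ≤ n) : Valid (st t k) := by
  induction k with
  | zero => simpa using valid_zero
  | succ k ih => rw [st_succ]; exact (ih (by omega)).cons ((mem_Std.1 ht).1 k (by omega))

lemma sum_Std_succ {M : Type*} [AddCommMonoid M] (n : ℕ) (f : (ℕ → ℤ) → M) :
    ∑ t ∈ Std (n + 1), f t = ∑ t ∈ Std n, ∑ c ∈ add (st t n), f (Function.update t n c) := by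
  rw [Std, sum_biUnion]
  · refine sum_congr rfl fun t _ => sum_image fun a _ b _ h => ?_
    simpa using congrFun h n
  · intro s hs t ht hst
    rw [Function.onFun, disjoint_left]
    intro u hu hv
    obtain ⟨a, -, rfl⟩ := mem_image.1 hu
    obtain ⟨b, -, hb⟩ := mem_image.1 hv
    apply hst
    funext k
    by_cases hkn : k = n
    · subst hkn
      rw [(mem_Std.1 (mem_coe.1 hs)).2 k le_rfl, (mem_Std.1 (mem_coe.1 ht)).2 k le_rfl]
    · have := congrFun hb k
      rw [Function.update_of_ne hkn, Function.update_of_ne hkn] at this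
      exact this.symm

@[simp] lemma Lam_zero (f : ℤ → ℤ) : Lam 0 f = f 0 := by simp [Lam]

lemma Lam_cons (μ : Multiset ℤ) (b : ℤ) (f : ℤ → ℤ) :
    Lam (b ::ₘ μ) f = Lam μ f + (f (b - 1) + f (b + 1) - 2 * f b) := by
  simp only [Lam, Multiset.map_cons, Multiset.sum_cons]; ring

lemma supp3_cons_subset (μ : Multiset ℤ) (b : ℤ) : supp3 μ ⊆ supp3 (b ::ₘ μ) := by
  intro c hc
  simp only [supp3, mem_insert, mem_biUnion, Multiset.mem_toFinset, Multiset.mem_cons] at hc ⊢
  rcases hc with h | ⟨a, ha, h⟩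
  · exact Or.inl h
  · exact Or.inr ⟨a, Or.inr ha, h⟩

lemma mem_supp3_cons (μ : Multiset ℤ) (b : ℤ) :
    b - 1 ∈ supp3 (b ::ₘ μ) ∧ b ∈ supp3 (b ::ₘ μ) ∧ b + 1 ∈ supp3 (b ::ₘ μ) := by
  simp only [supp3, mem_insert, mem_biUnion, Multiset.mem_toFinset, Multiset.mem_cons]
  exact ⟨Or.inr ⟨b, Or.inl rfl, by simp⟩, Or.inr ⟨b, Or.inl rfl, by simp⟩,
    Or.inr ⟨b, Or.inl rfl, by simp⟩⟩

lemma zero_mem_supp3 (μ : Multiset ℤ) : 0 ∈ supp3 μ := by simp [supp3]

/-- `Lam μ f` is the pairing of `hh μ` with `f`. -/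
lemma Lam_eq_sum (μ : Multiset ℤ) (f : ℤ → ℤ) (W : Finset ℤ) (hW : supp3 μ ⊆ W) :
    Lam μ f = ∑ c ∈ W, hh μ c * f c := by
  induction μ using Multiset.induction_on with
  | empty =>
    simp only [Lam_zero, hh_zero, ite_mul, one_mul, zero_mul]
    rw [sum_ite_eq' W 0, if_pos (hW (zero_mem_supp3 _))]
  | cons b μ ih =>
    obtain ⟨h1, h2, h3⟩ := mem_supp3_cons μ b
    rw [Lam_cons, ih ((supp3_cons_subset μ b).trans hW)]
    simp only [hh_cons, add_mul, sub_mul, ite_mul, one_mul, zero_mul, sum_add_distrib,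
      sum_sub_distrib, sum_ite_eq', if_pos (hW h1), if_pos (hW h2), if_pos (hW h3)]
    ring

lemma Lam_add (μ : Multiset ℤ) (f g : ℤ → ℤ) :
    Lam μ (fun x => f x + g x) = Lam μ f + Lam μ g := by
  induction μ using Multiset.induction_on with
  | empty => simp
  | cons b μ ih => simp only [Lam_cons, ih]; ring

lemma Lam_sub (μ : Multiset ℤ) (f g : ℤ → ℤ) :
    Lam μ (fun x => f x - g x) = Lam μ f - Lam μ g := by
  induction μ using Multiset.induction_on with
  | empty => simp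
  | cons b μ ih => simp only [Lam_cons, ih]; ring

lemma Lam_single (μ : Multiset ℤ) (c : ℤ) :
    Lam μ (fun x => if x = c then 1 else 0) = hh μ c := by
  induction μ using Multiset.induction_on with
  | empty => simp only [Lam_zero, hh_zero]; split_ifs <;> omega
  | cons b μ ih => rw [Lam_cons, ih, hh_cons]; split_ifs <;> omega

lemma two_degStep (μ : Multiset ℤ) (c : ℤ) : 2 * degStep μ c = wStep μ c + eps μ c := by
  unfold degStep wStep eps
  rw [← Lam_add, two_mul, ← Lam_add]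
  congr 1
  funext x
  rcases lt_trichotomy x c with h | h | h
  · have : Int.sign (c - x) = 1 := Int.sign_eq_one_of_pos (by omega)
    rw [this]; split_ifs <;> omega
  · subst h; simp
  · have : Int.sign (c - x) = -1 := Int.sign_eq_neg_one_of_neg (by omega)
    rw [this]; split_ifs <;> omega

lemma two_dg (t : ℕ → ℤ) (n : ℕ) : 2 * dg t n = ww t n + ee t n := by
  unfold dg ww ee
  rw [mul_sum, ← sum_add_distrib]
  exact sum_congr rfl fun k _ => two_degStep _ _

@[simp] lemma dd_zero : dd 0 = 0 := by simp [dd]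

lemma dd_cons (μ : Multiset ℤ) (c : ℤ) :
    dd (c ::ₘ μ) = dd μ + if c % 2 = 0 then 1 else -1 := by
  simp only [dd, Multiset.map_cons, Multiset.sum_cons]; ring

lemma Lam_parity (μ : Multiset ℤ) (c : ℤ) :
    Lam μ (fun x => if x % 2 = c % 2 then 1 else 0)
      = if c % 2 = 0 then 1 - 2 * dd μ else 2 * dd μ := by
  induction μ using Multiset.induction_on with
  | empty => simp only [Lam_zero, dd_zero]; split_ifs <;> omega
  | cons b μ ih => rw [Lam_cons, ih, dd_cons]; split_ifs <;> omega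

lemma wStep_eq (μ : Multiset ℤ) (c : ℤ) :
    wStep μ c = (if c % 2 = 0 then 1 - 2 * dd μ else 2 * dd μ) - hh μ c := by
  rw [← Lam_parity, ← Lam_single, ← Lam_sub]
  unfold wStep
  congr 1
  funext x
  split_ifs <;> subst_vars <;> simp_all

/-- The weight only depends on the charge of the shape. -/
lemma two_ww {n : ℕ} {t : ℕ → ℤ} (ht : t ∈ Std n) {k : ℕ} (hk : k ≤ n) :
    2 * ww t k = k - 2 * dd (st t k) ^ 2 + dd (st t k) := by
  induction k with
  | zero => simp [ww]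
  | succ k ih =>
    have h1 := ih (by omega)
    have h2 := (mem_Std.1 ht).1 k (by omega)
    unfold ww at h1 ⊢
    rw [sum_range_succ, mul_add, h1, wStep_eq, h2, st_succ, dd_cons]
    push_cast
    split_ifs <;> ring

lemma mem_pairs {n : ℕ} {p : (ℕ → ℤ) × (ℕ → ℤ)} :
    p ∈ pairs n ↔ p.1 ∈ Std n ∧ p.2 ∈ Std n ∧ st p.1 n = st p.2 n := by
  simp [pairs, and_assoc]

end Pool.Agent.P.MP_e72dc0_lc.Sn
end

-- part Pool.Agent.P.MP_e72dc0_lc.Sn.Comb
section

/-! Combinatorics of content sequences: swaps, rows, terminal (row reading) tableaux. -/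

namespace Pool.Agent.P.MP_e72dc0_lc.Sn

open Finset
open scoped Classical

/-- Exchange the entries in positions `r` and `r+1`. -/
def sw (r : ℕ) (t : ℕ → ℤ) : ℕ → ℤ := fun j => if j = r then t (r + 1) else if j = r + 1 then t r else t j

@[simp] lemma sw_fst (r : ℕ) (t : ℕ → ℤ) : sw r t r = t (r + 1) := by simp [sw]
@[simp] lemma sw_snd (r : ℕ) (t : ℕ → ℤ) : sw r t (r + 1) = t r := by simp [sw]
lemma sw_ne {r j : ℕ} (t : ℕ → ℤ) (h1 : j ≠ r) (h2 : j ≠ r + 1) : sw r t j = t j := by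
  simp [sw, h1, h2]

@[simp] lemma sw_sw (r : ℕ) (t : ℕ → ℤ) : sw r (sw r t) = t := by
  funext j
  by_cases h1 : j = r
  · subst h1; simp
  by_cases h2 : j = r + 1
  · subst h2; simp
  rw [sw_ne _ h1 h2, sw_ne _ h1 h2]

lemma sw_inj {r : ℕ} {s t : ℕ → ℤ} (h : sw r s = sw r t) : s = t := by
  rw [← sw_sw r s, h, sw_sw]

lemma st_sw_le {r k : ℕ} (t : ℕ → ℤ) (h : k ≤ r) : st (sw r t) k = st t k :=
  st_congr fun j hj => sw_ne t (by omega) (by omega)

lemma st_sw_ge {r k : ℕ} (t : ℕ → ℤ) (h : r + 2 ≤ k) : st (sw r t) k = st t k := by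
  induction k, h using Nat.le_induction with
  | base =>
    rw [st_succ, st_succ, st_succ, st_succ, st_sw_le t le_rfl, sw_fst, sw_snd, Multiset.cons_swap]
  | succ k hk ih => rw [st_succ, st_succ, ih, sw_ne t (by omega) (by omega)]

lemma prod_sw {M : Type*} [CommMonoid M] (F : Multiset ℤ → ℤ → M) (t : ℕ → ℤ) {r n : ℕ}
    (h : r + 1 < n) : ∃ Z : M,
      ∏ k ∈ range n, F (st t k) (t k)
        = Z * (F (st t r) (t r) * F (t r ::ₘ st t r) (t (r + 1))) ∧
      ∏ k ∈ range n, F (st (sw r t) k) (sw r t k)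
        = Z * (F (st t r) (t (r + 1)) * F (t (r + 1) ::ₘ st t r) (t r)) := by
  have hr : r ∈ range n := mem_range.2 (by omega)
  have hr1 : r + 1 ∈ (range n).erase r := mem_erase.2 ⟨by omega, mem_range.2 h⟩
  refine ⟨∏ k ∈ ((range n).erase r).erase (r + 1), F (st t k) (t k), ?_, ?_⟩
  · rw [← mul_prod_erase _ _ hr, ← mul_prod_erase _ _ hr1, st_succ, ← mul_assoc, mul_comm]
  · rw [← mul_prod_erase _ _ hr, ← mul_prod_erase _ _ hr1, st_succ, ← mul_assoc, mul_comm,
      st_sw_le t le_rfl, sw_fst, sw_snd]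
    congr 1
    refine prod_congr rfl fun k hk => ?_
    have h1 := (mem_erase.1 hk).1
    have h2 := (mem_erase.1 (mem_erase.1 hk).2).1
    rw [sw_ne t h2 h1]
    rcases Nat.lt_or_ge k r with h3 | h3
    · rw [st_sw_le t h3.le]
    · rw [st_sw_ge t (by omega)]

lemma sum_sw (F : Multiset ℤ → ℤ → ℤ) (t : ℕ → ℤ) {r n : ℕ} (h : r + 1 < n) :
    ∑ k ∈ range n, F (st (sw r t) k) (sw r t k) - ∑ k ∈ range n, F (st t k) (t k)
      = (F (st t r) (t (r + 1)) + F (t (r + 1) ::ₘ st t r) (t r))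
        - (F (st t r) (t r) + F (t r ::ₘ st t r) (t (r + 1))) := by
  obtain ⟨Z, h1, h2⟩ := prod_sw (fun μ c => Multiplicative.ofAdd (F μ c)) t h
  rw [← ofAdd_sum] at h1 h2
  have e1 := congrArg Multiplicative.toAdd h1
  have e2 := congrArg Multiplicative.toAdd h2
  simp only [toAdd_ofAdd, toAdd_mul] at e1 e2
  rw [e1, e2]; ring

section std

variable {n : ℕ} {t : ℕ → ℤ} (ht : t ∈ Std n)
include ht

lemma hh_st {k : ℕ} (hk : k < n) : hh (st t k) (t k) = 1 := (mem_Std.1 ht).1 k hk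

lemma hh_last {k : ℕ} (hk : k < n) : hh (st t (k + 1)) (t k) = -1 := by
  rw [st_succ, hh_cons, hh_st ht hk]; split_ifs <;> omega

lemma ne_succ {r : ℕ} (h : r + 1 < n) : t r ≠ t (r + 1) := by
  intro e
  have h1 := hh_last ht (k := r) (by omega)
  have h2 := hh_st ht h
  rw [← e] at h2; omega

lemma ne_succ_succ {r : ℕ} (h : r + 2 < n) : t r ≠ t (r + 2) := by
  intro e
  have h1 := hh_last ht (k := r) (by omega)
  have h2 := hh_st ht h
  rw [← e, st_succ, hh_cons] at h2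
  split_ifs at h2 <;> omega

lemma sw_mem {r : ℕ} (h : r + 1 < n) (h2 : 2 ≤ |t r - t (r + 1)|) : sw r t ∈ Std n := by
  have a1 := hh_st ht (k := r) (by omega)
  have a2 := hh_st ht h
  rw [st_succ, hh_cons] at a2
  have h3 : t r - t (r + 1) ≤ -2 ∨ 2 ≤ t r - t (r + 1) := by
    rcases le_abs'.1 h2 with h | h <;> omega
  refine mem_Std.2 ⟨fun k hk => ?_, fun k hk => ?_⟩
  · by_cases e1 : k = r
    · subst e1
      rw [st_sw_le t le_rfl, sw_fst]
      split_ifs at a2 <;> omega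
    by_cases e2 : k = r + 1
    · subst e2
      rw [st_succ, st_sw_le t le_rfl, sw_fst, sw_snd, hh_cons]
      split_ifs <;> omega
    rw [sw_ne t e1 e2]
    rcases Nat.lt_or_ge k r with h4 | h4
    · rw [st_sw_le t h4.le]; exact hh_st ht hk
    · rw [st_sw_ge t (by omega)]; exact hh_st ht hk
  · rw [sw_ne t (by omega) (by omega)]; exact (mem_Std.1 ht).2 k hk

lemma abs_le_idx (k : ℕ) : |t k| ≤ k := by
  induction k using Nat.strong_induction_on with
  | _ k ih =>
    rcases Nat.lt_or_ge k n with hk | hk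
    · have h1 : t k ∈ supp3 (st t k) := mem_supp3_of_ne (by rw [hh_st ht hk]; omega)
      simp only [supp3, mem_insert, mem_biUnion, Multiset.mem_toFinset, mem_singleton,
        mem_st] at h1
      rcases h1 with h1 | ⟨b, ⟨j, hj, rfl⟩, h1⟩
      · rw [h1]; simp
      · have := abs_le.1 (ih j hj)
        rw [abs_le]; omega
    · rw [(mem_Std.1 ht).2 k hk]; simp

lemma abs_le_n (k : ℕ) : |t k| ≤ n := by
  rcases Nat.lt_or_ge k n with hk | hk
  · have := abs_le_idx ht k; omega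
  · rw [(mem_Std.1 ht).2 k hk]; simp

lemma first_zero : t 0 = 0 := by simpa using abs_le_idx ht 0

lemma abs_le_of_mem_st {k : ℕ} {b : ℤ} (hb : b ∈ st t k) : |b| ≤ n := by
  obtain ⟨j, -, rfl⟩ := mem_st.1 hb
  exact abs_le_n ht j

end std

/-- Number of ascending pairs. -/
def asc (n : ℕ) (t : ℕ → ℤ) : ℤ := ∑ k ∈ range n, ((st t k).countP (· < t k) : ℤ)

lemma asc_sw (t : ℕ → ℤ) {r n : ℕ} (h : r + 1 < n) :
    asc n (sw r t) - asc n t
      = (if t (r + 1) < t r then 1 else 0) - (if t r < t (r + 1) then 1 else 0) := by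
  have := sum_sw (fun μ c => (μ.countP (· < c) : ℤ)) t h
  simp only [Multiset.countP_cons] at this
  unfold asc
  rw [this]
  push_cast
  ring

lemma asc_nonneg (n : ℕ) (t : ℕ → ℤ) : 0 ≤ asc n t := sum_nonneg fun _ _ => by positivity

lemma asc_le (n : ℕ) (t : ℕ → ℤ) : asc n t ≤ n ^ 2 := by
  unfold asc
  calc _ ≤ ∑ _k ∈ range n, (n : ℤ) := by
        refine sum_le_sum fun k hk => ?_
        have h1 := Multiset.countP_le_card (· < t k) (st t k)
        rw [card_st] at h1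
        have := mem_range.1 hk
        omega
    _ = n ^ 2 := by simp; ring

lemma dg_sw (t : ℕ → ℤ) {r n : ℕ} (h : r + 1 < n) (h2 : t (r + 1) + 2 ≤ t r) :
    dg (sw r t) n = dg t n + if t r % 2 = t (r + 1) % 2 then -2 else 2 := by
  have := sum_sw degStep t h
  unfold dg
  simp only [degStep, Lam_cons] at this ⊢
  split_ifs at this ⊢ <;> omega

/-- Same residue sequence. -/
def Par (n : ℕ) (s t : ℕ → ℤ) : Prop := ∀ k < n, s k % 2 = t k % 2

lemma Par.refl (n : ℕ) (s : ℕ → ℤ) : Par n s s := fun _ _ => rfl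
lemma Par.symm {n : ℕ} {s t : ℕ → ℤ} (h : Par n s t) : Par n t s := fun k hk => (h k hk).symm
lemma Par.trans {n : ℕ} {s t u : ℕ → ℤ} (h : Par n s t) (h' : Par n t u) : Par n s u :=
  fun k hk => (h k hk).trans (h' k hk)

lemma Par.sw {n r : ℕ} {s t : ℕ → ℤ} (h : Par n s t) (hr : r + 1 < n) :
    Par n (sw r s) (sw r t) := by
  intro k hk
  by_cases e1 : k = r
  · subst e1; simpa using h _ hr
  by_cases e2 : k = r + 1
  · subst e2; simpa using h r (by omega)
  rw [sw_ne _ e1 e2, sw_ne _ e1 e2]; exact h k hk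

lemma par_sw_self {n r : ℕ} {s : ℕ → ℤ} (h : s r % 2 = s (r + 1) % 2) : Par n (sw r s) s := by
  intro k _
  by_cases e1 : k = r
  · subst e1; simpa using h.symm
  by_cases e2 : k = r + 1
  · subst e2; simpa using h
  rw [sw_ne _ e1 e2]

lemma Par.dd_eq {n : ℕ} {s t : ℕ → ℤ} (h : Par n s t) {k : ℕ} (hk : k ≤ n) :
    dd (st s k) = dd (st t k) := by
  induction k with
  | zero => simp
  | succ k ih => rw [st_succ, st_succ, dd_cons, dd_cons, ih (by omega), h k (by omega)]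

lemma ww_eq_of_dd {n : ℕ} {s t : ℕ → ℤ} (hs : s ∈ Std n) (ht : t ∈ Std n)
    (h : dd (st s n) = dd (st t n)) : ww s n = ww t n := by
  have h1 := two_ww hs le_rfl
  have h2 := two_ww ht le_rfl
  rw [h] at h1; omega

/-- Number of particles at sites `≥ c`; the row index of an addable box of content `c`. -/
def rho (μ : Multiset ℤ) (c : ℤ) : ℤ := (μ.count c : ℤ) + max 0 (-c)

lemma rho_succ (μ : Multiset ℤ) (a : ℤ) : rho μ (a + 1) = rho μ a - eta μ a := by
  unfold rho eta; split_ifs <;> omega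

lemma Valid.rho_anti {μ : Multiset ℤ} (h : Valid μ) {a b : ℤ} (hab : a ≤ b) :
    rho μ b ≤ rho μ a := by
  induction b, hab using Int.le_induction with
  | base => exact le_rfl
  | succ b _ ih => rw [rho_succ]; rcases h b with h1 | h1 <;> omega

lemma Valid.rho_lt {μ : Multiset ℤ} (h : Valid μ) {a c : ℤ} (hc : hh μ c = 1) (hac : a < c) :
    rho μ c < rho μ a := by
  have h1 := (h.hh_eq_one.1 hc).1
  have h2 := rho_succ μ (c - 1)
  rw [sub_add_cancel] at h2
  have h3 := h.rho_anti (a := a) (b := c - 1) (by omega)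
  omega

lemma Valid.rho_inj {μ : Multiset ℤ} (h : Valid μ) {a c : ℤ} (ha : hh μ a = 1) (hc : hh μ c = 1)
    (e : rho μ a = rho μ c) : a = c := by
  rcases lt_trichotomy a c with h1 | h1 | h1
  · have := h.rho_lt hc h1; omega
  · exact h1
  · have := h.rho_lt ha h1; omega

lemma rho_const {μ : Multiset ℤ} {a b : ℤ} (hab : a ≤ b) (h : ∀ x, a ≤ x → x < b → eta μ x = 0) :
    rho μ b = rho μ a := by
  induction b, hab using Int.le_induction with
  | base => rfl
  | succ b hb ih => rw [rho_succ, h b hb (by omega), ih fun x h1 h2 => h x h1 (by omega)]; ring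

/-- The lowest addable content after `k` steps. -/
def low (t : ℕ → ℤ) : ℕ → ℤ
  | 0 => 0
  | k + 1 => if t k = low t k then low t k - 1 else low t k

lemma low_spec {n : ℕ} {t : ℕ → ℤ} (ht : t ∈ Std n) {k : ℕ} (hk : k ≤ n) :
    low t k ≤ 0 ∧ (∀ a ≤ low t k, (st t k).count a = 0) ∧ eta (st t k) (low t k) = 0 := by
  induction k with
  | zero => simp [low, eta]
  | succ k ih =>
    obtain ⟨h1, h2, h3⟩ := ih (by omega)
    have hv := valid_st ht (k := k) (by omega)
    obtain ⟨e1, e2⟩ := hv.hh_eq_one.1 (hh_st ht (k := k) (by omega))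
    have h4 : ∀ a < low t k, eta (st t k) a = 1 := by
      intro a ha
      unfold eta
      rw [h2 a ha.le, h2 (a + 1) (by omega), if_pos (by omega)]; simp
    have h5 : low t k ≤ t k := by
      by_contra hc
      have := h4 (t k) (by omega); omega
    rw [low, st_succ]
    split_ifs with hc
    · refine ⟨by omega, fun a ha => ?_, ?_⟩
      · rw [Multiset.count_cons, h2 a (by omega), if_neg (by omega)]
      · rw [eta_cons, h4 _ (by omega)]; split_ifs <;> omega
    · have h6 : t k - 1 ≠ low t k := by intro e; rw [e] at e1; omega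
      refine ⟨h1, fun a ha => ?_, ?_⟩
      · rw [Multiset.count_cons, h2 a ha, if_neg (by omega)]
      · rw [eta_cons, h3]; split_ifs <;> omega

section low

variable {n : ℕ} {t : ℕ → ℤ} (ht : t ∈ Std n)
include ht

lemma eta_below {k : ℕ} (hk : k ≤ n) {a : ℤ} (ha : a < low t k) : eta (st t k) a = 1 := by
  obtain ⟨h1, h2, -⟩ := low_spec ht hk
  unfold eta
  rw [h2 a ha.le, h2 (a + 1) (by omega), if_pos (by omega)]; simp

lemma rho_low {k : ℕ} (hk : k ≤ n) : rho (st t k) (low t k) = -low t k := by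
  obtain ⟨h1, h2, -⟩ := low_spec ht hk
  unfold rho
  rw [h2 _ le_rfl]; omega

lemma low_le {k : ℕ} (hk : k < n) : low t k ≤ t k := by
  by_contra hc
  have h1 := eta_below ht hk.le (a := t k) (by omega)
  have := ((valid_st ht hk.le).hh_eq_one.1 (hh_st ht hk)).2
  omega

lemma low_gap {k : ℕ} (hk : k < n) (h : t k ≠ low t k) : low t k + 2 ≤ t k := by
  have h1 := low_le ht hk
  have h2 := ((valid_st ht hk.le).hh_eq_one.1 (hh_st ht hk)).1
  have h3 := (low_spec ht hk.le).2.2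
  by_contra hc
  have : t k - 1 = low t k := by omega
  rw [this] at h2; omega

lemma rho_le_low {k : ℕ} (hk : k < n) : rho (st t k) (t k) ≤ -low t (k + 1) - 1 := by
  have h1 := rho_low ht hk.le
  rw [low]
  split_ifs with hc
  · rw [hc, h1]; omega
  · have := (valid_st ht hk.le).rho_lt (hh_st ht hk) (a := low t k)
      (lt_of_le_of_ne (low_le ht hk) (Ne.symm hc))
    omega

lemma abs_low_le (k : ℕ) : -(k : ℤ) ≤ low t k := by
  induction k with
  | zero => simp [low]
  | succ k ih => rw [low]; split_ifs <;> omega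

end low

/-- No big ascents: the row reading tableau. -/
def Term (n : ℕ) (t : ℕ → ℤ) : Prop := ∀ r, r + 1 < n → t (r + 1) ≤ t r + 1

section term

variable {n : ℕ} {t : ℕ → ℤ} (ht : t ∈ Std n) (hT : Term n t)
include ht hT

lemma term_gap {k : ℕ} (hk : k < n) :
    ∀ a, low t k ≤ a → a < t k - 1 → eta (st t k) a = 0 := by
  induction k with
  | zero => intro a h1 h2; rw [first_zero ht] at h2; simp [low] at h1; omega
  | succ k ih =>
    intro a h1 h2
    have h3 := hT k hk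
    have hk' : k < n := by omega
    obtain ⟨e1, e2⟩ := (valid_st ht hk'.le).hh_eq_one.1 (hh_st ht hk')
    rw [st_succ, eta_cons]
    rw [low] at h1
    by_cases h4 : a = t k - 1
    · rw [h4, e1]; split_ifs <;> omega
    · rw [if_neg (by omega), if_neg h4]
      split_ifs at h1 with hc
      · omega
      · have := ih hk' a h1 (by omega); omega

lemma term_rho {k : ℕ} (hk : k < n) : rho (st t k) (t k) = -low t (k + 1) - 1 := by
  have h1 := rho_low ht hk.le
  rw [low]
  split_ifs with hc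
  · rw [hc, h1]; omega
  · have h2 := low_gap ht hk hc
    have h3 := rho_const (μ := st t k) (a := low t k) (b := t k - 1) (by omega)
      (term_gap ht hT hk)
    have h4 := rho_succ (st t k) (t k - 1)
    rw [sub_add_cancel, ((valid_st ht hk.le).hh_eq_one.1 (hh_st ht hk)).1] at h4
    omega

lemma term_hh {k : ℕ} (hk : k < n) {x : ℤ} (hx : x < t k - 1) :
    hh (st t k) x = if x = low t k then 1 else 0 := by
  rw [hh_eq_eta]
  rcases lt_trichotomy x (low t k) with h | h | h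
  · rw [eta_below ht hk.le h, eta_below ht hk.le (by omega), if_neg h.ne]; ring
  · rw [if_pos h, h, eta_below ht hk.le (by omega), (low_spec ht hk.le).2.2]; ring
  · rw [if_neg h.ne', term_gap ht hT hk x h.le hx, term_gap ht hT hk (x - 1) (by omega) (by omega)]
    ring

end term

lemma count_st_mono (t : ℕ → ℤ) (c : ℤ) {k l : ℕ} (h : k ≤ l) :
    (st t k).count c ≤ (st t l).count c := by
  induction l, h using Nat.le_induction with
  | base => exact le_rfl
  | succ l _ ih => rw [st_succ, Multiset.count_cons]; omega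

lemma term_unique_aux {n : ℕ} {s t : ℕ → ℤ} (hs : s ∈ Std n) (ht : t ∈ Std n) (hT : Term n t)
    (e : st s n = st t n) {k : ℕ} (hk : k < n) (h : st s k = st t k) : s k ≤ t k := by
  by_contra hc
  push Not at hc
  have e1 := ((valid_st hs hk.le).hh_eq_one.1 (hh_st hs hk)).1
  rw [h] at e1
  have key : ∀ l, k ≤ l → l < n → t l < s k ∧ eta (st t l) (s k - 1) = 1
      ∧ (st t l).count (s k) = (st t k).count (s k) := by
    intro l hl
    induction l, hl using Nat.le_induction with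
    | base => exact fun _ => ⟨hc, e1, rfl⟩
    | succ l hl ih =>
      intro hn
      obtain ⟨i1, i2, i3⟩ := ih (by omega)
      have i4 := ((valid_st ht (k := l) (by omega)).hh_eq_one.1 (hh_st ht (by omega))).2
      have i5 : t l ≠ s k - 1 := by intro e; rw [e] at i4; omega
      have i6 := hT l hn
      refine ⟨by omega, ?_, ?_⟩
      · rw [st_succ, eta_cons, i2]; split_ifs <;> omega
      · rw [st_succ, Multiset.count_cons, i3, if_neg (by omega)]; rfl
  obtain ⟨m, rfl⟩ : ∃ m, n = m + 1 := ⟨n - 1, by omega⟩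
  obtain ⟨i1, -, i3⟩ := key m (by omega) (by omega)
  have a1 : (st t (m + 1)).count (s k) = (st t k).count (s k) := by
    rw [st_succ, Multiset.count_cons, i3, if_neg (by omega)]; rfl
  have a2 := count_st_mono s (s k) (k := k + 1) (l := m + 1) (by omega)
  rw [st_succ s k, Multiset.count_cons_self, e, a1, h] at a2
  omega

lemma eq_of_steps {n : ℕ} {s t : ℕ → ℤ} (hs : s ∈ Std n) (ht : t ∈ Std n)
    (h : ∀ k < n, st s k = st t k → s k = t k) : s = t := by
  have key : ∀ k ≤ n, ∀ j < k, s j = t j := by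
    intro k
    induction k with
    | zero => intro _ j hj; omega
    | succ k ih =>
      intro hk j hj
      rcases Nat.lt_or_ge j k with h1 | h1
      · exact ih (by omega) j h1
      · obtain rfl : j = k := by omega
        exact h j (by omega) (st_congr (ih (by omega)))
  funext j
  rcases Nat.lt_or_ge j n with h1 | h1
  · exact key n le_rfl j h1
  · rw [(mem_Std.1 hs).2 j h1, (mem_Std.1 ht).2 j h1]

lemma term_unique {n : ℕ} {s t : ℕ → ℤ} (hs : s ∈ Std n) (ht : t ∈ Std n) (hS : Term n s)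
    (hT : Term n t) (e : st s n = st t n) : s = t :=
  eq_of_steps hs ht fun _ hk h =>
    le_antisymm (term_unique_aux hs ht hT e hk h) (term_unique_aux ht hs hS e.symm hk h.symm)

/-- Twice the sum of the row indices of all boxes. -/
def ph (μ : Multiset ℤ) : ℤ := (μ.map fun b => (μ.count b : ℤ) - 1 + 2 * max 0 (-b)).sum

lemma sum_map_ite (μ : Multiset ℤ) (c : ℤ) :
    (μ.map fun b => if b = c then (1 : ℤ) else 0).sum = μ.count c := by
  induction μ using Multiset.induction_on with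
  | empty => simp
  | cons a μ ih =>
    rw [Multiset.map_cons, Multiset.sum_cons, ih, Multiset.count_cons]
    push_cast
    split_ifs <;> omega

lemma ph_cons (μ : Multiset ℤ) (c : ℤ) : ph (c ::ₘ μ) = ph μ + 2 * rho μ c := by
  unfold ph rho
  rw [Multiset.map_cons, Multiset.sum_cons, Multiset.count_cons_self]
  have : (μ.map fun b => (((c ::ₘ μ).count b : ℕ) : ℤ) - 1 + 2 * max 0 (-b))
      = μ.map fun b => ((μ.count b : ℤ) - 1 + 2 * max 0 (-b)) + if b = c then 1 else 0 := by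
    refine Multiset.map_congr rfl fun b _ => ?_
    rw [Multiset.count_cons]; push_cast; ring
  rw [this, Multiset.sum_map_add, sum_map_ite]
  push_cast; ring

lemma ph_st (t : ℕ → ℤ) (k : ℕ) : ph (st t k) = 2 * ∑ j ∈ range k, rho (st t j) (t j) := by
  induction k with
  | zero => simp [ph]
  | succ k ih => rw [st_succ, ph_cons, ih, sum_range_succ]; ring

/-- Dominance triangularity. -/
lemma term_triangular {n : ℕ} {u t : ℕ → ℤ} (hu : u ∈ Std n) (ht : t ∈ Std n) (hT : Term n t)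
    (h : ∀ k < n, t k ≠ low t k → u k ≠ low t k) : ph (st u n) < ph (st t n) ∨ u = t := by
  have h1 : ∀ k ≤ n, low t k ≤ low u k := by
    intro k
    induction k with
    | zero => simp [low]
    | succ k ih =>
      intro hk
      have i1 := ih (by omega)
      have i2 := h k (by omega)
      rw [low, low]
      split_ifs <;> omega
  have h2 : ∀ k ∈ range n, rho (st u k) (u k) ≤ rho (st t k) (t k) := by
    intro k hk
    have hk := mem_range.1 hk
    have := rho_le_low hu hk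
    have := term_rho ht hT hk
    have := h1 (k + 1) hk
    omega
  rcases (sum_le_sum h2).lt_or_eq with h3 | h3
  · left; rw [ph_st, ph_st]; omega
  · right
    have h4 := (sum_eq_sum_iff_of_le h2).1 h3
    refine eq_of_steps hu ht fun k hk e => ?_
    have h5 := h4 k (mem_range.2 hk)
    have h6 := hh_st hu hk
    rw [e] at h5 h6
    exact (valid_st ht hk.le).rho_inj h6 (hh_st ht hk) h5

lemma hh_neg (μ : Multiset ℤ) (c : ℤ) : hh (μ.map Neg.neg) (-c) = hh μ c := by
  induction μ using Multiset.induction_on with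
  | empty => simp [hh_zero]
  | cons b μ ih => rw [Multiset.map_cons, hh_cons, hh_cons, ih]; split_ifs <;> omega

lemma st_neg (t : ℕ → ℤ) (k : ℕ) : st (-t) k = (st t k).map Neg.neg := by
  simp [st]

lemma neg_mem {n : ℕ} {t : ℕ → ℤ} (ht : t ∈ Std n) : -t ∈ Std n := by
  refine mem_Std.2 ⟨fun k hk => ?_, fun k hk => ?_⟩
  · rw [st_neg, Pi.neg_apply, hh_neg]; exact hh_st ht hk
  · rw [Pi.neg_apply, (mem_Std.1 ht).2 k hk, neg_zero]

end Pool.Agent.P.MP_e72dc0_lc.Sn
end

-- part Pool.Agent.P.MP_e72dc0_lc.Sn.QNum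
section

/-! Quantum integers at a 2-adic parameter very close to `-1`. -/

namespace Pool.Agent.P.MP_e72dc0_lc.Sn

open Finset

/-- The quantum integer. -/
noncomputable def br (q : ℚ_[2]) (c : ℤ) : ℚ_[2] := (q ^ c - 1) / (q - 1)

structure Good (n : ℕ) (q : ℚ_[2]) (θ B : ℝ) : Prop where
  q1 : ‖q - 1‖ < 1
  qn : ‖q‖ = 1
  ne : ∀ c : ℤ, c ≠ 0 → q ^ c ≠ 1
  odd : ∀ c : ℤ, c % 2 = 1 → ‖br q c‖ = 1
  even_le : ∀ c : ℤ, c % 2 = 0 → ‖br q c‖ ≤ θ
  even_ge : ∀ c : ℤ, c % 2 = 0 → c ≠ 0 → |c| ≤ 2 * n + 2 → θ / B ≤ ‖br q c‖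
  θpos : 0 < θ
  θle : θ ≤ 1
  B1 : 1 ≤ B
  small : θ * B ^ (20 * n ^ 2 + 20) < 1

lemma norm_nat_ge {m : ℕ} (hm : m ≠ 0) : (1 : ℝ) / m ≤ ‖(m : ℚ_[2])‖ := by
  have h0 : (m : ℚ_[2]) ≠ 0 := by exact_mod_cast hm
  rw [Padic.norm_eq_zpow_neg_valuation h0, Padic.valuation_natCast, zpow_neg, zpow_natCast,
    one_div]
  have h1 : 2 ^ padicValNat 2 m ≤ m := Nat.le_of_dvd (Nat.pos_of_ne_zero hm) pow_padicValNat_dvd
  have h2 : ((2 : ℕ) : ℝ) ^ padicValNat 2 m ≤ m := by exact_mod_cast h1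
  exact inv_anti₀ (by positivity) h2

lemma one_add_pow_expand (w : ℚ_[2]) (hw : ‖w‖ ≤ 1) (m : ℕ) :
    ∃ z : ℚ_[2], ‖z‖ ≤ 1 ∧ (1 + w) ^ m = 1 + m * w + w ^ 2 * z := by
  induction m with
  | zero => exact ⟨0, by simp, by simp⟩
  | succ m ih =>
    obtain ⟨z, hz, h⟩ := ih
    refine ⟨m + z + w * z, ?_, ?_⟩
    · have h1 : ‖(m : ℚ_[2])‖ ≤ 1 := by exact_mod_cast Padic.norm_int_le_one (p := 2) (m : ℤ)
      have h2 : ‖w * z‖ ≤ 1 := by rw [norm_mul]; exact mul_le_one₀ hw (norm_nonneg _) hz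
      exact (Padic.nonarchimedean _ _).trans
        (max_le ((Padic.nonarchimedean _ _).trans (max_le h1 hz)) h2)
    · rw [pow_succ, h]; push_cast; ring

lemma norm_add_eq_left {a b : ℚ_[2]} (h : ‖b‖ < ‖a‖) : ‖a + b‖ = ‖a‖ := by
  rw [Padic.add_eq_max_of_ne h.ne', max_eq_left h.le]

lemma norm_zpow_neg_sub {q : ℚ_[2]} (hq : ‖q‖ = 1) (c : ℤ) :
    ‖q ^ (-c) - 1‖ = ‖q ^ c - 1‖ := by
  have h0 : q ≠ 0 := by intro h; rw [h] at hq; simp at hq
  have : q ^ (-c) - 1 = -(q ^ (-c)) * (q ^ c - 1) := by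
    rw [zpow_neg]; field_simp; ring
  rw [this, norm_mul, norm_neg, norm_zpow, hq, one_zpow, one_mul]

theorem exists_good (n : ℕ) : ∃ q θ B, Good n q θ B := by
  set B : ℝ := n + 1 with hB
  have hB1 : 1 ≤ B := by rw [hB]; linarith [Nat.cast_nonneg (α := ℝ) n]
  obtain ⟨N0, hN0⟩ := pow_unbounded_of_one_lt (B ^ (20 * n ^ 2 + 20)) (one_lt_two (α := ℝ))
  set N := N0 + 2 with hN
  set e : ℚ_[2] := (2 : ℚ_[2]) ^ N with he
  set θ : ℝ := ((2 : ℝ) ^ N)⁻¹ with hθ
  have hθ0 : 0 < θ := by positivity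
  have h2 : ‖(2 : ℚ_[2])‖ = 2⁻¹ := by exact_mod_cast Padic.norm_p (p := 2)
  have hen : ‖e‖ = θ := by rw [he, norm_pow, h2, inv_pow]
  have hθ4 : θ ≤ 4⁻¹ := by
    rw [hθ, hN, pow_add]
    have : (1 : ℝ) ≤ 2 ^ N0 := one_le_pow₀ one_le_two
    exact inv_anti₀ (by norm_num) (by nlinarith)
  have hsmall : θ * B ^ (20 * n ^ 2 + 20) < 1 := by
    rw [hθ, inv_mul_lt_iff₀ (by positivity), mul_one, hN, pow_add (2 : ℝ)]
    have : (0 : ℝ) < 2 ^ N0 := by positivity
    nlinarith
  have hθB : θ * B < 1 := by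
    refine lt_of_le_of_lt (mul_le_mul_of_nonneg_left ?_ hθ0.le) hsmall
    exact le_self_pow₀ hB1 (by omega)
  set q : ℚ_[2] := -1 + e with hq
  have hq1 : ‖q - 1‖ = 2⁻¹ := by
    have : q - 1 = -2 + e := by rw [hq]; ring
    rw [this, norm_add_eq_left, norm_neg, h2]
    rw [norm_neg, h2, hen]; linarith
  have hqn : ‖q‖ = 1 := by
    rw [hq, norm_add_eq_left, norm_neg, norm_one]
    rw [norm_neg, norm_one, hen]; linarith
  set w : ℚ_[2] := e * (q - 1) with hw
  have hwn : ‖w‖ = θ * 2⁻¹ := by rw [hw, norm_mul, hen, hq1]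
  have hqq : q ^ 2 = 1 + w := by rw [hw, hq]; ring
  have hw1 : ‖w‖ ≤ 1 := by rw [hwn]; linarith
  have hw0 : 0 < ‖w‖ := by rw [hwn]; positivity
  have heven_le : ∀ m : ℕ, ‖q ^ (2 * m) - 1‖ ≤ ‖w‖ := by
    intro m
    obtain ⟨z, hz, h⟩ := one_add_pow_expand w hw1 m
    have : q ^ (2 * m) - 1 = w * (m + w * z) := by rw [pow_mul, hqq, h]; ring
    rw [this, norm_mul]
    have h1 : ‖(m : ℚ_[2])‖ ≤ 1 := by exact_mod_cast Padic.norm_int_le_one (p := 2) (m : ℤ)
    have h3 : ‖w * z‖ ≤ 1 := by rw [norm_mul]; exact mul_le_one₀ hw1 (norm_nonneg _) hz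
    exact mul_le_of_le_one_right hw0.le ((Padic.nonarchimedean _ _).trans (max_le h1 h3))
  have heven_ge : ∀ m : ℕ, m ≠ 0 → m ≤ n + 1 → ‖w‖ / B ≤ ‖q ^ (2 * m) - 1‖ := by
    intro m hm hmn
    obtain ⟨z, hz, h⟩ := one_add_pow_expand w hw1 m
    have : q ^ (2 * m) - 1 = w * (m + w * z) := by rw [pow_mul, hqq, h]; ring
    have h1 : 1 / B ≤ ‖(m : ℚ_[2])‖ := by
      refine le_trans ?_ (norm_nat_ge hm)
      have : (m : ℝ) ≤ B := by rw [hB]; exact_mod_cast hmn
      exact one_div_le_one_div_of_le (by positivity) this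
    have h3 : ‖w * z‖ < 1 / B := by
      rw [norm_mul, lt_div_iff₀ (by positivity)]
      have : ‖w‖ * ‖z‖ ≤ θ := by
        rw [hwn]; nlinarith [norm_nonneg z]
      nlinarith
    rw [this, norm_mul w, norm_add_eq_left (h3.trans_le h1), div_eq_mul_one_div]
    exact mul_le_mul_of_nonneg_left h1 hw0.le
  have hodd : ∀ m : ℕ, ‖q ^ (2 * m + 1) - 1‖ = 2⁻¹ := by
    intro m
    have : q ^ (2 * m + 1) - 1 = (q - 1) + q * (q ^ (2 * m) - 1) := by ring
    rw [this, norm_add_eq_left, hq1]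
    rw [norm_mul, hqn, one_mul, hq1]
    refine (heven_le m).trans_lt ?_
    rw [hwn]; linarith
  have habs : ∀ c : ℤ, ‖q ^ c - 1‖ = ‖q ^ c.natAbs - 1‖ := by
    intro c
    rcases Int.natAbs_eq c with h | h
    · conv_lhs => rw [h, zpow_natCast]
    · conv_lhs => rw [h, norm_zpow_neg_sub hqn, zpow_natCast]
  have hbr : ∀ c : ℤ, ‖br q c‖ = ‖q ^ c.natAbs - 1‖ * 2 := by
    intro c
    rw [br, norm_div, habs, hq1]; ring
  refine ⟨q, θ, B, ⟨by rw [hq1]; norm_num, hqn, ?_, ?_, ?_, ?_, hθ0, by linarith, hB1, hsmall⟩⟩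
  · intro c hc h1
    have hqz : q = ((2 ^ N - 1 : ℚ) : ℚ_[2]) := by rw [hq, he]; push_cast; ring
    rw [hqz, ← Rat.cast_zpow] at h1
    replace h1 : (2 ^ N - 1 : ℚ) ^ c = 1 := by exact_mod_cast h1
    have h3 : (1 : ℚ) < 2 ^ N - 1 := by
      rw [hN, pow_add]
      have : (1 : ℚ) ≤ 2 ^ N0 := one_le_pow₀ one_le_two
      nlinarith
    exact hc ((zpow_eq_one_iff_right₀ (by linarith) h3.ne').1 h1)
  · intro c hc
    obtain ⟨m, hm⟩ : ∃ m, c.natAbs = 2 * m + 1 := ⟨c.natAbs / 2, by omega⟩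
    rw [hbr, hm, hodd]; norm_num
  · intro c hc
    obtain ⟨m, hm⟩ : ∃ m, c.natAbs = 2 * m := ⟨c.natAbs / 2, by omega⟩
    rw [hbr, hm]
    have := heven_le m
    rw [hwn] at this; linarith
  · intro c hc hc0 hcn
    obtain ⟨m, hm⟩ : ∃ m, c.natAbs = 2 * m := ⟨c.natAbs / 2, by omega⟩
    rw [hbr, hm]
    have h5 : m ≤ n + 1 := by
      have : (c.natAbs : ℤ) = |c| := Int.natCast_natAbs c
      omega
    have := heven_ge m (by omega) h5
    rw [hwn] at this
    have h6 : θ * 2⁻¹ / B * 2 = θ / B := by ring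
    linarith

namespace Good

variable {n : ℕ} {q : ℚ_[2]} {θ B : ℝ} (G : Good n q θ B)
include G

lemma q0 : q ≠ 0 := by intro h; have := G.qn; rw [h] at this; simp at this

lemma q_ne_one : q - 1 ≠ 0 := by
  have := G.ne 1 one_ne_zero
  rw [zpow_one] at this
  exact sub_ne_zero.2 this

lemma zpow_ne {a b : ℤ} (h : a ≠ b) : q ^ a ≠ q ^ b := by
  intro e
  apply G.ne (a - b) (sub_ne_zero.2 h)
  rw [zpow_sub₀ G.q0, e, div_self (zpow_ne_zero _ G.q0)]

lemma zpow_sub_ne {a b : ℤ} (h : a ≠ b) : q ^ a - q ^ b ≠ 0 := sub_ne_zero.2 (G.zpow_ne h)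

lemma br_ne {c : ℤ} (h : c ≠ 0) : br q c ≠ 0 :=
  div_ne_zero (sub_ne_zero.2 (G.ne c h)) G.q_ne_one

lemma norm_br_pos {c : ℤ} (h : c ≠ 0) : 0 < ‖br q c‖ := norm_pos_iff.2 (G.br_ne h)

lemma norm_br_le (c : ℤ) : ‖br q c‖ ≤ 1 := by
  rcases Int.emod_two_eq_zero_or_one c with h | h
  · exact (G.even_le c h).trans G.θle
  · exact (G.odd c h).le

lemma norm_qz (c : ℤ) : ‖q ^ c‖ = 1 := by rw [norm_zpow, G.qn, one_zpow]

lemma zpow_sub_zpow (a b : ℤ) : q ^ a - q ^ b = q ^ b * (q - 1) * br q (a - b) := by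
  have h0 := G.q0
  have h1 := G.q_ne_one
  rw [br, zpow_sub₀ h0]
  have := zpow_ne_zero b h0
  field_simp

lemma br_sub (a b : ℤ) : br q a - br q b = q ^ b * br q (a - b) := by
  have h1 := G.q_ne_one
  have h2 := G.zpow_sub_zpow a b
  have : br q a - br q b = (q ^ a - q ^ b) / (q - 1) := by unfold br; field_simp; ring
  rw [this, h2]; field_simp

lemma norm_br_sub (a b : ℤ) : ‖br q a - br q b‖ = ‖br q (a - b)‖ := by
  rw [G.br_sub, norm_mul, G.norm_qz, one_mul]

lemma norm_br_neg (c : ℤ) : ‖br q (-c)‖ = ‖br q c‖ := by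
  rw [br, br, norm_div, norm_div, norm_zpow_neg_sub G.qn]

lemma norm_zpow_sub (a b : ℤ) : ‖q ^ a - q ^ b‖ = ‖q - 1‖ * ‖br q (a - b)‖ := by
  rw [G.zpow_sub_zpow, norm_mul, norm_mul, G.norm_qz, one_mul]

lemma Bpos : 0 < B := lt_of_lt_of_le one_pos G.B1

lemma br_ge {c : ℤ} (h0 : c ≠ 0) (h : |c| ≤ 2 * n + 2) : θ / B ≤ ‖br q c‖ := by
  rcases Int.emod_two_eq_zero_or_one c with h1 | h1
  · exact G.even_ge c h1 h0 h
  · rw [G.odd c h1, div_le_one G.Bpos]; exact G.θle.trans G.B1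

end Good

end Pool.Agent.P.MP_e72dc0_lc.Sn
end

-- part Pool.Agent.P.MP_e72dc0_lc.Sn.Weights
section

/-! Multiplicative pairing with `hh`, transition weights and the Markov trace identities. -/

namespace Pool.Agent.P.MP_e72dc0_lc.Sn

open Finset
open scoped Classical

section lamM

variable {K : Type*} [Field K]

/-- The multiplicative version of `Lam`. -/
def LamM (μ : Multiset ℤ) (f : ℤ → K) : K :=
  f 0 * (μ.map fun b => f (b - 1) * f (b + 1) / f b ^ 2).prod

@[simp] lemma LamM_zero (f : ℤ → K) : LamM 0 f = f 0 := by simp [LamM]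

lemma LamM_cons (μ : Multiset ℤ) (b : ℤ) (f : ℤ → K) :
    LamM (b ::ₘ μ) f = LamM μ f * (f (b - 1) * f (b + 1) / f b ^ 2) := by
  simp only [LamM, Multiset.map_cons, Multiset.prod_cons]; ring

lemma LamM_mul (μ : Multiset ℤ) (f g : ℤ → K) :
    LamM μ (fun x => f x * g x) = LamM μ f * LamM μ g := by
  induction μ using Multiset.induction_on with
  | empty => simp
  | cons b μ ih => simp only [LamM_cons, ih]; ring

lemma LamM_one (μ : Multiset ℤ) : LamM μ (fun _ => (1 : K)) = 1 := by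
  induction μ using Multiset.induction_on with
  | empty => simp
  | cons b μ ih => simp only [LamM_cons, ih]; simp

lemma LamM_zpow (μ : Multiset ℤ) {a : K} (ha : a ≠ 0) (e : ℤ → ℤ) :
    LamM μ (fun x => a ^ e x) = a ^ Lam μ e := by
  induction μ using Multiset.induction_on with
  | empty => simp
  | cons b μ ih =>
    rw [LamM_cons, ih, Lam_cons, zpow_add₀ ha, zpow_sub₀ ha, zpow_add₀ ha, mul_comm 2 (e b),
      zpow_mul]
    norm_cast

lemma LamM_neg (μ : Multiset ℤ) (f : ℤ → K) :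
    LamM (μ.map Neg.neg) f = LamM μ fun x => f (-x) := by
  induction μ using Multiset.induction_on with
  | empty => simp
  | cons b μ ih =>
    rw [Multiset.map_cons, LamM_cons, LamM_cons, ih, mul_comm (f (-b - 1))]
    congr 4 <;> ring

lemma LamM_eq_prod (μ : Multiset ℤ) (f : ℤ → K) (hf : ∀ x, f x ≠ 0) (W : Finset ℤ)
    (hW : supp3 μ ⊆ W) : LamM μ f = ∏ c ∈ W, f c ^ hh μ c := by
  induction μ using Multiset.induction_on with
  | empty =>
    rw [LamM_zero, prod_eq_single_of_mem 0 (hW (zero_mem_supp3 _))]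
    · simp [hh_zero]
    · intro b _ hb; simp [hh_zero, hb]
  | cons b μ ih =>
    obtain ⟨h1, h2, h3⟩ := mem_supp3_cons μ b
    rw [LamM_cons, ih ((supp3_cons_subset μ b).trans hW)]
    have e : ∀ c, f c ^ hh (b ::ₘ μ) c = f c ^ hh μ c * (if c = b + 1 then f c else 1)
        * (if c = b - 1 then f c else 1) * (if c = b then (f c ^ 2)⁻¹ else 1) := by
      intro c
      rw [hh_cons, zpow_sub₀ (hf c), zpow_add₀ (hf c), zpow_add₀ (hf c)]
      split_ifs <;> simp [div_eq_mul_inv, zpow_ofNat]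
    simp only [e, prod_mul_distrib, prod_ite_eq', if_pos (hW h1), if_pos (hW h2), if_pos (hW h3)]
    ring

lemma LamM_valid {μ : Multiset ℤ} (h : Valid μ) (f : ℤ → K) (hf : ∀ x, f x ≠ 0) :
    LamM μ f = (∏ c ∈ add μ, f c) * (∏ c ∈ rem μ, f c)⁻¹ := by
  rw [LamM_eq_prod μ f hf _ subset_rfl]
  have e : ∀ c, f c ^ hh μ c
      = (if hh μ c = 1 then f c else 1) * (if hh μ c = -1 then (f c)⁻¹ else 1) := by
    intro c
    rcases h.hh_cases c with h1 | h1 | h1 <;> simp [h1]
  simp only [e, prod_mul_distrib]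
  rw [← prod_filter, ← prod_filter, prod_inv_distrib]
  congr 3
  ext c
  rw [mem_rem, mem_filter]
  exact ⟨fun h => h.2, fun h => ⟨mem_supp3_of_ne (by omega), h⟩⟩

lemma Lam_const (μ : Multiset ℤ) (a : ℤ) : Lam μ (fun _ => a) = a := by
  induction μ using Multiset.induction_on with
  | empty => simp
  | cons b μ ih => rw [Lam_cons, ih]; ring

lemma Lam_id (μ : Multiset ℤ) : Lam μ (fun x => x) = 0 := by
  induction μ using Multiset.induction_on with
  | empty => simp
  | cons b μ ih => rw [Lam_cons, ih]; ring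

lemma Lam_neg' (μ : Multiset ℤ) (e : ℤ → ℤ) : Lam μ (fun x => -e x) = -Lam μ e := by
  induction μ using Multiset.induction_on with
  | empty => simp
  | cons b μ ih => rw [Lam_cons, Lam_cons, ih]; ring

lemma card_add {μ : Multiset ℤ} (h : Valid μ) : (add μ).card = (rem μ).card + 1 := by
  have h1 := LamM_valid h (fun _ => (2 : ℚ)) (fun _ => two_ne_zero)
  have h2 := LamM_zpow μ (two_ne_zero (α := ℚ)) (fun _ => 1)
  simp only [zpow_one, Lam_const] at h2
  rw [h2, prod_const, prod_const] at h1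
  have h3 : (2 : ℚ) ^ (add μ).card = 2 ^ ((rem μ).card + 1) := by
    rw [pow_succ]; field_simp at h1; linarith
  exact pow_right_injective₀ two_pos (by norm_num) h3

end lamM

lemma norm_LamM {K : Type*} [NormedField K] (μ : Multiset ℤ) (f : ℤ → K) :
    ‖LamM μ f‖ = LamM μ fun x => ‖f x‖ := by
  induction μ using Multiset.induction_on with
  | empty => simp
  | cons b μ ih => simp only [LamM_cons, norm_mul, norm_div, norm_pow, ih]

lemma LamM_pos (μ : Multiset ℤ) (f : ℤ → ℝ) (hf : ∀ x, 0 < f x) : 0 < LamM μ f := by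
  induction μ using Multiset.induction_on with
  | empty => simpa using hf 0
  | cons b μ ih =>
    rw [LamM_cons]
    have := hf (b - 1); have := hf (b + 1); have := hf b
    positivity

lemma LamM_le (μ : Multiset ℤ) (f g : ℤ → ℝ) {B : ℝ} (hB : 1 ≤ B) (hg : ∀ x, 0 < g x)
    (h1 : ∀ x, g x ≤ f x) (h2 : ∀ x ∈ supp3 μ, f x ≤ B * g x) :
    LamM μ f ≤ LamM μ g * B ^ (2 * Multiset.card μ + 1) := by
  have hf : ∀ x, 0 < f x := fun x => (hg x).trans_le (h1 x)
  induction μ using Multiset.induction_on with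
  | empty => simpa [mul_comm] using h2 0 (zero_mem_supp3 _)
  | cons b μ ih =>
    obtain ⟨m1, -, m3⟩ := mem_supp3_cons μ b
    have i1 := ih fun x hx => h2 x (supp3_cons_subset μ b hx)
    have i2 : f (b - 1) * f (b + 1) / f b ^ 2 ≤ g (b - 1) * g (b + 1) / g b ^ 2 * B ^ 2 := by
      have a1 := hg (b - 1); have a2 := hg (b + 1); have a3 := hg b
      calc _ ≤ (B * g (b - 1)) * (B * g (b + 1)) / g b ^ 2 := by
            gcongr
            · exact (hf _).le
            · exact h2 _ m1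
            · exact h2 _ m3
            · exact h1 b
        _ = _ := by ring
    rw [LamM_cons, LamM_cons, Multiset.card_cons]
    have a1 := hf (b - 1); have a2 := hf (b + 1); have a3 := hf b
    have a4 := LamM_pos μ g hg
    calc _ ≤ (LamM μ g * B ^ (2 * Multiset.card μ + 1))
          * (g (b - 1) * g (b + 1) / g b ^ 2 * B ^ 2) := by gcongr
      _ = _ := by ring

/-- Transition weight for adding the content `c` to `μ`. -/
noncomputable def pw (q : ℚ_[2]) (μ : Multiset ℤ) (c : ℤ) : ℚ_[2] :=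
  q ^ (-c) * LamM μ fun x => if x = c then 1 else (q ^ c - q ^ x)⁻¹

/-- Weight of a tableau (inverse Schur element). -/
noncomputable def mw (q : ℚ_[2]) (n : ℕ) (t : ℕ → ℤ) : ℚ_[2] := ∏ k ∈ range n, pw q (st t k) (t k)

/-- Diagonal seminormal coefficient. -/
noncomputable def aa (q : ℚ_[2]) (c d : ℤ) : ℚ_[2] := (q - 1) * q ^ d / (q ^ d - q ^ c)

/-- Off-diagonal seminormal coefficient. -/
noncomputable def bb (q : ℚ_[2]) (c d : ℤ) : ℚ_[2] :=
  if 2 ≤ |c - d| then (q * q ^ c - q ^ d) / (q ^ c - q ^ d) else 0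

/-- Norm of the leading coefficient (Gram determinant factor). -/
noncomputable def gw (q : ℚ_[2]) (n : ℕ) (t : ℕ → ℤ) : ℝ :=
  ∏ k ∈ range n, LamM (st t k) fun x => if x < t k then ‖br q (t k - x)‖ else 1

namespace Good

variable {n : ℕ} {q : ℚ_[2]} {θ B : ℝ} (G : Good n q θ B)
include G

lemma pw_eq {μ : Multiset ℤ} (h : Valid μ) {c : ℤ} (hc : c ∈ add μ) :
    pw q μ c = q ^ (-c) * (Lagrange.nodalWeight (add μ) (fun x => q ^ x) c
      * ∏ b ∈ rem μ, (q ^ c - q ^ b)) := by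
  unfold pw
  rw [LamM_valid h _ fun x => by
    split_ifs with hx
    · exact one_ne_zero
    · exact inv_ne_zero (G.zpow_sub_ne (Ne.symm hx))]
  congr 2
  · rw [← mul_prod_erase _ _ hc, if_pos rfl, one_mul, Lagrange.nodalWeight]
    exact prod_congr rfl fun x hx => if_neg (mem_erase.1 hx).1
  · rw [← prod_inv_distrib]
    refine prod_congr rfl fun x hx => ?_
    have : x ≠ c := by
      intro e
      have h1 := mem_rem.1 hx
      have h2 := mem_add.1 hc
      rw [e] at h1; omega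
    rw [if_neg this, inv_inv]

lemma lagrange {μ : Multiset ℤ} (h : Valid μ) (u : ℚ_[2]) (hu : ∀ c ∈ add μ, u ≠ q ^ c) :
    ∏ b ∈ rem μ, (u - q ^ b) = (∏ c ∈ add μ, (u - q ^ c))
      * ∑ c ∈ add μ, (u - q ^ c)⁻¹ * q ^ c * pw q μ c := by
  have hinj : Set.InjOn (fun x : ℤ => q ^ x) (add μ) := by
    intro a _ b _ e
    by_contra hn
    exact G.zpow_ne hn e
  have hdeg : (Lagrange.nodal (rem μ) fun x : ℤ => q ^ x).degree < (add μ).card := by
    rw [Lagrange.degree_nodal, card_add h]; exact_mod_cast Nat.lt_succ_self _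
  have h1 := congrArg (Polynomial.eval u) (Lagrange.eq_interpolate hinj hdeg)
  rw [Lagrange.eval_interpolate_not_at_node _ hu, Lagrange.eval_nodal, Lagrange.eval_nodal] at h1
  rw [h1]
  congr 1
  refine sum_congr rfl fun c hc => ?_
  rw [G.pw_eq h hc, Lagrange.eval_nodal, zpow_neg]
  have := zpow_ne_zero c G.q0
  field_simp

lemma sum_pw {μ : Multiset ℤ} (h : Valid μ) : ∑ c ∈ add μ, pw q μ c = 1 := by
  have h0 := G.q0
  have h1 := G.lagrange h 0 fun c _ => (zpow_ne_zero c h0).symm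
  have h2 := LamM_valid h (fun x => q ^ x) fun x => zpow_ne_zero x h0
  rw [LamM_zpow μ h0 (fun x => x), Lam_id, zpow_zero] at h2
  have h3 : ∏ c ∈ rem μ, q ^ c ≠ 0 := prod_ne_zero_iff.2 fun x _ => zpow_ne_zero x h0
  have h4 : ∏ c ∈ add μ, q ^ c = ∏ c ∈ rem μ, q ^ c := by field_simp at h2; exact h2.symm
  have h5 : ∑ c ∈ add μ, (0 - q ^ c)⁻¹ * q ^ c * pw q μ c = -∑ c ∈ add μ, pw q μ c := by
    rw [← sum_neg_distrib]
    refine sum_congr rfl fun c _ => ?_
    have := zpow_ne_zero c h0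
    rw [zero_sub]; field_simp
  simp only [zero_sub] at h1 h5
  rw [h5, prod_neg, prod_neg, h4, card_add h, pow_succ] at h1
  have h6 : ((-1 : ℚ_[2]) ^ (rem μ).card * ∏ c ∈ rem μ, q ^ c) ≠ 0 :=
    mul_ne_zero (pow_ne_zero _ (by norm_num)) h3
  apply mul_left_cancel₀ h6
  rw [mul_one]
  conv_rhs => rw [h1]
  ring

lemma sum_pw_aa {μ : Multiset ℤ} (h : Valid μ) {b : ℤ} (hb : hh μ b = -1) :
    ∑ c ∈ add μ, pw q μ c * aa q b c = 0 := by
  have hne : ∀ c ∈ add μ, b ≠ c := by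
    intro c hc e
    have h2 := mem_add.1 hc
    rw [← e] at h2; omega
  have h1 := G.lagrange h (q ^ b) fun c hc => G.zpow_ne (hne c hc)
  rw [prod_eq_zero (f := fun x => q ^ b - q ^ x) (mem_rem.2 hb) (sub_self _)] at h1
  have h2 := (mul_eq_zero.1 h1.symm).resolve_left
    (prod_ne_zero_iff.2 fun c hc => G.zpow_sub_ne (hne c hc))
  have h3 : ∑ c ∈ add μ, pw q μ c * aa q b c
      = -(q - 1) * ∑ c ∈ add μ, (q ^ b - q ^ c)⁻¹ * q ^ c * pw q μ c := by
    rw [mul_sum]
    refine sum_congr rfl fun c hc => ?_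
    have a1 := G.zpow_sub_ne (hne c hc)
    have a2 := G.zpow_sub_ne (hne c hc).symm
    unfold aa
    field_simp
    ring
  rw [h3, h2, mul_zero]

lemma pw_swap (μ : Multiset ℤ) {c d : ℤ} (h : 2 ≤ |c - d|) :
    pw q μ c * pw q (c ::ₘ μ) d = pw q μ d * pw q (d ::ₘ μ) c := by
  have h3 : c - d ≤ -2 ∨ 2 ≤ c - d := by rcases le_abs'.1 h with h | h <;> omega
  have h0 := G.q0
  have a1 := G.zpow_sub_ne (a := d) (b := c - 1) (by omega)
  have a2 := G.zpow_sub_ne (a := d) (b := c + 1) (by omega)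
  have a3 := G.zpow_sub_ne (a := d) (b := c) (by omega)
  have a4 := G.zpow_sub_ne (a := c) (b := d - 1) (by omega)
  have a5 := G.zpow_sub_ne (a := c) (b := d + 1) (by omega)
  have a6 := G.zpow_sub_ne (a := c) (b := d) (by omega)
  have key : (q ^ d - q ^ (c - 1))⁻¹ * (q ^ d - q ^ (c + 1))⁻¹ / (q ^ d - q ^ c)⁻¹ ^ 2
      = (q ^ c - q ^ (d - 1))⁻¹ * (q ^ c - q ^ (d + 1))⁻¹ / (q ^ c - q ^ d)⁻¹ ^ 2 := by
    have e : (q ^ d - q ^ (c - 1)) * (q ^ d - q ^ (c + 1))
        = (q ^ c - q ^ (d - 1)) * (q ^ c - q ^ (d + 1)) := by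
      rw [zpow_sub_one₀ h0, zpow_add_one₀ h0, zpow_sub_one₀ h0, zpow_add_one₀ h0]
      field_simp; ring
    rw [← mul_inv, ← mul_inv, e, inv_pow, inv_pow]
    congr 2; ring
  unfold pw
  rw [LamM_cons, LamM_cons, if_neg (by omega), if_neg (by omega), if_neg (by omega),
    if_neg (by omega), if_neg (by omega), if_neg (by omega), key]
  ring

lemma mw_sw (t : ℕ → ℤ) {r m : ℕ} (hr : r + 1 < m) (h : 2 ≤ |t r - t (r + 1)|) :
    mw q m (sw r t) = mw q m t := by
  obtain ⟨Z, h1, h2⟩ := prod_sw (pw q) t hr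
  unfold mw
  rw [h1, h2, G.pw_swap _ h]

lemma norm_pw {μ : Multiset ℤ} {c : ℤ} (hc : hh μ c = 1) :
    ‖pw q μ c‖ = LamM μ fun x => if x = c then 1 else ‖br q (c - x)‖⁻¹ := by
  have h1 : ‖q - 1‖ ≠ 0 := norm_ne_zero_iff.2 G.q_ne_one
  unfold pw
  rw [norm_mul, G.norm_qz, one_mul, norm_LamM]
  have e : (fun x => ‖if x = c then (1 : ℚ_[2]) else (q ^ c - q ^ x)⁻¹‖)
      = fun x => (if x = c then 1 else ‖br q (c - x)‖⁻¹)
        * ‖q - 1‖ ^ ((if x = c then 1 else 0) - 1 : ℤ) := by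
    funext x
    split_ifs
    · simp
    · rw [norm_inv, G.norm_zpow_sub, mul_inv]; simp [mul_comm]
  rw [e, LamM_mul, LamM_zpow _ h1, Lam_sub, Lam_single, Lam_const, hc]
  simp

lemma gw_pos (m : ℕ) (t : ℕ → ℤ) : 0 < gw q m t :=
  prod_pos fun k _ => LamM_pos _ _ fun x => by
    split_ifs with h
    · exact G.norm_br_pos (by omega)
    · exact one_pos

lemma gw_mul_neg {m : ℕ} {t : ℕ → ℤ} (ht : t ∈ Std m) :
    gw q m t * gw q m (-t) * ‖mw q m t‖ = 1 := by
  unfold gw mw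
  rw [norm_prod, ← prod_mul_distrib, ← prod_mul_distrib]
  refine prod_eq_one fun k hk => ?_
  rw [G.norm_pw (hh_st ht (mem_range.1 hk)), st_neg, LamM_neg, ← LamM_mul, ← LamM_mul]
  refine Eq.trans ?_ (LamM_one (st t k))
  congr 1
  funext x
  rw [Pi.neg_apply]
  rcases lt_trichotomy x (t k) with h | h | h
  · rw [if_pos h, if_neg (by omega), if_neg h.ne, mul_one,
      mul_inv_cancel₀ (G.norm_br_pos (by omega)).ne']
  · rw [if_neg (by omega), if_neg (by omega), if_pos h]; simp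
  · rw [if_neg (by omega), if_pos (by omega), if_neg h.ne', one_mul,
      show -t k - -x = -(t k - x) by ring, G.norm_br_neg,
      mul_inv_cancel₀ (G.norm_br_pos (by omega)).ne']

omit G in
lemma gw_sw (t : ℕ → ℤ) {r m : ℕ} (hr : r + 1 < m) (h : t (r + 1) + 2 ≤ t r) :
    gw q m (sw r t) = gw q m t * (‖br q (t r - t (r + 1) - 1)‖ * ‖br q (t r - t (r + 1) + 1)‖
      / ‖br q (t r - t (r + 1))‖ ^ 2) := by
  obtain ⟨Z, h1, h2⟩ :=
    prod_sw (fun μ c => LamM μ fun x => if x < c then ‖br q (c - x)‖ else 1) t hr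
  unfold gw
  rw [h1, h2, LamM_cons, LamM_cons, if_pos (by omega), if_pos (by omega), if_pos (by omega),
    if_neg (by omega), if_neg (by omega), if_neg (by omega),
    show t r - (t (r + 1) - 1) = t r - t (r + 1) + 1 by ring,
    show t r - (t (r + 1) + 1) = t r - t (r + 1) - 1 by ring]
  ring

lemma norm_mw_le {t : ℕ → ℤ} (ht : t ∈ Std n) :
    ‖mw q n t‖ ≤ θ ^ (-ww t n) * B ^ (n * (2 * n + 1)) := by
  have hθ := G.θpos
  have hB := G.Bpos
  have key : ∀ k ∈ range n, ‖pw q (st t k) (t k)‖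
      ≤ θ ^ (-wStep (st t k) (t k)) * B ^ (2 * n + 1) := by
    intro k hk
    have hk := mem_range.1 hk
    rw [G.norm_pw (hh_st ht hk), wStep, ← Lam_neg', ← LamM_zpow _ hθ.ne']
    refine (LamM_le _ _
      (fun x => θ ^ (-(if x % 2 = t k % 2 ∧ x ≠ t k then 1 else 0) : ℤ)) G.B1 (fun x => by positivity) (fun x => ?_) (fun x hx => ?_)).trans ?_
    · by_cases h1 : x = t k
      · simp [h1]
      rw [if_neg h1]
      have h2 := G.norm_br_pos (c := t k - x) (by omega)
      split_ifs with h3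
      · rw [zpow_neg, zpow_one]
        exact inv_anti₀ h2 (G.even_le _ (by omega))
      · rw [neg_zero, zpow_zero]
        exact (one_le_inv₀ h2).2 (G.norm_br_le _)
    · by_cases h1 : x = t k
      · simpa [h1] using G.B1
      rw [if_neg h1]
      have h2 := G.norm_br_pos (c := t k - x) (by omega)
      split_ifs with h3
      · have h4 : |t k - x| ≤ 2 * n + 2 := by
          have a1 := abs_le.1 (abs_le_n ht k)
          simp only [supp3, mem_insert, mem_biUnion, Multiset.mem_toFinset, mem_singleton] at hx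
          rcases hx with hx | ⟨b, hb, hx⟩
          · rw [abs_le]; omega
          · have a2 := abs_le.1 (abs_le_of_mem_st ht hb)
            rw [abs_le]; omega
        have h5 := G.br_ge (c := t k - x) (by omega) h4
        rw [zpow_neg, zpow_one, ← div_eq_mul_inv, ← inv_div]
        exact inv_anti₀ (by positivity) h5
      · rw [G.odd _ (by omega)]; simpa using G.B1
    · rw [card_st]
      have := LamM_pos (st t k) (fun x => θ ^ (-(if x % 2 = t k % 2 ∧ x ≠ t k then 1 else 0) : ℤ))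
        fun x => by positivity
      gcongr
      exact G.B1
  unfold mw ww
  rw [norm_prod]
  refine (prod_le_prod (fun _ _ => norm_nonneg _) key).trans (le_of_eq ?_)
  rw [prod_mul_distrib, prod_const, card_range, ← pow_mul, mul_comm (2 * n + 1), ← sum_neg_distrib]
  congr 1
  induction (range n) using Finset.induction_on with
  | empty => simp
  | insert a s ha ih => rw [prod_insert ha, sum_insert ha, ih, zpow_add₀ hθ.ne']

end Good

end Pool.Agent.P.MP_e72dc0_lc.Sn
end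

-- part Pool.Agent.P.MP_e72dc0_lc.Sn.Rep
section

/-! The seminormal representation of the Hecke algebra and its Markov trace. -/

namespace Pool.Agent.P.MP_e72dc0_lc.Sn

open Finset
open scoped Classical

abbrev Fn := (ℕ → ℤ) → ℚ_[2]
abbrev Mat (n : ℕ) := Matrix (Std n) (Std n) ℚ_[2]

/-- The formal operator on functions of all sequences. -/
noncomputable def Tf (q : ℚ_[2]) (r : ℕ) (f : Fn) : Fn :=
  fun t => aa q (t r) (t (r + 1)) * f t + bb q (t r) (t (r + 1)) * f (sw r t)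

/-- The seminormal matrix. -/
noncomputable def Tm (q : ℚ_[2]) (n r : ℕ) : Mat n := fun s t =>
  (if t = s then aa q (s.1 r) (s.1 (r + 1)) else 0)
    + (if t.1 = sw r s.1 then bb q (s.1 r) (s.1 (r + 1)) else 0)

def Compat {n : ℕ} (S : Fn → Fn) (M : Mat n) : Prop :=
  ∀ (f : Fn) (s : Std n), S f s.1 = ∑ t, M s t * f t.1

lemma bb_ne {q : ℚ_[2]} {c d : ℤ} (h : bb q c d ≠ 0) : 2 ≤ |c - d| := by
  by_contra hn
  exact h (if_neg hn)

lemma compat_T (q : ℚ_[2]) {n r : ℕ} (h : r + 1 < n) : Compat (Tf q r) (Tm q n r) := by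
  intro f s
  simp only [Tm, Tf, add_mul, sum_add_distrib, ite_mul, zero_mul, sum_ite_eq', mem_univ, if_true]
  congr 1
  by_cases hb : bb q (s.1 r) (s.1 (r + 1)) = 0
  · simp [hb]
  · rw [sum_eq_single ⟨sw r s.1, sw_mem s.2 h (bb_ne hb)⟩]
    · simp
    · intro t _ ht
      exact if_neg fun e => ht (Subtype.ext e)
    · simp

lemma Compat.mul {n : ℕ} {S S' : Fn → Fn} {M M' : Mat n} (h : Compat S M) (h' : Compat S' M') :
    Compat (fun f => S (S' f)) (M * M') := by
  intro f s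
  beta_reduce
  rw [h]
  simp only [Matrix.mul_apply, sum_mul, h' f, mul_sum, mul_assoc]
  exact sum_comm

lemma Compat.add {n : ℕ} {S S' : Fn → Fn} {M M' : Mat n} (h : Compat S M) (h' : Compat S' M') :
    Compat (fun f t => S f t + S' f t) (M + M') := by
  intro f s
  simp only [h f, h' f, Matrix.add_apply, add_mul, sum_add_distrib]

lemma Compat.smul {n : ℕ} {S : Fn → Fn} {M : Mat n} (h : Compat S M) (a : ℚ_[2]) :
    Compat (fun f t => a * S f t) (a • M) := by
  intro f s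
  simp only [h f, Matrix.smul_apply, smul_eq_mul, mul_sum, mul_assoc]

lemma compat_diag {n : ℕ} (g : Fn) :
    Compat (fun f t => g t * f t) (Matrix.diagonal fun s : Std n => g s.1) := by
  intro f s
  simp [Matrix.diagonal_apply]

lemma compat_one {n : ℕ} : Compat (fun f => f) (1 : Mat n) := by
  intro f s
  simp [Matrix.one_apply]

lemma Compat.entry {n : ℕ} {S : Fn → Fn} {M : Mat n} (h : Compat S M) (s t : Std n) :
    M s t = S (fun u => if u = t.1 then 1 else 0) s.1 := by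
  rw [h]
  simp [Subtype.val_inj]

lemma Compat.ext {n : ℕ} {S S' : Fn → Fn} {M M' : Mat n} (h : Compat S M) (h' : Compat S' M')
    (e : ∀ f t, t ∈ Std n → S f t = S' f t) : M = M' := by
  funext s t
  rw [h.entry, h'.entry, e _ _ s.2]

lemma sw_comm {r s : ℕ} (h : r + 2 ≤ s) (t : ℕ → ℤ) : sw r (sw s t) = sw s (sw r t) := by
  funext j
  simp only [sw]
  split_ifs <;> first | rfl | omega

lemma sw_braid (r : ℕ) (t : ℕ → ℤ) :
    sw r (sw (r + 1) (sw r t)) = sw (r + 1) (sw r (sw (r + 1) t)) := by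
  funext j
  simp only [sw]
  split_ifs <;> first | rfl | omega

/-- Head of `c`, tail of `e`. -/
def glue (k : ℕ) (c e : ℕ → ℤ) : ℕ → ℤ := fun j => if j < k then c j else e j

lemma glue_self (k : ℕ) (c : ℕ → ℤ) : glue k c c = c := by funext j; simp [glue]

lemma sw_glue {r k : ℕ} (h : r + 1 < k) (c e : ℕ → ℤ) :
    sw r (glue k c e) = glue k (sw r c) e := by
  funext j
  simp only [sw, glue]
  split_ifs <;> first | rfl | omega

/-- The matrix only acts on the first `k` positions. -/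
def Loc {n : ℕ} (k : ℕ) (M : Mat n) : Prop :=
  ∃ S : Fn → Fn, Compat S M ∧ ∀ e f c, S f (glue k c e) = S (fun u => f (glue k u e)) c

lemma loc_T (q : ℚ_[2]) {n r k : ℕ} (h : r + 1 < n) (hk : r + 1 < k) : Loc k (Tm q n r) := by
  refine ⟨Tf q r, compat_T q h, fun e f c => ?_⟩
  have e1 : glue k c e r = c r := if_pos (by omega)
  have e2 : glue k c e (r + 1) = c (r + 1) := if_pos hk
  simp only [Tf, e1, e2, sw_glue hk]

lemma Loc.mul {n k : ℕ} {M M' : Mat n} (h : Loc k M) (h' : Loc k M') : Loc k (M * M') := by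
  obtain ⟨S, h1, h2⟩ := h
  obtain ⟨S', h3, h4⟩ := h'
  refine ⟨_, h1.mul h3, fun e f c => ?_⟩
  simp only [h2, h4]

lemma Loc.add {n k : ℕ} {M M' : Mat n} (h : Loc k M) (h' : Loc k M') : Loc k (M + M') := by
  obtain ⟨S, h1, h2⟩ := h
  obtain ⟨S', h3, h4⟩ := h'
  refine ⟨_, h1.add h3, fun e f c => ?_⟩
  simp only [h2, h4]

lemma loc_scalar {n k : ℕ} (a : ℚ_[2]) : Loc k (a • (1 : Mat n)) :=
  ⟨_, compat_one.smul a, fun _ _ _ => rfl⟩

lemma Loc.offdiag {n k : ℕ} {M : Mat n} (h : Loc k M) {s t : Std n} (hk : s.1 k ≠ t.1 k) :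
    M s t = 0 := by
  obtain ⟨S, h1, h2⟩ := h
  rw [h1.entry, ← glue_self k s.1, h2, h1]
  refine sum_eq_zero fun u _ => ?_
  rw [if_neg, mul_zero]
  intro e
  apply hk
  rw [← e]; simp [glue]

lemma Loc.diag {n k : ℕ} {M : Mat n} (h : Loc k M) : ∃ g : Fn,
    (∀ s t : ℕ → ℤ, (∀ j < k, s j = t j) → g s = g t) ∧ ∀ s, M s s = g s.1 := by
  obtain ⟨S, h1, h2⟩ := h
  refine ⟨fun t => S (fun u => if glue k u 0 = glue k t 0 then 1 else 0) (glue k t 0),
    fun s t hst => ?_, fun s => ?_⟩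
  · have : glue k s 0 = glue k t 0 := by
      funext j; simp only [glue]; split_ifs with hj
      · exact hst j hj
      · rfl
    simp only [this]
  · rw [h1.entry]
    conv_lhs => rw [← glue_self k s.1, h2]
    beta_reduce
    rw [h2]
    congr 1
    funext u
    have e1 : glue k (glue k u 0) 0 = glue k u 0 := by
      funext j; simp only [glue]; split_ifs <;> rfl
    rw [e1]
    congr 1
    apply propext
    constructor
    · intro e
      funext j
      have := congrFun e j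
      simp only [glue] at this ⊢
      split_ifs at this ⊢
      · exact this
      · rfl
    · intro e
      funext j
      have := congrFun e j
      simp only [glue] at this ⊢
      split_ifs at this ⊢
      · exact this
      · rfl

/-- The trace form. -/
noncomputable def tau (q : ℚ_[2]) {n : ℕ} (M : Mat n) : ℚ_[2] := ∑ s, mw q n s.1 * M s s

lemma tau_add (q : ℚ_[2]) {n : ℕ} (M M' : Mat n) : tau q (M + M') = tau q M + tau q M' := by
  simp only [tau, Matrix.add_apply, mul_add, sum_add_distrib]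

lemma tau_smul (q a : ℚ_[2]) {n : ℕ} (M : Mat n) : tau q (a • M) = a * tau q M := by
  simp only [tau, Matrix.smul_apply, smul_eq_mul, mul_sum, mul_left_comm]

lemma mw_update (q : ℚ_[2]) (m : ℕ) (t : ℕ → ℤ) (c : ℤ) :
    mw q (m + 1) (Function.update t m c) = mw q m t * pw q (st t m) c := by
  unfold mw
  rw [prod_range_succ, st_update _ _ le_rfl, Function.update_self]
  congr 1
  refine prod_congr rfl fun k hk => ?_
  have := mem_range.1 hk
  rw [st_update _ _ this.le, Function.update_of_ne this.ne]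

lemma Tm_ne {q : ℚ_[2]} {n r : ℕ} {s t : Std n} (h : Tm q n r s t ≠ 0) :
    t = s ∨ (t.1 = sw r s.1 ∧ 2 ≤ |s.1 r - s.1 (r + 1)|) := by
  by_contra hn
  push Not at hn
  apply h
  unfold Tm
  rw [if_neg hn.1, zero_add]
  split_ifs with h1
  · exact if_neg (not_le.2 (hn.2 h1))
  · rfl

lemma sw_ne_self {n r : ℕ} {t : ℕ → ℤ} (ht : t ∈ Std n) (h : r + 1 < n) : t ≠ sw r t := by
  intro e
  have := congrFun e r
  rw [sw_fst] at this
  exact ne_succ ht h this

lemma Tm_diag (q : ℚ_[2]) {n r : ℕ} (h : r + 1 < n) (s : Std n) :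
    Tm q n r s s = aa q (s.1 r) (s.1 (r + 1)) := by
  unfold Tm
  rw [if_pos rfl, if_neg (sw_ne_self s.2 h), add_zero]

lemma Tm_off (q : ℚ_[2]) {n r : ℕ} (h : r + 1 < n) {s t : Std n} (e : t.1 = sw r s.1) :
    Tm q n r s t = bb q (s.1 r) (s.1 (r + 1)) := by
  unfold Tm
  rw [if_pos e, if_neg, zero_add]
  rintro rfl
  exact sw_ne_self t.2 h e

namespace Good

variable {n : ℕ} {q : ℚ_[2]} {θ B : ℝ} (G : Good n q θ B)
include G

lemma aa_add {c d : ℤ} (h : c ≠ d) : aa q c d + aa q d c = q - 1 := by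
  have a1 := G.zpow_sub_ne h
  have a2 := G.zpow_sub_ne h.symm
  unfold aa; field_simp; ring

lemma bb_mul {c d : ℤ} (h : c ≠ d) : bb q c d * bb q d c = q + aa q c d * aa q d c := by
  have a1 := G.zpow_sub_ne h
  have a2 := G.zpow_sub_ne h.symm
  have h0 := G.q0
  unfold bb aa
  rw [abs_sub_comm d c]
  split_ifs with h1
  · field_simp; ring
  · have : d = c + 1 ∨ c = d + 1 := by
      have := abs_lt.1 (not_le.1 h1); omega
    have h2 := G.q_ne_one
    have key : ∀ c : ℤ, (0 : ℚ_[2]) * 0 = q + (q - 1) * q ^ (c + 1) / (q ^ (c + 1) - q ^ c)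
        * ((q - 1) * q ^ c / (q ^ c - q ^ (c + 1))) := by
      intro c
      have h3 := zpow_ne_zero c h0
      have e1 : q ^ (c + 1) - q ^ c = q ^ c * (q - 1) := by rw [zpow_add_one₀ h0]; ring
      have e2 : q ^ c - q ^ (c + 1) = -(q ^ c * (q - 1)) := by rw [zpow_add_one₀ h0]; ring
      rw [e1, e2, zpow_add_one₀ h0]; field_simp; ring
    rcases this with rfl | rfl
    · exact key c
    · rw [mul_comm (_ / _)]; exact key d

lemma aa_tri {c d e : ℤ} (h1 : c ≠ d) (h2 : d ≠ e) (h3 : c ≠ e) :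
    aa q c d * aa q d e + aa q c e * aa q d c = aa q d e * aa q c e ∧
    aa q d e * aa q c d + aa q c e * aa q e d = aa q c d * aa q c e := by
  have a1 := G.zpow_sub_ne h1
  have a2 := G.zpow_sub_ne h1.symm
  have a3 := G.zpow_sub_ne h2
  have a4 := G.zpow_sub_ne h2.symm
  have a5 := G.zpow_sub_ne h3
  have a6 := G.zpow_sub_ne h3.symm
  unfold aa
  constructor <;> (field_simp; ring)

lemma aa_br {c d : ℤ} (h : c ≠ d) : aa q c d * br q c + aa q d c * br q d + 1 = 0 := by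
  have a1 := G.zpow_sub_ne h
  have a2 := G.zpow_sub_ne h.symm
  have a3 := G.q_ne_one
  unfold aa br; field_simp; ring

lemma T_quad {r : ℕ} (h : r + 1 < n) :
    Tm q n r * Tm q n r = (q - 1) • Tm q n r + q • (1 : Mat n) := by
  refine ((compat_T q h).mul (compat_T q h)).ext
    (((compat_T q h).smul _).add (compat_one.smul _)) fun f t ht => ?_
  have h1 := G.aa_add (ne_succ ht h)
  have h2 := G.bb_mul (ne_succ ht h)
  simp only [Tf, sw_fst, sw_snd, sw_sw]
  linear_combination (f t) * h2 + (aa q (t r) (t (r + 1)) * f t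
    + bb q (t r) (t (r + 1)) * f (sw r t)) * h1

omit G in
lemma T_comm {r s : ℕ} (h : r + 2 ≤ s) (hs : s + 1 < n) :
    Tm q n r * Tm q n s = Tm q n s * Tm q n r := by
  have hr : r + 1 < n := by omega
  refine ((compat_T q hr).mul (compat_T q hs)).ext
    ((compat_T q hs).mul (compat_T q hr)) fun f t _ => ?_
  simp only [Tf, sw_comm h, sw_ne t (show s ≠ r by omega) (show s ≠ r + 1 by omega),
    sw_ne t (show s + 1 ≠ r by omega) (show s + 1 ≠ r + 1 by omega),
    sw_ne t (show r ≠ s by omega) (show r ≠ s + 1 by omega),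
    sw_ne t (show r + 1 ≠ s by omega) (show r + 1 ≠ s + 1 by omega)]
  ring

lemma T_braid {r : ℕ} (h : r + 2 < n) :
    Tm q n r * Tm q n (r + 1) * Tm q n r = Tm q n (r + 1) * Tm q n r * Tm q n (r + 1) := by
  have hr : r + 1 < n := by omega
  refine (((compat_T q hr).mul (compat_T q h)).mul (compat_T q hr)).ext
    (((compat_T q h).mul (compat_T q hr)).mul (compat_T q h)) fun f t ht => ?_
  have n1 := ne_succ ht hr
  have n2 := ne_succ ht h
  have n3 := ne_succ_succ ht h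
  have h1 := G.bb_mul n1
  have h2 := G.bb_mul n2
  obtain ⟨h3, h4⟩ := G.aa_tri n1 n2 n3
  have s1 : ∀ u : ℕ → ℤ, sw r u (r + 1 + 1) = u (r + 1 + 1) :=
    fun u => sw_ne u (by omega) (by omega)
  have s2 : ∀ u : ℕ → ℤ, sw (r + 1) u r = u r := fun u => sw_ne u (by omega) (by omega)
  simp only [Tf, sw_fst, sw_snd, sw_sw, s1, s2, sw_braid]
  linear_combination (f t * aa q (t r) (t (r + 2))) * h1 - (f t * aa q (t r) (t (r + 2))) * h2
    + (f t * aa q (t r) (t (r + 1)) + f (sw r t) * bb q (t r) (t (r + 1))) * h3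
    - (f t * aa q (t (r + 1)) (t (r + 2)) + f (sw (r + 1) t) * bb q (t (r + 1)) (t (r + 2))) * h4

lemma T_jm {r : ℕ} (h : r + 1 < n) :
    Tm q n r * (Matrix.diagonal fun s : Std n => br q (s.1 r)) * Tm q n r + Tm q n r
      = q • Matrix.diagonal fun s : Std n => br q (s.1 (r + 1)) := by
  refine ((((compat_T q h).mul (compat_diag fun t => br q (t r))).mul (compat_T q h)).add
    (compat_T q h)).ext ((compat_diag fun t => br q (t (r + 1))).smul q) fun f t ht => ?_
  have h1 := G.aa_br (ne_succ ht h)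
  have h2 := G.bb_mul (ne_succ ht h)
  simp only [Tf, sw_fst, sw_snd, sw_sw]
  linear_combination (f t * br q (t (r + 1))) * h2 + (aa q (t r) (t (r + 1)) * f t
    + bb q (t r) (t (r + 1)) * f (sw r t)) * h1

lemma tau_T_comm {r : ℕ} (h : r + 1 < n) (M : Mat n) :
    tau q (M * Tm q n r) = tau q (Tm q n r * M) := by
  simp only [tau, Matrix.mul_apply, mul_sum]
  rw [sum_comm]
  refine sum_congr rfl fun s _ => sum_congr rfl fun t _ => ?_
  by_cases h0 : Tm q n r s t = 0
  · simp [h0]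
  rcases Tm_ne h0 with rfl | ⟨e, h2⟩
  · ring
  · rw [e, G.mw_sw _ h h2]; ring

lemma sum_reduce {j m : ℕ} (hjm : j ≤ m) (g : Fn)
    (hg : ∀ s t : ℕ → ℤ, (∀ i < j, s i = t i) → g s = g t) :
    ∑ t ∈ Std m, mw q m t * g t = ∑ t ∈ Std j, mw q j t * g t := by
  induction m, hjm using Nat.le_induction with
  | base => rfl
  | succ m hm ih =>
    rw [sum_Std_succ, ← ih]
    refine sum_congr rfl fun t ht => ?_
    have : ∀ c, g (Function.update t m c) = g t :=
      fun c => hg _ _ fun i hi => Function.update_of_ne (by omega) _ _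
    simp only [mw_update, this]
    rw [← sum_mul, ← mul_sum, G.sum_pw (valid_st ht le_rfl), mul_one]

lemma tau_one : tau q (1 : Mat n) = 1 := by
  have := G.sum_reduce (Nat.zero_le n) (fun _ => 1) fun _ _ _ => rfl
  simp only [tau, Matrix.one_apply_eq]
  rw [sum_coe_sort (Std n) fun t => mw q n t * 1, this]
  simp [Std, mw]

lemma tau_loc_T {j : ℕ} (h : j + 1 < n) {M : Mat n} (hM : Loc (j + 1) M) :
    tau q (M * Tm q n j) = 0 := by
  obtain ⟨g, hg, hd⟩ := hM.diag
  have e1 : ∀ s : Std n, (M * Tm q n j) s s = g s.1 * aa q (s.1 j) (s.1 (j + 1)) := by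
    intro s
    rw [Matrix.mul_apply, sum_eq_single s, hd, Tm_diag q h]
    · intro t _ hts
      by_cases h0 : Tm q n j t s = 0
      · rw [h0, mul_zero]
      rcases Tm_ne h0 with e | ⟨e, -⟩
      · exact absurd e.symm hts
      · rw [hM.offdiag, zero_mul]
        rw [e, sw_snd]
        exact ne_succ t.2 h
    · simp
  simp only [tau, e1]
  rw [sum_coe_sort (Std n) fun t => mw q n t * (g t * aa q (t j) (t (j + 1))),
    G.sum_reduce (j := j + 1 + 1) h (fun t => g t * aa q (t j) (t (j + 1))), sum_Std_succ]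
  · refine sum_eq_zero fun t ht => ?_
    have e2 : ∀ c, g (Function.update t (j + 1) c) = g t :=
      fun c => hg _ _ fun i hi => Function.update_of_ne (by omega) _ _
    simp only [mw_update, e2, Function.update_self,
      Function.update_of_ne (show j ≠ j + 1 by omega)]
    have e3 := G.sum_pw_aa (valid_st ht le_rfl) (hh_last ht (k := j) (by omega))
    calc _ = mw q (j + 1) t * g t * ∑ c ∈ add (st t (j + 1)), pw q (st t (j + 1)) c * aa q (t j) c := by
          rw [mul_sum]; exact sum_congr rfl fun c _ => by ring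
      _ = 0 := by rw [e3, mul_zero]
  · intro s t hst
    rw [hg s t fun i hi => hst i (by omega), hst j (by omega), hst (j + 1) (by omega)]

end Good

end Pool.Agent.P.MP_e72dc0_lc.Sn
end

-- part Pool.Agent.P.MP_e72dc0_lc.Sn.Lift
section

/-! Pairs (matrix in the integral Hecke algebra, its reduction in the group algebra). -/

namespace Pool.Agent.P.MP_e72dc0_lc.Sn

open Finset
open scoped Classical

abbrev GA (n : ℕ) := MonoidAlgebra (ZMod 2) (Equiv.Perm (Fin n))

/-- `Lift q n M x`: the matrix `M` and the group algebra element `x` are given by the same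
integral expression in the generators. -/
inductive Lift (q : ℚ_[2]) (n : ℕ) : Mat n → GA n → Prop
  | one : Lift q n 1 1
  | gen (r : ℕ) (h : r + 1 < n) : Lift q n (Tm q n r)
      (MonoidAlgebra.single (Equiv.swap ⟨r, Nat.lt_of_succ_lt h⟩ ⟨r + 1, h⟩) 1)
  | mul {M M' : Mat n} {x x' : GA n} : Lift q n M x → Lift q n M' x' → Lift q n (M * M') (x * x')
  | add {M M' : Mat n} {x x' : GA n} : Lift q n M x → Lift q n M' x' → Lift q n (M + M') (x + x')
  | smul (a : ℤ_[2]) {M : Mat n} {x : GA n} : Lift q n M x →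
      Lift q n ((a : ℚ_[2]) • M) (PadicInt.toZMod a • x)

end Pool.Agent.P.MP_e72dc0_lc.Sn
end

-- part Pool.Agent.P.MP_e72dc0_lc.Sn.Pair
section

/-! The trace form is integral and reduces to the coefficient of the identity. -/

namespace Pool.Agent.P.MP_e72dc0_lc.Sn

open Finset
open scoped Classical

namespace PairAux

section Span

variable {A R : Type*} [CommRing A] [Ring R] (φ : A →+* R) (g : ℕ → R)

/-- The subring generated by the scalars and the first generators. -/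
inductive Q (j : ℕ) : R → Prop
  | scal (a : A) : Q j (φ a)
  | gen (r : ℕ) (h : r + 1 < j) : Q j (g r)
  | mul {x y : R} : Q j x → Q j y → Q j (x * y)
  | add {x y : R} : Q j x → Q j y → Q j (x + y)

/-- The double coset span. -/
inductive W (j : ℕ) : R → Prop
  | base {x : R} : Q φ g (j + 1) x → W j x
  | term {a b : R} : Q φ g (j + 1) a → Q φ g (j + 1) b → W j (a * g j * b)
  | add {x y : R} : W j x → W j y → W j (x + y)

variable {φ g}

lemma Q.one (j : ℕ) : Q φ g j 1 := by simpa using Q.scal (φ := φ) (g := g) (j := j) 1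

lemma Q.mono {j k : ℕ} (h : j ≤ k) {x : R} (hx : Q φ g j x) : Q φ g k x := by
  induction hx with
  | scal a => exact .scal a
  | gen r hr => exact .gen r (by omega)
  | mul _ _ a b => exact .mul a b
  | add _ _ a b => exact .add a b

lemma Q.zero_of_one {x : R} (hx : Q φ g 1 x) : Q φ g 0 x := by
  induction hx with
  | scal a => exact .scal a
  | gen r hr => omega
  | mul _ _ a b => exact .mul a b
  | add _ _ a b => exact .add a b

lemma W.mul_right {j : ℕ} {z c : R} (hz : W φ g j z) (hc : Q φ g (j + 1) c) :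
    W φ g j (z * c) := by
  induction hz with
  | base h => exact .base (h.mul hc)
  | term a b => rw [mul_assoc]; exact .term a (b.mul hc)
  | add _ _ a b => rw [add_mul]; exact .add a b

lemma W.mul_left {j : ℕ} {z c : R} (hz : W φ g j z) (hc : Q φ g (j + 1) c) :
    W φ g j (c * z) := by
  induction hz with
  | base h => exact .base (hc.mul h)
  | term a b => rw [← mul_assoc, ← mul_assoc]; exact .term (hc.mul a) b
  | add _ _ a b => rw [mul_add]; exact .add a b

variable {n : ℕ} (hφ : ∀ a z, φ a * z = z * φ a)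
  (hq : ∀ r, r + 1 < n → ∃ a b, g r * g r = φ a * g r + φ b)
  (hc : ∀ r s, r + 2 ≤ s → s + 1 < n → g r * g s = g s * g r)
  (hb : ∀ r, r + 2 < n → g r * g (r + 1) * g r = g (r + 1) * g r * g (r + 1))

include hφ hc in
lemma Q.comm {j : ℕ} (hj : j + 1 < n) {b : R} (h : Q φ g j b) : b * g j = g j * b := by
  induction h with
  | scal a => exact hφ a _
  | gen r hr => exact hc r j (by omega) hj
  | mul _ _ a b => rw [mul_assoc, b, ← mul_assoc, a, mul_assoc]
  | add _ _ a b => rw [add_mul, mul_add, a, b]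

include hφ hq hc in
lemma W.conj_of_Q {j : ℕ} (hj : j + 1 < n) {b : R} (h : Q φ g j b) :
    W φ g j (g j * b * g j) := by
  obtain ⟨a, c, e⟩ := hq j hj
  rw [← h.comm hφ hc hj, mul_assoc, e, mul_add, ← mul_assoc]
  have h' := h.mono (Nat.le_succ j)
  refine .add ?_ (.base (h'.mul (.scal c)))
  simpa using W.term (h'.mul (.scal a)) (Q.one (j + 1))

lemma span_of_conj {j : ℕ} (K : ∀ b, Q φ g (j + 1) b → W φ g j (g j * b * g j)) {z : R}
    (hz : Q φ g (j + 2) z) : W φ g j z := by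
  have h1 : ∀ w, W φ g j w → W φ g j (w * g j) := by
    intro w hw
    induction hw with
    | base h => simpa using W.term h (Q.one (j + 1))
    | term a b => simpa only [mul_assoc] using (K _ b).mul_left a
    | add _ _ a b => rw [add_mul]; exact .add a b
  have h2 : ∀ w, W φ g j w → W φ g j (w * z) := by
    induction hz with
    | scal a => exact fun w hw => hw.mul_right (.scal a)
    | gen r hr =>
      intro w hw
      rcases Nat.lt_or_ge (r + 1) (j + 1) with h | h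
      · exact hw.mul_right (.gen r h)
      · obtain rfl : r = j := by omega
        exact h1 w hw
    | mul _ _ a b => exact fun w hw => by rw [← mul_assoc]; exact b _ (a w hw)
    | add _ _ a b => exact fun w hw => by rw [mul_add]; exact .add (a w hw) (b w hw)
  simpa using h2 1 (.base (Q.one _))

include hφ hq hc hb in
lemma conj : ∀ j, j + 1 < n → ∀ b, Q φ g (j + 1) b → W φ g j (g j * b * g j)
  | 0, hj, b, h => W.conj_of_Q hφ hq hc hj h.zero_of_one
  | j + 1, hj, b, h => by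
    have hw := span_of_conj (conj j (by omega)) h
    clear h
    induction hw with
    | base h => exact W.conj_of_Q hφ hq hc hj h
    | @term c d h1 h2 =>
      have e : g (j + 1) * (c * g j * d) * g (j + 1) = (c * g j) * g (j + 1) * (g j * d) := by
        calc g (j + 1) * (c * g j * d) * g (j + 1)
            = (g (j + 1) * c) * g j * (d * g (j + 1)) := by simp only [mul_assoc]
          _ = c * (g (j + 1) * g j * g (j + 1)) * d := by
              rw [← h1.comm hφ hc hj, h2.comm hφ hc hj]; simp only [mul_assoc]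
          _ = _ := by rw [← hb j hj]; simp only [mul_assoc]
      rw [e]
      exact .term ((h1.mono (Nat.le_succ _)).mul (.gen j (by omega)))
        ((Q.gen j (by omega)).mul (h2.mono (Nat.le_succ _)))
    | add _ _ a b => rw [mul_add, add_mul]; exact .add a b

end Span

/-- The scalars. -/
noncomputable def ph (n : ℕ) : ℤ_[2] →+* Mat n × GA n :=
  RingHom.prod ((algebraMap ℚ_[2] (Mat n)).comp PadicInt.Coe.ringHom)
    ((algebraMap (ZMod 2) (GA n)).comp PadicInt.toZMod)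

/-- The adjacent transpositions. -/
noncomputable def sr (n r : ℕ) : Equiv.Perm (Fin n) :=
  if h : r + 1 < n then Equiv.swap ⟨r, Nat.lt_of_succ_lt h⟩ ⟨r + 1, h⟩ else 1

/-- The generators. -/
noncomputable def gn (q : ℚ_[2]) (n r : ℕ) : Mat n × GA n :=
  (Tm q n r, MonoidAlgebra.single (sr n r) 1)

variable {n : ℕ} {q : ℚ_[2]} {θ B : ℝ}

lemma ph_fst (a : ℤ_[2]) : (ph n a).1 = (a : ℚ_[2]) • (1 : Mat n) := by
  simp [ph, Algebra.algebraMap_eq_smul_one]

lemma ph_snd (a : ℤ_[2]) : (ph n a).2 = PadicInt.toZMod a • (1 : GA n) := by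
  simp only [ph, RingHom.prod_apply, RingHom.comp_apply, Algebra.algebraMap_eq_smul_one]

lemma ph_comm (a : ℤ_[2]) (z : Mat n × GA n) : ph n a * z = z * ph n a := by
  ext1
  · simp only [Prod.fst_mul, ph_fst, smul_mul_assoc, mul_smul_comm, one_mul, mul_one]
  · simp only [Prod.snd_mul, ph_snd, smul_mul_assoc, mul_smul_comm, one_mul, mul_one]

lemma sr_val {r : ℕ} (h : r + 1 < n) (i : Fin n) :
    (sr n r i : ℕ) = if (i : ℕ) = r then r + 1 else if (i : ℕ) = r + 1 then r else i := by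
  simp only [sr, dif_pos h, Equiv.swap_apply_def, Fin.ext_iff]
  split_ifs <;> rfl

lemma gn_quad (G : Good n q θ B) (r : ℕ) (h : r + 1 < n) :
    ∃ a b, gn q n r * gn q n r = ph n a * gn q n r + ph n b := by
  have h0 : PadicInt.toZMod (⟨q - 1, G.q1.le⟩ : ℤ_[2]) = 0 := by
    rw [← RingHom.mem_ker, PadicInt.ker_toZMod, IsLocalRing.mem_maximalIdeal, PadicInt.mem_nonunits]
    exact G.q1
  refine ⟨⟨q - 1, G.q1.le⟩, ⟨q - 1, G.q1.le⟩ + 1, ?_⟩
  ext1
  · simp only [Prod.fst_mul, Prod.fst_add, ph_fst, gn, G.T_quad h, smul_mul_assoc, one_mul]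
    congr 2
    push_cast
    ring
  · simp only [Prod.snd_mul, Prod.snd_add, ph_snd, gn, map_add, h0, map_one, zero_smul, zero_mul,
      zero_add, one_smul, MonoidAlgebra.single_mul_single, sr, dif_pos h, Equiv.swap_mul_self,
      mul_one]
    rfl

lemma gn_comm (r s : ℕ) (h : r + 2 ≤ s) (hs : s + 1 < n) :
    gn q n r * gn q n s = gn q n s * gn q n r := by
  ext1
  · exact Good.T_comm h hs
  · simp only [Prod.snd_mul, gn, MonoidAlgebra.single_mul_single]
    congr 1
    ext i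
    simp only [Equiv.Perm.coe_mul, Function.comp, sr_val hs, sr_val (show r + 1 < n by omega)]
    split_ifs <;> omega

lemma gn_braid (G : Good n q θ B) (r : ℕ) (h : r + 2 < n) :
    gn q n r * gn q n (r + 1) * gn q n r = gn q n (r + 1) * gn q n r * gn q n (r + 1) := by
  ext1
  · exact G.T_braid h
  · simp only [Prod.snd_mul, gn, MonoidAlgebra.single_mul_single]
    congr 1
    ext i
    simp only [Equiv.Perm.coe_mul, Function.comp, sr_val (show r + 1 + 1 < n from h),
      sr_val (show r + 1 < n by omega)]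
    split_ifs <;> omega

lemma tau_comm (G : Good n q θ B) {j : ℕ} (hj : j ≤ n) {b : Mat n × GA n}
    (h : Q (ph n) (gn q n) j b) (M : Mat n) : tau q (M * b.1) = tau q (b.1 * M) := by
  induction h generalizing M with
  | scal a => simp only [ph_fst, smul_mul_assoc, mul_smul_comm, one_mul, mul_one]
  | gen r hr => exact G.tau_T_comm (by omega) M
  | mul _ _ a b => rw [Prod.fst_mul, ← mul_assoc, b, ← mul_assoc, a, ← mul_assoc]
  | add _ _ a b => rw [Prod.fst_add, mul_add, add_mul, tau_add, tau_add, a, b]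

lemma loc_of_Q {j : ℕ} (hj : j ≤ n) {b : Mat n × GA n} (h : Q (ph n) (gn q n) j b) :
    Loc j b.1 := by
  induction h with
  | scal a => rw [ph_fst]; exact loc_scalar _
  | gen r hr => exact loc_T q (by omega) hr
  | mul _ _ a b => exact a.mul b
  | add _ _ a b => exact a.add b

lemma exists_of_coeff_mul {x y : GA n} {m : Equiv.Perm (Fin n)} (h : (x * y).coeff m ≠ 0) :
    ∃ a b, x.coeff a ≠ 0 ∧ y.coeff b ≠ 0 ∧ a * b = m := by
  rw [MonoidAlgebra.coeff_mul_apply_left] at h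
  obtain ⟨a, -, ha⟩ := exists_ne_zero_of_sum_ne_zero h
  exact ⟨a, a⁻¹ * m, left_ne_zero_of_mul ha, right_ne_zero_of_mul ha, by simp⟩

lemma eq_of_coeff_single {s m : Equiv.Perm (Fin n)}
    (h : (MonoidAlgebra.single s (1 : ZMod 2) : GA n).coeff m ≠ 0) : m = s := by
  rw [MonoidAlgebra.coeff_single] at h
  exact (Finsupp.single_apply_ne_zero.1 h).1

lemma fix_of_Q {j : ℕ} (hj : j ≤ n) {b : Mat n × GA n} (h : Q (ph n) (gn q n) j b) :
    ∀ m, b.2.coeff m ≠ 0 → ∀ i : Fin n, j ≤ (i : ℕ) → m i = i := by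
  induction h with
  | scal a =>
    intro m hm i _
    rw [ph_snd, MonoidAlgebra.coeff_smul_apply] at hm
    rw [eq_of_coeff_single (s := 1) (right_ne_zero_of_smul hm)]
    rfl
  | gen r hr =>
    intro m hm i hi
    rw [eq_of_coeff_single hm]
    ext
    rw [sr_val (by omega)]
    split_ifs <;> omega
  | mul _ _ a b =>
    intro m hm i hi
    obtain ⟨u, v, hu, hv, rfl⟩ := exists_of_coeff_mul hm
    rw [Equiv.Perm.mul_apply, b v hv i hi, a u hu i hi]
  | @add x y _ _ a b =>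
    intro m hm i hi
    by_cases hx : x.2.coeff m = 0
    · refine b m (fun hy => hm ?_) i hi
      rw [Prod.snd_add, MonoidAlgebra.coeff_add, Finsupp.add_apply, hx, hy, add_zero]
    · exact a m hx i hi

/-- The trace is integral with the right residue. -/
def Tr (q : ℚ_[2]) (z : Mat n × GA n) : Prop :=
  ∃ o : ℤ_[2], tau q z.1 = o ∧ PadicInt.toZMod o = z.2.coeff 1

lemma Tr.add {x y : Mat n × GA n} (a : Tr q x) (b : Tr q y) : Tr q (x + y) := by
  obtain ⟨o, h1, h2⟩ := a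
  obtain ⟨o', h3, h4⟩ := b
  refine ⟨o + o', ?_, ?_⟩
  · rw [Prod.fst_add, tau_add, h1, h3]; push_cast; rfl
  · rw [map_add, h2, h4]; rfl

lemma scal_of_Q0 {z : Mat n × GA n} (h : Q (ph n) (gn q n) 0 z) : ∃ a, z = ph n a := by
  induction h with
  | scal a => exact ⟨a, rfl⟩
  | gen r hr => omega
  | mul _ _ a b =>
    obtain ⟨u, rfl⟩ := a
    obtain ⟨v, rfl⟩ := b
    exact ⟨u * v, (map_mul _ _ _).symm⟩
  | add _ _ a b =>
    obtain ⟨u, rfl⟩ := a
    obtain ⟨v, rfl⟩ := b
    exact ⟨u + v, (map_add _ _ _).symm⟩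

lemma tr_zero (G : Good n q θ B) {z : Mat n × GA n} (h : Q (ph n) (gn q n) 0 z) : Tr q z := by
  obtain ⟨a, rfl⟩ := scal_of_Q0 h
  refine ⟨a, by rw [ph_fst, tau_smul, G.tau_one, mul_one], ?_⟩
  rw [ph_snd, MonoidAlgebra.coeff_smul_apply, MonoidAlgebra.one_def, MonoidAlgebra.coeff_single]
  simp

lemma tr_succ (G : Good n q θ B) : ∀ j, j + 1 ≤ n → ∀ z, Q (ph n) (gn q n) (j + 1) z → Tr q z
  | 0, _, z, h => tr_zero G h.zero_of_one
  | j + 1, hj, z, h => by
    have hw := span_of_conj (conj ph_comm (gn_quad G) gn_comm (gn_braid G) j hj) h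
    clear h
    induction hw with
    | base h => exact tr_succ G j (by omega) _ h
    | @term a b h1 h2 =>
      refine ⟨0, ?_, ?_⟩
      · rw [Prod.fst_mul, tau_comm G (by omega) h2, Prod.fst_mul, ← mul_assoc]
        exact G.tau_loc_T hj (loc_of_Q (by omega) (h2.mul h1))
      · rw [map_zero]
        by_contra h0
        obtain ⟨u, v, hu, hv, e⟩ := exists_of_coeff_mul (Ne.symm h0)
        obtain ⟨u', s, hu', hs, rfl⟩ := exists_of_coeff_mul hu
        rw [eq_of_coeff_single hs] at e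
        have e1 := congrArg (fun m : Equiv.Perm (Fin n) => m ⟨j + 1, hj⟩) e
        simp only [Equiv.Perm.mul_apply, Equiv.Perm.one_apply] at e1
        rw [fix_of_Q (by omega) h2 v hv _ le_rfl] at e1
        have e2 := u'.injective (e1.trans (fix_of_Q (by omega) h1 u' hu' ⟨j + 1, hj⟩ le_rfl).symm)
        have e3 := congrArg Fin.val e2
        rw [sr_val hj] at e3
        simp at e3
    | add _ _ a b => exact a.add b

lemma Q_of_lift {M : Mat n} {x : GA n} (h : Lift q n M x) : Q (ph n) (gn q n) n (M, x) := by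
  induction h with
  | one => exact Q.one n
  | gen r h =>
    have := Q.gen (φ := ph n) (g := gn q n) r h
    simpa only [gn, sr, dif_pos h] using this
  | mul _ _ a b => exact a.mul b
  | add _ _ a b => exact a.add b
  | @smul a M x _ b =>
    have := (Q.scal a).mul b
    convert this using 1
    ext1
    · simp only [Prod.fst_mul, ph_fst, smul_mul_assoc, one_mul]
    · simp only [Prod.snd_mul, ph_snd, smul_mul_assoc, one_mul]

end PairAux

theorem Good.lift_tau {n : ℕ} {q : ℚ_[2]} {θ B : ℝ} (G : Good n q θ B) {M : Mat n} {x : GA n}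
    (h : Lift q n M x) : ∃ o : ℤ_[2], tau q M = o ∧ PadicInt.toZMod o = x.coeff 1 := by
  have hQ := PairAux.Q_of_lift h
  rcases n with _ | m
  · exact PairAux.tr_zero G hQ
  · exact PairAux.tr_succ G m le_rfl _ hQ

end Pool.Agent.P.MP_e72dc0_lc.Sn
end

-- part Pool.Agent.P.MP_e72dc0_lc.Sn.FamA
section

/-! The integral Hecke algebra, intertwiners and chains of intertwiners. -/

namespace Pool.Agent.P.MP_e72dc0_lc.Sn

open Finset Matrix
open scoped Classical

/-- Membership in the integral Hecke algebra. -/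
def HH (q : ℚ_[2]) (n : ℕ) (M : Mat n) : Prop := ∃ x, Lift q n M x

section hh

variable {q : ℚ_[2]} {n : ℕ}

lemma HH.one : HH q n 1 := ⟨_, Lift.one⟩
lemma HH.gen {r : ℕ} (h : r + 1 < n) : HH q n (Tm q n r) := ⟨_, Lift.gen r h⟩
lemma HH.mul {M M' : Mat n} (h : HH q n M) (h' : HH q n M') : HH q n (M * M') := by
  obtain ⟨x, hx⟩ := h; obtain ⟨y, hy⟩ := h'; exact ⟨_, hx.mul hy⟩
lemma HH.add {M M' : Mat n} (h : HH q n M) (h' : HH q n M') : HH q n (M + M') := by
  obtain ⟨x, hx⟩ := h; obtain ⟨y, hy⟩ := h'; exact ⟨_, hx.add hy⟩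
lemma HH.smul {M : Mat n} (h : HH q n M) {a : ℚ_[2]} (ha : ‖a‖ ≤ 1) : HH q n (a • M) := by
  obtain ⟨x, hx⟩ := h; exact ⟨_, hx.smul ⟨a, ha⟩⟩
lemma HH.sub {M M' : Mat n} (h : HH q n M) (h' : HH q n M') : HH q n (M - M') := by
  have := h.add (h'.smul (a := -1) (by simp))
  rwa [neg_one_smul, ← sub_eq_add_neg] at this

/-- Diagonal elements of the integral Hecke algebra. -/
def DH (q : ℚ_[2]) (n : ℕ) (f : Fn) : Prop := HH q n (diagonal fun s : Std n => f s.1)

lemma DH.const {a : ℚ_[2]} (ha : ‖a‖ ≤ 1) : DH q n fun _ => a := by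
  have := (HH.one (q := q) (n := n)).smul ha
  rwa [smul_one_eq_diagonal] at this

lemma DH.mul {f g : Fn} (hf : DH q n f) (hg : DH q n g) : DH q n fun t => f t * g t := by
  have := HH.mul hf hg
  rwa [diagonal_mul_diagonal] at this

lemma DH.add {f g : Fn} (hf : DH q n f) (hg : DH q n g) : DH q n fun t => f t + g t := by
  have := HH.add hf hg
  rwa [diagonal_add] at this

lemma DH.sub {f g : Fn} (hf : DH q n f) (hg : DH q n g) : DH q n fun t => f t - g t := by
  have := HH.sub hf hg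
  rwa [diagonal_sub] at this

lemma DH.prod {ι : Type*} (s : Finset ι) (f : ι → Fn) (h : ∀ i ∈ s, DH q n (f i)) :
    DH q n fun t => ∏ i ∈ s, f i t := by
  induction s using Finset.induction_on with
  | empty => simpa using DH.const (a := 1) (by simp)
  | insert a s ha ih =>
    simp only [prod_insert ha]
    exact (h a (mem_insert_self _ _)).mul (ih fun i hi => h i (mem_insert_of_mem hi))

end hh

/-- The step matrix: a generator, or an intertwiner. -/
noncomputable def Gm (q : ℚ_[2]) (n r : ℕ) (p : Prop) : Mat n :=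
  if p then Tm q n r else
    (diagonal fun s : Std n => br q (s.1 (r + 1)) - br q (s.1 r)) * Tm q n r
      - diagonal fun s : Std n => q ^ s.1 (r + 1)

/-- Shape and size of a step matrix. -/
def StepP (θ B : ℝ) {n : ℕ} (r : ℕ) (p : Prop) (X : Mat n) : Prop :=
  (∀ a b, X a b ≠ 0 → (p ∧ b = a) ∨ b.1 = sw r a.1) ∧
  ∀ a b : Std n, (p ↔ a.1 r % 2 = a.1 (r + 1) % 2) → ‖X a b‖ ≤ (if p then θ⁻¹ else θ) * B

lemma StepP.transpose {θ B : ℝ} (hθ : 0 < θ) (hB : 0 < B) {n r : ℕ} {p : Prop} {X : Mat n}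
    (h : StepP θ B r p X) : StepP θ B r p Xᵀ := by
  refine ⟨fun a b hab => ?_, fun a b hp => ?_⟩
  · rcases h.1 b a hab with ⟨h1, h2⟩ | h1
    · exact Or.inl ⟨h1, h2.symm⟩
    · exact Or.inr (by rw [h1, sw_sw])
  · rw [transpose_apply]
    by_cases h0 : X b a = 0
    · rw [h0, norm_zero]; split_ifs <;> positivity
    refine h.2 b a ?_
    rcases h.1 b a h0 with ⟨-, h2⟩ | h1
    · rw [← h2]; exact hp
    · rw [h1, sw_fst, sw_snd] at hp; rw [hp]; exact eq_comm

/-- Properties of a product of step matrices leading from `t0` to `t`. -/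
structure Chain (θ B : ℝ) {n : ℕ} (t0 t : Std n) (M : Mat n) : Prop where
  shape : ∀ a b, M a b ≠ 0 → st a.1 n = st b.1 n
  par : ∀ u b, Par n u.1 t0.1 → M u b ≠ 0 → Par n b.1 t.1
  norm : ∀ u b : Std n, Par n u.1 t0.1 →
    ‖M u b‖ ^ 2 ≤ θ ^ (dg t.1 n - dg t0.1 n) * B ^ (2 * asc n t.1)
  tri : ∀ b, M t0 b ≠ 0 → b = t ∨ asc n b.1 < asc n t.1

lemma chain_one {θ B : ℝ} (hB : 1 ≤ B) {n : ℕ} (t : Std n) : Chain θ B t t 1 := by
  have key : ∀ a b : Std n, (1 : Mat n) a b ≠ 0 → a = b := fun a b h => by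
    by_contra hn; exact h (one_apply_ne hn)
  refine ⟨fun a b h => by rw [key a b h], fun u b hu h => by rw [← key u b h]; exact hu,
    fun u b _ => ?_, fun b h => Or.inl (key _ _ h).symm⟩
  rw [sub_self, zpow_zero, one_mul]
  have h1 : (1 : ℝ) ≤ B ^ (2 * asc n t.1) :=
    one_le_zpow₀ hB (by have := asc_nonneg n t.1; omega)
  refine le_trans ?_ h1
  rw [one_apply]; split_ifs <;> simp

lemma norm_sum_sq_le {ι : Type*} (s : Finset ι) (f : ι → ℚ_[2]) {C : ℝ} (hC : 0 ≤ C)
    (h : ∀ i ∈ s, ‖f i‖ ^ 2 ≤ C) : ‖∑ i ∈ s, f i‖ ^ 2 ≤ C := by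
  rw [← Real.le_sqrt (norm_nonneg _) hC]
  exact IsUltrametricDist.norm_sum_le_of_forall_le_of_nonneg (Real.sqrt_nonneg _)
    fun i hi => (Real.le_sqrt (norm_nonneg _) hC).2 (h i hi)

lemma Chain.step {θ B : ℝ} (hθ : 0 < θ) (hB : 0 < B) {n r : ℕ} (hr : r + 1 < n) {t0 t' t : Std n}
    {M X : Mat n} (hM : Chain θ B t0 t' M) (ht : t.1 = sw r t'.1) (hd : t'.1 (r + 1) + 2 ≤ t'.1 r)
    (hX : StepP θ B r (t'.1 r % 2 = t'.1 (r + 1) % 2) X) :
    Chain θ B t0 t (M * X) ∧ (M * X) t0 t = M t0 t' * X t' t := by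
  have hasc : asc n t.1 = asc n t'.1 + 1 := by
    have := asc_sw t'.1 hr
    rw [if_pos (by omega), if_neg (by omega), ← ht] at this
    omega
  have hex : ∀ u b, (M * X) u b ≠ 0 → ∃ a, M u a ≠ 0 ∧ X a b ≠ 0 := by
    intro u b h
    rw [mul_apply] at h
    obtain ⟨a, -, ha⟩ := exists_ne_zero_of_sum_ne_zero h
    exact ⟨a, left_ne_zero_of_mul ha, right_ne_zero_of_mul ha⟩
  have hle : ∀ a b, X a b ≠ 0 → asc n b.1 ≤ asc n a.1 + 1 := by
    intro a b h
    rcases hX.1 a b h with ⟨-, h1⟩ | h1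
    · rw [h1]; omega
    · have := asc_sw a.1 hr
      rw [← h1] at this
      split_ifs at this <;> omega
  refine ⟨⟨fun u b h => ?_, fun u b hu h => ?_, fun u b hu => ?_, fun b h => ?_⟩, ?_⟩
  · obtain ⟨a, h1, h2⟩ := hex u b h
    rw [hM.shape u a h1]
    rcases hX.1 a b h2 with ⟨-, h3⟩ | h3
    · rw [h3]
    · rw [h3, st_sw_ge _ (by omega)]
  · obtain ⟨a, h1, h2⟩ := hex u b h
    have h4 := hM.par u a hu h1
    rw [ht]
    rcases hX.1 a b h2 with ⟨hp, h3⟩ | h3
    · rw [h3]; exact h4.trans (par_sw_self hp).symm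
    · rw [h3]; exact h4.sw hr
  · rw [mul_apply]
    refine norm_sum_sq_le _ _ (by positivity) fun a _ => ?_
    by_cases h1 : M u a = 0
    · rw [h1, zero_mul, norm_zero, zero_pow two_ne_zero]; positivity
    have h4 := hM.par u a hu h1
    have h5 := hX.2 a b (by rw [h4 r (by omega), h4 (r + 1) hr])
    have h6 := hM.norm u a hu
    have h7 : ‖X a b‖ ^ 2 ≤ θ ^ (if t'.1 r % 2 = t'.1 (r + 1) % 2 then -2 else 2 : ℤ) * B ^ (2 : ℤ) := by
      refine (pow_le_pow_left₀ (norm_nonneg _) h5 2).trans (le_of_eq ?_)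
      split_ifs <;> simp [mul_pow, zpow_ofNat]
    rw [norm_mul, mul_pow]
    refine (mul_le_mul h6 h7 (by positivity) (by positivity)).trans (le_of_eq ?_)
    rw [hasc, ht, dg_sw t'.1 hr hd, mul_mul_mul_comm, ← zpow_add₀ hθ.ne', ← zpow_add₀ hB.ne']
    congr 2 <;> ring
  · obtain ⟨a, h1, h2⟩ := hex t0 b h
    rcases hM.tri a h1 with h3 | h3
    · rcases hX.1 a b h2 with ⟨-, h4⟩ | h4
      · right; rw [h4, h3]; omega
      · left; apply Subtype.ext; rw [h4, h3, ht]
    · have := hle a b h2; right; omega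
  · rw [mul_apply, sum_eq_single t']
    · intro a _ ha
      by_contra h
      have h1 := hle a t (right_ne_zero_of_mul h)
      rcases hM.tri a (left_ne_zero_of_mul h) with h3 | h3
      · exact ha h3
      · omega
    · simp

namespace Good

variable {n : ℕ} {q : ℚ_[2]} {θ B : ℝ} (G : Good n q θ B)
include G

lemma dh_br {k : ℕ} (hk : k < n) : DH q n fun t => br q (t k) := by
  induction k with
  | zero =>
    have := DH.const (q := q) (n := n) (a := 0) (by simp)
    unfold DH at this ⊢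
    convert this using 3 with s
    simp [first_zero s.2, br]
  | succ k ih =>
    have h1 := (((HH.gen hk).mul (ih (by omega))).mul (HH.gen hk)).add (HH.gen hk)
    rw [G.T_jm hk] at h1
    have h2 := h1.smul (a := q⁻¹) (by rw [norm_inv, G.qn, inv_one])
    rwa [smul_smul, inv_mul_cancel₀ G.q0, one_smul] at h2

lemma dh_qz {k : ℕ} (hk : k < n) : DH q n fun t => q ^ t k := by
  have h1 := ((DH.const G.q1.le).mul (G.dh_br hk)).add (DH.const (a := 1) (by simp))
  convert h1 using 2 with t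
  have := G.q_ne_one
  unfold br; field_simp; ring

lemma hh_Gm {r : ℕ} (h : r + 1 < n) (p : Prop) : HH q n (Gm q n r p) := by
  unfold Gm
  split_ifs
  · exact HH.gen h
  · exact (HH.mul ((G.dh_br h).sub (G.dh_br (by omega))) (HH.gen h)).sub (G.dh_qz h)

lemma norm_aa {c d : ℤ} (h : c ≠ d) : ‖aa q c d‖ = ‖br q (c - d)‖⁻¹ := by
  have h1 : ‖q - 1‖ ≠ 0 := norm_ne_zero_iff.2 G.q_ne_one
  have h2 := (G.norm_br_pos (c := c - d) (by omega)).ne'
  rw [aa, norm_div, norm_mul, G.norm_qz, norm_sub_rev (q ^ d), G.norm_zpow_sub]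
  field_simp

lemma norm_bb {c d : ℤ} (h : 2 ≤ |c - d|) :
    ‖bb q c d‖ = ‖br q (c - d + 1)‖ / ‖br q (c - d)‖ := by
  have h1 : ‖q - 1‖ ≠ 0 := norm_ne_zero_iff.2 G.q_ne_one
  rw [bb, if_pos h, norm_div, mul_comm q, ← zpow_add_one₀ G.q0, G.norm_zpow_sub, G.norm_zpow_sub,
    mul_div_mul_left _ _ h1, show c + 1 - d = c - d + 1 by ring]

lemma Gm_neg {r : ℕ} (h : r + 1 < n) {p : Prop} (hp : ¬ p) (a b : Std n) :
    Gm q n r p a b = if b.1 = sw r a.1 then
      (br q (a.1 (r + 1)) - br q (a.1 r)) * bb q (a.1 r) (a.1 (r + 1)) else 0 := by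
  rw [Gm, if_neg hp, Matrix.sub_apply, diagonal_mul, Tm, diagonal_apply]
  by_cases hab : a = b
  · subst hab
    have h1 := G.zpow_sub_ne (ne_succ a.2 h).symm
    have h2 := G.q_ne_one
    rw [if_pos rfl, if_pos rfl, if_neg (sw_ne_self a.2 h), if_neg (sw_ne_self a.2 h)]
    unfold aa br; field_simp; ring
  · rw [if_neg (Ne.symm hab), if_neg hab]
    split_ifs <;> ring

lemma norm_Gm_neg {c d : ℤ} (h : 2 ≤ |c - d|) :
    ‖(br q d - br q c) * bb q c d‖ = ‖br q (c - d + 1)‖ := by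
  have h1 : c - d ≠ 0 := by intro e; rw [e] at h; simp at h
  have h2 := (G.norm_br_pos h1).ne'
  rw [norm_mul, G.norm_bb h, norm_sub_rev, G.norm_br_sub]
  field_simp

lemma step_Gm {r : ℕ} (h : r + 1 < n) (p : Prop) : StepP θ B r p (Gm q n r p) := by
  have hθ := G.θpos
  have hB := G.Bpos
  refine ⟨fun a b hab => ?_, fun a b hp => ?_⟩
  · by_cases hp : p
    · rw [Gm, if_pos hp] at hab
      rcases Tm_ne hab with h1 | h1
      · exact Or.inl ⟨hp, h1⟩
      · exact Or.inr h1.1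
    · rw [G.Gm_neg h hp] at hab
      right; by_contra hn; exact hab (if_neg hn)
  · have hne := ne_succ a.2 h
    by_cases hp' : p
    · rw [Gm, if_pos hp', if_pos hp']
      have h1 := G.norm_br_pos (c := a.1 r - a.1 (r + 1)) (by omega)
      have h2 : ‖br q (a.1 r - a.1 (r + 1))‖⁻¹ ≤ θ⁻¹ * B := by
        have a1 := abs_le.1 (abs_le_n a.2 r)
        have a2 := abs_le.1 (abs_le_n a.2 (r + 1))
        have h5 := G.br_ge (c := a.1 r - a.1 (r + 1)) (by omega) (by rw [abs_le]; omega)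
        rw [mul_comm, ← div_eq_mul_inv, ← inv_div]
        exact inv_anti₀ (by positivity) h5
      by_cases h0 : Tm q n r a b = 0
      · rw [h0, norm_zero]; positivity
      rcases Tm_ne h0 with h3 | ⟨h3, h4⟩
      · rw [h3, Tm_diag q h, G.norm_aa hne]; exact h2
      · rw [Tm_off q h h3, G.norm_bb h4, div_eq_mul_inv]
        exact (mul_le_of_le_one_left (by positivity) (G.norm_br_le _)).trans h2
    · rw [G.Gm_neg h hp', if_neg hp']
      have h2 : ¬ a.1 r % 2 = a.1 (r + 1) % 2 := fun e => hp' (hp.2 e)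
      split_ifs with h3
      · by_cases h4 : 2 ≤ |a.1 r - a.1 (r + 1)|
        · rw [G.norm_Gm_neg h4]
          exact (G.even_le _ (by omega)).trans (le_mul_of_one_le_right hθ.le G.B1)
        · rw [bb, if_neg h4, mul_zero, norm_zero]; positivity
      · rw [norm_zero]; positivity

lemma Gm_prod {r : ℕ} (h : r + 1 < n) {t' t : Std n} (ht : t.1 = sw r t'.1)
    (hd : t'.1 (r + 1) + 2 ≤ t'.1 r) :
    ‖Gm q n r (t'.1 r % 2 = t'.1 (r + 1) % 2) t' t‖ * ‖Gm q n r (t'.1 r % 2 = t'.1 (r + 1) % 2) t t'‖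
      = ‖br q (t'.1 r - t'.1 (r + 1) - 1)‖ * ‖br q (t'.1 r - t'.1 (r + 1) + 1)‖
        / ‖br q (t'.1 r - t'.1 (r + 1))‖ ^ 2 := by
  have ht' : t'.1 = sw r t.1 := by rw [ht, sw_sw]
  have e1 : t.1 r = t'.1 (r + 1) := by rw [ht, sw_fst]
  have e2 : t.1 (r + 1) = t'.1 r := by rw [ht, sw_snd]
  have h1 : 2 ≤ |t'.1 r - t'.1 (r + 1)| := le_abs.2 (Or.inl (by omega))
  have h2 : 2 ≤ |t'.1 (r + 1) - t'.1 r| := by rwa [abs_sub_comm]
  have e3 : ‖br q (t'.1 (r + 1) - t'.1 r + 1)‖ = ‖br q (t'.1 r - t'.1 (r + 1) - 1)‖ := by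
    rw [← G.norm_br_neg]; congr 2; ring
  by_cases hp : t'.1 r % 2 = t'.1 (r + 1) % 2
  · have e4 : ‖br q (t'.1 (r + 1) - t'.1 r)‖ = ‖br q (t'.1 r - t'.1 (r + 1))‖ := by
      rw [← G.norm_br_neg]; congr 2; ring
    rw [Gm, if_pos hp, Tm_off q h ht, Tm_off q h ht', e1, e2, G.norm_bb h1, G.norm_bb h2, e3, e4]
    ring
  · rw [G.Gm_neg h hp, G.Gm_neg h hp, if_pos ht, if_pos ht', e1, e2, G.norm_Gm_neg h1,
      G.norm_Gm_neg h2, e3, G.odd (t'.1 r - t'.1 (r + 1)) (by omega)]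
    ring

lemma exists_chain (t : Std n) : ∃ t0 : Std n, Term n t0.1 ∧ st t0.1 n = st t.1 n ∧
    ∃ R L : Mat n, HH q n R ∧ HH q n L ∧ Chain θ B t0 t R ∧ Chain θ B t0 t Lᵀ ∧
      ‖R t0 t‖ * ‖L t t0‖ * gw q n t0.1 = gw q n t.1 := by
  induction hm : (asc n t.1).toNat using Nat.strong_induction_on generalizing t with
  | _ m ih =>
    by_cases hT : Term n t.1
    · refine ⟨t, hT, rfl, 1, 1, HH.one, HH.one, chain_one G.B1 t, ?_, by simp⟩
      rw [transpose_one]; exact chain_one G.B1 t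
    unfold Term at hT
    push Not at hT
    obtain ⟨r, hr, hlt⟩ := hT
    let t' : Std n := ⟨sw r t.1, sw_mem t.2 hr (le_abs.2 (Or.inr (by omega)))⟩
    have ht : t.1 = sw r t'.1 := (sw_sw r t.1).symm
    have hd : t'.1 (r + 1) + 2 ≤ t'.1 r := by simp only [t', sw_fst, sw_snd]; omega
    have hasc : asc n t.1 = asc n t'.1 + 1 := by
      have := asc_sw t'.1 hr
      rw [if_pos (by omega), if_neg (by omega), ← ht] at this
      omega
    obtain ⟨t0, h1, h2, R, L, h3, h4, h5, h6, h7⟩ :=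
      ih _ (by have := asc_nonneg n t'.1; omega) t' rfl
    have hs := G.step_Gm hr (t'.1 r % 2 = t'.1 (r + 1) % 2)
    obtain ⟨c1, c2⟩ := h5.step G.θpos G.Bpos hr ht hd hs
    obtain ⟨c3, c4⟩ := h6.step G.θpos G.Bpos hr ht hd (hs.transpose G.θpos G.Bpos)
    rw [← transpose_mul] at c3 c4
    refine ⟨t0, h1, h2.trans (st_sw_ge _ (by omega)), _, _, h3.mul (G.hh_Gm hr _),
      (G.hh_Gm hr _).mul h4, c1, c3, ?_⟩
    rw [transpose_apply, transpose_apply, transpose_apply] at c4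
    rw [c2, c4, ht, gw_sw t'.1 hr hd, ← h7, ← G.Gm_prod hr ht hd, norm_mul, norm_mul]
    ring

end Good

end Pool.Agent.P.MP_e72dc0_lc.Sn
end

-- part Pool.Agent.P.MP_e72dc0_lc.Sn.Fam
section

/-! The family of matrices attached to pairs of tableaux. -/

namespace Pool.Agent.P.MP_e72dc0_lc.Sn

open Finset Matrix
open scoped Classical

/-- Eigenvalues of the diagonal element attached to a terminal tableau. -/
noncomputable def yv (q : ℚ_[2]) (n : ℕ) (t0 u : ℕ → ℤ) : ℚ_[2] :=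
  ∏ k ∈ range n,
    ((∏ c ∈ (Icc (-n : ℤ) n).filter (fun c => c % 2 ≠ t0 k % 2), (br q (u k) - br q c)) *
      if t0 k ≠ low t0 k ∧ low t0 k % 2 = t0 k % 2 then br q (u k) - br q (low t0 k) else 1)

lemma yv_par {q : ℚ_[2]} {n : ℕ} {t0 u : ℕ → ℤ} (hu : u ∈ Std n) (h : yv q n t0 u ≠ 0) :
    Par n u t0 := by
  intro k hk
  by_contra hn
  have h1 := left_ne_zero_of_mul (prod_ne_zero_iff.1 h k (mem_range.2 hk))
  have h2 := abs_le.1 (abs_le_n hu k)
  exact prod_ne_zero_iff.1 h1 (u k) (mem_filter.2 ⟨mem_Icc.2 h2, hn⟩) (sub_self _)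

lemma yv_tri {q : ℚ_[2]} {n : ℕ} {t0 u : ℕ → ℤ} (hu : u ∈ Std n) (ht : t0 ∈ Std n)
    (hT : Term n t0) (h : yv q n t0 u ≠ 0) : ph (st u n) < ph (st t0 n) ∨ u = t0 := by
  refine term_triangular hu ht hT fun k hk h1 h2 => ?_
  have h3 := right_ne_zero_of_mul (prod_ne_zero_iff.1 h k (mem_range.2 hk))
  have h4 := yv_par hu h k hk
  rw [if_pos ⟨h1, by rw [← h2, h4]⟩, h2] at h3
  exact h3 (sub_self _)

lemma term_degStep {n : ℕ} {t : ℕ → ℤ} (ht : t ∈ Std n) (hT : Term n t) {k : ℕ} (hk : k < n) :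
    degStep (st t k) (t k) = if t k ≠ low t k ∧ low t k % 2 = t k % 2 then 1 else 0 := by
  have h1 := low_le ht hk
  rw [degStep, Lam_eq_sum _ _ (insert (low t k) (supp3 (st t k))) (subset_insert _ _),
    sum_eq_single_of_mem (low t k) (mem_insert_self _ _)]
  · by_cases h2 : t k ≠ low t k ∧ low t k % 2 = t k % 2
    · rw [if_pos h2, if_pos ⟨h2.2, by omega⟩, term_hh ht hT hk (by omega), if_pos rfl]; rfl
    · rw [if_neg h2, if_neg (by omega), mul_zero]
  · intro c _ hc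
    split_ifs with h2
    · rw [term_hh ht hT hk (by omega), if_neg hc, zero_mul]
    · rw [mul_zero]

lemma zpow_sum_real {θ : ℝ} (hθ : θ ≠ 0) (s : Finset ℕ) (f : ℕ → ℤ) :
    θ ^ (∑ k ∈ s, f k) = ∏ k ∈ s, θ ^ f k := by
  induction s using Finset.induction_on with
  | empty => simp
  | insert a s ha ih => rw [prod_insert ha, sum_insert ha, ← ih, zpow_add₀ hθ]

namespace Good

variable {n : ℕ} {q : ℚ_[2]} {θ B : ℝ} (G : Good n q θ B)
include G

lemma dh_yv (t0 : ℕ → ℤ) : DH q n (yv q n t0) := by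
  refine DH.prod (range n) (fun k u => _) fun k hk => ?_
  have h1 := G.dh_br (mem_range.1 hk)
  refine DH.mul (DH.prod _ (fun c u => br q (u k) - br q c) fun c _ =>
    h1.sub (DH.const (G.norm_br_le c))) ?_
  split_ifs
  · exact h1.sub (DH.const (G.norm_br_le _))
  · exact DH.const (by simp)

lemma norm_yv {t0 u : ℕ → ℤ} (h : Par n u t0) : ‖yv q n t0 u‖ = ∏ k ∈ range n,
    if t0 k ≠ low t0 k ∧ low t0 k % 2 = t0 k % 2 then ‖br q (u k - low t0 k)‖ else 1 := by
  rw [yv, norm_prod]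
  refine prod_congr rfl fun k hk => ?_
  have h1 := h k (mem_range.1 hk)
  rw [norm_mul, norm_prod, prod_eq_one, one_mul]
  · split_ifs
    · exact G.norm_br_sub _ _
    · exact norm_one
  · intro c hc
    have h2 := (mem_filter.1 hc).2
    rw [G.norm_br_sub, G.odd _ (by omega)]

lemma norm_yv_le {t0 u : ℕ → ℤ} (ht : t0 ∈ Std n) (hT : Term n t0) (h : Par n u t0) :
    ‖yv q n t0 u‖ ≤ θ ^ dg t0 n := by
  rw [G.norm_yv h, dg, zpow_sum_real G.θpos.ne']
  refine prod_le_prod (fun k _ => by split_ifs <;> positivity) fun k hk => ?_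
  have h1 := h k (mem_range.1 hk)
  rw [term_degStep ht hT (mem_range.1 hk)]
  split_ifs with h2
  · rw [zpow_one]; exact G.even_le _ (by omega)
  · simp

lemma norm_yv_self {t : ℕ → ℤ} (ht : t ∈ Std n) (hT : Term n t) :
    ‖yv q n t t‖ = gw q n t := by
  rw [G.norm_yv (Par.refl n t), gw]
  refine prod_congr rfl fun k hk => ?_
  have hk := mem_range.1 hk
  have h1 := low_le ht hk
  rw [LamM_eq_prod _ _ _ (insert (low t k) (supp3 (st t k))) (subset_insert _ _),
    prod_eq_single_of_mem (low t k) (mem_insert_self _ _)]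
  · by_cases h2 : t k = low t k
    · rw [if_neg (by omega), if_neg (by omega), _root_.one_zpow]
    · have h3 := low_gap ht hk h2
      rw [if_pos (show low t k < t k by omega), term_hh ht hT hk (by omega), if_pos rfl, zpow_one]
      split_ifs with h4
      · rfl
      · rw [G.odd _ (by omega)]
  · intro c _ hc
    split_ifs with h2
    · by_cases h3 : c = t k - 1
      · rw [G.odd _ (by omega), _root_.one_zpow]
      · rw [term_hh ht hT hk (by omega), if_neg hc, zpow_zero]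
    · exact _root_.one_zpow _
  · intro x
    split_ifs with h2
    · exact (G.norm_br_pos (by omega)).ne'
    · exact one_ne_zero

theorem exists_psi :
    ∃ (ψ : Std n → Std n → Mat n) (rk : Std n → Std n → ℤ),
      ∀ s t : Std n, st s.1 n = st t.1 n →
        (∃ x, Lift q n (ψ s t) x) ∧
        (∀ u v, ψ s t u v ≠ 0 → st u.1 n = st v.1 n ∧ ww u.1 n = ww s.1 n ∧
          ((u = s ∧ v = t) ∨ rk u v < rk s t)) ∧
        (∀ u v, ‖ψ s t u v‖ ^ 2 ≤ θ ^ (dg s.1 n + dg t.1 n) * B ^ (4 * n ^ 2)) ∧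
        ‖ψ s t s t‖ * ‖ψ t s t s‖ = gw q n s.1 * gw q n t.1 := by
  have hθ := G.θpos
  have hB := G.Bpos
  choose o ho1 ho2 R L hR hL cR cL hg using G.exists_chain
  have hoo : ∀ s t : Std n, st s.1 n = st t.1 n → o s = o t := fun s t h =>
    Subtype.ext (term_unique (o s).2 (o t).2 (ho1 s) (ho1 t) (by rw [ho2, ho2, h]))
  have hap : ∀ s t u v : Std n,
      (L s * (diagonal fun a : Std n => yv q n (o s).1 a.1) * R t) u v
        = ∑ a, L s u a * yv q n (o s).1 a.1 * R t a v := by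
    intro s t u v
    rw [Matrix.mul_apply]
    simp only [mul_diagonal]
  have hdiag : ∀ s t : Std n, st s.1 n = st t.1 n →
      ‖(L s * (diagonal fun a : Std n => yv q n (o s).1 a.1) * R t) s t‖
        = ‖L s s (o s)‖ * gw q n (o s).1 * ‖R t (o t) t‖ := by
    intro s t h
    rw [hap, sum_eq_single (o s), norm_mul, norm_mul, G.norm_yv_self (o s).2 (ho1 s), hoo s t h]
    · intro a _ ha
      by_contra h0
      have h1 := left_ne_zero_of_mul h0
      have h2 := (cL s).shape a s (left_ne_zero_of_mul h1)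
      rcases yv_tri a.2 (o s).2 (ho1 s) (right_ne_zero_of_mul h1) with h3 | h3
      · rw [h2, ho2] at h3; exact lt_irrefl _ h3
      · exact ha (Subtype.ext h3)
    · simp
  refine ⟨fun s t => L s * (diagonal fun a : Std n => yv q n (o s).1 a.1) * R t,
    fun u v => ph (st u.1 n) * (2 * n ^ 2 + 1) + asc n u.1 + asc n v.1, fun s t h =>
      ⟨((hL s).mul (G.dh_yv _)).mul (hR t), fun u v h0 => ?_, fun u v => ?_, ?_⟩⟩
  · beta_reduce at h0
    rw [hap] at h0
    obtain ⟨a, -, ha⟩ := exists_ne_zero_of_sum_ne_zero h0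
    have h1 : (L s)ᵀ a u ≠ 0 := left_ne_zero_of_mul (left_ne_zero_of_mul ha)
    have h2 := right_ne_zero_of_mul (left_ne_zero_of_mul ha)
    have h3 := right_ne_zero_of_mul ha
    have h4 := (cL s).shape a u h1
    have h5 := (cL s).par a u (yv_par a.2 h2) h1
    refine ⟨h4.symm.trans ((cR t).shape a v h3), ww_eq_of_dd u.2 s.2 (h5.dd_eq le_rfl), ?_⟩
    rcases yv_tri a.2 (o s).2 (ho1 s) h2 with h6 | h6
    · right
      rw [h4, ho2] at h6
      have a1 := asc_le n u.1
      have a2 := asc_le n v.1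
      have a3 := asc_nonneg n s.1
      have a4 := asc_nonneg n t.1
      have a5 : (ph (st u.1 n) + 1) * (2 * n ^ 2 + 1) ≤ ph (st s.1 n) * (2 * (n : ℤ) ^ 2 + 1) :=
        mul_le_mul_of_nonneg_right h6 (by positivity)
      beta_reduce
      linarith
    · have h7 : a = o s := Subtype.ext h6
      have h8 : st u.1 n = st s.1 n := by rw [← h4, h7, ho2]
      have h9 := (cL s).tri u (h7 ▸ h1)
      have h10 := (cR t).tri v (hoo s t h ▸ h7 ▸ h3)
      beta_reduce
      rw [h8]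
      rcases h9 with h9 | h9 <;> rcases h10 with h10 | h10
      · exact Or.inl ⟨h9, h10⟩
      · right; rw [h9]; omega
      · right; rw [h10]; omega
      · right; omega
  · beta_reduce
    rw [hap]
    refine norm_sum_sq_le _ _ (by positivity) fun a _ => ?_
    by_cases h2 : yv q n (o s).1 a.1 = 0
    · rw [h2, mul_zero, zero_mul, norm_zero, zero_pow two_ne_zero]; positivity
    have h3 := yv_par a.2 h2
    have h4 := (cL s).norm a u h3
    have h5 := (cR t).norm a v (hoo s t h ▸ h3)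
    have h6 := pow_le_pow_left₀ (norm_nonneg _) (G.norm_yv_le (o s).2 (ho1 s) h3) 2
    rw [transpose_apply] at h4
    rw [← hoo s t h] at h5
    have h7 : B ^ (2 * asc n s.1) * B ^ (2 * asc n t.1) ≤ B ^ (4 * n ^ 2) := by
      rw [← zpow_add₀ hB.ne', ← zpow_natCast]
      refine zpow_le_zpow_right₀ G.B1 ?_
      have a1 := asc_le n s.1
      have a2 := asc_le n t.1
      push_cast; omega
    rw [norm_mul, norm_mul, mul_pow, mul_pow]
    calc _ ≤ (θ ^ (dg s.1 n - dg (o s).1 n) * B ^ (2 * asc n s.1)) * (θ ^ dg (o s).1 n) ^ 2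
          * (θ ^ (dg t.1 n - dg (o s).1 n) * B ^ (2 * asc n t.1)) := by gcongr
      _ = θ ^ (dg s.1 n + dg t.1 n) * (B ^ (2 * asc n s.1) * B ^ (2 * asc n t.1)) := by
          rw [zpow_sub₀ hθ.ne', zpow_sub₀ hθ.ne', zpow_add₀ hθ.ne']
          field_simp
      _ ≤ _ := by gcongr
  · beta_reduce
    rw [hdiag s t h, hdiag t s h.symm]
    have h1 := hg s
    have h2 := hg t
    rw [← hoo s t h] at h2 ⊢
    rw [← h1, ← h2]
    ring

end Good

end Pool.Agent.P.MP_e72dc0_lc.Sn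
end

-- part Pool.Agent.P.MP_e72dc0_lc.Sn.HeckeMain
section

/-! Module B (statement): the filtered basis of the group algebra of the symmetric group. -/

namespace Pool.Agent.P.MP_e72dc0_lc.Sn

open Finset
open scoped Classical

namespace HM

lemma norm_sum_lt_one {ι : Type*} (s : Finset ι) (f : ι → ℚ_[2]) (h : ∀ i ∈ s, ‖f i‖ < 1) :
    ‖∑ i ∈ s, f i‖ < 1 := by
  induction s using Finset.induction_on with
  | empty => simp
  | insert a s ha ih =>
    rw [sum_insert ha]
    exact (Padic.nonarchimedean _ _).trans_lt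
      (max_lt (h a (mem_insert_self _ _)) (ih fun i hi => h i (mem_insert_of_mem hi)))

lemma toZMod_eq_zero {o : ℤ_[2]} (h : ‖(o : ℚ_[2])‖ < 1) : PadicInt.toZMod o = 0 := by
  have h1 : o ∈ RingHom.ker (PadicInt.toZMod (p := 2)) := by
    rw [PadicInt.ker_toZMod, IsLocalRing.mem_maximalIdeal, PadicInt.mem_nonunits]
    exact h
  exact h1

lemma det_tri {ι K : Type*} [Fintype ι] [DecidableEq ι] [CommRing K] (C : Matrix ι ι K) (r : ι → ℤ)
    (h : ∀ i p, C i p ≠ 0 → p = i ∨ r p < r i) : C.det = ∏ i, C i i := by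
  rw [Matrix.det_apply, sum_eq_single 1]
  · simp
  · intro σ _ hσ
    by_contra hne
    have h1 : ∀ i, C (σ i) i ≠ 0 := by
      intro i h0
      apply hne
      rw [prod_eq_zero (f := fun i => C (σ i) i) (mem_univ i) h0, smul_zero]
    have h2 : ∀ i ∈ (univ : Finset ι), r i ≤ r (σ i) := by
      intro i _
      rcases h _ _ (h1 i) with e | e
      · exact (congrArg r e).le
      · exact e.le
    have h3 : ∃ i ∈ (univ : Finset ι), r i < r (σ i) := by
      by_contra hc
      apply hσ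
      ext i
      rcases h _ _ (h1 i) with e | e
      · exact e.symm
      · exact absurd ⟨i, mem_univ i, e⟩ hc
    have h4 := sum_lt_sum h2 h3
    rw [Equiv.sum_comp σ r] at h4
    exact lt_irrefl _ h4
  · simp

/-- First tableau of a pair. -/
def fs {n : ℕ} (i : pairs n) : Std n := ⟨i.1.1, (mem_pairs.1 i.2).1⟩
/-- Second tableau of a pair. -/
def sn {n : ℕ} (i : pairs n) : Std n := ⟨i.1.2, (mem_pairs.1 i.2).2.1⟩

lemma st_fs {n : ℕ} (i : pairs n) : st (fs i).1 n = st (sn i).1 n := (mem_pairs.1 i.2).2.2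

lemma ext' {n : ℕ} {i j : pairs n} (h1 : fs i = fs j) (h2 : sn i = sn j) : i = j :=
  Subtype.ext (Prod.ext (congrArg Subtype.val h1) (congrArg Subtype.val h2))

/-- Exchange the two tableaux. -/
def swp (n : ℕ) : Equiv.Perm (pairs n) :=
  Function.Involutive.toPerm
    (fun i => ⟨(i.1.2, i.1.1), mem_pairs.2
      ⟨(mem_pairs.1 i.2).2.1, (mem_pairs.1 i.2).1, (mem_pairs.1 i.2).2.2.symm⟩⟩)
    (fun _ => rfl)

lemma fs_swp {n : ℕ} (i : pairs n) : fs (swp n i) = sn i := rfl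
lemma sn_swp {n : ℕ} (i : pairs n) : sn (swp n i) = fs i := rfl

/-- Transpose both tableaux. -/
def ngp (n : ℕ) : Equiv.Perm (pairs n) :=
  Function.Involutive.toPerm
    (fun i => ⟨(-i.1.1, -i.1.2), mem_pairs.2
      ⟨neg_mem (mem_pairs.1 i.2).1, neg_mem (mem_pairs.1 i.2).2.1, by
        show st (-i.1.1) n = st (-i.1.2) n
        rw [st_neg, st_neg, (mem_pairs.1 i.2).2.2]⟩⟩)
    (fun i => Subtype.ext (Prod.ext (neg_neg _) (neg_neg _)))

lemma fs_ngp {n : ℕ} (i : pairs n) : (fs (ngp n i)).1 = -(fs i).1 := rfl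

lemma sum_pairs {n : ℕ} (F : Std n → Std n → ℚ_[2])
    (hF : ∀ u v, F u v ≠ 0 → st u.1 n = st v.1 n) :
    ∑ u, ∑ v, F u v = ∑ p : pairs n, F (fs p) (sn p) := by
  rw [← Fintype.sum_prod_type' F]
  symm
  refine sum_bij_ne_zero (fun p _ _ => (fs p, sn p)) (fun _ _ _ => mem_univ _) ?_ ?_
    (fun _ _ _ => rfl)
  · intro a _ _ b _ _ e
    exact ext' (congrArg Prod.fst e) (congrArg Prod.snd e)
  · intro b _ hb
    exact ⟨⟨(b.1.1, b.2.1), mem_pairs.2 ⟨b.1.2, b.2.2, hF _ _ hb⟩⟩, mem_univ _, hb, rfl⟩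

lemma term_small {n : ℕ} {q : ℚ_[2]} {θ B : ℝ} (G : Good n q θ B) (u : Std n)
    {a b c : ℚ_[2]} {d1 d2 d3 : ℤ}
    (ha : ‖a‖ ^ 2 ≤ θ ^ d1 * B ^ (4 * n ^ 2)) (hb : ‖b‖ ^ 2 ≤ θ ^ d2 * B ^ (4 * n ^ 2))
    (hc : ‖c‖ ^ 2 ≤ θ ^ d3 * B ^ (4 * n ^ 2)) (he : 1 ≤ d1 + d2 + d3 - 2 * ww u.1 n) :
    ‖mw q n u.1 * (a * b * c)‖ < 1 := by
  have hθ := G.θpos
  have hB := G.Bpos
  have hm := G.norm_mw_le u.2
  have h1 : ‖mw q n u.1 * (a * b * c)‖ ^ 2 ≤ (θ ^ (-ww u.1 n) * B ^ (n * (2 * n + 1))) ^ 2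
      * ((θ ^ d1 * B ^ (4 * n ^ 2)) * (θ ^ d2 * B ^ (4 * n ^ 2))
        * (θ ^ d3 * B ^ (4 * n ^ 2))) := by
    rw [norm_mul, norm_mul, norm_mul, mul_pow, mul_pow, mul_pow]
    gcongr
  have h2 : (θ ^ (-ww u.1 n) * B ^ (n * (2 * n + 1))) ^ 2
      * ((θ ^ d1 * B ^ (4 * n ^ 2)) * (θ ^ d2 * B ^ (4 * n ^ 2))
        * (θ ^ d3 * B ^ (4 * n ^ 2)))
      = θ ^ (d1 + d2 + d3 - 2 * ww u.1 n) * B ^ (16 * n ^ 2 + 2 * n) := by
    rw [show d1 + d2 + d3 - 2 * ww u.1 n = d1 + d2 + d3 + -ww u.1 n + -ww u.1 n by ring,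
      zpow_add₀ hθ.ne', zpow_add₀ hθ.ne', zpow_add₀ hθ.ne', zpow_add₀ hθ.ne']
    ring
  have h3 : θ ^ (d1 + d2 + d3 - 2 * ww u.1 n) ≤ θ := by
    have := zpow_le_zpow_right_of_le_one₀ hθ G.θle he
    rwa [zpow_one] at this
  have h4 : B ^ (16 * n ^ 2 + 2 * n) ≤ B ^ (20 * n ^ 2 + 20) :=
    pow_le_pow_right₀ G.B1 (by nlinarith [Nat.zero_le n])
  have h5 : ‖mw q n u.1 * (a * b * c)‖ ^ 2 < 1 := by
    refine (h1.trans h2.le).trans_lt (lt_of_le_of_lt ?_ G.small)
    gcongr
  exact (sq_lt_one_iff₀ (norm_nonneg _)).1 h5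

end HM

open HM in
theorem basisB (n : ℕ) :
    ∃ b : pairs n → MonoidAlgebra (ZMod 2) (Equiv.Perm (Fin n)),
      LinearIndependent (ZMod 2) b ∧
      ∀ i j k : pairs n, 0 < D6 n i + D6 n j + D6 n k → (b i * b j * b k).coeff 1 = 0 := by
  obtain ⟨q, θ, B, G⟩ := exists_good n
  obtain ⟨ψ, rk, hψ⟩ := G.exists_psi
  set P : pairs n → Mat n := fun i => ψ (fs i) (sn i) with hP
  have hl : ∀ i, ∃ x, Lift q n (P i) x := fun i => (hψ _ _ (st_fs i)).1
  choose b hb using hl
  have hsupp : ∀ i u v, P i u v ≠ 0 → st u.1 n = st v.1 n ∧ ww u.1 n = ww (fs i).1 n ∧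
      ((u = fs i ∧ v = sn i) ∨ rk u v < rk (fs i) (sn i)) := fun i => (hψ _ _ (st_fs i)).2.1
  have hnorm : ∀ i u v, ‖P i u v‖ ^ 2 ≤ θ ^ (dg (fs i).1 n + dg (sn i).1 n) * B ^ (4 * n ^ 2) :=
    fun i => (hψ _ _ (st_fs i)).2.2.1
  have hdiag : ∀ i, ‖P i (fs i) (sn i)‖ * ‖P (swp n i) (sn i) (fs i)‖
      = gw q n (fs i).1 * gw q n (sn i).1 := fun i => (hψ _ _ (st_fs i)).2.2.2
  refine ⟨b, ?_, fun i j k hD => ?_⟩
  · have hO : ∀ i j, ∃ o : ℤ_[2], tau q (P i * P j) = o
        ∧ PadicInt.toZMod o = (b i * b j).coeff 1 := fun i j => G.lift_tau ((hb i).mul (hb j))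
    choose O hO1 hO2 using hO
    set C : Matrix (pairs n) (pairs n) ℚ_[2] := Matrix.of fun i p => P i (fs p) (sn p) with hC
    have hgram : (Matrix.of O).map (PadicInt.Coe.ringHom (p := 2))
        = C * Matrix.diagonal (fun p => mw q n (fs p).1) * (C.submatrix id (swp n)).transpose := by
      ext i j
      have e1 : (Matrix.of O).map (PadicInt.Coe.ringHom (p := 2)) i j = (O i j : ℚ_[2]) := rfl
      rw [e1, ← hO1, Matrix.mul_apply]
      simp only [tau, Matrix.mul_apply (M := P i), mul_sum]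
      rw [sum_pairs (fun u v => mw q n u.1 * (P i u v * P j v u))
        fun u v h => (hsupp i u v (left_ne_zero_of_mul (right_ne_zero_of_mul h))).1]
      refine sum_congr rfl fun p _ => ?_
      rw [Matrix.mul_diagonal, Matrix.transpose_apply, Matrix.submatrix_apply]
      simp only [hC, Matrix.of_apply, id, fs_swp, sn_swp]
      ring
    have hdetC : C.det = ∏ i, C i i := by
      refine det_tri C (fun p => rk (fs p) (sn p)) fun i p h => ?_
      rcases (hsupp i _ _ h).2.2 with ⟨e1, e2⟩ | e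
      · exact Or.inl (ext' e1 e2)
      · exact Or.inr e
    have hn2 : ‖C.det‖ * ‖C.det‖ = ∏ i : pairs n, (gw q n (fs i).1 * gw q n (-(fs i).1)) := by
      rw [hdetC, norm_prod]
      conv_lhs => rw [← Equiv.prod_comp (swp n) fun i => ‖C i i‖]; enter [1]; rw [Equiv.prod_comp (swp n) fun i => ‖C i i‖]
      rw [← prod_mul_distrib]
      have e1 : ∀ i, ‖C i i‖ * ‖C (swp n i) (swp n i)‖ = gw q n (fs i).1 * gw q n (sn i).1 :=
        fun i => hdiag i
      simp only [e1]
      rw [prod_mul_distrib, prod_mul_distrib]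
      congr 1
      calc ∏ i : pairs n, gw q n (sn i).1 = ∏ i : pairs n, gw q n (fs (swp n i)).1 := rfl
        _ = ∏ i : pairs n, gw q n (fs i).1 :=
            Equiv.prod_comp (swp n) fun i => gw q n (fs i).1
        _ = ∏ i : pairs n, gw q n (fs (ngp n i)).1 :=
            (Equiv.prod_comp (ngp n) fun i => gw q n (fs i).1).symm
        _ = _ := rfl
    have hdet : ‖(Matrix.of O).det‖ = 1 := by
      have e1 : (((Matrix.of O).det : ℤ_[2]) : ℚ_[2])
          = ((Matrix.of O).map (PadicInt.Coe.ringHom (p := 2))).det :=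
        RingHom.map_det (PadicInt.Coe.ringHom (p := 2)) (Matrix.of O)
      rw [PadicInt.norm_def, e1, hgram, Matrix.det_mul, Matrix.det_mul, Matrix.det_transpose,
        Matrix.det_permute', Matrix.det_diagonal, norm_mul, norm_mul, norm_mul, norm_prod]
      have e2 : ‖((Equiv.Perm.sign (swp n) : ℤ) : ℚ_[2])‖ = 1 := by
        rcases Int.units_eq_one_or (Equiv.Perm.sign (swp n)) with h | h <;> simp [h]
      rw [e2, one_mul, mul_right_comm, hn2, ← prod_mul_distrib]
      exact prod_eq_one fun i _ => G.gw_mul_neg (fs i).2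
    have hu : IsUnit ((Matrix.of O).map (PadicInt.toZMod (p := 2))).det := by
      have e1 := RingHom.map_det (PadicInt.toZMod (p := 2)) (Matrix.of O)
      rw [RingHom.mapMatrix_apply] at e1
      rw [← e1]
      exact (PadicInt.isUnit_iff.2 hdet).map _
    have hli := Matrix.linearIndependent_rows_iff_isUnit.2
      ((Matrix.isUnit_iff_isUnit_det _).2 hu)
    rw [Fintype.linearIndependent_iff] at hli ⊢
    intro g hg
    refine hli g ?_
    funext j
    have e1 := congrArg (fun x => (x * b j).coeff 1) hg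
    simp only [sum_mul, smul_mul_assoc, MonoidAlgebra.coeff_sum, Finsupp.finsetSum_apply,
      MonoidAlgebra.coeff_smul_apply, zero_mul, MonoidAlgebra.coeff_zero, Finsupp.coe_zero,
      Pi.zero_apply] at e1
    rw [Finset.sum_apply, Pi.zero_apply, ← e1]
    refine sum_congr rfl fun i _ => ?_
    rw [Pi.smul_apply, ← hO2]
    rfl
  · obtain ⟨o, ho1, ho2⟩ := G.lift_tau (((hb i).mul (hb j)).mul (hb k))
    rw [← ho2]
    refine toZMod_eq_zero ?_
    rw [← ho1]
    simp only [tau, Matrix.mul_apply, sum_mul, mul_sum]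
    refine norm_sum_lt_one _ _ fun u _ => norm_sum_lt_one _ _ fun w _ =>
      norm_sum_lt_one _ _ fun v _ => ?_
    by_cases h0 : P i u v * P j v w * P k w u = 0
    · rw [h0]; simp
    obtain ⟨a1, a2, -⟩ := hsupp i u v (left_ne_zero_of_mul (left_ne_zero_of_mul h0))
    obtain ⟨b1, b2, -⟩ := hsupp j v w (right_ne_zero_of_mul (left_ne_zero_of_mul h0))
    obtain ⟨c1, c2, -⟩ := hsupp k w u (right_ne_zero_of_mul h0)
    have e1 : ww u.1 n = ww v.1 n := ww_eq_of_dd u.2 v.2 (by rw [a1])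
    have e2 : ww w.1 n = ww u.1 n := ww_eq_of_dd w.2 u.2 (by rw [c1])
    refine term_small G u (hnorm i u v) (hnorm j v w) (hnorm k w u) ?_
    have d1 : D6 n i = 3 * (dg (fs i).1 n + dg (sn i).1 n) - 2 * ww (fs i).1 n := rfl
    have d2 : D6 n j = 3 * (dg (fs j).1 n + dg (sn j).1 n) - 2 * ww (fs j).1 n := rfl
    have d3 : D6 n k = 3 * (dg (fs k).1 n + dg (sn k).1 n) - 2 * ww (fs k).1 n := rfl
    omega

end Pool.Agent.P.MP_e72dc0_lc.Sn
end

-- part Pool.Agent.P.MP_e72dc0_lc.Sn.Fock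
section

/-! Module C: the deformed up/down commutation relation on Young's lattice. -/

namespace Pool.Agent.P.MP_e72dc0_lc.Sn

open Finset
open scoped Classical

/-- Shapes with `k` boxes. -/
noncomputable def shapes (k : ℕ) : Finset (Multiset ℤ) := (Std k).image fun t => st t k

/-- Weighted number of standard tableaux of shape `μ`. -/
noncomputable def U (φ : ℝ) (k : ℕ) (μ : Multiset ℤ) : ℝ :=
  ∑ t ∈ (Std k).filter (fun t => st t k = μ), Real.exp (φ * ee t k)

noncomputable def Hq (φ : ℝ) (d : ℤ) : ℝ := Real.cosh ((4 * d - 1) * φ) / Real.cosh φ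

/-- The undeformed up operator. -/
noncomputable def upOp (y : Multiset ℤ → ℝ) (ν : Multiset ℤ) : ℝ := ∑ b ∈ rem ν, y (ν.erase b)

namespace Fock

lemma hh_cons_self (μ : Multiset ℤ) (c : ℤ) : hh (c ::ₘ μ) c = hh μ c - 2 := by
  rw [hh_cons]; split_ifs <;> omega

lemma edge_iff (μ ν : Multiset ℤ) (c : ℤ) :
    (hh μ c = 1 ∧ c ::ₘ μ = ν) ↔ (hh ν c = -1 ∧ μ = ν.erase c) := by
  constructor
  · rintro ⟨h, rfl⟩
    exact ⟨by rw [hh_cons_self]; omega, (Multiset.erase_cons_head _ _).symm⟩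
  · rintro ⟨h, rfl⟩
    have e : c ::ₘ ν.erase c = ν := Multiset.cons_erase (mem_of_hh_neg (by omega))
    refine ⟨?_, e⟩
    rw [← e, hh_cons_self] at h
    omega

lemma cons_erase_of_rem {ν : Multiset ℤ} {b : ℤ} (h : b ∈ rem ν) : b ::ₘ ν.erase b = ν :=
  Multiset.cons_erase (mem_of_hh_neg (by rw [mem_rem.1 h]; omega))

lemma valid_erase {ν : Multiset ℤ} (hν : Valid ν) {b : ℤ} (h : b ∈ rem ν) :
    Valid (ν.erase b) ∧ hh (ν.erase b) b = 1 := by
  have e := cons_erase_of_rem h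
  refine Valid.of_cons (by rwa [e]) ?_
  rw [e]; exact mem_rem.1 h

lemma exists_rem {μ : Multiset ℤ} (hμ : Valid μ) (h0 : μ ≠ 0) : ∃ b, hh μ b = -1 := by
  have hne : μ.toFinset.Nonempty := Multiset.toFinset_nonempty.2 h0
  obtain ⟨M, hM, hM'⟩ := μ.toFinset.exists_max_image id hne
  obtain ⟨m, hm, hm'⟩ := μ.toFinset.exists_min_image id hne
  rw [Multiset.mem_toFinset] at hM hm
  have c1 : μ.count (M + 1) = 0 := Multiset.count_eq_zero.2 fun h => by
    have := hM' _ (Multiset.mem_toFinset.2 h)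
    simp at this
  have c2 : μ.count (m - 1) = 0 := Multiset.count_eq_zero.2 fun h => by
    have := hm' _ (Multiset.mem_toFinset.2 h)
    simp at this
  have c3 : 0 < μ.count M := Multiset.count_pos.2 hM
  have c4 : 0 < μ.count m := Multiset.count_pos.2 hm
  have e1 : eta μ M = 1 := by
    have := hμ M
    unfold eta at this ⊢
    split_ifs at this ⊢ <;> omega
  have e2 : eta μ (m - 1) = 0 := by
    have := hμ (m - 1)
    unfold eta at this ⊢
    rw [sub_add_cancel] at this ⊢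
    split_ifs at this ⊢ <;> omega
  have hle : m ≤ M := hM' _ (Multiset.mem_toFinset.2 hm)
  by_contra hn
  push Not at hn
  have key : ∀ j : ℕ, eta μ (m - 1 + j) = 0 := by
    intro j
    induction j with
    | zero => simpa using e2
    | succ j ih =>
      have h1 := hn (m - 1 + (j + 1 : ℕ))
      rw [Ne, hμ.hh_eq_neg_one] at h1
      have e : m - 1 + ((j + 1 : ℕ) : ℤ) - 1 = m - 1 + j := by push_cast; ring
      rw [e] at h1
      rcases hμ (m - 1 + (j + 1 : ℕ)) with h | h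
      · exact h
      · exact absurd ⟨ih, h⟩ h1
  have := key (M - m + 1).toNat
  rw [show m - 1 + ((M - m + 1).toNat : ℤ) = M by omega] at this
  omega

lemma st_update_succ (t : ℕ → ℤ) (k : ℕ) (c : ℤ) :
    st (Function.update t k c) (k + 1) = c ::ₘ st t k := by
  rw [st_succ, st_update _ _ le_rfl, Function.update_self]

lemma update_mem_Std {t : ℕ → ℤ} {k : ℕ} (ht : t ∈ Std k) {c : ℤ} (hc : hh (st t k) c = 1) :
    Function.update t k c ∈ Std (k + 1) := by
  rw [Std, mem_biUnion]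
  exact ⟨t, ht, mem_image.2 ⟨c, mem_add.2 hc, rfl⟩⟩

lemma ee_update (t : ℕ → ℤ) (k : ℕ) (c : ℤ) :
    ee (Function.update t k c) (k + 1) = ee t k + eps (st t k) c := by
  unfold ee
  rw [sum_range_succ, st_update _ _ le_rfl, Function.update_self]
  congr 1
  refine sum_congr rfl fun j hj => ?_
  have hj' := mem_range.1 hj
  rw [st_update _ _ hj'.le, Function.update_of_ne hj'.ne]

end Fock

open Fock

theorem mem_shapes {k : ℕ} {μ : Multiset ℤ} :
    μ ∈ shapes k ↔ Valid μ ∧ Multiset.card μ = k := by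
  constructor
  · intro h
    obtain ⟨t, ht, rfl⟩ := mem_image.1 h
    exact ⟨valid_st ht le_rfl, card_st t k⟩
  · rintro ⟨h1, h2⟩
    induction k generalizing μ with
    | zero =>
      rw [Multiset.card_eq_zero] at h2
      subst h2
      exact mem_image.2 ⟨0, by simp [Std], by simp⟩
    | succ k ih =>
      obtain ⟨b, hb⟩ := exists_rem h1 (by rintro rfl; simp at h2)
      have hb' := mem_rem.2 hb
      obtain ⟨v1, v2⟩ := valid_erase h1 hb'
      have e := cons_erase_of_rem hb'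
      have hc : Multiset.card (μ.erase b) = k := by
        have := congrArg Multiset.card e
        rw [Multiset.card_cons] at this
        omega
      obtain ⟨t, ht, hst⟩ := mem_image.1 (ih v1 hc)
      refine mem_image.2 ⟨Function.update t k b, update_mem_Std ht (by rwa [hst]), ?_⟩
      rw [st_update_succ, hst, e]

/-- Sums over tableaux of size `k+1` and shape `ν`, by the last content. -/
theorem sum_filter_succ (k : ℕ) (ν : Multiset ℤ) (hν : Valid ν) (f : (ℕ → ℤ) → ℝ) :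
    ∑ t ∈ (Std (k + 1)).filter (fun t => st t (k + 1) = ν), f t
      = ∑ b ∈ rem ν, ∑ t ∈ (Std k).filter (fun t => st t k = ν.erase b),
          f (Function.update t k b) := by
  have _ := hν
  simp only [sum_filter]
  rw [sum_Std_succ, sum_comm]
  refine sum_congr rfl fun t _ => ?_
  simp only [st_update_succ]
  rw [← sum_filter, ← sum_filter]
  refine sum_congr ?_ fun _ _ => rfl
  ext c
  simp only [mem_filter, mem_add, mem_rem]
  exact edge_iff _ _ _

namespace Fock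

lemma sum_edges' (k : ℕ) (G : Multiset ℤ → ℤ → ℝ) :
    ∑ ν ∈ shapes (k + 1), ∑ b ∈ rem ν, G (ν.erase b) b
      = ∑ μ ∈ shapes k, ∑ c ∈ add μ, G μ c := by
  rw [sum_sigma', sum_sigma']
  refine sum_nbij' (fun p => ⟨p.1.erase p.2, p.2⟩) (fun p => ⟨p.2 ::ₘ p.1, p.2⟩) ?_ ?_ ?_ ?_ ?_
  · rintro ⟨ν, b⟩ h
    simp only [mem_sigma, mem_shapes, mem_add] at h ⊢
    obtain ⟨⟨h1, h2⟩, h3⟩ := h
    obtain ⟨v1, v2⟩ := valid_erase h1 h3
    have := congrArg Multiset.card (cons_erase_of_rem h3)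
    rw [Multiset.card_cons] at this
    exact ⟨⟨v1, by omega⟩, v2⟩
  · rintro ⟨μ, c⟩ h
    simp only [mem_sigma, mem_shapes, mem_add, mem_rem] at h ⊢
    obtain ⟨⟨h1, h2⟩, h3⟩ := h
    exact ⟨⟨h1.cons h3, by rw [Multiset.card_cons, h2]⟩, by rw [hh_cons_self]; omega⟩
  · rintro ⟨ν, b⟩ h
    simp only [mem_sigma] at h
    simp only [cons_erase_of_rem h.2]
  · rintro ⟨μ, c⟩ _
    simp only [Multiset.erase_cons_head]
  · rintro ⟨ν, b⟩ _
    rfl

end Fock

/-- Edges of Young's lattice counted from below and from above. -/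
theorem sum_edges (k : ℕ) (g : Multiset ℤ → Multiset ℤ → ℝ) :
    ∑ ν ∈ shapes (k + 1), ∑ b ∈ rem ν, g (ν.erase b) ν
      = ∑ μ ∈ shapes k, ∑ c ∈ add μ, g μ (c ::ₘ μ) := by
  rw [← sum_edges' k fun μ c => g μ (c ::ₘ μ)]
  exact sum_congr rfl fun ν _ => sum_congr rfl fun b hb => by rw [cons_erase_of_rem hb]

theorem sum_pairs (n : ℕ) (f g : (ℕ → ℤ) → ℝ) :
    ∑ p ∈ pairs n, f p.1 * g p.2
      = ∑ μ ∈ shapes n, (∑ s ∈ (Std n).filter (fun t => st t n = μ), f s)
          * ∑ t ∈ (Std n).filter (fun t => st t n = μ), g t := by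
  rw [← sum_fiberwise_of_maps_to (s := pairs n) (t := shapes n) (g := fun p => st p.1 n)
    fun p hp => mem_image.2 ⟨p.1, (mem_pairs.1 hp).1, rfl⟩]
  refine sum_congr rfl fun μ _ => ?_
  rw [sum_mul_sum, ← sum_product']
  refine sum_congr ?_ fun _ _ => rfl
  ext p
  simp only [mem_filter, mem_pairs, mem_product]
  constructor
  · rintro ⟨⟨h1, h2, h3⟩, h4⟩
    exact ⟨⟨h1, h4⟩, h2, h3 ▸ h4⟩
  · rintro ⟨⟨h1, h4⟩, h2, h3⟩
    exact ⟨⟨h1, h2, h4.trans h3.symm⟩, h4⟩

namespace Fock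

/-- The deformed edge weight. -/
noncomputable def om (φ : ℝ) (μ : Multiset ℤ) (c : ℤ) : ℝ := Real.exp (φ * eps μ c)

noncomputable def up (φ : ℝ) (y : Multiset ℤ → ℝ) (ν : Multiset ℤ) : ℝ :=
  ∑ b ∈ rem ν, om φ (ν.erase b) b * y (ν.erase b)

noncomputable def down (φ : ℝ) (y : Multiset ℤ → ℝ) (ν : Multiset ℤ) : ℝ :=
  ∑ c ∈ add ν, om φ ν c * y (c ::ₘ ν)

lemma eps_cons_self (κ : Multiset ℤ) (b : ℤ) : eps (b ::ₘ κ) b = eps κ b := by
  unfold eps
  rw [Lam_cons, if_neg (by omega), if_neg (by omega), if_pos rfl]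
  simp

lemma eps_cons_symm (κ : Multiset ℤ) {b c : ℤ} (h0 : b ≠ c) (h1 : b ≠ c + 1) (h2 : b ≠ c - 1) :
    eps (b ::ₘ κ) c + eps (c ::ₘ κ) b = eps κ b + eps κ c := by
  unfold eps
  rw [Lam_cons, Lam_cons]
  rcases lt_or_gt_of_ne h0 with h | h
  · rw [Int.sign_eq_one_of_pos (a := c - (b - 1)) (by omega),
      Int.sign_eq_one_of_pos (a := c - (b + 1)) (by omega),
      Int.sign_eq_one_of_pos (a := c - b) (by omega),
      Int.sign_eq_neg_one_of_neg (a := b - (c - 1)) (by omega),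
      Int.sign_eq_neg_one_of_neg (a := b - (c + 1)) (by omega),
      Int.sign_eq_neg_one_of_neg (a := b - c) (by omega)]
    split_ifs <;> omega
  · rw [Int.sign_eq_neg_one_of_neg (a := c - (b - 1)) (by omega),
      Int.sign_eq_neg_one_of_neg (a := c - (b + 1)) (by omega),
      Int.sign_eq_neg_one_of_neg (a := c - b) (by omega),
      Int.sign_eq_one_of_pos (a := b - (c - 1)) (by omega),
      Int.sign_eq_one_of_pos (a := b - (c + 1)) (by omega),
      Int.sign_eq_one_of_pos (a := b - c) (by omega)]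
    split_ifs <;> omega

/-- Telescoping over a linearly ordered finite set. -/
lemma telescope (ψ : ℝ) (h : ℤ → ℤ) (hh3 : ∀ c, h c = 1 ∨ h c = 0 ∨ h c = -1) (W : Finset ℤ) :
    (Real.exp ψ - Real.exp (-ψ)) *
        ∑ c ∈ W, (h c : ℝ) * Real.exp (ψ * (∑ x ∈ W, h x * Int.sign (c - x) : ℤ))
      = Real.exp (ψ * (∑ x ∈ W, h x : ℤ)) - Real.exp (-(ψ * (∑ x ∈ W, h x : ℤ))) := by
  induction W using Finset.induction_on_max with
  | empty => simp
  | insert a W ha ih =>
    have hn : a ∉ W := fun hm => lt_irrefl _ (ha a hm)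
    have e1 : ∑ x ∈ insert a W, h x * Int.sign (a - x) = ∑ x ∈ W, h x := by
      rw [sum_insert hn, sub_self, Int.sign_zero, mul_zero, zero_add]
      refine sum_congr rfl fun x hx => ?_
      rw [Int.sign_eq_one_of_pos (by have := ha x hx; omega), mul_one]
    have e2 : ∀ c ∈ W, Real.exp (ψ * (∑ x ∈ insert a W, h x * Int.sign (c - x) : ℤ)) =
        Real.exp (-(ψ * h a)) * Real.exp (ψ * (∑ x ∈ W, h x * Int.sign (c - x) : ℤ)) := by
      intro c hc
      rw [sum_insert hn, Int.sign_eq_neg_one_of_neg (by have := ha c hc; omega), ← Real.exp_add]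
      congr 1
      push_cast
      ring
    have e3 : ∑ c ∈ W, (h c : ℝ) *
        Real.exp (ψ * (∑ x ∈ insert a W, h x * Int.sign (c - x) : ℤ)) = Real.exp (-(ψ * h a)) *
        ∑ c ∈ W, (h c : ℝ) * Real.exp (ψ * (∑ x ∈ W, h x * Int.sign (c - x) : ℤ)) := by
      rw [mul_sum]
      exact sum_congr rfl fun c hc => by rw [e2 c hc]; ring
    rw [sum_insert hn, e1, e3, sum_insert hn]
    generalize (∑ c ∈ W, (h c : ℝ) *
      Real.exp (ψ * (∑ x ∈ W, h x * Int.sign (c - x) : ℤ))) = S at ih ⊢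
    generalize (∑ x ∈ W, h x) = H at ih ⊢
    have x1 : ∀ s : ℝ, Real.exp (ψ * (s + H)) = Real.exp (ψ * s) * Real.exp (ψ * H) := by
      intro s; rw [← Real.exp_add]; congr 1; ring
    have x2 : ∀ s : ℝ, Real.exp (-(ψ * (s + H))) = Real.exp (-(ψ * s)) * Real.exp (-(ψ * H)) := by
      intro s; rw [← Real.exp_add]; congr 1; ring
    push_cast
    rw [x1, x2]
    rcases hh3 a with h1 | h1 | h1 <;> rw [h1] <;> push_cast
    · simp only [mul_one]
      linear_combination Real.exp (-ψ) * ih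
    · simp only [mul_zero, neg_zero, Real.exp_zero]
      linear_combination ih
    · simp only [mul_neg, mul_one, neg_neg]
      linear_combination Real.exp ψ * ih

lemma sum_hh_class (μ : Multiset ℤ) (r : ℤ) :
    ∑ x ∈ (supp3 μ).filter (fun x => x % 2 = r % 2), hh μ x
      = if r % 2 = 0 then 1 - 2 * dd μ else 2 * dd μ := by
  rw [← Lam_parity, Lam_eq_sum μ _ _ subset_rfl, sum_filter]
  exact sum_congr rfl fun x _ => by split_ifs <;> simp

lemma eps_eq_class (μ : Multiset ℤ) (r c : ℤ) (hc : c % 2 = r % 2) :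
    eps μ c = ∑ x ∈ (supp3 μ).filter (fun x => x % 2 = r % 2), hh μ x * Int.sign (c - x) := by
  unfold eps
  rw [Lam_eq_sum μ _ _ subset_rfl, sum_filter, hc]
  exact sum_congr rfl fun x _ => by split_ifs <;> simp

lemma sum_hh_exp {μ : Multiset ℤ} (hμ : Valid μ) (φ : ℝ) :
    ∑ c ∈ supp3 μ, (hh μ c : ℝ) * Real.exp (2 * φ * eps μ c) = Hq φ (dd μ) := by
  have split : ∀ F : ℤ → ℝ, ∑ c ∈ supp3 μ, F c =
      ∑ c ∈ (supp3 μ).filter (fun x => x % 2 = 0 % 2), F c +
        ∑ c ∈ (supp3 μ).filter (fun x => x % 2 = 1 % 2), F c := by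
    intro F
    rw [← sum_filter_add_sum_filter_not (supp3 μ) (fun x => x % 2 = 0 % 2)]
    congr 1
    refine sum_congr (filter_congr fun x _ => ?_) fun _ _ => rfl
    omega
  have s0 := sum_hh_class μ 0
  have s1 := sum_hh_class μ 1
  rw [if_pos (by norm_num)] at s0
  rw [if_neg (by norm_num)] at s1
  by_cases h0 : φ = 0
  · subst h0
    simp only [mul_zero, zero_mul, Real.exp_zero, mul_one, Hq, Real.cosh_zero, div_one]
    rw [split, ← Int.cast_sum, ← Int.cast_sum, s0, s1]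
    push_cast
    ring
  have t0 := telescope (2 * φ) (hh μ) hμ.hh_cases ((supp3 μ).filter fun x => x % 2 = 0 % 2)
  have t1 := telescope (2 * φ) (hh μ) hμ.hh_cases ((supp3 μ).filter fun x => x % 2 = 1 % 2)
  rw [sum_congr rfl fun c hc => by rw [← eps_eq_class μ 0 c (mem_filter.1 hc).2], s0] at t0
  rw [sum_congr rfl fun c hc => by rw [← eps_eq_class μ 1 c (mem_filter.1 hc).2], s1] at t1
  rw [split]
  generalize (∑ c ∈ (supp3 μ).filter (fun x => x % 2 = 0 % 2),
    (hh μ c : ℝ) * Real.exp (2 * φ * eps μ c)) = S0 at t0 ⊢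
  generalize (∑ c ∈ (supp3 μ).filter (fun x => x % 2 = 1 % 2),
    (hh μ c : ℝ) * Real.exp (2 * φ * eps μ c)) = S1 at t1 ⊢
  have hs : Real.sinh φ ≠ 0 := by rwa [Ne, Real.sinh_eq_zero]
  rw [Hq, eq_div_iff (Real.cosh_pos φ).ne']
  apply mul_left_cancel₀ hs
  have a1 : Real.exp (2 * φ) - Real.exp (-(2 * φ)) = 4 * Real.sinh φ * Real.cosh φ := by
    have := Real.sinh_two_mul φ
    rw [Real.sinh_eq (2 * φ)] at this
    linarith
  have a2 : ∀ x y : ℝ, Real.exp (x + y) - Real.exp (-(x + y)) +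
      (Real.exp (x - y) - Real.exp (-(x - y))) = 4 * Real.sinh x * Real.cosh y := by
    intro x y
    have e1 := Real.sinh_add x y
    have e2 := Real.sinh_sub x y
    rw [Real.sinh_eq (x + y)] at e1
    rw [Real.sinh_eq (x - y)] at e2
    linarith
  have a3 := a2 φ ((4 * dd μ - 1) * φ)
  rw [a1] at t0 t1
  push_cast at t0 t1
  rw [show φ + (4 * dd μ - 1) * φ = 2 * φ * (2 * dd μ) by ring,
    show φ - (4 * dd μ - 1) * φ = 2 * φ * (1 - 2 * dd μ) by ring] at a3
  linarith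

lemma sum_om_sq {μ : Multiset ℤ} (hμ : Valid μ) (φ : ℝ) :
    ∑ c ∈ add μ, om φ μ c ^ 2 = Hq φ (dd μ) + ∑ b ∈ rem μ, om φ μ b ^ 2 := by
  have e1 : rem μ = (supp3 μ).filter fun c => hh μ c = -1 := by
    ext c
    rw [mem_rem, mem_filter]
    exact ⟨fun h => ⟨mem_supp3_of_ne (by omega), h⟩, fun h => h.2⟩
  rw [← sum_hh_exp hμ, e1, add, sum_filter, sum_filter, ← sum_add_distrib]
  refine sum_congr rfl fun c _ => ?_
  have e2 : om φ μ c ^ 2 = Real.exp (2 * φ * eps μ c) := by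
    rw [om, sq, ← Real.exp_add]; congr 1; ring
  rw [e2]
  rcases hμ.hh_cases c with h | h | h <;> simp [h]

/-- The deformed commutation relation. -/
lemma down_up (φ : ℝ) (y : Multiset ℤ → ℝ) {ν : Multiset ℤ} (hν : Valid ν) :
    down φ (up φ y) ν = Hq φ (dd ν) * y ν + up φ (down φ y) ν := by
  have l1 : down φ (up φ y) ν = (∑ c ∈ add ν, om φ ν c ^ 2) * y ν +
      ∑ c ∈ add ν, ∑ b ∈ (rem (c ::ₘ ν)).erase c,
        om φ ν c * (om φ (c ::ₘ ν.erase b) b * y (c ::ₘ ν.erase b)) := by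
    rw [down, sum_mul, ← sum_add_distrib]
    refine sum_congr rfl fun c hc => ?_
    have hc' : c ∈ rem (c ::ₘ ν) := by rw [mem_rem, hh_cons_self, mem_add.1 hc]; norm_num
    rw [up, ← add_sum_erase _ _ hc', Multiset.erase_cons_head, mul_add, mul_sum]
    congr 1
    · ring
    · refine sum_congr rfl fun b hb => ?_
      rw [Multiset.erase_cons_tail _ (mem_erase.1 hb).1.symm]
  have l2 : up φ (down φ y) ν = (∑ b ∈ rem ν, om φ ν b ^ 2) * y ν +
      ∑ b ∈ rem ν, ∑ c ∈ (add (ν.erase b)).erase b,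
        om φ (ν.erase b) b * (om φ (ν.erase b) c * y (c ::ₘ ν.erase b)) := by
    rw [up, sum_mul, ← sum_add_distrib]
    refine sum_congr rfl fun b hb => ?_
    have hb' : b ∈ add (ν.erase b) := mem_add.2 (valid_erase hν hb).2
    have e := cons_erase_of_rem hb
    have e2 : om φ ν b = om φ (ν.erase b) b := by
      conv_lhs => rw [← e]
      rw [om, om, eps_cons_self]
    rw [down, ← add_sum_erase _ _ hb', e, mul_add, mul_sum, e2]
    congr 1
    ring
  have cond : ∀ c b, c ∈ add ν ∧ b ∈ (rem (c ::ₘ ν)).erase c ↔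
      c ∈ (add (ν.erase b)).erase b ∧ b ∈ rem ν := by
    intro c b
    simp only [mem_erase, mem_add, mem_rem]
    constructor
    · rintro ⟨h1, h2, h3⟩
      rw [hh_cons] at h3
      have h4 := hν.hh_cases b
      have h5 : hh ν b = -1 := by split_ifs at h3 <;> omega
      have e := cons_erase_of_rem (mem_rem.2 h5)
      rw [← e, hh_cons] at h1
      refine ⟨⟨Ne.symm h2, ?_⟩, h5⟩
      split_ifs at h1 h3 <;> omega
    · rintro ⟨⟨h1, h2⟩, h3⟩
      have e := cons_erase_of_rem (mem_rem.2 h3)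
      have h4 := hν.hh_cases c
      have h5 := hh_cons (ν.erase b) b c
      rw [e] at h5
      rw [hh_cons]
      refine ⟨?_, Ne.symm h1, ?_⟩
      · split_ifs at h5 <;> omega
      · split_ifs at h5 ⊢ <;> omega
  rw [l1, l2, sum_om_sq hν, sum_comm' cond, add_mul, add_assoc]
  congr 2
  refine sum_congr rfl fun b hb => sum_congr rfl fun c hc => ?_
  obtain ⟨h1, h2⟩ := (cond c b).2 ⟨hc, hb⟩
  have e := cons_erase_of_rem hb
  obtain ⟨h3, h4⟩ := mem_erase.1 h2
  rw [mem_rem, hh_cons] at h4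
  have h5 := mem_rem.1 hb
  have key := eps_cons_symm (ν.erase b) h3 (by split_ifs at h4 <;> omega)
    (by split_ifs at h4 <;> omega)
  rw [e] at key
  rw [← mul_assoc, ← mul_assoc, om, om, om, om, ← Real.exp_add, ← Real.exp_add, ← mul_add,
    ← mul_add, ← Int.cast_add, ← Int.cast_add, key]

lemma U_succ (φ : ℝ) (k : ℕ) {ν : Multiset ℤ} (hν : Valid ν) :
    U φ (k + 1) ν = up φ (U φ k) ν := by
  rw [U, sum_filter_succ k ν hν, up]
  refine sum_congr rfl fun b _ => ?_
  rw [U, mul_sum]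
  refine sum_congr rfl fun t ht => ?_
  rw [ee_update, (mem_filter.1 ht).2, om, ← Real.exp_add]
  congr 1
  push_cast
  ring

noncomputable def Wt (φ : ℝ) (n : ℕ) (ν : Multiset ℤ) : ℝ :=
  ∑ t ∈ (Std n).filter (fun t => st t n = ν),
    Real.exp (φ * ee t n) * ∑ k ∈ range (n + 1), Hq φ (dd (st t k))

lemma Wt_succ (φ : ℝ) (n : ℕ) {ν : Multiset ℤ} (hν : Valid ν) :
    Wt φ (n + 1) ν = Hq φ (dd ν) * U φ (n + 1) ν + up φ (Wt φ n) ν := by
  have e1 : Wt φ (n + 1) ν = Hq φ (dd ν) * U φ (n + 1) ν +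
      ∑ t ∈ (Std (n + 1)).filter (fun t => st t (n + 1) = ν),
        Real.exp (φ * ee t (n + 1)) * ∑ k ∈ range (n + 1), Hq φ (dd (st t k)) := by
    rw [Wt, U, mul_sum, ← sum_add_distrib]
    refine sum_congr rfl fun t ht => ?_
    rw [sum_range_succ _ (n + 1), (mem_filter.1 ht).2]
    ring
  rw [e1, sum_filter_succ n ν hν, up]
  congr 1
  refine sum_congr rfl fun b _ => ?_
  rw [Wt, mul_sum]
  refine sum_congr rfl fun t ht => ?_
  rw [ee_update, (mem_filter.1 ht).2, om, ← mul_assoc, ← Real.exp_add]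
  congr 1
  · congr 1
    push_cast
    ring
  · exact sum_congr rfl fun k hk => by
      rw [st_update _ _ (Nat.lt_succ_iff.1 (mem_range.1 hk))]

lemma down_U (φ : ℝ) (n : ℕ) {ν : Multiset ℤ} (hν : Valid ν) :
    down φ (U φ (n + 1)) ν = Wt φ n ν := by
  have e0 : ∀ (n : ℕ) {ν : Multiset ℤ}, Valid ν →
      down φ (U φ (n + 1)) ν = Hq φ (dd ν) * U φ n ν + up φ (down φ (U φ n)) ν := by
    intro n ν hν
    rw [← down_up φ _ hν]
    exact sum_congr rfl fun c hc => by rw [U_succ φ n (hν.cons (mem_add.1 hc))]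
  induction n generalizing ν with
  | zero =>
    rw [e0 0 hν]
    have z : ∀ κ, down φ (U φ 0) κ = 0 := by
      intro κ
      refine sum_eq_zero fun c _ => ?_
      rw [U, filter_false_of_mem, sum_empty, mul_zero]
      intro t _
      rw [st_zero]
      exact (Multiset.cons_ne_zero).symm
    have z2 : up φ (down φ (U φ 0)) ν = 0 := sum_eq_zero fun b _ => by rw [z, mul_zero]
    rw [z2, add_zero, Wt, U, mul_sum]
    refine sum_congr rfl fun t ht => ?_
    rw [zero_add, sum_range_one, (mem_filter.1 ht).2, mul_comm]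
  | succ n ih =>
    rw [e0 (n + 1) hν, Wt_succ φ n hν]
    congr 1
    exact sum_congr rfl fun b hb => by rw [ih (valid_erase hν hb).1]

lemma Hq_zero (d : ℤ) : Hq 0 d = 1 := by simp [Hq]

lemma U_pos (φ : ℝ) {k : ℕ} {μ : Multiset ℤ} (h : μ ∈ shapes k) : 0 < U φ k μ := by
  obtain ⟨t, ht, e⟩ := mem_image.1 h
  exact sum_pos (fun _ _ => Real.exp_pos _) ⟨t, mem_filter.2 ⟨ht, e⟩⟩

end Fock

theorem fock_rec (φ : ℝ) (n : ℕ) :
    ∑ p ∈ pairs (n + 1), Real.exp (φ * (ee p.1 (n + 1) + ee p.2 (n + 1)))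
      = ∑ p ∈ pairs n, Real.exp (φ * (ee p.1 n + ee p.2 n))
          * ∑ k ∈ range (n + 1), Hq φ (dd (st p.2 k)) := by
  simp only [mul_add, Real.exp_add, mul_assoc]
  rw [sum_pairs (n + 1) (fun t => Real.exp (φ * ee t (n + 1))) fun t => Real.exp (φ * ee t (n + 1)),
    sum_pairs n (fun t => Real.exp (φ * ee t n))
      fun t => Real.exp (φ * ee t n) * ∑ k ∈ range (n + 1), Hq φ (dd (st t k))]
  change ∑ ν ∈ shapes (n + 1), U φ (n + 1) ν * U φ (n + 1) ν =
    ∑ μ ∈ shapes n, U φ n μ * Wt φ n μ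
  calc ∑ ν ∈ shapes (n + 1), U φ (n + 1) ν * U φ (n + 1) ν
      = ∑ ν ∈ shapes (n + 1), ∑ b ∈ rem ν, U φ n (ν.erase b) *
          (om φ (ν.erase b) b * U φ (n + 1) (b ::ₘ ν.erase b)) := by
        refine sum_congr rfl fun ν hν => ?_
        conv_lhs => rw [U_succ φ n (mem_shapes.1 hν).1, up, sum_mul]
        refine sum_congr rfl fun b hb => ?_
        rw [cons_erase_of_rem hb, U_succ φ n (mem_shapes.1 hν).1, up]
        ring
    _ = ∑ μ ∈ shapes n, ∑ c ∈ add μ, U φ n μ * (om φ μ c * U φ (n + 1) (c ::ₘ μ)) :=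
        sum_edges' n fun μ c => U φ n μ * (om φ μ c * U φ (n + 1) (c ::ₘ μ))
    _ = _ := by
        refine sum_congr rfl fun μ hμ => ?_
        rw [← mul_sum, ← down_U φ n (mem_shapes.1 hμ).1, down]

theorem card_pairs (n : ℕ) : (pairs n).card = n.factorial := by
  induction n with
  | zero => simp [pairs, Std]
  | succ n ih =>
    have := fock_rec 0 n
    simp only [zero_mul, Real.exp_zero, Hq_zero, sum_const, card_range, nsmul_eq_mul, mul_one,
      one_mul, ih] at this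
    rw [Nat.factorial_succ, mul_comm]
    exact_mod_cast this

theorem sum_U_sq (n : ℕ) : ∑ μ ∈ shapes n, U 0 n μ ^ 2 = n.factorial := by
  have := sum_pairs n (fun t => Real.exp (0 * ee t n)) fun t => Real.exp (0 * ee t n)
  simp only [sq, U]
  rw [← this]
  simp [card_pairs]

theorem upOp_norm (k : ℕ) (y : Multiset ℤ → ℝ) :
    ∑ ν ∈ shapes (k + 1), upOp y ν ^ 2 ≤ (k + 1) * ∑ μ ∈ shapes k, y μ ^ 2 := by
  have om0 : ∀ μ c, om 0 μ c = 1 := fun μ c => by simp [om]
  calc ∑ ν ∈ shapes (k + 1), upOp y ν ^ 2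
      ≤ ∑ ν ∈ shapes (k + 1), ∑ b ∈ rem ν, y (ν.erase b) ^ 2 / U 0 k (ν.erase b) *
          U 0 (k + 1) ν := by
        refine sum_le_sum fun ν hν => ?_
        obtain ⟨h1, h2⟩ := mem_shapes.1 hν
        have hpos : ∀ b ∈ rem ν, 0 < U 0 k (ν.erase b) := by
          intro b hb
          have := congrArg Multiset.card (cons_erase_of_rem hb)
          rw [Multiset.card_cons] at this
          exact U_pos 0 (mem_shapes.2 ⟨(valid_erase h1 hb).1, by omega⟩)
        have e : U 0 (k + 1) ν = ∑ b ∈ rem ν, U 0 k (ν.erase b) := by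
          rw [U_succ 0 k h1, up]
          simp only [om0, one_mul]
        have := sq_sum_div_le_sum_sq_div (rem ν) (fun b => y (ν.erase b)) hpos
        rw [← e, div_le_iff₀ (U_pos 0 hν)] at this
        rw [← sum_mul]
        exact this
    _ = ∑ μ ∈ shapes k, ∑ c ∈ add μ, y μ ^ 2 / U 0 k μ * U 0 (k + 1) (c ::ₘ μ) :=
        sum_edges k fun μ ν => y μ ^ 2 / U 0 k μ * U 0 (k + 1) ν
    _ = _ := by
        rw [mul_sum]
        refine sum_congr rfl fun μ hμ => ?_
        have e := down_U 0 k (mem_shapes.1 hμ).1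
        simp only [down, om0, one_mul, Wt, Hq_zero, sum_const, card_range, nsmul_eq_mul,
          mul_one] at e
        rw [← sum_mul] at e
        change _ = U 0 k μ * _ at e
        rw [← mul_sum, e]
        have := (U_pos 0 hμ).ne'
        push_cast
        field_simp

end Pool.Agent.P.MP_e72dc0_lc.Sn
end

-- part Pool.Agent.P.MP_e72dc0_lc.Sn.FermiA
section

/-! Module D, abstract part: from the positivity of shifted traces to a quadratic inequality. -/

namespace Pool.Agent.P.MP_e72dc0_lc.Sn.FermiA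

open Finset

/-- The window. -/
noncomputable def W (M : ℕ) : Finset ℤ := Ico (-(M : ℤ)) M

lemma mem_W {M : ℕ} {a : ℤ} : a ∈ W M ↔ -(M : ℤ) ≤ a ∧ a < M := by simp [W]

/-- Reindex a sum over even shifts as a sum over the window. -/
lemma sum_shift_even (M : ℕ) (f : ℤ → ℝ) (hf : ∀ a, a ∉ W M → f a = 0) (a e : ℤ) (ha : a ∈ W M)
    (he0 : 0 ≤ e) (he : e % 2 = 0) :
    ∑ m ∈ range (M + 1), f (a - (2 * m + e))
      = ∑ b ∈ W M, if b % 2 = a % 2 ∧ b ≤ a - e then f b else 0 := by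
  rw [← sum_filter]
  symm
  rw [mem_W] at ha
  refine sum_of_injOn (fun b => ((a - e - b) / 2).toNat) ?_ ?_ ?_ ?_
  · intro b hb c hc h
    simp only [coe_filter, mem_W, Set.mem_ofPred_eq] at hb hc
    simp only at h
    omega
  · intro b hb
    simp only [coe_filter, mem_W, Set.mem_ofPred_eq] at hb
    simp only [coe_range, Set.mem_Iio]
    omega
  · intro m hm hn
    apply hf
    intro hW
    apply hn
    refine ⟨a - (2 * m + e), ?_, ?_⟩
    · simp only [coe_filter, Set.mem_ofPred_eq]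
      refine ⟨hW, ?_, ?_⟩ <;> omega
    · simp only
      omega
  · intro b hb
    simp only [mem_filter, mem_W] at hb
    congr 1
    omega

/-- Reindex a sum over the window as a sum over differences. -/
lemma sum_shift_diff (M : ℕ) (f : ℤ → ℝ) (hf : ∀ a, a ∉ W M → f a = 0) (a : ℤ) (ha : a ∈ W M) :
    ∑ b ∈ W M, f b = ∑ k ∈ W (2 * M + 2), f (a + k) := by
  rw [mem_W] at ha
  refine sum_of_injOn (fun b => b - a) ?_ ?_ ?_ ?_
  · intro b _ c _ h
    simp only at h
    omega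
  · intro b hb
    simp only [mem_coe, mem_W] at hb ⊢
    push_cast
    omega
  · intro k _ hn
    apply hf
    intro hW
    exact hn ⟨a + k, hW, by simp⟩
  · intro b _
    simp

/-- Count of the admissible shifts. -/
lemma count_ge (M : ℕ) (a e : ℤ) (ha : a ∈ W M) (he0 : 0 ≤ e) (he : e % 2 = 0) :
    ∑ m ∈ range (M + 1), (if 2 * (m : ℤ) + e ≤ a then (1 : ℝ) else 0)
      = ((max ((a - e) / 2 + 1) 0 : ℤ) : ℝ) := by
  rw [mem_W] at ha
  rw [← sum_filter, sum_const, nsmul_eq_mul, mul_one]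
  have : (range (M + 1)).filter (fun m : ℕ => 2 * (m : ℤ) + e ≤ a)
      = range (max ((a - e) / 2 + 1) 0).toNat := by
    ext m
    simp only [mem_filter, mem_range]
    omega
  rw [this, card_range]
  have h2 : (((max ((a - e) / 2 + 1) 0).toNat : ℕ) : ℤ) = max ((a - e) / 2 + 1) 0 := by omega
  exact_mod_cast congrArg (fun z : ℤ => (z : ℝ)) h2

lemma count_lt (M : ℕ) (a e : ℤ) (ha : a ∈ W M) (he0 : 0 ≤ e) (he : e % 2 = 0) :
    ∑ m ∈ range (M + 1), (if a + (2 * (m : ℤ) + e) < 0 then (1 : ℝ) else 0)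
      = ((max (-((a + e) / 2)) 0 : ℤ) : ℝ) := by
  rw [mem_W] at ha
  rw [← sum_filter, sum_const, nsmul_eq_mul, mul_one]
  have : (range (M + 1)).filter (fun m : ℕ => a + (2 * (m : ℤ) + e) < 0)
      = range (max (-((a + e) / 2)) 0).toNat := by
    ext m
    simp only [mem_filter, mem_range]
    omega
  rw [this, card_range]
  have h2 : (((max (-((a + e) / 2)) 0).toNat : ℕ) : ℤ) = max (-((a + e) / 2)) 0 := by omega
  exact_mod_cast congrArg (fun z : ℤ => (z : ℝ)) h2

section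
variable (M : ℕ) (N : ℝ) (D : ℤ → ℤ → ℝ)

/-- Correlation of two rows of the kernel. -/
noncomputable def G (a b : ℤ) : ℝ := ∑ k ∈ W (2 * M + 2), D a (a + k) * D b (b + k)

lemma G_symm (a b : ℤ) : G M D a b = G M D b a :=
  sum_congr rfl fun _ _ => mul_comm _ _

variable {M N D}

/-- One shifted trace inequality, expanded. -/
lemma one_shift (h1 : ∀ a b, a ∉ W M → D a b = 0) (h2 : ∀ a b, b ∉ W M → D a b = 0) (s : ℤ)
    (hs : 0 ≤ s)
    (hpos : 0 ≤ ∑ a ∈ W M, ∑ b ∈ W M, (D a b + if a = b ∧ a < 0 then N else 0)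
      * ((if a = b ∧ s ≤ a then N else 0) - D (a - s) (b - s))) :
    ∑ a ∈ W M, G M D a (a - s)
      ≤ N * ∑ a ∈ W M, ((if s ≤ a then 1 else 0) - (if a + s < 0 then 1 else 0)) * D a a := by
  have e1 : ∀ a ∈ W M, ∑ b ∈ W M, (D a b + if a = b ∧ a < 0 then N else 0)
      * ((if a = b ∧ s ≤ a then N else 0) - D (a - s) (b - s))
      = N * ((if s ≤ a then 1 else 0) * D a a)
        - N * (if a < 0 then D (a - s) (a - s) else 0) - G M D a (a - s) := by
    intro a ha
    have e2 : G M D a (a - s) = ∑ b ∈ W M, D a b * D (a - s) (b - s) := by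
      rw [sum_shift_diff M (fun b => D a b * D (a - s) (b - s))
        (fun b hb => by simp [h2 a b hb]) a ha]
      refine sum_congr rfl fun k _ => ?_
      congr 2
      ring
    have e3 : ∀ b ∈ W M, (D a b + if a = b ∧ a < 0 then N else 0)
        * ((if a = b ∧ s ≤ a then N else 0) - D (a - s) (b - s))
        = (if a = b then N * ((if s ≤ a then 1 else 0) * D a a)
            - N * (if a < 0 then D (a - s) (a - s) else 0) else 0) - D a b * D (a - s) (b - s) := by
      intro b _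
      by_cases hab : a = b
      · subst hab
        by_cases h3 : a < 0
        · have h4 : ¬ s ≤ a := by omega
          simp only [h3, h4, and_true, and_false, if_true, if_false]
          ring
        · by_cases h4 : s ≤ a
          · simp only [h3, h4, and_true, and_false, if_true, if_false]
            ring
          · simp only [h3, h4, and_false, if_true, if_false]
            ring
      · simp only [hab, false_and, if_false]
        ring
    rw [sum_congr rfl e3, sum_sub_distrib, sum_ite_eq, if_pos ha, e2]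
  rw [sum_congr rfl e1, sum_sub_distrib, sum_sub_distrib, ← mul_sum, ← mul_sum] at hpos
  have e4 : ∑ a ∈ W M, (if a < 0 then D (a - s) (a - s) else 0)
      = ∑ a ∈ W M, (if a + s < 0 then 1 else 0) * D a a := by
    simp only [ite_mul, one_mul, zero_mul]
    rw [← sum_filter, ← sum_filter]
    symm
    refine sum_of_injOn (fun a => a + s) ?_ ?_ ?_ ?_
    · intro a _ b _ h
      simp only at h
      omega
    · intro a ha
      simp only [coe_filter, mem_W, Set.mem_ofPred_eq] at ha ⊢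
      omega
    · intro a ha hn
      apply h1
      intro hW
      apply hn
      refine ⟨a - s, ?_, by simp⟩
      simp only [mem_filter] at ha
      simp only [coe_filter, Set.mem_ofPred_eq]
      exact ⟨hW, by omega⟩
    · intro a _
      simp
  rw [e4] at hpos
  simp only [sub_mul, sum_sub_distrib]
  linarith

/-- All the even shifts starting from `e`. -/
lemma sum_shifts (h1 : ∀ a b, a ∉ W M → D a b = 0) (h2 : ∀ a b, b ∉ W M → D a b = 0)
    (hpos : ∀ s : ℤ, 0 ≤ s → 0 ≤ ∑ a ∈ W M, ∑ b ∈ W M, (D a b + if a = b ∧ a < 0 then N else 0)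
      * ((if a = b ∧ s ≤ a then N else 0) - D (a - s) (b - s)))
    (e : ℤ) (he0 : 0 ≤ e) (he : e % 2 = 0) :
    ∑ a ∈ W M, ∑ b ∈ W M, (if b % 2 = a % 2 ∧ b ≤ a - e then G M D a b else 0)
      ≤ N * ∑ a ∈ W M,
        (((max ((a - e) / 2 + 1) 0 : ℤ) : ℝ) - ((max (-((a + e) / 2)) 0 : ℤ) : ℝ)) * D a a := by
  have h3 : ∀ m ∈ range (M + 1), ∑ a ∈ W M, G M D a (a - (2 * (m : ℤ) + e))
      ≤ N * ∑ a ∈ W M, ((if 2 * (m : ℤ) + e ≤ a then 1 else 0)
        - (if a + (2 * (m : ℤ) + e) < 0 then 1 else 0)) * D a a :=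
    fun m _ => one_shift h1 h2 _ (by omega) (hpos _ (by omega))
  have h4 := sum_le_sum h3
  rw [sum_comm, ← mul_sum, sum_comm (s := range (M + 1))] at h4
  refine le_trans (le_of_eq ?_) (h4.trans (le_of_eq ?_))
  · refine sum_congr rfl fun a ha => ?_
    rw [sum_shift_even M (G M D a) (fun b hb => ?_) a e ha he0 he]
    exact sum_eq_zero fun k _ => by rw [h1 b _ hb, mul_zero]
  · congr 1
    refine sum_congr rfl fun a ha => ?_
    rw [← sum_mul, sum_sub_distrib, count_ge M a e ha he0 he, count_lt M a e ha he0 he]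

/-- Parity-restricted diagonal sums. -/
noncomputable def Y (M : ℕ) (D : ℤ → ℤ → ℝ) (r k : ℤ) : ℝ := ∑ a ∈ W M, if a % 2 = r then D a (a + k) else 0

lemma sum_G_eq : ∑ a ∈ W M, ∑ b ∈ W M, (if b % 2 = a % 2 then G M D a b else 0)
    = ∑ k ∈ W (2 * M + 2), (Y M D 0 k ^ 2 + Y M D 1 k ^ 2) := by
  have e1 : ∀ a ∈ W M, ∑ b ∈ W M, (if b % 2 = a % 2 then G M D a b else 0)
      = ∑ k ∈ W (2 * M + 2), ∑ b ∈ W M,
        (if b % 2 = a % 2 then D a (a + k) * D b (b + k) else 0) := by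
    intro a _
    rw [sum_comm]
    refine sum_congr rfl fun b _ => ?_
    split_ifs
    · rfl
    · simp
  rw [sum_congr rfl e1, sum_comm]
  refine sum_congr rfl fun k _ => ?_
  simp only [Y, sq, sum_mul_sum, ← sum_add_distrib]
  refine sum_congr rfl fun a _ => sum_congr rfl fun b _ => ?_
  rcases Int.emod_two_eq_zero_or_one a with ha | ha <;>
    rcases Int.emod_two_eq_zero_or_one b with hb | hb <;> simp [ha, hb]

theorem abstract (h1 : ∀ a b, a ∉ W M → D a b = 0) (h2 : ∀ a b, b ∉ W M → D a b = 0)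
    (hpos : ∀ s : ℤ, 0 ≤ s → 0 ≤ ∑ a ∈ W M, ∑ b ∈ W M, (D a b + if a = b ∧ a < 0 then N else 0)
      * ((if a = b ∧ s ≤ a then N else 0) - D (a - s) (b - s))) :
    Y M D 0 0 ^ 2 + Y M D 1 0 ^ 2 + (∑ a ∈ W M, D a (a + 1)) ^ 2 / 2
        + (∑ a ∈ W M, D a (a - 1)) ^ 2 / 2
      ≤ N * ∑ a ∈ W M, ((2 * (a / 2) + 1 : ℤ) : ℝ) * D a a := by
  have a0 := sum_shifts h1 h2 hpos 0 le_rfl (by norm_num)
  have a2 := sum_shifts h1 h2 hpos 2 (by norm_num) (by norm_num)
  have b2 : ∑ a ∈ W M, ∑ b ∈ W M, (if b % 2 = a % 2 ∧ b ≤ a - 2 then G M D a b else 0)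
      = ∑ a ∈ W M, ∑ b ∈ W M, (if b % 2 = a % 2 ∧ a ≤ b - 2 then G M D a b else 0) := by
    rw [sum_comm]
    refine sum_congr rfl fun a _ => sum_congr rfl fun b _ => ?_
    rw [G_symm]
    simp only [eq_comm]
  have c : ∑ a ∈ W M, ∑ b ∈ W M, (if b % 2 = a % 2 ∧ b ≤ a - 0 then G M D a b else 0)
      + ∑ a ∈ W M, ∑ b ∈ W M, (if b % 2 = a % 2 ∧ a ≤ b - 2 then G M D a b else 0)
      = ∑ a ∈ W M, ∑ b ∈ W M, (if b % 2 = a % 2 then G M D a b else 0) := by
    rw [← sum_add_distrib]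
    refine sum_congr rfl fun a _ => ?_
    rw [← sum_add_distrib]
    refine sum_congr rfl fun b _ => ?_
    by_cases h : b % 2 = a % 2
    · by_cases h' : b ≤ a - 0
      · have h'' : ¬ a ≤ b - 2 := by omega
        simp only [h, h', h'', and_true, and_false, if_true, if_false, add_zero]
      · have h'' : a ≤ b - 2 := by omega
        simp only [h, h', h'', and_true, and_false, if_true, if_false, zero_add]
    · simp only [h, false_and, if_false, add_zero]
  have d : N * ∑ a ∈ W M,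
        (((max ((a - 0) / 2 + 1) 0 : ℤ) : ℝ) - ((max (-((a + 0) / 2)) 0 : ℤ) : ℝ)) * D a a
      + N * ∑ a ∈ W M,
        (((max ((a - 2) / 2 + 1) 0 : ℤ) : ℝ) - ((max (-((a + 2) / 2)) 0 : ℤ) : ℝ)) * D a a
      = N * ∑ a ∈ W M, ((2 * (a / 2) + 1 : ℤ) : ℝ) * D a a := by
    rw [← mul_add, ← sum_add_distrib]
    congr 1
    refine sum_congr rfl fun a _ => ?_
    rw [← add_mul]
    congr 1
    have : max ((a - 0) / 2 + 1) 0 - max (-((a + 0) / 2)) 0
        + (max ((a - 2) / 2 + 1) 0 - max (-((a + 2) / 2)) 0) = 2 * (a / 2) + 1 := by omega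
    exact_mod_cast congrArg (fun z : ℤ => (z : ℝ)) this
  have e : ∑ k ∈ ({0, 1, -1} : Finset ℤ), (Y M D 0 k ^ 2 + Y M D 1 k ^ 2)
      ≤ ∑ k ∈ W (2 * M + 2), (Y M D 0 k ^ 2 + Y M D 1 k ^ 2) := by
    refine sum_le_sum_of_subset_of_nonneg (fun k hk => ?_) fun _ _ _ => by positivity
    simp only [mem_insert, mem_singleton] at hk
    rw [mem_W]
    push_cast
    omega
  rw [sum_insert (by simp), sum_insert (by simp), sum_singleton] at e
  have f : ∀ k, ∑ a ∈ W M, D a (a + k) = Y M D 0 k + Y M D 1 k := by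
    intro k
    simp only [Y, ← sum_add_distrib]
    refine sum_congr rfl fun a _ => ?_
    rcases Int.emod_two_eq_zero_or_one a with ha | ha <;> simp [ha]
  have f2 : ∑ a ∈ W M, D a (a - 1) = Y M D 0 (-1) + Y M D 1 (-1) := f (-1)
  rw [f 1, f2, ← d]
  rw [b2] at a2
  have g := sum_G_eq (M := M) (D := D)
  nlinarith [sq_nonneg (Y M D 0 1 - Y M D 1 1), sq_nonneg (Y M D 0 (-1) - Y M D 1 (-1))]

end

end Pool.Agent.P.MP_e72dc0_lc.Sn.FermiA
end

-- part Pool.Agent.P.MP_e72dc0_lc.Sn.FermiB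
section

/-! Module D, anticommutation relations on finite sets. -/

namespace Pool.Agent.P.MP_e72dc0_lc.Sn.FermiB

open Finset

/-- Jordan-Wigner sign. -/
noncomputable def sg (R : Finset ℤ) (a : ℤ) : ℝ := ∏ y ∈ R, if a < y then (-1 : ℝ) else 1

lemma sg_sq (R : Finset ℤ) (a : ℤ) : sg R a * sg R a = 1 := by
  unfold sg
  rw [← prod_mul_distrib]
  exact prod_eq_one fun y _ => by split_ifs <;> norm_num

lemma sg_insert {R : Finset ℤ} {b : ℤ} (hb : b ∉ R) (a : ℤ) :
    sg (insert b R) a = (if a < b then (-1 : ℝ) else 1) * sg R a := by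
  unfold sg
  rw [prod_insert hb]

lemma sg_erase {R : Finset ℤ} {b : ℤ} (hb : b ∈ R) (a : ℤ) :
    sg R a = (if a < b then (-1 : ℝ) else 1) * sg (R.erase b) a := by
  rw [← sg_insert (notMem_erase b R), insert_erase hb]

lemma sg_succ {R : Finset ℤ} {a : ℤ} (h : a + 1 ∉ R) : sg R a = sg R (a + 1) := by
  unfold sg
  refine prod_congr rfl fun y hy => ?_
  have : y ≠ a + 1 := fun e => h (e ▸ hy)
  by_cases h1 : a < y
  · rw [if_pos h1, if_pos (by omega)]
  · rw [if_neg h1, if_neg (by omega)]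

lemma reidx {V : Finset ℤ} {a : ℤ} (ha : a ∈ V) (F : Finset ℤ → ℝ) :
    ∑ R ∈ V.powerset, (if a ∉ R then F R else 0)
      = ∑ S ∈ V.powerset, (if a ∈ S then F (S.erase a) else 0) := by
  rw [← sum_filter, ← sum_filter]
  refine sum_nbij' (fun R => insert a R) (fun S => S.erase a) ?_ ?_ ?_ ?_ ?_
  · intro R hR
    simp only [mem_filter, mem_powerset] at hR ⊢
    exact ⟨insert_subset ha hR.1, mem_insert_self _ _⟩
  · intro S hS
    simp only [mem_filter, mem_powerset] at hS ⊢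
    exact ⟨(erase_subset _ _).trans hS.1, notMem_erase _ _⟩
  · intro R hR
    simp only [mem_filter] at hR
    exact erase_insert hR.2
  · intro S hS
    simp only [mem_filter] at hS
    exact insert_erase hS.2
  · intro R hR
    simp only [mem_filter] at hR
    rw [erase_insert hR.2]

section
variable (V : Finset ℤ) (X : Finset ℤ → ℝ)

/-- Annihilation. -/
noncomputable def u (a : ℤ) (R : Finset ℤ) : ℝ :=
  if a ∈ V ∧ a ∉ R then sg R a * X (insert a R) else 0

/-- Creation. -/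
noncomputable def v (a : ℤ) (R : Finset ℤ) : ℝ :=
  if a ∈ R then sg R a * X (R.erase a) else 0

noncomputable def gam (a b : ℤ) : ℝ := ∑ R ∈ V.powerset, u V X a R * u V X b R
noncomputable def gam' (a b : ℤ) : ℝ := ∑ R ∈ V.powerset, v X a R * v X b R
noncomputable def Nn : ℝ := ∑ R ∈ V.powerset, X R * X R

lemma gam_symm (a b : ℤ) : gam V X a b = gam V X b a :=
  sum_congr rfl fun _ _ => mul_comm _ _

lemma gam_left {a : ℤ} (ha : a ∉ V) (b : ℤ) : gam V X a b = 0 :=
  sum_eq_zero fun R _ => by simp [u, ha]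

lemma gam'_left {a : ℤ} (ha : a ∉ V) (b : ℤ) : gam' V X a b = 0 :=
  sum_eq_zero fun R hR => by
    have : a ∉ R := fun h => ha (mem_powerset.1 hR h)
    simp [v, this]

lemma gam'_symm (a b : ℤ) : gam' V X a b = gam' V X b a :=
  sum_congr rfl fun _ _ => mul_comm _ _

variable {V}

lemma gam_eq {a : ℤ} (ha : a ∈ V) (b : ℤ) :
    gam V X a b = ∑ S ∈ V.powerset,
      (if a ∈ S then sg (S.erase a) a * X S * u V X b (S.erase a) else 0) := by
  have h := reidx ha (fun R => sg R a * X (insert a R) * u V X b R)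
  refine Eq.trans ?_ (h.trans ?_)
  · refine sum_congr rfl fun R _ => ?_
    by_cases h1 : a ∈ R
    · simp [u, h1]
    · rw [if_pos h1]
      congr 1
      simp [u, h1, ha]
  · refine sum_congr rfl fun S _ => ?_
    split_ifs with h1
    · rw [insert_erase h1]
    · rfl

lemma gam_diag {a : ℤ} (ha : a ∈ V) :
    gam V X a a = ∑ S ∈ V.powerset, (if a ∈ S then X S * X S else 0) := by
  rw [gam_eq X ha]
  refine sum_congr rfl fun S _ => ?_
  split_ifs with h1
  · simp only [u, ha, notMem_erase, not_false_eq_true, and_self, if_true, insert_erase h1]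
    linear_combination (X S * X S) * sg_sq (S.erase a) a
  · rfl

lemma gam_succ {a : ℤ} (ha : a ∈ V) (ha1 : a + 1 ∈ V) :
    gam V X a (a + 1) = ∑ S ∈ V.powerset,
      X S * (if a ∈ S ∧ a + 1 ∉ S then X (insert (a + 1) (S.erase a)) else 0) := by
  rw [gam_eq X ha]
  refine sum_congr rfl fun S _ => ?_
  by_cases h1 : a ∈ S
  · by_cases h2 : a + 1 ∈ S
    · have : a + 1 ∈ S.erase a := mem_erase.2 ⟨by omega, h2⟩
      simp [u, h1, h2, this]
    · have h3 : a + 1 ∉ S.erase a := fun h => h2 (mem_of_mem_erase h)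
      simp only [u, h1, h2, h3, ha1, not_false_eq_true, and_self, if_true]
      rw [← sg_succ h3]
      linear_combination (X S * X (insert (a + 1) (S.erase a))) * sg_sq (S.erase a) a
  · simp [h1]

lemma gam'_eq {b : ℤ} (hb : b ∈ V) (a : ℤ) :
    gam' V X a b = ∑ R ∈ V.powerset,
      (if b ∉ R then v X a (insert b R) * (sg (insert b R) b * X R) else 0) := by
  rw [reidx hb (fun R => v X a (insert b R) * (sg (insert b R) b * X R))]
  refine sum_congr rfl fun S _ => ?_
  split_ifs with h1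
  · rw [insert_erase h1]
    simp [v, h1]
  · simp [v, h1]

/-- The canonical anticommutation relation. -/
lemma car (a b : ℤ) :
    gam V X a b + gam' V X a b = if a = b ∧ a ∈ V then Nn V X else 0 := by
  by_cases ha : a ∈ V
  swap
  · simp [gam_left V X ha, gam'_left V X ha, ha]
  by_cases hb : b ∈ V
  swap
  · have : a ≠ b := fun e => hb (e ▸ ha)
    rw [gam_symm, gam'_symm]
    simp [gam_left V X hb, gam'_left V X hb, this]
  by_cases hab : a = b
  · subst hab
    rw [gam_diag X ha, gam'_eq X ha, if_pos ⟨rfl, ha⟩, Nn, ← sum_add_distrib]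
    refine sum_congr rfl fun S _ => ?_
    by_cases h1 : a ∈ S
    · simp [h1]
    · simp only [h1, if_false, not_false_eq_true, if_true, v, mem_insert_self, erase_insert h1]
      linear_combination (X S * X S) * sg_sq (insert a S) a
  · rw [gam_eq X ha, gam'_eq X hb, if_neg (fun h => hab h.1), ← sum_add_distrib]
    refine sum_eq_zero fun S _ => ?_
    by_cases h1 : a ∈ S
    · by_cases h2 : b ∈ S
      · have : b ∈ S.erase a := mem_erase.2 ⟨fun e => hab e.symm, h2⟩
        simp [u, h2, this]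
      · have h3 : b ∉ S.erase a := fun h => h2 (mem_of_mem_erase h)
        have h4 : a ∈ insert b S := mem_insert_of_mem h1
        have h5 : (insert b S).erase a = insert b (S.erase a) :=
          erase_insert_of_ne (fun e => hab e.symm)
        simp only [u, v, h1, h2, h3, h4, hb, h5, not_false_eq_true, and_self, if_true]
        rw [sg_insert h2, sg_insert h2, sg_erase h1 a, sg_erase h1 b]
        rcases lt_or_gt_of_ne hab with h | h
        · simp only [h, h.not_gt, lt_irrefl, if_true, if_false]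
          ring
        · simp only [h, h.not_gt, lt_irrefl, if_true, if_false]
          ring
    · by_cases h2 : b ∈ S
      · simp [h1, h2]
      · have h4 : a ∉ insert b S := by simp [hab, h1]
        simp [v, h1, h4]

/-- Trace of a product of two positive kernels. -/
lemma trace_pos (A : Finset ℤ) (s : ℤ) :
    0 ≤ ∑ a ∈ A, ∑ b ∈ A, gam V X a b * gam' V X (a - s) (b - s) := by
  have : ∑ a ∈ A, ∑ b ∈ A, gam V X a b * gam' V X (a - s) (b - s)
      = ∑ R ∈ V.powerset, ∑ R' ∈ V.powerset,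
        (∑ a ∈ A, u V X a R * v X (a - s) R') ^ 2 := by
    simp only [gam, gam', sq, sum_mul_sum]
    calc ∑ a ∈ A, ∑ b ∈ A, ∑ R ∈ V.powerset, ∑ R' ∈ V.powerset,
          u V X a R * u V X b R * (v X (a - s) R' * v X (b - s) R')
        = ∑ a ∈ A, ∑ R ∈ V.powerset, ∑ R' ∈ V.powerset, ∑ b ∈ A,
          u V X a R * u V X b R * (v X (a - s) R' * v X (b - s) R') := by
          refine sum_congr rfl fun a _ => ?_
          rw [sum_comm]
          exact sum_congr rfl fun R _ => sum_comm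
      _ = ∑ R ∈ V.powerset, ∑ R' ∈ V.powerset, ∑ a ∈ A, ∑ b ∈ A,
          u V X a R * u V X b R * (v X (a - s) R' * v X (b - s) R') := by
          rw [sum_comm]
          exact sum_congr rfl fun R _ => sum_comm
      _ = _ := by
          refine sum_congr rfl fun R _ => sum_congr rfl fun R' _ =>
            sum_congr rfl fun a _ => sum_congr rfl fun b _ => by ring
  rw [this]
  exact sum_nonneg fun _ _ => sum_nonneg fun _ _ => sq_nonneg _

end

open FermiA

/-- Density matrix minus the vacuum. -/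
noncomputable def Del (M : ℕ) (X : Finset ℤ → ℝ) (a b : ℤ) : ℝ :=
  gam (W M) X a b - if a = b ∧ a ∈ W M ∧ a < 0 then Nn (W M) X else 0

theorem quad (M : ℕ) (X : Finset ℤ → ℝ) :
    Y M (Del M X) 0 0 ^ 2 + Y M (Del M X) 1 0 ^ 2 + (∑ a ∈ W M, Del M X a (a + 1)) ^ 2 / 2
        + (∑ a ∈ W M, Del M X a (a - 1)) ^ 2 / 2
      ≤ Nn (W M) X * ∑ a ∈ W M, ((2 * (a / 2) + 1 : ℤ) : ℝ) * Del M X a a := by
  refine abstract (fun a b ha => ?_) (fun a b hb => ?_) fun s hs => ?_
  · simp [Del, gam_left _ X ha, ha]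
  · have : ¬ (a = b ∧ a ∈ W M ∧ a < 0) := fun h => hb (h.1 ▸ h.2.1)
    rw [Del, gam_symm, gam_left _ X hb, if_neg this, sub_zero]
  · refine (trace_pos (V := W M) X (W M) s).trans (le_of_eq ?_)
    refine sum_congr rfl fun a ha => sum_congr rfl fun b _ => ?_
    have h := car (V := W M) X (a - s) (b - s)
    have ha' := mem_W.1 ha
    congr 1
    · simp [Del, ha]
    · rw [Del]
      simp only [mem_W] at h ⊢
      split_ifs at h ⊢ <;> first | linarith | omega

end Pool.Agent.P.MP_e72dc0_lc.Sn.FermiB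
end

-- part Pool.Agent.P.MP_e72dc0_lc.Sn.Fermi
section

/-! Module D: the free fermion inequality. -/

namespace Pool.Agent.P.MP_e72dc0_lc.Sn

open Finset
open scoped Classical

namespace FermiC

open FermiA FermiB

/-- Occupied sites in the window. -/
noncomputable def SS (M : ℕ) (μ : Multiset ℤ) : Finset ℤ := (W M).filter fun a => eta μ a = 1

lemma mem_SS {M : ℕ} {μ : Multiset ℤ} {a : ℤ} : a ∈ SS M μ ↔ a ∈ W M ∧ eta μ a = 1 := by
  simp [SS]

lemma SS_inj {M : ℕ} {μ ν : Multiset ℤ} (hμ : Valid μ) (hν : Valid ν) (iμ : ∀ b ∈ μ, b ∈ W M)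
    (iν : ∀ b ∈ ν, b ∈ W M) (h : SS M μ = SS M ν) : μ = ν := by
  have e1 : ∀ a ∈ W M, eta μ a = eta ν a := by
    intro a ha
    have h1 : a ∈ SS M μ ↔ a ∈ SS M ν := by rw [h]
    rw [mem_SS, mem_SS] at h1
    rcases hμ a with h2 | h2 <;> rcases hν a with h3 | h3 <;> simp_all
  have e2 : ∀ a, a ∉ W M → μ.count a = ν.count a := by
    intro a ha
    rw [Multiset.count_eq_zero.2 fun h => ha (iμ a h),
      Multiset.count_eq_zero.2 fun h => ha (iν a h)]
  have e3 : ∀ j : ℕ, μ.count ((M : ℤ) - j) = ν.count ((M : ℤ) - j) := by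
    intro j
    induction j with
    | zero => exact e2 _ (by simp [mem_W])
    | succ j ih =>
      by_cases hW : (M : ℤ) - (j + 1 : ℕ) ∈ W M
      · have h1 := e1 _ hW
        unfold eta at h1
        have h2 : (M : ℤ) - (j + 1 : ℕ) + 1 = M - j := by push_cast; ring
        rw [h2] at h1
        omega
      · exact e2 _ hW
  ext a
  by_cases hW : a ∈ W M
  · have h1 := e3 ((M : ℤ) - a).toNat
    have h2 : (M : ℤ) - (((M : ℤ) - a).toNat : ℕ) = a := by
      rw [mem_W] at hW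
      omega
    rwa [h2] at h1
  · exact e2 a hW

lemma SS_cons {M : ℕ} {μ : Multiset ℤ} (hμ : Valid μ) {a : ℤ} (ha1 : a + 1 ∈ W M)
    (h : hh μ (a + 1) = 1) : SS M ((a + 1) ::ₘ μ) = insert (a + 1) ((SS M μ).erase a) := by
  have h1 := hμ.hh_eq_one.1 h
  rw [add_sub_cancel_right] at h1
  ext y
  simp only [mem_insert, mem_erase, mem_SS, eta_cons]
  by_cases hy : y = a + 1
  · subst hy
    simp only [ha1, true_and, true_or, iff_true]
    split_ifs <;> omega
  · by_cases hy2 : y = a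
    · subst hy2
      have h3 : y = y + 1 - 1 := by omega
      rw [if_neg hy, if_pos h3, h1.1]
      simp [hy]
    · have h3 : ¬ y = a + 1 - 1 := by omega
      simp [hy, hy2]

lemma sum_eta {M : ℕ} (f : ℤ → ℝ) (μ : Multiset ℤ) (h : ∀ b ∈ μ, b ∈ W M ∧ b - 1 ∈ W M) :
    ∑ a ∈ W M, f a * ((eta μ a : ℝ) - if a < 0 then 1 else 0)
      = (μ.map fun b => f b - f (b - 1)).sum := by
  induction μ using Multiset.induction_on with
  | empty =>
    refine (sum_eq_zero fun a _ => ?_).trans (by simp)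
    unfold eta
    split_ifs <;> simp
  | cons b μ ih =>
    obtain ⟨h1, h2⟩ := h b (Multiset.mem_cons_self _ _)
    rw [Multiset.map_cons, Multiset.sum_cons, ← ih fun c hc => h c (Multiset.mem_cons_of_mem hc)]
    have e : ∀ a ∈ W M, f a * ((eta (b ::ₘ μ) a : ℝ) - if a < 0 then 1 else 0)
        = (if a = b then f a else 0) - (if a = b - 1 then f a else 0)
          + f a * ((eta μ a : ℝ) - if a < 0 then 1 else 0) := by
      intro a _
      rw [eta_cons]
      push_cast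
      split_ifs <;> ring
    rw [sum_congr rfl e, sum_add_distrib, sum_sub_distrib, sum_ite_eq', sum_ite_eq', if_pos h1,
      if_pos h2]

lemma map_even (μ : Multiset ℤ) :
    (μ.map fun b => (if b % 2 = 0 then (1 : ℝ) else 0)
      - (if (b - 1) % 2 = 0 then (1 : ℝ) else 0)).sum = dd μ := by
  induction μ using Multiset.induction_on with
  | empty => simp
  | cons b μ ih =>
    rw [Multiset.map_cons, Multiset.sum_cons, ih, dd_cons]
    push_cast
    split_ifs <;> first | omega | ring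

lemma map_odd (μ : Multiset ℤ) :
    (μ.map fun b => (if b % 2 = 1 then (1 : ℝ) else 0)
      - (if (b - 1) % 2 = 1 then (1 : ℝ) else 0)).sum = - dd μ := by
  induction μ using Multiset.induction_on with
  | empty => simp
  | cons b μ ih =>
    rw [Multiset.map_cons, Multiset.sum_cons, ih, dd_cons]
    push_cast
    split_ifs <;> first | omega | ring

lemma map_w (μ : Multiset ℤ) :
    (μ.map fun b => ((2 * (b / 2) + 1 : ℤ) : ℝ) - ((2 * ((b - 1) / 2) + 1 : ℤ) : ℝ)).sum
      = Multiset.card μ + dd μ := by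
  induction μ using Multiset.induction_on with
  | empty => simp
  | cons b μ ih =>
    rw [Multiset.map_cons, Multiset.sum_cons, ih, dd_cons, Multiset.card_cons]
    have : (2 * (b / 2) + 1 : ℤ) - (2 * ((b - 1) / 2) + 1) = 1 + if b % 2 = 0 then 1 else -1 := by
      split_ifs <;> omega
    have h2 := congrArg (fun z : ℤ => (z : ℝ)) this
    simp only [Int.cast_sub] at h2
    rw [h2]
    push_cast
    ring

section
variable (M : ℕ) (Ω : Finset (Multiset ℤ)) (x : Multiset ℤ → ℝ)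

/-- The fermionic vector attached to `x`. -/
noncomputable def XX (S : Finset ℤ) : ℝ := ∑ μ ∈ Ω, if SS M μ = S then x μ else 0

lemma sum_XX (F : Finset ℤ → ℝ) :
    ∑ S ∈ (W M).powerset, XX M Ω x S * F S = ∑ μ ∈ Ω, x μ * F (SS M μ) := by
  simp only [XX, sum_mul]
  rw [sum_comm]
  refine sum_congr rfl fun μ _ => ?_
  simp only [ite_mul, zero_mul]
  have h : SS M μ ∈ (W M).powerset := mem_powerset.2 (filter_subset _ _)
  rw [sum_ite_eq, if_pos h]

variable {M Ω x}

lemma XX_SS (hΩ : ∀ μ ∈ Ω, Valid μ) (hx : ∀ μ, μ ∉ Ω → x μ = 0)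
    (hin : ∀ μ ∈ Ω, ∀ b ∈ μ, b ∈ W M) {ν : Multiset ℤ} (hν : Valid ν) (iν : ∀ b ∈ ν, b ∈ W M) :
    XX M Ω x (SS M ν) = x ν := by
  have e : ∀ μ ∈ Ω, (if SS M μ = SS M ν then x μ else 0) = if μ = ν then x μ else 0 := by
    intro μ hμ
    by_cases h : μ = ν
    · simp [h]
    · rw [if_neg h, if_neg fun h' => h (SS_inj (hΩ μ hμ) hν (hin μ hμ) iν h')]
  rw [XX, sum_congr rfl e, sum_ite_eq']
  split_ifs with h
  · rfl
  · exact (hx ν h).symm

theorem key (hΩ : ∀ μ ∈ Ω, Valid μ) (hx : ∀ μ, μ ∉ Ω → x μ = 0) :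
    2 * (∑ μ ∈ Ω, (dd μ : ℝ) * x μ ^ 2) ^ 2 + (∑ μ ∈ Ω, ∑ c ∈ add μ, x μ * x (c ::ₘ μ)) ^ 2
      ≤ (∑ μ ∈ Ω, x μ ^ 2) * (∑ μ ∈ Ω, (Multiset.card μ : ℝ) * x μ ^ 2
        + ∑ μ ∈ Ω, (dd μ : ℝ) * x μ ^ 2) := by
  obtain ⟨M, hM2, hM⟩ : ∃ M : ℕ, 2 ≤ M ∧ ∀ μ ∈ Ω, ∀ b ∈ μ, b.natAbs + 2 ≤ M := by
    refine ⟨(Ω.sup fun μ => μ.toFinset.sup Int.natAbs) + 2, by omega, fun μ hμ b hb => ?_⟩
    have h1 : b.natAbs ≤ μ.toFinset.sup Int.natAbs := le_sup (Multiset.mem_toFinset.2 hb)
    have h2 : μ.toFinset.sup Int.natAbs ≤ Ω.sup fun μ => μ.toFinset.sup Int.natAbs :=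
      le_sup (f := fun μ : Multiset ℤ => μ.toFinset.sup Int.natAbs) hμ
    omega
  have hin2 : ∀ μ ∈ Ω, ∀ b ∈ μ, b ∈ W M ∧ b - 1 ∈ W M := by
    intro μ hμ b hb
    have := hM μ hμ b hb
    simp only [mem_W]
    omega
  have hin : ∀ μ ∈ Ω, ∀ b ∈ μ, b ∈ W M := fun μ hμ b hb => (hin2 μ hμ b hb).1
  have hadd : ∀ μ ∈ Ω, ∀ c ∈ add μ, c ∈ W M ∧ c - 1 ∈ W M := by
    intro μ hμ c hc
    have h1 : c ∈ supp3 μ := (mem_filter.1 hc).1
    simp only [supp3, mem_insert, mem_biUnion, Multiset.mem_toFinset, mem_singleton] at h1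
    simp only [mem_W]
    rcases h1 with h1 | ⟨b, hb, h1⟩
    · omega
    · have := hM μ hμ b hb
      omega
  set X := XX M Ω x with hX
  have hXS : ∀ μ ∈ Ω, X (SS M μ) = x μ := fun μ hμ => XX_SS hΩ hx hin (hΩ μ hμ) (hin μ hμ)
  have hN : Nn (W M) X = ∑ μ ∈ Ω, x μ ^ 2 := by
    rw [Nn, hX, sum_XX, ← hX]
    exact sum_congr rfl fun μ hμ => by rw [hXS μ hμ, sq]
  have hdiag : ∀ a ∈ W M, Del M X a a
      = ∑ μ ∈ Ω, x μ ^ 2 * ((eta μ a : ℝ) - if a < 0 then 1 else 0) := by
    intro a ha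
    have e1 : gam (W M) X a a = ∑ μ ∈ Ω, x μ ^ 2 * (eta μ a : ℝ) := by
      rw [gam_diag X ha]
      have e2 : ∀ S ∈ (W M).powerset, (if a ∈ S then X S * X S else 0)
          = X S * (if a ∈ S then X S else 0) := by
        intro S _
        split_ifs <;> simp
      rw [sum_congr rfl e2, hX, sum_XX, ← hX]
      refine sum_congr rfl fun μ hμ => ?_
      rw [hXS μ hμ]
      rcases hΩ μ hμ a with h | h
      · simp [h, mem_SS]
      · simp [h, ha, sq, mem_SS]
    rw [Del, e1, hN]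
    simp only [mul_sub, sum_sub_distrib, ha, true_and]
    congr 1
    split_ifs <;> simp
  have hf : ∀ f : ℤ → ℝ, ∑ a ∈ W M, f a * Del M X a a
      = ∑ μ ∈ Ω, (μ.map fun b => f b - f (b - 1)).sum * x μ ^ 2 := by
    intro f
    rw [sum_congr rfl fun a ha => by rw [hdiag a ha, mul_sum], sum_comm]
    refine sum_congr rfl fun μ hμ => ?_
    rw [← sum_eta f μ (hin2 μ hμ), sum_mul]
    exact sum_congr rfl fun a _ => by ring
  have hY0 : Y M (Del M X) 0 0 = ∑ μ ∈ Ω, (dd μ : ℝ) * x μ ^ 2 := by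
    have := hf fun a => if a % 2 = 0 then 1 else 0
    simp only [map_even] at this
    rw [← this, Y]
    exact sum_congr rfl fun a _ => by split_ifs <;> simp
  have hY1 : Y M (Del M X) 1 0 = - ∑ μ ∈ Ω, (dd μ : ℝ) * x μ ^ 2 := by
    have := hf fun a => if a % 2 = 1 then 1 else 0
    simp only [map_odd, neg_mul, sum_neg_distrib] at this
    rw [← this, Y]
    exact sum_congr rfl fun a _ => by split_ifs <;> simp
  have hw : ∑ a ∈ W M, ((2 * (a / 2) + 1 : ℤ) : ℝ) * Del M X a a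
      = ∑ μ ∈ Ω, (Multiset.card μ : ℝ) * x μ ^ 2 + ∑ μ ∈ Ω, (dd μ : ℝ) * x μ ^ 2 := by
    have := hf fun a => ((2 * (a / 2) + 1 : ℤ) : ℝ)
    simp only [map_w, add_mul, sum_add_distrib] at this
    exact this
  have hoff : ∀ a, gam (W M) X a (a + 1)
      = ∑ μ ∈ Ω, if a + 1 ∈ add μ then x μ * x ((a + 1) ::ₘ μ) else 0 := by
    intro a
    by_cases ha : a ∈ W M ∧ a + 1 ∈ W M
    · rw [gam_succ X ha.1 ha.2, hX, sum_XX, ← hX]
      refine sum_congr rfl fun μ hμ => ?_
      have h1 := (hΩ μ hμ).hh_eq_one (c := a + 1)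
      rw [add_sub_cancel_right] at h1
      by_cases h2 : a + 1 ∈ add μ
      · have h3 := mem_add.1 h2
        have h4 := h1.1 h3
        rw [if_pos h2, if_pos, ← SS_cons (hΩ μ hμ) ha.2 h3, hX,
          XX_SS hΩ hx hin ((hΩ μ hμ).cons h3)]
        · intro b hb
          rcases Multiset.mem_cons.1 hb with h | h
          · exact h ▸ ha.2
          · exact hin μ hμ b h
        · simp only [mem_SS]
          exact ⟨⟨ha.1, h4.1⟩, fun h => by omega⟩
      · rw [if_neg h2, if_neg, mul_zero]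
        simp only [mem_SS]
        intro h
        apply h2
        rw [mem_add, h1]
        refine ⟨h.1.2, ?_⟩
        rcases hΩ μ hμ (a + 1) with h5 | h5
        · exact h5
        · exact absurd ⟨ha.2, h5⟩ h.2
    · have e1 : gam (W M) X a (a + 1) = 0 := by
        by_cases h1 : a ∈ W M
        · rw [gam_symm]
          exact gam_left _ X (fun h => ha ⟨h1, h⟩) _
        · exact gam_left _ X h1 _
      rw [e1]
      symm
      refine sum_eq_zero fun μ hμ => if_neg fun h => ha ?_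
      have := hadd μ hμ _ h
      rw [add_sub_cancel_right] at this
      exact ⟨this.2, this.1⟩
  have hP1 : ∑ a ∈ W M, Del M X a (a + 1) = ∑ μ ∈ Ω, ∑ c ∈ add μ, x μ * x (c ::ₘ μ) := by
    have e : ∀ a ∈ W M, Del M X a (a + 1)
        = ∑ μ ∈ Ω, if a + 1 ∈ add μ then x μ * x ((a + 1) ::ₘ μ) else 0 := by
      intro a _
      rw [Del, hoff, if_neg (fun h => by omega), sub_zero]
    rw [sum_congr rfl e, sum_comm]
    refine sum_congr rfl fun μ hμ => ?_
    rw [← sum_filter]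
    refine sum_nbij' (fun a => a + 1) (fun c => c - 1) ?_ ?_ ?_ ?_ ?_
    · intro a ha
      exact (mem_filter.1 ha).2
    · intro c hc
      exact mem_filter.2 ⟨(hadd μ hμ c hc).2, by rwa [sub_add_cancel]⟩
    · intro a _
      simp
    · intro c _
      simp
    · intro a _
      rfl
  have hP2 : ∑ a ∈ W M, Del M X a (a - 1) = ∑ μ ∈ Ω, ∑ c ∈ add μ, x μ * x (c ::ₘ μ) := by
    have e : ∀ a ∈ W M, Del M X a (a - 1)
        = ∑ μ ∈ Ω, if a ∈ add μ then x μ * x (a ::ₘ μ) else 0 := by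
      intro a _
      have h := hoff (a - 1)
      rw [sub_add_cancel] at h
      rw [Del, gam_symm, h, if_neg (fun h => by omega), sub_zero]
    rw [sum_congr rfl e, sum_comm]
    refine sum_congr rfl fun μ hμ => ?_
    rw [← sum_filter]
    congr 1
    ext c
    simp only [mem_filter]
    exact ⟨fun h => h.2, fun h => ⟨(hadd μ hμ c h).1, h⟩⟩
  have h := quad M X
  rw [hY0, hY1, hw, hP1, hP2, hN] at h
  linarith

end

end FermiC

theorem fermi (Ω : Finset (Multiset ℤ)) (hΩ : ∀ μ ∈ Ω, Valid μ) (x : Multiset ℤ → ℝ)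
    (hx : ∀ μ, μ ∉ Ω → x μ = 0) (t σ : ℝ) :
    2 * t * ∑ μ ∈ Ω, ∑ c ∈ add μ, x μ * x (c ::ₘ μ)
        + (4 * σ - 1) * ∑ μ ∈ Ω, (dd μ : ℝ) * x μ ^ 2
      ≤ (t ^ 2 + 2 * σ ^ 2) * ∑ μ ∈ Ω, x μ ^ 2
        + ∑ μ ∈ Ω, (Multiset.card μ : ℝ) * x μ ^ 2 := by
  have h := FermiC.key hΩ hx
  have hN : 0 ≤ ∑ μ ∈ Ω, x μ ^ 2 := sum_nonneg fun _ _ => sq_nonneg _
  rcases hN.eq_or_lt with h0 | h0
  · have hz : ∀ μ ∈ Ω, x μ = 0 := fun μ hμ =>
      pow_eq_zero_iff (two_ne_zero) |>.1
        ((sum_eq_zero_iff_of_nonneg fun _ _ => sq_nonneg _).1 h0.symm μ hμ)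
    rw [← h0, sum_eq_zero fun μ hμ => sum_eq_zero fun c _ => by rw [hz μ hμ, zero_mul],
      sum_eq_zero fun μ hμ => by rw [hz μ hμ]; ring,
      sum_eq_zero fun μ hμ => by rw [hz μ hμ]; ring]
    simp
  · generalize ∑ μ ∈ Ω, ∑ c ∈ add μ, x μ * x (c ::ₘ μ) = P at *
    generalize ∑ μ ∈ Ω, (dd μ : ℝ) * x μ ^ 2 = D at *
    generalize ∑ μ ∈ Ω, (Multiset.card μ : ℝ) * x μ ^ 2 = l at *
    generalize ∑ μ ∈ Ω, x μ ^ 2 = N at *
    refine le_of_mul_le_mul_left ?_ h0
    nlinarith [sq_nonneg (t * N - P), sq_nonneg (σ * N - D)]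

/-- One state: `t = 0`, `σ = dd μ` gives `2 d ^ 2 - d ≤ |μ|`. -/
theorem dd_sq_le {μ : Multiset ℤ} (h : Valid μ) : dd μ ^ 2 ≤ (Multiset.card μ : ℤ) := by
  have h1 := fermi {μ} (fun ν hν => mem_singleton.1 hν ▸ h) (fun ν => if ν = μ then 1 else 0)
    (fun ν hν => if_neg fun e => hν (mem_singleton.2 e)) 0 (dd μ)
  simp only [sum_singleton, if_true] at h1
  have h2 : ((2 * dd μ ^ 2 - dd μ : ℤ) : ℝ) ≤ ((Multiset.card μ : ℤ) : ℝ) := by
    push_cast
    linarith
  have h3 : 2 * dd μ ^ 2 - dd μ ≤ (Multiset.card μ : ℤ) := by exact_mod_cast h2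
  nlinarith [Int.le_self_sq (dd μ)]

namespace FermiC

/-- Tent profile. -/
noncomputable def chi (L : ℕ) (j : ℤ) : ℝ := ((max ((L : ℤ) - |j|) 0 : ℤ) : ℝ)

lemma chi_eq_zero {L : ℕ} {j : ℤ} (h : (L : ℤ) ≤ |j|) : chi L j = 0 := by
  rw [chi, max_eq_right (by omega), Int.cast_zero]

/-- Squared norm of the profile. -/
noncomputable def A0 (L : ℕ) : ℝ := ∑ j ∈ Icc (-(L : ℤ)) L, chi L j ^ 2

lemma sum_window {L K : ℕ} (f : ℤ → ℝ) (hf : ∀ j, j ∉ Icc (-(L : ℤ)) L → f j = 0) {d : ℤ}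
    (hd : |d| + L ≤ K) : ∑ s ∈ Icc (-(K : ℤ)) K, f (d - s) = ∑ j ∈ Icc (-(L : ℤ)) L, f j := by
  symm
  have hd2 := abs_le.1 (show |d| ≤ (K : ℤ) - L by omega)
  refine sum_of_injOn (fun j => d - j) ?_ ?_ ?_ ?_
  · intro a _ b _ h
    simp only at h
    omega
  · intro a ha
    simp only [coe_Icc, Set.mem_Icc] at ha ⊢
    omega
  · intro s _ hn
    apply hf
    intro h
    exact hn ⟨d - s, mem_coe.2 h, by simp⟩
  · intro j _
    simp

lemma sum_chi_sq {L K : ℕ} {d : ℤ} (hd : |d| + L ≤ K) :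
    ∑ s ∈ Icc (-(K : ℤ)) K, chi L (d - s) ^ 2 = A0 L := by
  refine sum_window (fun j => chi L j ^ 2) (fun j hj => ?_) hd
  rw [chi_eq_zero, sq, mul_zero]
  rw [mem_Icc] at hj
  rcases abs_cases j with h | h <;> omega

lemma A0_ge (L : ℕ) : (L : ℝ) ^ 3 / 3 + (L : ℝ) ^ 2 / 2 ≤ A0 L := by
  have h1 : ∀ (y : ℝ) (n : ℕ), ∑ j ∈ range n, (y - j) ^ 2
      = n * y ^ 2 - y * n * (n - 1) + (n - 1) * n * (2 * n - 1) / 6 := by
    intro y n
    induction n with
    | zero => simp
    | succ n ih => rw [sum_range_succ, ih]; push_cast; ring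
  have h2 : ∑ j ∈ range L, ((L : ℝ) - j) ^ 2
      = ∑ j ∈ (range L).image (fun j : ℕ => (j : ℤ)), chi L j ^ 2 := by
    rw [sum_image fun a _ b _ h => by exact_mod_cast h]
    refine sum_congr rfl fun j hj => ?_
    rw [mem_range] at hj
    rw [chi, abs_of_nonneg (by omega), max_eq_left (by omega)]
    push_cast
    rfl
  have h3 : ∑ j ∈ (range L).image (fun j : ℕ => (j : ℤ)), chi L j ^ 2 ≤ A0 L := by
    refine sum_le_sum_of_subset_of_nonneg (fun j hj => ?_) fun _ _ _ => sq_nonneg _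
    obtain ⟨i, hi, rfl⟩ := mem_image.1 hj
    rw [mem_range] at hi
    rw [mem_Icc]
    omega
  have h4 : (0 : ℝ) ≤ L := Nat.cast_nonneg L
  rw [← h2, h1] at h3
  nlinarith

lemma sum_chi_mul {L K : ℕ} (hL : 1 ≤ L) {d d' : ℤ} (hd : |d| + L ≤ K) (hd' : |d'| + L ≤ K)
    (he : d' = d + 1 ∨ d' = d - 1) :
    A0 L * (1 - 4 / (L : ℝ) ^ 2) ≤ ∑ s ∈ Icc (-(K : ℤ)) K, chi L (d - s) * chi L (d' - s) := by
  have h1 : ∀ s ∈ Icc (-(K : ℤ)) K, (chi L (d - s) - chi L (d' - s)) ^ 2
      ≤ if d - s ∈ Icc (-(L : ℤ)) L then 1 else 0 := by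
    intro s _
    unfold chi
    rw [← Int.cast_sub, ← Int.cast_pow]
    split_ifs with h
    · have h2 : |max ((L : ℤ) - |d - s|) 0 - max ((L : ℤ) - |d' - s|) 0| ≤ 1 := by
        rw [abs_le]
        rcases abs_cases (d - s) with h3 | h3 <;> rcases abs_cases (d' - s) with h4 | h4 <;> omega
      have h3 := (sq_le_one_iff_abs_le_one _).2 h2
      exact_mod_cast h3
    · rw [mem_Icc] at h
      have h2 : max ((L : ℤ) - |d - s|) 0 - max ((L : ℤ) - |d' - s|) 0 = 0 := by
        rcases abs_cases (d - s) with h3 | h3 <;> rcases abs_cases (d' - s) with h4 | h4 <;> omega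
      rw [h2]
      simp
  have h2 := sum_le_sum h1
  rw [sum_window (fun j => if j ∈ Icc (-(L : ℤ)) L then (1 : ℝ) else 0)
    (fun j hj => if_neg hj) hd, sum_congr rfl fun j hj => if_pos hj, sum_const, Int.card_Icc,
    nsmul_eq_mul, mul_one] at h2
  have h3 : ((((L : ℤ) + 1 - -(L : ℤ)).toNat : ℕ) : ℝ) = 2 * L + 1 := by
    have : ((L : ℤ) + 1 - -(L : ℤ)).toNat = 2 * L + 1 := by omega
    rw [this]
    push_cast
    ring
  rw [h3] at h2
  have h4 : ∑ s ∈ Icc (-(K : ℤ)) K, (chi L (d - s) - chi L (d' - s)) ^ 2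
      = 2 * A0 L - 2 * ∑ s ∈ Icc (-(K : ℤ)) K, chi L (d - s) * chi L (d' - s) := by
    rw [two_mul (A0 L)]
    nth_rewrite 1 [← sum_chi_sq hd]
    rw [← sum_chi_sq hd', mul_sum, ← sum_add_distrib, ← sum_sub_distrib]
    exact sum_congr rfl fun s _ => by ring
  have h5 := A0_ge L
  have h6 : (1 : ℝ) ≤ L := by exact_mod_cast hL
  have h7 : (L : ℝ) + 1 / 2 ≤ A0 L * (4 / (L : ℝ) ^ 2) := by
    rw [← mul_div_assoc, le_div_iff₀ (by positivity)]
    nlinarith [mul_nonneg (sq_nonneg (L : ℝ)) (show (0 : ℝ) ≤ L by linarith)]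
  linarith

end FermiC

open FermiC in
/-- Localisation in the charge (IMS formula with a tent profile of width `L`). -/
theorem fermi_loc (Ω : Finset (Multiset ℤ)) (hΩ : ∀ μ ∈ Ω, Valid μ) (x : Multiset ℤ → ℝ)
    (hx : ∀ μ, μ ∉ Ω → x μ = 0) (hx0 : ∀ μ, 0 ≤ x μ) (t : ℝ) (ht : 0 ≤ t) (L : ℕ) (hL : 1 ≤ L) :
    2 * t * (1 - 4 / (L : ℝ) ^ 2) * ∑ μ ∈ Ω, ∑ c ∈ add μ, x μ * x (c ::ₘ μ)
        + ∑ μ ∈ Ω, (dd μ : ℝ) ^ 2 * x μ ^ 2
      ≤ (t ^ 2 + 2 * (L : ℝ) ^ 2) * ∑ μ ∈ Ω, x μ ^ 2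
        + ∑ μ ∈ Ω, (Multiset.card μ : ℝ) * x μ ^ 2 := by
  obtain ⟨K, hK⟩ : ∃ K : ℕ, ∀ μ ∈ Ω, |dd μ| + 1 + L ≤ K := by
    refine ⟨(Ω.sup fun μ => (dd μ).natAbs) + 1 + L, fun μ hμ => ?_⟩
    have h2 : (dd μ).natAbs ≤ Ω.sup fun μ => (dd μ).natAbs :=
      le_sup (f := fun μ : Multiset ℤ => (dd μ).natAbs) hμ
    rw [Int.abs_eq_natAbs]
    omega
  have h1 : ∀ s ∈ Icc (-(K : ℤ)) K,
      2 * t * ∑ μ ∈ Ω, ∑ c ∈ add μ,
          chi L (dd μ - s) * chi L (dd (c ::ₘ μ) - s) * (x μ * x (c ::ₘ μ))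
        ≤ ∑ μ ∈ Ω, chi L (dd μ - s) ^ 2
          * ((t ^ 2 + 2 * (L : ℝ) ^ 2 + Multiset.card μ - (dd μ : ℝ) ^ 2) * x μ ^ 2) := by
    intro s _
    have h := fermi Ω hΩ (fun μ => chi L (dd μ - s) * x μ)
      (fun μ hμ => by simp only [hx μ hμ, mul_zero]) t s
    have h2 : ∑ μ ∈ Ω, ((t ^ 2 + 2 * (s : ℝ) ^ 2) * (chi L (dd μ - s) * x μ) ^ 2
          + (Multiset.card μ : ℝ) * (chi L (dd μ - s) * x μ) ^ 2
          - (4 * (s : ℝ) - 1) * ((dd μ : ℝ) * (chi L (dd μ - s) * x μ) ^ 2))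
        ≤ ∑ μ ∈ Ω, chi L (dd μ - s) ^ 2
          * ((t ^ 2 + 2 * (L : ℝ) ^ 2 + Multiset.card μ - (dd μ : ℝ) ^ 2) * x μ ^ 2) := by
      refine sum_le_sum fun μ _ => ?_
      by_cases h3 : (L : ℤ) ≤ |dd μ - s|
      · rw [chi_eq_zero h3]
        simp
      · have h4 : (dd μ - s) ^ 2 ≤ (L : ℤ) ^ 2 := by
          rw [← sq_abs]
          exact pow_le_pow_left₀ (abs_nonneg _) (by omega) 2
        have h5 : ((dd μ : ℝ) - s) ^ 2 ≤ (L : ℝ) ^ 2 := by exact_mod_cast h4
        have h6 : (dd μ : ℝ) ≤ (dd μ : ℝ) ^ 2 := by exact_mod_cast Int.le_self_sq (dd μ)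
        have h7 : 0 ≤ (2 * (L : ℝ) ^ 2 - (dd μ : ℝ) ^ 2 - 2 * (s : ℝ) ^ 2
            + (4 * (s : ℝ) - 1) * dd μ) * (chi L (dd μ - s) * x μ) ^ 2 :=
          mul_nonneg (by nlinarith) (sq_nonneg _)
        nlinarith
    rw [sum_sub_distrib, sum_add_distrib, ← mul_sum, ← mul_sum] at h2
    have h3 : ∑ μ ∈ Ω, ∑ c ∈ add μ,
          chi L (dd μ - s) * chi L (dd (c ::ₘ μ) - s) * (x μ * x (c ::ₘ μ))
        = ∑ μ ∈ Ω, ∑ c ∈ add μ,
          chi L (dd μ - s) * x μ * (chi L (dd (c ::ₘ μ) - s) * x (c ::ₘ μ)) :=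
      sum_congr rfl fun _ _ => sum_congr rfl fun _ _ => by ring
    rw [h3]
    linarith
  have h2 := sum_le_sum h1
  rw [← mul_sum, sum_comm, sum_comm (s := Icc (-(K : ℤ)) K)] at h2
  have h3 : ∑ μ ∈ Ω, ∑ s ∈ Icc (-(K : ℤ)) K, chi L (dd μ - s) ^ 2
          * ((t ^ 2 + 2 * (L : ℝ) ^ 2 + Multiset.card μ - (dd μ : ℝ) ^ 2) * x μ ^ 2)
      = A0 L * ((t ^ 2 + 2 * (L : ℝ) ^ 2) * ∑ μ ∈ Ω, x μ ^ 2
        + ∑ μ ∈ Ω, (Multiset.card μ : ℝ) * x μ ^ 2 - ∑ μ ∈ Ω, (dd μ : ℝ) ^ 2 * x μ ^ 2) := by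
    rw [mul_sum, ← sum_add_distrib, ← sum_sub_distrib, mul_sum]
    refine sum_congr rfl fun μ hμ => ?_
    have := hK μ hμ
    rw [← sum_mul, sum_chi_sq (by omega)]
    ring
  have h4 : A0 L * (1 - 4 / (L : ℝ) ^ 2) * ∑ μ ∈ Ω, ∑ c ∈ add μ, x μ * x (c ::ₘ μ)
      ≤ ∑ μ ∈ Ω, ∑ s ∈ Icc (-(K : ℤ)) K, ∑ c ∈ add μ,
          chi L (dd μ - s) * chi L (dd (c ::ₘ μ) - s) * (x μ * x (c ::ₘ μ)) := by
    rw [mul_sum]
    refine sum_le_sum fun μ hμ => ?_
    rw [mul_sum, sum_comm]
    refine sum_le_sum fun c _ => ?_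
    rw [← sum_mul]
    refine mul_le_mul_of_nonneg_right ?_ (mul_nonneg (hx0 _) (hx0 _))
    have h5 := hK μ hμ
    have h6 : dd (c ::ₘ μ) = dd μ + 1 ∨ dd (c ::ₘ μ) = dd μ - 1 := by
      rw [dd_cons]
      split_ifs <;> omega
    refine sum_chi_mul hL (by omega) ?_ h6
    rcases abs_cases (dd μ) with h7 | h7 <;> rcases abs_cases (dd (c ::ₘ μ)) with h8 | h8 <;> omega
  rw [h3] at h2
  have h5 : 0 < A0 L := by
    have h6 := A0_ge L
    have h7 : (1 : ℝ) ≤ L := by exact_mod_cast hL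
    have h8 : (0 : ℝ) < (L : ℝ) ^ 3 / 3 + (L : ℝ) ^ 2 / 2 := by positivity
    linarith
  have h6 := mul_le_mul_of_nonneg_left h4 (show 0 ≤ 2 * t by linarith)
  refine le_of_mul_le_mul_left ?_ h5
  nlinarith

end Pool.Agent.P.MP_e72dc0_lc.Sn
end

-- part Pool.Agent.P.MP_e72dc0_lc.Sn.Expo
section

/-! Module E1: exponential moments of the squared charge along Plancherel growth. -/

namespace Pool.Agent.P.MP_e72dc0_lc.Sn

open Finset
open scoped Classical

namespace Ex

/-- Weighted number of tableaux of a given shape. -/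
noncomputable def yy (u : ℕ → ℝ) (k : ℕ) (μ : Multiset ℤ) : ℝ :=
  ∑ t ∈ (Std k).filter (fun t => st t k = μ),
    Real.exp (∑ j ∈ range (k + 1), u j * (dd (st t j) : ℝ) ^ 2)

/-- Squared norm of `yy u k`. -/
noncomputable def NN (u : ℕ → ℝ) (k : ℕ) : ℝ := ∑ μ ∈ shapes k, yy u k μ ^ 2

/-- Ratio of consecutive norms. -/
noncomputable def wr (u : ℕ → ℝ) (k : ℕ) : ℝ := Real.sqrt (NN u (k + 1)) / Real.sqrt (NN u k)

/-- Normalised ratio of consecutive norms. -/
noncomputable def zz (u : ℕ → ℝ) (k : ℕ) : ℝ := wr u k / Real.sqrt ((k : ℝ) + 1)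

/-- Normalised vector. -/
noncomputable def yh (u : ℕ → ℝ) (k : ℕ) (μ : Multiset ℤ) : ℝ := yy u k μ / Real.sqrt (NN u k)

/-- Second moment of the charge. -/
noncomputable def AA (u : ℕ → ℝ) (k : ℕ) : ℝ := ∑ μ ∈ shapes k, (dd μ : ℝ) ^ 2 * yh u k μ ^ 2

/-- Overlap of consecutive normalised vectors. -/
noncomputable def ov (u : ℕ → ℝ) (k : ℕ) : ℝ :=
  ∑ μ ∈ shapes k, ∑ c ∈ add μ, yh u k μ * yh u (k + 1) (c ::ₘ μ)

lemma yy_nonneg (u : ℕ → ℝ) (k : ℕ) (μ : Multiset ℤ) : 0 ≤ yy u k μ :=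
  sum_nonneg fun _ _ => (Real.exp_pos _).le

lemma yy_pos (u : ℕ → ℝ) {k : ℕ} {μ : Multiset ℤ} (h : μ ∈ shapes k) : 0 < yy u k μ := by
  obtain ⟨t, ht, rfl⟩ := mem_image.1 h
  exact sum_pos (fun _ _ => Real.exp_pos _) ⟨t, mem_filter.2 ⟨ht, rfl⟩⟩

lemma yy_succ (u : ℕ → ℝ) (k : ℕ) {ν : Multiset ℤ} (hν : Valid ν) :
    yy u (k + 1) ν = Real.exp (u (k + 1) * (dd ν : ℝ) ^ 2) * upOp (yy u k) ν := by
  unfold yy upOp
  rw [sum_filter_succ k ν hν, mul_sum]
  refine sum_congr rfl fun b hb => ?_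
  rw [mul_sum]
  refine sum_congr rfl fun t ht => ?_
  have hb' : b ∈ ν := mem_of_hh_neg (by rw [mem_rem.1 hb]; norm_num)
  have h1 : st (Function.update t k b) (k + 1) = ν := by
    rw [st_succ, st_update _ _ le_rfl, (mem_filter.1 ht).2, Function.update_self,
      Multiset.cons_erase hb']
  rw [sum_range_succ, h1, ← Real.exp_add, add_comm]
  congr 2
  refine sum_congr rfl fun j hj => ?_
  rw [st_update _ _ (by have := mem_range.1 hj; omega)]

lemma shapes_nonempty (k : ℕ) : (shapes k).Nonempty := by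
  have h : (pairs k).Nonempty := by
    rw [← card_pos, card_pairs]; exact Nat.factorial_pos k
  obtain ⟨p, hp⟩ := h
  exact ⟨_, mem_image_of_mem _ (mem_pairs.1 hp).1⟩

lemma NN_pos (u : ℕ → ℝ) (k : ℕ) : 0 < NN u k :=
  sum_pos (fun _ h => pow_pos (yy_pos u h) 2) (shapes_nonempty k)

lemma NN_zero (u : ℕ → ℝ) : NN u 0 = 1 := by
  simp [NN, shapes, yy, Std]

lemma sq_pos (u : ℕ → ℝ) (k : ℕ) : 0 < Real.sqrt (NN u k) := Real.sqrt_pos.2 (NN_pos u k)

lemma wr_pos (u : ℕ → ℝ) (k : ℕ) : 0 < wr u k := div_pos (sq_pos u _) (sq_pos u _)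

lemma sqk_pos (k : ℕ) : 0 < Real.sqrt ((k : ℝ) + 1) := Real.sqrt_pos.2 (by positivity)

lemma zz_pos (u : ℕ → ℝ) (k : ℕ) : 0 < zz u k := div_pos (wr_pos u k) (sqk_pos k)

lemma sqrt_NN (u : ℕ → ℝ) (n : ℕ) :
    Real.sqrt (NN u n) = Real.sqrt (n.factorial) * ∏ k ∈ range n, zz u k := by
  induction n with
  | zero => simp [NN_zero]
  | succ n ih =>
    rw [prod_range_succ, Nat.factorial_succ, Nat.cast_mul, Real.sqrt_mul (by positivity)]
    have h1 := sq_pos u n
    have h2 := sqk_pos n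
    have h3 : Real.sqrt (NN u (n + 1)) = Real.sqrt ((n : ℝ) + 1) * Real.sqrt (NN u n) * zz u n := by
      unfold zz wr; field_simp
    rw [h3, ih]
    push_cast
    ring

lemma lhs_le (u : ℕ → ℝ) (n : ℕ) :
    ∑ p ∈ pairs n, Real.exp (∑ j ∈ range (n + 1), u j * (dd (st p.2 j) : ℝ) ^ 2)
      ≤ n.factorial * ∏ k ∈ range n, zz u k := by
  have h1 := sum_pairs n (fun t => Real.exp (0 * ee t n))
    (fun t => Real.exp (∑ j ∈ range (n + 1), u j * (dd (st t j) : ℝ) ^ 2))
  have h2 : ∑ p ∈ pairs n, Real.exp (∑ j ∈ range (n + 1), u j * (dd (st p.2 j) : ℝ) ^ 2)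
      = ∑ μ ∈ shapes n, U 0 n μ * yy u n μ := by
    unfold U yy
    rw [← h1]
    simp
  rw [h2]
  refine (Real.sum_mul_le_sqrt_mul_sqrt _ _ _).trans (le_of_eq ?_)
  rw [sum_U_sq]
  have h3 := sqrt_NN u n
  unfold NN at h3
  rw [h3, ← mul_assoc, Real.mul_self_sqrt (by positivity)]

lemma dd_sq_shape {k : ℕ} {μ : Multiset ℤ} (h : μ ∈ shapes k) : (dd μ : ℝ) ^ 2 ≤ k := by
  obtain ⟨h1, h2⟩ := mem_shapes.1 h
  have := dd_sq_le h1
  rw [h2] at this
  exact_mod_cast this

lemma zz_le (u : ℕ → ℝ) (k : ℕ) (hu : 0 ≤ u (k + 1)) :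
    zz u k ≤ Real.exp (u (k + 1) * ((k : ℝ) + 1)) := by
  set E := Real.exp (u (k + 1) * ((k : ℝ) + 1)) with hE
  have hE0 : 0 < E := Real.exp_pos _
  have h1 : NN u (k + 1) ≤ E ^ 2 * (((k : ℝ) + 1) * NN u k) := by
    refine le_trans ?_ (mul_le_mul_of_nonneg_left (upOp_norm k (yy u k)) (by positivity))
    rw [mul_sum]
    refine sum_le_sum fun ν hν => ?_
    rw [yy_succ u k (mem_shapes.1 hν).1, mul_pow]
    refine mul_le_mul_of_nonneg_right ?_ (by positivity)
    refine pow_le_pow_left₀ (Real.exp_pos _).le (Real.exp_le_exp.2 ?_) 2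
    refine mul_le_mul_of_nonneg_left ?_ hu
    have := dd_sq_shape hν
    push_cast at this
    exact this
  have h2 : Real.sqrt (NN u (k + 1)) ≤ E * (Real.sqrt ((k : ℝ) + 1) * Real.sqrt (NN u k)) := by
    refine (Real.sqrt_le_sqrt h1).trans (le_of_eq ?_)
    rw [Real.sqrt_mul (by positivity), Real.sqrt_sq hE0.le, Real.sqrt_mul (by positivity)]
  have h3 := sq_pos u k
  have h4 := sqk_pos k
  unfold zz wr
  rw [div_div, div_le_iff₀ (by positivity)]
  linarith

lemma yh_nonneg (u : ℕ → ℝ) (k : ℕ) (μ : Multiset ℤ) : 0 ≤ yh u k μ :=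
  div_nonneg (yy_nonneg u k μ) (sq_pos u k).le

lemma sum_yh_sq (u : ℕ → ℝ) (k : ℕ) : ∑ μ ∈ shapes k, yh u k μ ^ 2 = 1 := by
  have h := NN_pos u k
  simp only [yh, div_pow, Real.sq_sqrt h.le]
  rw [← sum_div]
  exact div_self h.ne'

lemma AA_nonneg (u : ℕ → ℝ) (k : ℕ) : 0 ≤ AA u k := sum_nonneg fun _ _ => by positivity

lemma ov_ge (u : ℕ → ℝ) (k : ℕ) : wr u k * (1 - u (k + 1) * AA u (k + 1)) ≤ ov u k := by
  unfold ov
  rw [← sum_edges k (fun μ ν => yh u k μ * yh u (k + 1) ν)]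
  have h0 : wr u k * (1 - u (k + 1) * AA u (k + 1))
      = ∑ ν ∈ shapes (k + 1), wr u k * ((1 - u (k + 1) * (dd ν : ℝ) ^ 2) * yh u (k + 1) ν ^ 2) := by
    rw [← mul_sum]
    congr 1
    simp only [sub_mul, one_mul, sum_sub_distrib, sum_yh_sq, AA, mul_sum, mul_assoc]
  rw [h0]
  refine sum_le_sum fun ν hν => ?_
  rw [← sum_mul]
  have h1 : ∑ b ∈ rem ν, yh u k (ν.erase b) = upOp (yy u k) ν / Real.sqrt (NN u k) := by
    simp only [yh, upOp, sum_div]
  have h2 : upOp (yy u k) ν = Real.exp (-(u (k + 1) * (dd ν : ℝ) ^ 2)) * yy u (k + 1) ν := by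
    rw [yy_succ u k (mem_shapes.1 hν).1, ← mul_assoc, ← Real.exp_add]; simp
  have h3 : 1 - u (k + 1) * (dd ν : ℝ) ^ 2 ≤ Real.exp (-(u (k + 1) * (dd ν : ℝ) ^ 2)) := by
    have := Real.add_one_le_exp (-(u (k + 1) * (dd ν : ℝ) ^ 2))
    linarith
  have h4 := sq_pos u k
  have h5 := sq_pos u (k + 1)
  have h6 : upOp (yy u k) ν / Real.sqrt (NN u k) * yh u (k + 1) ν
      = wr u k * (Real.exp (-(u (k + 1) * (dd ν : ℝ) ^ 2)) * yh u (k + 1) ν ^ 2) := by
    rw [h2]; unfold wr yh; field_simp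
  rw [h1, h6]
  exact mul_le_mul_of_nonneg_left (mul_le_mul_of_nonneg_right h3 (by positivity)) (wr_pos u k).le

lemma sum_window (k0 W : ℕ) (F : Multiset ℤ → ℝ) :
    ∑ μ ∈ (range (W + 1)).biUnion (fun i => shapes (k0 + i)), F μ
      = ∑ i ∈ range (W + 1), ∑ μ ∈ shapes (k0 + i), F μ := by
  refine sum_biUnion ?_
  intro i _ j _ hij
  rw [Function.onFun, disjoint_left]
  intro μ h1 h2
  have := (mem_shapes.1 h1).2
  have := (mem_shapes.1 h2).2
  omega

/-- The fermion inequality applied to a window of consecutive levels. -/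
lemma window0 (u : ℕ → ℝ) (k0 W : ℕ) (t : ℝ) (ht : 0 ≤ t) (L : ℕ) (hL : 1 ≤ L) :
    2 * t * (1 - 4 / (L : ℝ) ^ 2) * ∑ i ∈ range W, ov u (k0 + i)
        + ∑ i ∈ range W, AA u (k0 + i + 1)
      ≤ (t ^ 2 + 2 * (L : ℝ) ^ 2 + ((k0 : ℝ) + W)) * ((W : ℝ) + 1) := by
  set Ω := (range (W + 1)).biUnion (fun i => shapes (k0 + i)) with hΩ
  set x : Multiset ℤ → ℝ := fun μ => if μ ∈ Ω then yh u (Multiset.card μ) μ else 0 with hx
  have hmem : ∀ μ, μ ∈ Ω ↔ ∃ i ≤ W, μ ∈ shapes (k0 + i) := by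
    intro μ
    simp only [hΩ, mem_biUnion, mem_range, Nat.lt_succ_iff]
  have hxs : ∀ i ≤ W, ∀ μ ∈ shapes (k0 + i), x μ = yh u (k0 + i) μ := by
    intro i hi μ hμ
    simp only [hx]
    rw [if_pos ((hmem μ).2 ⟨i, hi, hμ⟩), (mem_shapes.1 hμ).2]
  have h := fermi_loc Ω (fun μ hμ => by
      obtain ⟨i, -, hi⟩ := (hmem μ).1 hμ
      exact (mem_shapes.1 hi).1) x (fun μ hμ => by simp only [hx]; rw [if_neg hμ])
    (fun μ => by
      simp only [hx]
      split_ifs
      · exact yh_nonneg _ _ _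
      · exact le_rfl) t ht L hL
  have e1 : ∑ μ ∈ Ω, ∑ c ∈ add μ, x μ * x (c ::ₘ μ) = ∑ i ∈ range W, ov u (k0 + i) := by
    rw [hΩ, sum_window, sum_range_succ]
    have z1 : ∑ μ ∈ shapes (k0 + W), ∑ c ∈ add μ, x μ * x (c ::ₘ μ) = 0 := by
      refine sum_eq_zero fun μ hμ => sum_eq_zero fun c _ => ?_
      have : c ::ₘ μ ∉ Ω := by
        intro hc
        obtain ⟨i, hi, hi2⟩ := (hmem _).1 hc
        have a1 := (mem_shapes.1 hi2).2
        have a2 := (mem_shapes.1 hμ).2
        rw [Multiset.card_cons] at a1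
        omega
      simp only [hx]
      rw [if_neg this, mul_zero]
    rw [z1, add_zero]
    refine sum_congr rfl fun i hi => ?_
    have hi' := mem_range.1 hi
    unfold ov
    refine sum_congr rfl fun μ hμ => sum_congr rfl fun c hc => ?_
    have a1 : c ::ₘ μ ∈ shapes (k0 + (i + 1)) := by
      obtain ⟨b1, b2⟩ := mem_shapes.1 hμ
      exact mem_shapes.2 ⟨b1.cons (mem_add.1 hc), by rw [Multiset.card_cons, b2]; ring⟩
    rw [hxs i hi'.le μ hμ, hxs (i + 1) hi' _ a1]
    rfl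
  have e2 : ∑ i ∈ range W, AA u (k0 + i + 1) ≤ ∑ μ ∈ Ω, (dd μ : ℝ) ^ 2 * x μ ^ 2 := by
    rw [hΩ, sum_window, sum_range_succ']
    have z1 : 0 ≤ ∑ μ ∈ shapes (k0 + 0), (dd μ : ℝ) ^ 2 * x μ ^ 2 :=
      sum_nonneg fun _ _ => by positivity
    have z2 : ∑ i ∈ range W, AA u (k0 + i + 1)
        = ∑ i ∈ range W, ∑ μ ∈ shapes (k0 + (i + 1)), (dd μ : ℝ) ^ 2 * x μ ^ 2 := by
      refine sum_congr rfl fun i hi => ?_
      unfold AA
      refine sum_congr rfl fun μ hμ => ?_
      rw [hxs (i + 1) (mem_range.1 hi) μ hμ]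
      rfl
    linarith
  have e0 : ∀ i ∈ range (W + 1), ∑ μ ∈ shapes (k0 + i), x μ ^ 2 = 1 := by
    intro i hi
    rw [← sum_yh_sq u (k0 + i)]
    refine sum_congr rfl fun μ hμ => ?_
    rw [hxs i (Nat.lt_succ_iff.1 (mem_range.1 hi)) μ hμ]
  have e3 : ∑ μ ∈ Ω, x μ ^ 2 = (W : ℝ) + 1 := by
    rw [hΩ, sum_window, sum_congr rfl e0]
    simp
  have e4 : ∑ μ ∈ Ω, (Multiset.card μ : ℝ) * x μ ^ 2 ≤ ((k0 : ℝ) + W) * ((W : ℝ) + 1) := by
    rw [← e3, mul_sum]
    refine sum_le_sum fun μ hμ => mul_le_mul_of_nonneg_right ?_ (by positivity)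
    obtain ⟨i, hi, hi2⟩ := (hmem _).1 hμ
    rw [(mem_shapes.1 hi2).2]
    exact_mod_cast Nat.add_le_add_left hi k0
  rw [e1, e3] at h
  linarith

lemma exp_quarter : Real.exp (1 / 4) ≤ 2 := by
  have h := Real.abs_exp_sub_one_le (x := 1 / 4) (by rw [abs_of_pos] <;> norm_num)
  have h2 := (abs_le.1 h).2
  rw [abs_of_pos (by norm_num : (0 : ℝ) < 1 / 4)] at h2
  linarith

section
variable {u : ℕ → ℝ} {n : ℕ} (hu0 : ∀ j, 0 ≤ u j) (hu1 : ∀ j, u j * ((n : ℝ) + 1) ≤ 1 / 4)
include hu0 hu1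

lemma zz_le_two {k : ℕ} (hk : k ≤ n) : zz u k ≤ 2 := by
  refine (zz_le u k (hu0 _)).trans (le_trans (Real.exp_le_exp.2 ?_) exp_quarter)
  refine le_trans (mul_le_mul_of_nonneg_left ?_ (hu0 _)) (hu1 (k + 1))
  have : (k : ℝ) ≤ n := by exact_mod_cast hk
  linarith

/-- The window lemma. -/
lemma window (r k0 W : ℕ) (hr : 8 ≤ r) (h1 : r * r ≤ k0) (h2 : k0 + W ≤ r * r + 4 * r)
    (h3 : k0 + W ≤ n) : ∑ i ∈ range W, (zz u (k0 + i) - 1) ≤ 101 := by
  set L := Nat.sqrt r + 1 with hL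
  have hL1 : r ≤ L * L := (Nat.lt_succ_sqrt r).le
  have hL2 : L * L ≤ 4 * r := by
    have a1 := Nat.sqrt_le r
    have a2 : 1 ≤ Nat.sqrt r := Nat.le_sqrt.2 (by omega)
    rw [hL]; nlinarith
  have hr' : (8 : ℝ) ≤ r := by exact_mod_cast hr
  have hL1' : (r : ℝ) ≤ (L : ℝ) ^ 2 := by rw [sq]; exact_mod_cast hL1
  have hL2' : (L : ℝ) ^ 2 ≤ 4 * r := by rw [sq]; exact_mod_cast hL2
  have h2' : (k0 : ℝ) + W ≤ r * r + 4 * r := by exact_mod_cast h2
  have hW : (W : ℝ) ≤ 4 * r := by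
    have : W ≤ 4 * r := by omega
    exact_mod_cast this
  have hW0 : (0 : ℝ) ≤ W := by positivity
  have h0 := window0 u k0 W r (by positivity) L (by omega)
  set κ : ℝ := 1 - 4 / (L : ℝ) ^ 2 with hκ
  have hκ1 : κ ≤ 1 := by
    have : (0 : ℝ) ≤ 4 / (L : ℝ) ^ 2 := by positivity
    linarith
  have hκ2 : 1 - 4 / (r : ℝ) ≤ κ := by
    have : 4 / (L : ℝ) ^ 2 ≤ 4 / (r : ℝ) :=
      div_le_div_of_nonneg_left (by norm_num) (by linarith) hL1'
    linarith
  have hκ3 : (r : ℝ) - 4 ≤ κ * r := by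
    have := mul_le_mul_of_nonneg_right hκ2 (by linarith : (0 : ℝ) ≤ r)
    have e : (1 - 4 / (r : ℝ)) * r = r - 4 := by field_simp
    linarith
  have hκ0 : 0 ≤ κ := by
    by_contra hneg
    have : κ * r < 0 := mul_neg_of_neg_of_pos (not_le.1 hneg) (by linarith)
    linarith
  have key : ∀ i ∈ range W, 2 * r * (r - 4) * zz u (k0 + i)
      ≤ 2 * r * κ * ov u (k0 + i) + AA u (k0 + i + 1) := by
    intro i hi
    have hi' := mem_range.1 hi
    set k := k0 + i with hk
    have a1 := ov_ge u k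
    have a2 := AA_nonneg u (k + 1)
    have a3 := zz_pos u k
    have a4 : zz u k ≤ 2 := zz_le_two hu0 hu1 (by omega)
    have a5 := sqk_pos k
    set s := Real.sqrt ((k : ℝ) + 1) with hs
    have a6 : wr u k = zz u k * s := by unfold zz; rw [← hs]; field_simp
    have a7 : s * s = (k : ℝ) + 1 := Real.mul_self_sqrt (by positivity)
    have a8 : (r : ℝ) ≤ s := by
      apply Real.le_sqrt_of_sq_le
      have : r * r ≤ k + 1 := by omega
      have : (r : ℝ) * r ≤ k + 1 := by exact_mod_cast this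
      rw [sq]; exact this
    have a9 : (k : ℝ) + 1 ≤ n + 1 := by
      have : k ≤ n := by omega
      have : (k : ℝ) ≤ n := by exact_mod_cast this
      linarith
    have b1 : u (k + 1) * (r * s) ≤ 1 / 4 := by
      refine le_trans (mul_le_mul_of_nonneg_left ?_ (hu0 _)) (hu1 (k + 1))
      nlinarith
    have b0 : 0 ≤ u (k + 1) * (r * s) := mul_nonneg (hu0 _) (by positivity)
    have b2 : 2 * r * κ * (wr u k * u (k + 1)) ≤ 1 := by
      have e : 2 * r * κ * (wr u k * u (k + 1)) = 2 * (κ * zz u k) * (u (k + 1) * (r * s)) := by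
        rw [a6]; ring
      have c1 : κ * zz u k ≤ 2 := by nlinarith
      rw [e]
      nlinarith
    have b3 : 2 * r * κ * (wr u k * (1 - u (k + 1) * AA u (k + 1))) ≤ 2 * r * κ * ov u k :=
      mul_le_mul_of_nonneg_left a1 (by positivity)
    have b4 : 2 * r * κ * (wr u k * u (k + 1)) * AA u (k + 1) ≤ AA u (k + 1) := by
      simpa using mul_le_mul_of_nonneg_right b2 a2
    have b5 : 2 * r * (r - 4) * zz u k ≤ 2 * r * κ * wr u k := by
      rw [a6]
      have c1 : (r : ℝ) - 4 ≤ κ * s := hκ3.trans (mul_le_mul_of_nonneg_left a8 hκ0)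
      have c2 : 0 ≤ 2 * r * zz u k := by positivity
      nlinarith [mul_le_mul_of_nonneg_left c1 c2]
    nlinarith
  have h4 := sum_le_sum key
  rw [sum_add_distrib, ← mul_sum, ← mul_sum] at h4
  rw [sum_sub_distrib]
  simp only [sum_const, card_range, nsmul_eq_mul, mul_one]
  set S := ∑ i ∈ range W, zz u (k0 + i) with hS
  have h5 : 2 * r * (r - 4) * S ≤ (2 * r * r + 12 * r) * (W + 1) := by
    refine h4.trans (h0.trans (mul_le_mul_of_nonneg_right ?_ (by linarith)))
    nlinarith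
  have h6 : ((r : ℝ) - 4) * S ≤ (r + 6) * (W + 1) := by
    have : (2 * r : ℝ) * (((r : ℝ) - 4) * S) ≤ (2 * r) * ((r + 6) * (W + 1)) := by nlinarith
    exact le_of_mul_le_mul_left this (by linarith)
  by_contra hcon
  have h7 : (W : ℝ) + 101 < S := by linarith [not_le.1 hcon]
  have h8 := mul_lt_mul_of_pos_left h7 (by linarith : (0 : ℝ) < r - 4)
  nlinarith

lemma sum_le_len {a W : ℕ} (h : a + W ≤ n) : ∑ i ∈ range W, (zz u (a + i) - 1) ≤ W := by
  have : ∀ i ∈ range W, zz u (a + i) - 1 ≤ 1 := by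
    intro i hi
    have := zz_le_two hu0 hu1 (k := a + i) (by have := mem_range.1 hi; omega)
    linarith
  simpa using sum_le_sum this

lemma sum_all (r : ℕ) : ∀ K ≤ n, K ≤ r * r → ∑ k ∈ range K, (zz u k - 1) ≤ 101 * r := by
  induction r with
  | zero =>
    intro K _ hK
    obtain rfl : K = 0 := by omega
    simp
  | succ r ih =>
    intro K hK hK2
    by_cases h1 : K ≤ r * r
    · have := ih K hK h1
      push_cast
      linarith
    · obtain ⟨W, rfl⟩ : ∃ W, K = r * r + W := ⟨K - r * r, by omega⟩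
      rw [sum_range_add]
      have a1 := ih (r * r) (by omega) le_rfl
      have hW : W ≤ 2 * r + 1 := by nlinarith
      have a2 : ∑ i ∈ range W, (zz u (r * r + i) - 1) ≤ 101 := by
        by_cases hr : 8 ≤ r
        · exact window hu0 hu1 r (r * r) W hr le_rfl (by omega) hK
        · refine (sum_le_len hu0 hu1 hK).trans ?_
          have : W ≤ 101 := by omega
          exact_mod_cast this
      push_cast
      linarith

end

lemma prod_le_exp (u : ℕ → ℝ) (s : Finset ℕ) (g : ℕ → ℕ) :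
    ∏ k ∈ s, zz u (g k) ≤ Real.exp (∑ k ∈ s, (zz u (g k) - 1)) := by
  rw [Real.exp_sum]
  refine prod_le_prod (fun k _ => (zz_pos u _).le) fun k _ => ?_
  have := Real.add_one_le_exp (zz u (g k) - 1)
  linarith

end Ex

theorem expo_all : ∃ C : ℝ, 0 ≤ C ∧ ∀ n : ℕ,
    ∑ p ∈ pairs n, Real.exp (1 / (4 * ((n : ℝ) + 1))
        * ∑ j ∈ range (n + 1), (dd (st p.2 j) : ℝ) ^ 2)
      ≤ n.factorial * Real.exp (C * Real.sqrt (n + 1)) := by
  refine ⟨202, by norm_num, fun n => ?_⟩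
  have h := Ex.lhs_le (fun _ => 1 / (4 * ((n : ℝ) + 1))) n
  simp only [← mul_sum] at h
  refine h.trans (mul_le_mul_of_nonneg_left ?_ (by positivity))
  refine (Ex.prod_le_exp _ _ id).trans (Real.exp_le_exp.2 ?_)
  have h1 := Ex.sum_all (u := fun _ => 1 / (4 * ((n : ℝ) + 1))) (n := n)
    (fun _ => by positivity) (fun _ => le_of_eq (by field_simp)) (Nat.sqrt n + 1) n le_rfl
    (Nat.lt_succ_sqrt n).le
  refine h1.trans ?_
  have h2 : (Nat.sqrt n : ℝ) ≤ Real.sqrt (n + 1) := by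
    apply Real.le_sqrt_of_sq_le
    have : (Nat.sqrt n : ℝ) * Nat.sqrt n ≤ n := by exact_mod_cast Nat.sqrt_le n
    nlinarith
  have h3 : (1 : ℝ) ≤ Real.sqrt (n + 1) := by
    apply Real.le_sqrt_of_sq_le
    have : (0 : ℝ) ≤ n := by positivity
    linarith
  push_cast
  linarith

theorem expo_last : ∃ C : ℝ, 0 ≤ C ∧ ∀ n m : ℕ, m * m ≤ n →
    ∑ p ∈ pairs n, Real.exp (1 / (4 * ((n : ℝ) + 1))
        * ∑ j ∈ range m, (dd (st p.2 (n - j)) : ℝ) ^ 2)
      ≤ n.factorial * Real.exp C := by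
  refine ⟨101, by norm_num, fun n m hm => ?_⟩
  have hmn : m ≤ n := by nlinarith
  obtain ⟨k0, rfl⟩ : ∃ k0, n = k0 + m := ⟨n - m, by omega⟩
  set a : ℝ := 1 / (4 * (((k0 + m : ℕ) : ℝ) + 1)) with ha
  have ha0 : 0 ≤ a := by positivity
  set u : ℕ → ℝ := fun j => if k0 < j then a else 0 with hu
  have hu0 : ∀ j, 0 ≤ u j := fun j => by simp only [hu]; split_ifs; exacts [ha0, le_rfl]
  have hu1 : ∀ j, u j * (((k0 + m : ℕ) : ℝ) + 1) ≤ 1 / 4 := fun j => by
    simp only [hu]
    split_ifs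
    · exact le_of_eq (by rw [ha]; field_simp)
    · norm_num
  have h := Ex.lhs_le u (k0 + m)
  have e1 : ∀ t : ℕ → ℤ, ∑ j ∈ range (k0 + m + 1), u j * (dd (st t j) : ℝ) ^ 2
      = a * ∑ j ∈ range m, (dd (st t (k0 + m - j)) : ℝ) ^ 2 := by
    intro t
    rw [show k0 + m + 1 = (k0 + 1) + m by ring, sum_range_add, mul_sum]
    rw [sum_eq_zero, zero_add, ← sum_range_reflect]
    · refine sum_congr rfl fun j hj => ?_
      have := mem_range.1 hj
      simp only [hu]
      rw [if_pos (by omega), show k0 + 1 + (m - 1 - j) = k0 + m - j by omega]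
    · intro j hj
      have := mem_range.1 hj
      simp only [hu]
      rw [if_neg (by omega), zero_mul]
  simp only [e1] at h
  refine h.trans (mul_le_mul_of_nonneg_left ?_ (by positivity))
  rw [prod_range_add]
  have p1 : ∏ k ∈ range k0, Ex.zz u k ≤ 1 := by
    refine prod_le_one (fun k _ => (Ex.zz_pos u k).le) fun k hk => ?_
    have := mem_range.1 hk
    have h1 := Ex.zz_le u k (hu0 _)
    have h2 : u (k + 1) = 0 := by simp only [hu]; rw [if_neg (by omega)]
    simpa [h2] using h1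
  have p2 : ∏ k ∈ range m, Ex.zz u (k0 + k) ≤ Real.exp 101 := by
    refine (Ex.prod_le_exp u _ (fun k => k0 + k)).trans (Real.exp_le_exp.2 ?_)
    by_cases hm' : m ≤ 101
    · refine (Ex.sum_le_len hu0 hu1 le_rfl).trans ?_
      exact_mod_cast hm'
    · have a1 := Nat.sqrt_le k0
      have a2 := Nat.lt_succ_sqrt k0
      set r := Nat.sqrt k0 with hr
      have a3 : m ≤ 2 * r := by
        by_contra hc
        have b1 : 2 * r + 1 ≤ m := by omega
        have b2 : k0 + 1 ≤ (r + 1) * (r + 1) := a2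
        nlinarith
      refine Ex.window hu0 hu1 r k0 m (by omega) a1 ?_ le_rfl
      have b2 : k0 + 1 ≤ (r + 1) * (r + 1) := a2
      nlinarith
  calc _ ≤ 1 * Real.exp 101 :=
        mul_le_mul p1 p2 (prod_nonneg fun k _ => (Ex.zz_pos u _).le) (by norm_num)
    _ = _ := one_mul _

end Pool.Agent.P.MP_e72dc0_lc.Sn
end

-- part Pool.Agent.P.MP_e72dc0_lc.Sn.Boot
section

/-! Module E2: the bootstrap and the bound on the graded dimension. -/

namespace Pool.Agent.P.MP_e72dc0_lc.Sn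

open Finset
open scoped Classical

namespace Bt

/-- Unnormalised moment generating function of the energy. -/
noncomputable def MM (φ : ℝ) (k : ℕ) : ℝ :=
  ∑ p ∈ pairs k, Real.exp (φ * (ee p.1 k + ee p.2 k))

lemma cosh_le (y : ℝ) (h : y ^ 2 ≤ 1) : Real.cosh y ≤ 1 + y ^ 2 := by
  have h0 : 0 ≤ y ^ 2 / 2 := by positivity
  have h1 := Real.abs_exp_sub_one_le (x := y ^ 2 / 2) (by rw [abs_of_nonneg h0]; linarith)
  have h2 := (abs_le.1 h1).2
  rw [abs_of_nonneg h0] at h2
  have h3 := Real.cosh_le_exp_half_sq y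
  linarith

lemma Hq_le (φ f : ℝ) (d : ℤ) (hφ : φ ^ 2 ≤ f) (h : (32 * (d : ℝ) ^ 2 + 2) * f ≤ 1) :
    Hq φ d ≤ 1 + (32 * (d : ℝ) ^ 2 + 2) * f := by
  have h1 : ((4 * (d : ℝ) - 1) * φ) ^ 2 ≤ (32 * (d : ℝ) ^ 2 + 2) * f := by
    rw [mul_pow]
    refine mul_le_mul ?_ hφ (by positivity) (by positivity)
    nlinarith [sq_nonneg (4 * (d : ℝ) + 1)]
  have h2 := cosh_le _ (h1.trans h)
  have h3 := Real.one_le_cosh φ
  unfold Hq
  refine (div_le_self (Real.cosh_pos _).le h3).trans ?_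
  linarith

lemma dd_sq_st {n : ℕ} {t : ℕ → ℤ} (ht : t ∈ Std n) {j : ℕ} (hj : j ≤ n) :
    (dd (st t j) : ℝ) ^ 2 ≤ j := by
  have := dd_sq_le (valid_st ht hj)
  rw [card_st] at this
  exact_mod_cast this

lemma step (N k : ℕ) (hk : k < N) (φ f A B : ℝ) (hφ : φ ^ 2 ≤ f) (ha : 128 * f * N ≤ 1 / 2)
    (hA0 : 0 ≤ A) (hA : MM (φ / (1 - 128 * f)) k ≤ k.factorial * Real.exp A)
    (hB : ∑ p ∈ pairs k, Real.exp (1 / (4 * ((k : ℝ) + 1))
        * ∑ j ∈ range (k + 1), (dd (st p.2 j) : ℝ) ^ 2) ≤ k.factorial * Real.exp B) :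
    MM φ (k + 1) ≤ (k + 1).factorial * Real.exp (A + (128 * f * B + 2 * f)) := by
  have hf : 0 ≤ f := (sq_nonneg φ).trans hφ
  have hN : (1 : ℝ) ≤ N := by exact_mod_cast (show 1 ≤ N by omega)
  have hkN : (k : ℝ) ≤ N := by exact_mod_cast hk.le
  set a : ℝ := 128 * f with hadef
  have ha0 : 0 ≤ a := by positivity
  have ha1 : a ≤ 1 / 2 := by nlinarith
  have ha2 : 0 < 1 - a := by linarith
  set E : ℝ := Real.exp ((1 - a) * A + a * B + 2 * f) with hE
  have hE0 : 0 < E := Real.exp_pos _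
  unfold MM
  rw [fock_rec]
  have key : ∀ p ∈ pairs k, Real.exp (φ * (ee p.1 k + ee p.2 k))
      * ∑ j ∈ range (k + 1), Hq φ (dd (st p.2 j))
      ≤ ((k : ℝ) + 1) * E * ((1 - a) * Real.exp (-A)
          * Real.exp (φ / (1 - a) * (ee p.1 k + ee p.2 k))
        + a * Real.exp (-B) * Real.exp (1 / (4 * ((k : ℝ) + 1))
          * ∑ j ∈ range (k + 1), (dd (st p.2 j) : ℝ) ^ 2)) := by
    intro p hp
    have hp2 := (mem_pairs.1 hp).2.1
    set X : ℝ := (ee p.1 k : ℝ) + ee p.2 k with hX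
    set S : ℝ := ∑ j ∈ range (k + 1), (dd (st p.2 j) : ℝ) ^ 2 with hS
    set Z : ℝ := 1 / (4 * ((k : ℝ) + 1)) * S with hZ
    have h1 : ∑ j ∈ range (k + 1), Hq φ (dd (st p.2 j))
        ≤ ∑ j ∈ range (k + 1), (1 + (32 * (dd (st p.2 j) : ℝ) ^ 2 + 2) * f) := by
      refine sum_le_sum fun j hj => Hq_le φ f _ hφ ?_
      have hj' : j ≤ k := Nat.lt_succ_iff.1 (mem_range.1 hj)
      have b1 := dd_sq_st hp2 hj'
      have b2 : (j : ℝ) ≤ k := by exact_mod_cast hj'
      have b3 : 32 * (dd (st p.2 j) : ℝ) ^ 2 + 2 ≤ 128 * N := by linarith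
      have b4 := mul_le_mul_of_nonneg_right b3 hf
      nlinarith
    have h2 : ∑ j ∈ range (k + 1), (1 + (32 * (dd (st p.2 j) : ℝ) ^ 2 + 2) * f)
        = ((k : ℝ) + 1) * (a * Z + 2 * f + 1) := by
      have e : ∀ j, 1 + (32 * (dd (st p.2 j) : ℝ) ^ 2 + 2) * f
          = (1 + 2 * f) + 32 * f * (dd (st p.2 j) : ℝ) ^ 2 := fun j => by ring
      simp only [e]
      rw [sum_add_distrib, ← mul_sum, ← hS, hZ, hadef]
      simp only [sum_const, card_range, nsmul_eq_mul]
      push_cast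
      field_simp
      ring
    have h3 : a * Z + 2 * f + 1 ≤ Real.exp (a * Z + 2 * f) := Real.add_one_le_exp _
    have h4 := convexOn_exp.2 (Set.mem_univ (φ / (1 - a) * X - A)) (Set.mem_univ (Z - B))
      ha2.le ha0 (by ring)
    simp only [smul_eq_mul] at h4
    have h5 : Real.exp (φ * X) * Real.exp (a * Z + 2 * f)
        = E * Real.exp ((1 - a) * (φ / (1 - a) * X - A) + a * (Z - B)) := by
      rw [hE, ← Real.exp_add, ← Real.exp_add]
      congr 1
      field_simp
      ring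
    have h6 : Real.exp (φ / (1 - a) * X - A) = Real.exp (-A) * Real.exp (φ / (1 - a) * X) := by
      rw [← Real.exp_add]; congr 1; ring
    have h7 : Real.exp (Z - B) = Real.exp (-B) * Real.exp Z := by
      rw [← Real.exp_add]; congr 1; ring
    rw [h6, h7] at h4
    have hk1 : (0 : ℝ) ≤ (k : ℝ) + 1 := by positivity
    calc Real.exp (φ * X) * ∑ j ∈ range (k + 1), Hq φ (dd (st p.2 j))
        ≤ Real.exp (φ * X) * (((k : ℝ) + 1) * Real.exp (a * Z + 2 * f)) := by
          refine mul_le_mul_of_nonneg_left (h1.trans ?_) (Real.exp_pos _).le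
          rw [h2]
          exact mul_le_mul_of_nonneg_left h3 hk1
      _ = ((k : ℝ) + 1) * E * Real.exp ((1 - a) * (φ / (1 - a) * X - A) + a * (Z - B)) := by
          rw [mul_assoc ((k : ℝ) + 1) E, ← h5]; ring
      _ ≤ _ := by
          refine mul_le_mul_of_nonneg_left (h4.trans (le_of_eq ?_)) (by positivity)
          ring
  refine (sum_le_sum key).trans ?_
  rw [← mul_sum, sum_add_distrib, ← mul_sum, ← mul_sum]
  have c1 : (1 - a) * Real.exp (-A)
      * ∑ p ∈ pairs k, Real.exp (φ / (1 - a) * (ee p.1 k + ee p.2 k))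
      ≤ (1 - a) * k.factorial := by
    refine (mul_le_mul_of_nonneg_left hA (by positivity)).trans (le_of_eq ?_)
    rw [Real.exp_neg]; field_simp
  have c2 : a * Real.exp (-B) * ∑ p ∈ pairs k, Real.exp (1 / (4 * ((k : ℝ) + 1))
      * ∑ j ∈ range (k + 1), (dd (st p.2 j) : ℝ) ^ 2) ≤ a * k.factorial := by
    refine (mul_le_mul_of_nonneg_left hB (by positivity)).trans (le_of_eq ?_)
    rw [Real.exp_neg]; field_simp
  have c3 : E ≤ Real.exp (A + (a * B + 2 * f)) := by
    rw [hE]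
    refine Real.exp_le_exp.2 ?_
    nlinarith
  calc _ ≤ ((k : ℝ) + 1) * E * ((1 - a) * k.factorial + a * k.factorial) :=
        mul_le_mul_of_nonneg_left (add_le_add c1 c2) (by positivity)
    _ = (((k : ℝ) + 1) * k.factorial) * E := by ring
    _ ≤ _ := by
        rw [Nat.factorial_succ]
        push_cast
        exact mul_le_mul_of_nonneg_left c3 (by positivity)

lemma boot (C : ℝ) (hC0 : 0 ≤ C)
    (hC : ∀ n : ℕ, ∑ p ∈ pairs n, Real.exp (1 / (4 * ((n : ℝ) + 1))
        * ∑ j ∈ range (n + 1), (dd (st p.2 j) : ℝ) ^ 2)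
      ≤ n.factorial * Real.exp (C * Real.sqrt (n + 1)))
    (N : ℕ) (f : ℝ) (hf : 0 ≤ f) (ha : 128 * f * N ≤ 1 / 2) (k : ℕ) :
    k ≤ N → ∀ φ : ℝ, φ ^ 2 ≤ f * ((1 - 128 * f) ^ k) ^ 2 →
      MM φ k ≤ k.factorial * Real.exp (k * (128 * f * (C * Real.sqrt N) + 2 * f)) := by
  induction k with
  | zero =>
    intro _ φ _
    have h := card_pairs 0
    simp only [MM, ee, range_zero, sum_empty, Int.cast_zero, add_zero, mul_zero, Real.exp_zero,
      sum_const, h]
    simp
  | succ k ih =>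
    intro hk φ hφ
    have hN : (1 : ℝ) ≤ N := by exact_mod_cast (show 1 ≤ N by omega)
    have ha1 : 128 * f ≤ 1 / 2 := by nlinarith
    have ha2 : 0 < 1 - 128 * f := by linarith
    have h1 : (φ / (1 - 128 * f)) ^ 2 ≤ f * ((1 - 128 * f) ^ k) ^ 2 := by
      rw [div_pow, div_le_iff₀ (by positivity)]
      refine hφ.trans (le_of_eq ?_)
      ring
    have h2 : φ ^ 2 ≤ f := by
      refine hφ.trans (mul_le_of_le_one_right hf ?_)
      exact pow_le_one₀ (by positivity) (pow_le_one₀ ha2.le (by linarith))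
    have h3 := ih (by omega) _ h1
    have h4 : ∑ p ∈ pairs k, Real.exp (1 / (4 * ((k : ℝ) + 1))
        * ∑ j ∈ range (k + 1), (dd (st p.2 j) : ℝ) ^ 2)
        ≤ k.factorial * Real.exp (C * Real.sqrt N) := by
      refine (hC k).trans (mul_le_mul_of_nonneg_left (Real.exp_le_exp.2 ?_) (by positivity))
      refine mul_le_mul_of_nonneg_left (Real.sqrt_le_sqrt ?_) hC0
      exact_mod_cast hk
    refine (step N k (by omega) φ f _ _ h2 ha (by positivity) h3 h4).trans (le_of_eq ?_)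
    push_cast
    congr 2
    ring

lemma dd_lip (t : ℕ → ℤ) (k j : ℕ) : |dd (st t (k + j)) - dd (st t k)| ≤ j := by
  induction j with
  | zero => simp
  | succ j ih =>
    rw [← add_assoc, st_succ, dd_cons]
    rw [abs_le] at ih ⊢
    push_cast
    split_ifs <;> constructor <;> linarith [ih.1, ih.2]

lemma dd_last (t : ℕ → ℤ) (n m : ℕ) (hm : m ≤ n) :
    (m : ℝ) * (dd (st t n) : ℝ) ^ 2
      ≤ 2 * ∑ j ∈ range m, (dd (st t (n - j)) : ℝ) ^ 2 + 2 * (m : ℝ) ^ 3 := by
  have h : ∀ j ∈ range m, (dd (st t n) : ℝ) ^ 2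
      ≤ 2 * (dd (st t (n - j)) : ℝ) ^ 2 + 2 * (m : ℝ) ^ 2 := by
    intro j hj
    have hj' := mem_range.1 hj
    have h1 := dd_lip t (n - j) j
    rw [show n - j + j = n by omega] at h1
    have h2 : |(dd (st t n) : ℝ) - dd (st t (n - j))| ≤ m := by
      have : |dd (st t n) - dd (st t (n - j))| ≤ (m : ℤ) := h1.trans (by exact_mod_cast hj'.le)
      exact_mod_cast this
    have h3 : ((dd (st t n) : ℝ) - dd (st t (n - j))) ^ 2 ≤ (m : ℝ) ^ 2 := by
      rw [← sq_abs]
      exact pow_le_pow_left₀ (abs_nonneg _) h2 2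
    nlinarith [sq_nonneg ((dd (st t n) : ℝ) - 2 * dd (st t (n - j)))]
  have h2 := sum_le_sum h
  rw [sum_add_distrib, ← mul_sum] at h2
  simp only [sum_const, card_range, nsmul_eq_mul] at h2
  nlinarith

lemma D6_ge {n : ℕ} {p : (ℕ → ℤ) × (ℕ → ℤ)} (hp : p ∈ pairs n) :
    (n : ℝ) - 3 * (dd (st p.2 n) : ℝ) ^ 2 + 3 * ((ee p.1 n : ℝ) + ee p.2 n) ≤ 2 * D6 n p := by
  obtain ⟨h1, h2, h3⟩ := mem_pairs.1 hp
  have a1 := two_ww h1 le_rfl
  have a2 := two_ww h2 le_rfl
  have a3 := two_dg p.1 n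
  have a4 := two_dg p.2 n
  rw [h3] at a1
  have a5 : 0 ≤ dd (st p.2 n) ^ 2 + dd (st p.2 n) := by
    rcases le_or_gt 0 (dd (st p.2 n)) with h | h
    · positivity
    · nlinarith
  have : (n : ℤ) - 3 * dd (st p.2 n) ^ 2 + 3 * (ee p.1 n + ee p.2 n) ≤ 2 * D6 n p := by
    unfold D6; linarith
  exact_mod_cast this

end Bt

theorem analytic : ∃ c : ℝ, 0 < c ∧ ∃ n₀ : ℕ, ∀ n : ℕ, n₀ ≤ n → ∃ θ : ℝ, 0 < θ ∧
    ∑ p ∈ pairs n, Real.exp (-(θ * D6 n p))
      ≤ n.factorial * Real.exp (-(c * Real.sqrt n)) := by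
  obtain ⟨C, hC0, hC⟩ := expo_all
  obtain ⟨C', hC0', hC'⟩ := expo_last
  set α : ℝ := 1 / (6144 * (C + 1)) with hα
  have hα0 : 0 < α := by positivity
  have hα1 : 6144 * (C + 1) * α = 1 := by rw [hα]; field_simp
  have hα2 : α ≤ 1 / 6144 := by nlinarith
  have hα3 : 128 * C * α ≤ 1 / 48 := by nlinarith
  obtain ⟨n₁, hn₁⟩ := exists_nat_ge ((48 * C' / α + 14) ^ 2)
  refine ⟨α / 24, by positivity, n₁, fun n hn => ?_⟩
  set s : ℝ := Real.sqrt n with hs
  have hs1 : 48 * C' / α + 14 ≤ s := by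
    apply Real.le_sqrt_of_sq_le
    exact hn₁.trans (by exact_mod_cast hn)
  have hq : 0 ≤ 48 * C' / α := by positivity
  have hs2 : 14 ≤ s := by linarith
  have hs0 : 0 < s := by linarith
  have hss : s * s = n := Real.mul_self_sqrt (by positivity)
  have hs3 : C' ≤ α * s / 48 := by
    have h1 : 48 * C' / α ≤ s := by linarith
    rw [div_le_iff₀ hα0] at h1
    linarith
  set θ : ℝ := α / (6 * s) with hθ
  have hθ0 : 0 < θ := by positivity
  refine ⟨θ, hθ0, ?_⟩
  -- first average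
  have hαα : α * α ≤ 1 / 6144 * (1 / 6144) := mul_le_mul hα2 hα2 hα0.le (by norm_num)
  have m1 : Bt.MM (-(3 * θ)) n ≤ n.factorial * Real.exp (α * s / 24) := by
    set f : ℝ := (α / s) ^ 2 with hf
    have hf0 : 0 ≤ f := by positivity
    have hfn : f * n = α * α := by rw [hf, ← hss]; field_simp
    have ha : 128 * f * n ≤ 1 / 2 := by nlinarith
    have hn1 : (1 : ℝ) ≤ n := by nlinarith
    have ha' : 128 * f ≤ 1 / 2 := by nlinarith
    have hb : 1 / 2 ≤ (1 - 128 * f) ^ n := by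
      have := one_add_mul_le_pow (a := -(128 * f)) (by linarith) n
      rw [← sub_eq_add_neg] at this
      nlinarith
    have hφ : (-(3 * θ)) ^ 2 ≤ f * ((1 - 128 * f) ^ n) ^ 2 := by
      have e : (-(3 * θ)) ^ 2 = f * (1 / 2) ^ 2 := by rw [hθ, hf]; field_simp; ring
      rw [e]
      exact mul_le_mul_of_nonneg_left (pow_le_pow_left₀ (by norm_num) hb 2) hf0
    refine (Bt.boot C hC0 hC n f hf0 ha n le_rfl _ hφ).trans
      (mul_le_mul_of_nonneg_left (Real.exp_le_exp.2 ?_) (by positivity))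
    have e : (n : ℝ) * (128 * f * (C * Real.sqrt n) + 2 * f)
        = (128 * C * α) * (α * s) + 2 * α * α := by
      rw [← hs]
      calc (n : ℝ) * (128 * f * (C * s) + 2 * f) = (f * n) * (128 * C * s + 2) := by ring
        _ = _ := by rw [hfn]; ring
    rw [e]
    have b1 : (128 * C * α) * (α * s) ≤ 1 / 48 * (α * s) :=
      mul_le_mul_of_nonneg_right hα3 (by positivity)
    have b2 : 2 * α * α ≤ α * s / 48 := by nlinarith
    linarith
  -- second average
  have m2 : ∑ p ∈ pairs n, Real.exp (3 * θ * (dd (st p.2 n) : ℝ) ^ 2)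
      ≤ n.factorial * Real.exp (α * s / 24) := by
    set m : ℕ := ⌈8 * α * s⌉₊ with hm
    have hm1 : 8 * α * s ≤ m := Nat.le_ceil _
    have hm2 : (m : ℝ) < 8 * α * s + 1 := Nat.ceil_lt_add_one (by positivity)
    have hm0 : (0 : ℝ) < m := lt_of_lt_of_le (by positivity) hm1
    have hm3 : (m : ℝ) ^ 2 ≤ 128 * (α * α) * (s * s) + 2 := by
      have b1 : (m : ℝ) ^ 2 ≤ (8 * α * s + 1) ^ 2 := pow_le_pow_left₀ hm0.le hm2.le 2
      nlinarith [sq_nonneg (8 * α * s - 1)]
    have hs4 : 196 ≤ s * s := by nlinarith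
    have hm4 : m * m ≤ n := by
      have b1 : 128 * (α * α) * (s * s) ≤ 1 / 2 * (s * s) :=
        mul_le_mul_of_nonneg_right (by linarith) (by positivity)
      have : (m : ℝ) * m ≤ n := by nlinarith
      exact_mod_cast this
    have hm5 : m ≤ n := by nlinarith
    have hw : 6 * θ / m ≤ 1 / (4 * ((n : ℝ) + 1)) := by
      rw [div_le_div_iff₀ hm0 (by positivity), one_mul]
      refine le_trans ?_ hm1
      have e : 6 * θ * (4 * ((n : ℝ) + 1)) = 4 * α * (s * s + 1) / s := by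
        rw [hθ, ← hss]; field_simp
      rw [e, div_le_iff₀ hs0]
      nlinarith
    have hr : 6 * θ * (m : ℝ) ^ 2 ≤ α * s / 48 := by
      have e : 6 * θ * (m : ℝ) ^ 2 = α * (m : ℝ) ^ 2 / s := by rw [hθ]; field_simp
      rw [e, div_le_iff₀ hs0]
      have b1 : 128 * (α * α) * (s * s) ≤ 1 / 96 * (s * s) :=
        mul_le_mul_of_nonneg_right (by linarith) (by positivity)
      have b2 : (m : ℝ) ^ 2 ≤ s * s / 48 := by linarith
      have b3 := mul_le_mul_of_nonneg_left b2 hα0.le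
      nlinarith
    have key : ∀ p ∈ pairs n, Real.exp (3 * θ * (dd (st p.2 n) : ℝ) ^ 2)
        ≤ Real.exp (α * s / 48) * Real.exp (1 / (4 * ((n : ℝ) + 1))
          * ∑ j ∈ range m, (dd (st p.2 (n - j)) : ℝ) ^ 2) := by
      intro p _
      rw [← Real.exp_add]
      refine Real.exp_le_exp.2 ?_
      have b1 := Bt.dd_last p.2 n m hm5
      set S := ∑ j ∈ range m, (dd (st p.2 (n - j)) : ℝ) ^ 2 with hS
      have b0 : 0 ≤ S := sum_nonneg fun _ _ => by positivity
      have b2 : 3 * θ * (dd (st p.2 n) : ℝ) ^ 2 ≤ 6 * θ / m * S + 6 * θ * (m : ℝ) ^ 2 := by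
        have b3 := mul_le_mul_of_nonneg_left b1 (show 0 ≤ 3 * θ / m by positivity)
        have e1 : 3 * θ / m * ((m : ℝ) * (dd (st p.2 n) : ℝ) ^ 2)
            = 3 * θ * (dd (st p.2 n) : ℝ) ^ 2 := by field_simp
        have e2 : 3 * θ / m * (2 * S + 2 * (m : ℝ) ^ 3)
            = 6 * θ / m * S + 6 * θ * (m : ℝ) ^ 2 := by field_simp; ring
        rw [e1, e2] at b3
        exact b3
      have b4 := mul_le_mul_of_nonneg_right hw b0
      linarith
    refine (sum_le_sum key).trans ?_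
    rw [← mul_sum]
    refine (mul_le_mul_of_nonneg_left (hC' n m hm4) (Real.exp_pos _).le).trans ?_
    rw [mul_left_comm, ← Real.exp_add]
    refine mul_le_mul_of_nonneg_left (Real.exp_le_exp.2 ?_) (by positivity)
    linarith
  have key : ∀ p ∈ pairs n, Real.exp (-(θ * D6 n p))
      ≤ Real.exp (-(α * s / 12)) / 2 * (Real.exp (-(3 * θ) * (ee p.1 n + ee p.2 n))
        + Real.exp (3 * θ * (dd (st p.2 n) : ℝ) ^ 2)) := by
    intro p hp
    have b1 := Bt.D6_ge hp
    set X : ℝ := (ee p.1 n : ℝ) + ee p.2 n with hX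
    set Y : ℝ := (dd (st p.2 n) : ℝ) ^ 2 with hY
    have h4 := convexOn_exp.2 (Set.mem_univ (-(3 * θ) * X)) (Set.mem_univ (3 * θ * Y))
      (show (0 : ℝ) ≤ 1 / 2 by norm_num) (show (0 : ℝ) ≤ 1 / 2 by norm_num) (by norm_num)
    simp only [smul_eq_mul] at h4
    have e : θ * n = α * s / 6 := by rw [hθ, ← hss]; field_simp
    have b2 : -(θ * D6 n p) ≤ -(α * s / 12) + (1 / 2 * (-(3 * θ) * X) + 1 / 2 * (3 * θ * Y)) := by
      have := mul_le_mul_of_nonneg_left b1 hθ0.le
      nlinarith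
    refine (Real.exp_le_exp.2 b2).trans ?_
    rw [Real.exp_add]
    refine (mul_le_mul_of_nonneg_left h4 (Real.exp_pos _).le).trans (le_of_eq ?_)
    ring
  refine (sum_le_sum key).trans ?_
  rw [← mul_sum, sum_add_distrib]
  refine (mul_le_mul_of_nonneg_left (add_le_add m1 m2) (by positivity)).trans (le_of_eq ?_)
  have e : Real.exp (-(α / 24 * s)) = Real.exp (-(α * s / 12)) * Real.exp (α * s / 24) := by
    rw [← Real.exp_add]; congr 1; ring
  rw [e]
  ring

end Pool.Agent.P.MP_e72dc0_lc.Sn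
end

-- part Pool.Agent.P.MP_e72dc0_lc.Sn.Stpp
section

/-! Module A: filtered bases of the group algebra bound simultaneous triple products. -/

namespace Pool.Agent.P.MP_e72dc0_lc.Sn

open Finset
open scoped Classical

/-- Coefficient of the identity in the convolution of three functions. -/
def Tri {G F : Type*} [Group G] [Fintype G] [CommRing F] (f g h : G → F) : F :=
  ∑ x, ∑ y, f x * g y * h (x * y)⁻¹

/-- The group algebra over `ZMod 2` has a basis with real degrees, such that `Tri` vanishes in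
positive total degree, with partition function at most `Z`. -/
def Filt (G : Type) [Group G] [Fintype G] (Z : ℝ) : Prop :=
  ∃ (ι : Type) (_ : Fintype ι) (b : ι → G → ZMod 2) (D : ι → ℝ),
    Fintype.card ι = Fintype.card G ∧ LinearIndependent (ZMod 2) b ∧
    (∀ i j k, 0 < D i + D j + D k → Tri (b i) (b j) (b k) = 0) ∧
    ∑ i, Real.exp (-D i) ≤ Z

lemma coeff_mul_fintype {G F : Type*} [Group G] [Fintype G] [CommRing F]
    (a b : MonoidAlgebra F G) (g : G) :
    (a * b).coeff g = ∑ x, a.coeff x * b.coeff (x⁻¹ * g) := by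
  rw [MonoidAlgebra.coeff_mul_apply_left, Finsupp.sum_fintype]
  intro x
  simp

theorem tri_monoidAlgebra {G F : Type*} [Group G] [Fintype G] [CommRing F]
    (a b c : MonoidAlgebra F G) :
    (a * b * c).coeff 1
      = Tri (fun x => a.coeff x) (fun x => b.coeff x) (fun x => c.coeff x) := by
  rw [mul_assoc, coeff_mul_fintype]
  unfold Tri
  refine Finset.sum_congr rfl fun x _ => ?_
  rw [coeff_mul_fintype, Finset.mul_sum]
  refine Finset.sum_congr rfl fun y _ => ?_
  rw [mul_one, mul_inv_rev, mul_assoc]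

theorem Filt.pi {m : ℕ} (G : Fin m → Type) [∀ i, Group (G i)] [∀ i, Fintype (G i)]
    (Z : Fin m → ℝ) (h : ∀ i, Filt (G i) (Z i)) : Filt (∀ i, G i) (∏ i, Z i) := by
  choose ι hι b D hcard hli htri hZ using h
  refine ⟨∀ r, ι r, inferInstance, fun i g => ∏ r, b r (i r) (g r), fun i => ∑ r, D r (i r),
    ?_, ?_, ?_, ?_⟩
  · rw [Fintype.card_pi, Fintype.card_pi]
    exact Finset.prod_congr rfl fun r _ => hcard r
  · apply linearIndependent_of_top_le_span_of_card_eq_finrank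
    · have hsp : ∀ r, ∀ g : G r, ∃ c : ι r → ZMod 2,
          ∑ i, c i • b r i = (Pi.single g 1 : G r → ZMod 2) := by
        intro r g
        have h1 := (hli r).span_eq_top_of_card_eq_finrank' (by simp [hcard r])
        have h2 : (Pi.single g 1 : G r → ZMod 2) ∈ Submodule.span (ZMod 2) (Set.range (b r)) := by
          rw [h1]; trivial
        exact (Submodule.mem_span_range_iff_exists_fun _).1 h2
      choose c hc using hsp
      intro f _
      have hf : f = ∑ g, f g • (Pi.single g 1 : (∀ r, G r) → ZMod 2) := by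
        ext x
        simp [Finset.sum_apply, Pi.single_apply]
      rw [hf]
      refine Submodule.sum_mem _ fun g _ => Submodule.smul_mem _ _ ?_
      refine (Submodule.mem_span_range_iff_exists_fun _).2 ⟨fun i => ∏ r, c r (g r) (i r), ?_⟩
      ext x
      have h3 : ∀ r, ∑ i, c r (g r) i * b r i (x r) = if x r = g r then 1 else 0 := by
        intro r
        have := congrFun (hc r (g r)) (x r)
        simpa [Finset.sum_apply, Pi.single_apply] using this
      simp only [Finset.sum_apply, Pi.smul_apply, smul_eq_mul, ← Finset.prod_mul_distrib]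
      rw [← Fintype.prod_sum (fun r i => c r (g r) i * b r i (x r))]
      simp only [h3, Pi.single_apply]
      by_cases hx : x = g
      · simp [hx]
      · rw [if_neg hx]
        obtain ⟨r, hr⟩ := Function.ne_iff.1 hx
        exact Finset.prod_eq_zero (Finset.mem_univ r) (if_neg hr)
    · simp [Fintype.card_pi, hcard]
  · intro i j k hpos
    have hex : ∃ r, 0 < D r (i r) + D r (j r) + D r (k r) := by
      by_contra hcon
      push Not at hcon
      have : ∑ r, (D r (i r) + D r (j r) + D r (k r)) ≤ 0 :=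
        Finset.sum_nonpos fun r _ => hcon r
      simp only [Finset.sum_add_distrib] at this
      linarith
    obtain ⟨r, hr⟩ := hex
    have hmul : Tri (fun g : ∀ r, G r => ∏ r, b r (i r) (g r)) (fun g => ∏ r, b r (j r) (g r))
        (fun g => ∏ r, b r (k r) (g r)) = ∏ r, Tri (b r (i r)) (b r (j r)) (b r (k r)) := by
      unfold Tri
      rw [Fintype.prod_sum (fun r x => ∑ y, b r (i r) x * b r (j r) y * b r (k r) (x * y)⁻¹)]
      refine Finset.sum_congr rfl fun x _ => ?_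
      rw [Fintype.prod_sum (fun r y => b r (i r) (x r) * b r (j r) y * b r (k r) (x r * y)⁻¹)]
      refine Finset.sum_congr rfl fun y _ => ?_
      simp only [Finset.prod_mul_distrib, Pi.inv_apply, Pi.mul_apply]
    rw [hmul]
    exact Finset.prod_eq_zero (Finset.mem_univ r) (htri r _ _ _ hr)
  · have : ∑ i : ∀ r, ι r, Real.exp (-∑ r, D r (i r)) = ∏ r, ∑ i, Real.exp (-D r i) := by
      rw [Fintype.prod_sum (fun r i => Real.exp (-D r i))]
      refine Finset.sum_congr rfl fun i _ => ?_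
      rw [← Real.exp_sum, Finset.sum_neg_distrib]
    rw [this]
    exact Finset.prod_le_prod (fun r _ => Finset.sum_nonneg fun i _ => (Real.exp_pos _).le)
      fun r _ => hZ r

/-- A rank function refining a real degree. -/
lemma exists_rank {κ : Type*} [Fintype κ] (D : κ → ℝ) :
    ∃ ρ : κ → ℝ ×ₗ ℕ, Function.Injective ρ ∧ ∀ i j, ρ i ≤ ρ j → D i ≤ D j := by
  refine ⟨fun i => toLex (D i, (Fintype.equivFin κ i : ℕ)), ?_, ?_⟩
  · intro i j hij
    have h1 := congrArg (fun p => (ofLex p).2) hij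
    simp only [ofLex_toLex] at h1
    exact (Fintype.equivFin κ).injective (Fin.ext h1)
  · intro i j hij
    rcases Prod.Lex.toLex_le_toLex.1 hij with h | h
    · exact le_of_lt h
    · exact le_of_eq h.1

/-- Leading term lemma. -/
lemma bruhat {G F κ A : Type*} [Field F] [Fintype κ] [Nonempty κ]
    (B : Module.Basis κ F (G → F)) (D : κ → ℝ)
    (X : Finset A) (g : A → G) (α : A → ℤ) (hg : Set.InjOn g X) (hα : Set.InjOn α X) :
    ∃ (π : A → κ) (f : A → G → F), Set.InjOn π X ∧ ∀ x ∈ X, f x (g x) = 1 ∧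
      (∀ h, f x h ≠ 0 → ∃ x' ∈ X, h = g x' ∧ α x' ≤ α x) ∧
      ∀ i, B.repr (f x) i ≠ 0 → D (π x) ≤ D i := by
  obtain ⟨ρ, hρ, hρD⟩ := exists_rank D
  let form : A → (G → F) → Prop := fun x f => f (g x) = 1 ∧
    ∀ h, f h ≠ 0 → ∃ x' ∈ X, h = g x' ∧ α x' ≤ α x
  let lead : (G → F) → κ → Prop := fun f i => B.repr f i ≠ 0 ∧ ∀ j, B.repr f j ≠ 0 → ρ i ≤ ρ j
  have hlead : ∀ f : G → F, f ≠ 0 → ∃ i, lead f i := by
    intro f hf
    have hne : (Finset.univ.filter fun j => B.repr f j ≠ 0).Nonempty := by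
      by_contra hcon
      apply hf
      apply B.repr.injective
      ext j
      by_contra hj
      apply hcon
      exact ⟨j, by simpa using hj⟩
    obtain ⟨i, hi, hmin⟩ := Finset.exists_min_image _ ρ hne
    exact ⟨i, by simpa using hi, fun j hj => hmin j (by simpa using hj)⟩
  have hform_ne : ∀ x f, form x f → f ≠ 0 := by
    intro x f hf h0
    have := hf.1
    rw [h0] at this
    simp at this
  have hex : ∀ x, ∃ (i : κ) (f : G → F), x ∈ X → form x f ∧ lead f i ∧
      ∀ f' i', form x f' → lead f' i' → ρ i' ≤ ρ i := by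
    intro x
    by_cases hx : x ∈ X
    swap
    · exact ⟨Classical.arbitrary κ, 0, fun h => absurd h hx⟩
    have h0 : form x (Pi.single (g x) 1) := by
      refine ⟨by simp, fun h hh => ⟨x, hx, ?_, le_rfl⟩⟩
      by_contra hne
      exact hh (by simp [hne])
    have hne : (Finset.univ.filter fun i => ∃ f, form x f ∧ lead f i).Nonempty := by
      obtain ⟨i, hi⟩ := hlead _ (hform_ne _ _ h0)
      exact ⟨i, by simpa using ⟨_, h0, hi⟩⟩
    obtain ⟨i, hi, hmax⟩ := Finset.exists_max_image _ ρ hne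
    obtain ⟨f, hf1, hf2⟩ : ∃ f, form x f ∧ lead f i := by simpa using hi
    exact ⟨i, f, fun _ => ⟨hf1, hf2, fun f' i' h1 h2 =>
      hmax i' (by simpa using ⟨f', h1, h2⟩)⟩⟩
  choose π f hπ using hex
  have key : ∀ x ∈ X, ∀ x' ∈ X, α x' < α x → π x ≠ π x' := by
    intro x hx x' hx' hlt heq
    obtain ⟨h1, h2, h3⟩ := hπ x hx
    obtain ⟨h1', h2', -⟩ := hπ x' hx'
    let c : F := B.repr (f x) (π x) / B.repr (f x') (π x')
    have hz : f x' (g x) = 0 := by
      by_contra hne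
      obtain ⟨y, hy, hgy, hαy⟩ := h1'.2 _ hne
      have : x = y := hg hx hy hgy
      subst this
      omega
    have hform : form x (f x - c • f x') := by
      refine ⟨by simp [h1.1, hz], fun h hh => ?_⟩
      by_cases ha : f x h = 0
      · have hb : f x' h ≠ 0 := by
          intro hb
          apply hh
          simp [ha, hb]
        obtain ⟨y, hy, hgy, hαy⟩ := h1'.2 _ hb
        exact ⟨y, hy, hgy, by omega⟩
      · exact h1.2 _ ha
    obtain ⟨i', hi'⟩ := hlead _ (hform_ne _ _ hform)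
    have hle : ρ i' ≤ ρ (π x) := h3 _ _ hform hi'
    have hrepr : ∀ j, B.repr (f x - c • f x') j = B.repr (f x) j - c * B.repr (f x') j := by
      intro j
      simp
    have hge : ρ (π x) ≤ ρ i' := by
      have hi1 := hi'.1
      rw [hrepr] at hi1
      by_cases ha : B.repr (f x) i' = 0
      · have hb : B.repr (f x') i' ≠ 0 := by
          intro hb
          apply hi1
          simp [ha, hb]
        rw [heq]
        exact h2'.2 _ hb
      · exact h2.2 _ ha
    have heq' : i' = π x := hρ (le_antisymm hle hge)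
    have hi1 := hi'.1
    rw [hrepr, heq'] at hi1
    apply hi1
    have hne' := h2'.1
    rw [← heq] at hne'
    simp only [c]
    rw [← heq]
    field_simp
    ring
  refine ⟨π, f, ?_, fun x hx => ⟨(hπ x hx).1.1, (hπ x hx).1.2, fun i hi =>
    hρD _ _ ((hπ x hx).2.1.2 i hi)⟩⟩
  intro x hx x' hx' heq
  rcases lt_trichotomy (α x) (α x') with h | h | h
  · exact absurd heq.symm (key x' hx' x hx h)
  · exact hα hx hx' h
  · exact absurd heq (key x hx x' hx' h)

/-- Trilinear expansion. -/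
lemma tri_eq_zero {G F κ : Type*} [Group G] [Fintype G] [Field F] [Fintype κ]
    (B : Module.Basis κ F (G → F)) (f₁ f₂ f₃ : G → F)
    (h : ∀ i j k, B.repr f₁ i ≠ 0 → B.repr f₂ j ≠ 0 → B.repr f₃ k ≠ 0 →
      Tri (B i) (B j) (B k) = 0) : Tri f₁ f₂ f₃ = 0 := by
  have e : ∀ f : G → F, ∀ x, f x = ∑ i, B.repr f i * B i x := by
    intro f x
    conv_lhs => rw [← B.sum_repr f]
    simp [Finset.sum_apply]
  have : Tri f₁ f₂ f₃ = ∑ i, ∑ j, ∑ k,
      B.repr f₁ i * B.repr f₂ j * B.repr f₃ k * Tri (B i) (B j) (B k) := by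
    unfold Tri
    have e2 : ∀ x y : G, f₁ x * f₂ y * f₃ (x * y)⁻¹ = ∑ i, ∑ j, ∑ k,
        B.repr f₁ i * B.repr f₂ j * B.repr f₃ k * (B i x * B j y * B k (x * y)⁻¹) := by
      intro x y
      rw [e f₁ x, e f₂ y, e f₃ (x * y)⁻¹, Finset.sum_mul_sum, Finset.sum_mul]
      refine Finset.sum_congr rfl fun i _ => ?_
      rw [Finset.sum_mul]
      refine Finset.sum_congr rfl fun j _ => ?_
      rw [Finset.mul_sum]
      refine Finset.sum_congr rfl fun k _ => ?_
      ring
    simp only [e2, Finset.mul_sum]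
    calc ∑ x : G, ∑ y : G, ∑ i, ∑ j, ∑ k,
          B.repr f₁ i * B.repr f₂ j * B.repr f₃ k * (B i x * B j y * B k (x * y)⁻¹)
        = ∑ p : G × G, ∑ q : κ × κ × κ, B.repr f₁ q.1 * B.repr f₂ q.2.1 * B.repr f₃ q.2.2 *
            (B q.1 p.1 * B q.2.1 p.2 * B q.2.2 (p.1 * p.2)⁻¹) := by
          simp only [Fintype.sum_prod_type]
      _ = ∑ q : κ × κ × κ, ∑ p : G × G, B.repr f₁ q.1 * B.repr f₂ q.2.1 * B.repr f₃ q.2.2 *
            (B q.1 p.1 * B q.2.1 p.2 * B q.2.2 (p.1 * p.2)⁻¹) := Finset.sum_comm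
      _ = _ := by simp only [Fintype.sum_prod_type]
  rw [this]
  refine Finset.sum_eq_zero fun i _ => Finset.sum_eq_zero fun j _ =>
    Finset.sum_eq_zero fun k _ => ?_
  by_cases h1 : B.repr f₁ i = 0
  · simp [h1]
  by_cases h2 : B.repr f₂ j = 0
  · simp [h2]
  by_cases h3 : B.repr f₃ k = 0
  · simp [h3]
  rw [h i j k h1 h2 h3, mul_zero]

/-- Index set of one side. -/
noncomputable def side {G ι : Type} [Fintype G] [Fintype ι] (S T U : ι → Finset G) :
    Finset (ι × G × G) :=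
  Finset.univ.filter fun p => p.2.1 ∈ S p.1 ∧ p.2.2 ∈ T p.1 ∧ (U p.1).Nonempty

lemma mem_side {G ι : Type} [Fintype G] [Fintype ι] {S T U : ι → Finset G} {p : ι × G × G} :
    p ∈ side S T U ↔ p.2.1 ∈ S p.1 ∧ p.2.2 ∈ T p.1 ∧ (U p.1).Nonempty := by
  simp [side]

/-- Triangle form of the simultaneous triple product property. -/
def TP {G ι : Type} [Group G] (S T U : ι → Finset G) : Prop :=
  ∀ i j k, ∀ s ∈ S i, ∀ s' ∈ S j, ∀ t ∈ T j, ∀ t' ∈ T k, ∀ u ∈ U k, ∀ u' ∈ U i,
    s' * t⁻¹ * (t' * u⁻¹) * (u' * s⁻¹) = 1 → i = j ∧ j = k ∧ s = s' ∧ t = t' ∧ u = u'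

lemma TP.cyc {G ι : Type} [Group G] {S T U : ι → Finset G} (h : TP S T U) : TP T U S := by
  intro i j k t ht t' ht' u hu u' hu' s hs s' hs' e
  have e' : s' * t⁻¹ * (t' * u⁻¹) * (u' * s⁻¹) = 1 := by
    have : s' * t⁻¹ * (t' * u⁻¹) * (u' * s⁻¹)
        = (s' * t⁻¹) * (t' * u⁻¹ * (u' * s⁻¹) * (s' * t⁻¹)) * (s' * t⁻¹)⁻¹ := by group
    rw [this, e]; group
  obtain ⟨h1, h2, h3, h4, h5⟩ := h k i j s hs s' hs' t ht t' ht' u hu u' hu' e'
  exact ⟨h2, by rw [← h2, h1], h4, h5, h3⟩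

lemma TP.injOn {G ι : Type} [Group G] [Fintype G] [Fintype ι] {S T U : ι → Finset G}
    (h : TP S T U) : Set.InjOn (fun p : ι × G × G => p.2.1 * p.2.2⁻¹) (side S T U) := by
  rintro ⟨j, s', t⟩ hp ⟨i, s, t'⟩ hq e
  obtain ⟨hs', ht, -⟩ := mem_side.1 hp
  obtain ⟨hs, ht', u, hu⟩ := mem_side.1 hq
  simp only at hs' ht hs ht' hu e
  have e' : s' * t⁻¹ * (t' * u⁻¹) * (u * s⁻¹) = 1 := by
    rw [e]; group
  obtain ⟨h1, -, h3, h4, -⟩ := h i j i s hs s' hs' t ht t' ht' u hu u hu e'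
  rw [h1, h3, h4]

lemma label_inj {a a' b b' M : ℤ} (h : |a - a'| < M) (e : a - M * b = a' - M * b') :
    a = a' ∧ b = b' := by
  have h1 : a - a' = M * (b - b') := by linarith
  have hM : 0 < M := lt_of_le_of_lt (abs_nonneg _) h
  have h2 : a - a' = 0 := Int.eq_zero_of_abs_lt_dvd ⟨_, h1⟩ h
  refine ⟨by linarith, ?_⟩
  rw [h2] at h1
  rcases mul_eq_zero.1 h1.symm with h3 | h3
  · omega
  · linarith

lemma exp_sum_lower {A : Type*} (s : Finset A) (hs : s.Nonempty) (d : A → ℝ) (M : ℝ)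
    (hM : 0 < M) :
    M * (1 - (∑ a ∈ s, d a) / s.card - Real.log M + Real.log s.card)
      ≤ ∑ a ∈ s, Real.exp (-d a) := by
  have hc : (0 : ℝ) < s.card := by exact_mod_cast hs.card_pos
  have h1 : ∀ a ∈ s, M / s.card * (1 - d a - Real.log M + Real.log s.card)
      ≤ Real.exp (-d a) := by
    intro a _
    have e : Real.exp (-d a)
        = M / s.card * Real.exp (-d a - Real.log M + Real.log s.card) := by
      rw [Real.exp_add, Real.exp_sub, Real.exp_log hM, Real.exp_log hc]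
      field_simp
    rw [e]
    refine mul_le_mul_of_nonneg_left ?_ (by positivity)
    have := Real.add_one_le_exp (-d a - Real.log M + Real.log s.card)
    linarith
  refine le_trans (le_of_eq ?_) (Finset.sum_le_sum h1)
  rw [← Finset.mul_sum]
  simp only [Finset.sum_add_distrib, Finset.sum_sub_distrib, Finset.sum_const, nsmul_eq_mul,
    mul_one]
  field_simp

/-- The averaging step for one block. -/
lemma block_bound {A : Type*} (S T U : Finset A) (d₁ d₂ d₃ : A → A → ℝ)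
    (hS : S.Nonempty) (hT : T.Nonempty) (hU : U.Nonempty)
    (h : ∀ s ∈ S, ∀ t ∈ T, ∀ u ∈ U, d₁ s t + d₂ t u + d₃ u s ≤ 0) :
    3 * ((S.card * T.card * U.card : ℕ) : ℝ) ^ ((2 : ℝ) / 3)
      ≤ ∑ p ∈ S ×ˢ T, Real.exp (-d₁ p.1 p.2) + ∑ p ∈ T ×ˢ U, Real.exp (-d₂ p.1 p.2)
        + ∑ p ∈ U ×ˢ S, Real.exp (-d₃ p.1 p.2) := by
  have ha : (0 : ℝ) < S.card := by exact_mod_cast hS.card_pos
  have hb : (0 : ℝ) < T.card := by exact_mod_cast hT.card_pos
  have hc : (0 : ℝ) < U.card := by exact_mod_cast hU.card_pos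
  set M : ℝ := ((S.card * T.card * U.card : ℕ) : ℝ) ^ ((2 : ℝ) / 3) with hMdef
  have habc : (0 : ℝ) < ((S.card * T.card * U.card : ℕ) : ℝ) := by push_cast; positivity
  have hM : 0 < M := Real.rpow_pos_of_pos habc _
  have hlog : 3 * Real.log M
      = 2 * (Real.log S.card + Real.log T.card + Real.log U.card) := by
    rw [hMdef, Real.log_rpow habc]
    push_cast
    rw [Real.log_mul (by positivity) hc.ne', Real.log_mul ha.ne' hb.ne']
    ring
  have h1 := exp_sum_lower (S ×ˢ T) (hS.product hT) (fun p => d₁ p.1 p.2) M hM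
  have h2 := exp_sum_lower (T ×ˢ U) (hT.product hU) (fun p => d₂ p.1 p.2) M hM
  have h3 := exp_sum_lower (U ×ˢ S) (hU.product hS) (fun p => d₃ p.1 p.2) M hM
  rw [Finset.card_product] at h1 h2 h3
  push_cast at h1 h2 h3
  rw [Real.log_mul ha.ne' hb.ne'] at h1
  rw [Real.log_mul hb.ne' hc.ne'] at h2
  rw [Real.log_mul hc.ne' ha.ne'] at h3
  have hsum : ∑ s ∈ S, ∑ t ∈ T, ∑ u ∈ U, (d₁ s t + d₂ t u + d₃ u s) ≤ 0 :=
    Finset.sum_nonpos fun s hs => Finset.sum_nonpos fun t ht =>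
      Finset.sum_nonpos fun u hu => h s hs t ht u hu
  have e : ∑ s ∈ S, ∑ t ∈ T, ∑ u ∈ U, (d₁ s t + d₂ t u + d₃ u s)
      = U.card * ∑ p ∈ S ×ˢ T, d₁ p.1 p.2 + S.card * ∑ p ∈ T ×ˢ U, d₂ p.1 p.2
        + T.card * ∑ p ∈ U ×ˢ S, d₃ p.1 p.2 := by
    simp only [Finset.sum_add_distrib, Finset.sum_const, nsmul_eq_mul, Finset.sum_product,
      Finset.mul_sum]
    congr 1
    rw [Finset.sum_comm (s := U) (t := S)]
  rw [e] at hsum
  set A₁ := ∑ p ∈ S ×ˢ T, d₁ p.1 p.2
  set A₂ := ∑ p ∈ T ×ˢ U, d₂ p.1 p.2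
  set A₃ := ∑ p ∈ U ×ˢ S, d₃ p.1 p.2
  have havg : A₁ / (S.card * T.card) + A₂ / (T.card * U.card) + A₃ / (U.card * S.card) ≤ 0 := by
    have : A₁ / (S.card * T.card) + A₂ / (T.card * U.card) + A₃ / (U.card * S.card)
        = (U.card * A₁ + S.card * A₂ + T.card * A₃) / (S.card * T.card * U.card) := by
      field_simp
    rw [this]
    exact div_nonpos_of_nonpos_of_nonneg hsum (by positivity)
  have hfin : 3 * M ≤ M * (1 - A₁ / (S.card * T.card) - Real.log M
        + (Real.log S.card + Real.log T.card))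
      + M * (1 - A₂ / (T.card * U.card) - Real.log M + (Real.log T.card + Real.log U.card))
      + M * (1 - A₃ / (U.card * S.card) - Real.log M
        + (Real.log U.card + Real.log S.card)) := by
    rw [← mul_add, ← mul_add, mul_comm 3 M]
    refine mul_le_mul_of_nonneg_left ?_ hM.le
    linarith
  linarith

lemma side_sum_le {G ι κ : Type} [Fintype G] [Fintype ι] [Fintype κ] (S T U : ι → Finset G)
    (π : ι × G × G → κ) (hπ : Set.InjOn π (side S T U)) (D : κ → ℝ) :
    ∑ l, (if (U l).Nonempty then ∑ p ∈ S l ×ˢ T l, Real.exp (-D (π (l, p.1, p.2))) else 0)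
      ≤ ∑ i, Real.exp (-D i) := by
  have e : ∑ l, (if (U l).Nonempty then ∑ p ∈ S l ×ˢ T l, Real.exp (-D (π (l, p.1, p.2))) else 0)
      = ∑ p ∈ side S T U, Real.exp (-D (π p)) := by
    unfold side
    rw [Finset.sum_filter, Fintype.sum_prod_type]
    refine Finset.sum_congr rfl fun l _ => ?_
    by_cases hU : (U l).Nonempty
    · simp only [hU, if_true, and_true]
      rw [← Finset.sum_filter]
      refine Finset.sum_congr ?_ fun p _ => rfl
      ext p
      simp
    · simp [hU]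
  rw [e, ← Finset.sum_image (f := fun i => Real.exp (-D i)) hπ]
  exact Finset.sum_le_sum_of_subset_of_nonneg (Finset.subset_univ _)
    fun i _ _ => (Real.exp_pos _).le

theorem Filt.stpp {G : Type} [Group G] [Fintype G] {Z : ℝ} (h : Filt G Z)
    {ι : Type} [Fintype ι] (S T U : ι → Finset G)
    (hstpp : ∀ i j k, ∀ s ∈ S i, ∀ s' ∈ S j, ∀ t ∈ T j, ∀ t' ∈ T k, ∀ u ∈ U k, ∀ u' ∈ U i,
      s⁻¹ * s' * t⁻¹ * t' * u⁻¹ * u' = 1 → i = j ∧ j = k ∧ s = s' ∧ t = t' ∧ u = u') :
    ∑ i, (((S i).card * (T i).card * (U i).card : ℕ) : ℝ) ^ ((2 : ℝ) / 3) ≤ Z := by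
  obtain ⟨κ, hκ, b, D, hcard, hli, htri, hZ⟩ := h
  have hne : Nonempty κ := Fintype.card_pos_iff.1 (by rw [hcard]; exact Fintype.card_pos)
  let B : Module.Basis κ (ZMod 2) (G → ZMod 2) :=
    basisOfLinearIndependentOfCardEqFinrank hli (by simp [hcard])
  have hB : ∀ i, B i = b i := fun i => by simp [B]
  have hTP : TP S T U := by
    intro i j k s hs s' hs' t ht t' ht' u hu u' hu' e
    refine hstpp i j k s hs s' hs' t ht t' ht' u hu u' hu' ?_
    have : s⁻¹ * s' * t⁻¹ * t' * u⁻¹ * u'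
        = s⁻¹ * (s' * t⁻¹ * (t' * u⁻¹) * (u' * s⁻¹)) * s := by group
    rw [this, e]; group
  -- integer labels
  let K : ℤ := Fintype.card (ι × G)
  let e : ι × G → ℤ := fun p => ((Fintype.equivFin (ι × G) p : ℕ) : ℤ)
  have he0 : ∀ p, 0 ≤ e p := fun p => Int.natCast_nonneg _
  have heK : ∀ p, e p < K := fun p => by
    simp only [e, K]
    exact_mod_cast (Fintype.equivFin (ι × G) p).2
  have heinj : ∀ p q, e p = e q → p = q := fun p q hpq => by
    simp only [e] at hpq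
    exact (Fintype.equivFin (ι × G)).injective (Fin.ext (by exact_mod_cast hpq))
  have heabs : ∀ p q, |e p - e q| < K := fun p q => by
    rw [abs_lt]
    constructor <;> linarith [he0 p, he0 q, heK p, heK q]
  let α : ι × G × G → ℤ := fun p => e (p.1, p.2.1) - K * e (p.1, p.2.2)
  let β : ι × G × G → ℤ := fun p => K * (e (p.1, p.2.1) - K * e (p.1, p.2.2))
  let γ : ι × G × G → ℤ := fun p => -(e (p.1, p.2.2) - K * (K * e (p.1, p.2.1)))
  have hαinj : Function.Injective α := by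
    rintro ⟨i, s, t⟩ ⟨j, s', t'⟩ hpq
    obtain ⟨h1, h2⟩ := label_inj (heabs _ _) hpq
    have h3 := heinj _ _ h1
    have h4 := heinj _ _ h2
    simp only [Prod.mk.injEq] at h3 h4 ⊢
    exact ⟨h3.1, h3.2, h4.2⟩
  have hβinj : Function.Injective β := by
    intro p q hpq
    have hK : 0 < K := lt_of_le_of_lt (he0 (p.1, p.2.1)) (heK _)
    exact hαinj (mul_left_cancel₀ hK.ne' hpq)
  have hγinj : Function.Injective γ := by
    rintro ⟨i, s, t⟩ ⟨j, s', t'⟩ hpq
    have hK : 0 < K := lt_of_le_of_lt (he0 (i, s)) (heK _)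
    obtain ⟨h1, h2⟩ := label_inj (heabs _ _) (neg_injective hpq)
    have h3 := heinj _ _ h1
    have h4 := heinj _ _ (mul_left_cancel₀ hK.ne' h2)
    simp only [Prod.mk.injEq] at h3 h4 ⊢
    exact ⟨h3.1, h4.2, h3.2⟩
  let g : ι × G × G → G := fun p => p.2.1 * p.2.2⁻¹
  obtain ⟨π₁, f₁, hπ₁, hf₁⟩ := bruhat B D (side S T U) g α hTP.injOn hαinj.injOn
  obtain ⟨π₂, f₂, hπ₂, hf₂⟩ := bruhat B D (side T U S) g β hTP.cyc.injOn hβinj.injOn
  obtain ⟨π₃, f₃, hπ₃, hf₃⟩ := bruhat B D (side U S T) g γ hTP.cyc.cyc.injOn hγinj.injOn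
  have hlab : ∀ x ∈ side S T U, ∀ y ∈ side T U S, ∀ z ∈ side U S T,
      g x * g y * g z = 1 → α x + β y + γ z = 0 := by
    rintro ⟨j, s', t⟩ hx ⟨k, t', u⟩ hy ⟨i, u', s⟩ hz hxyz
    obtain ⟨hs', ht, -⟩ := mem_side.1 hx
    obtain ⟨ht', hu, -⟩ := mem_side.1 hy
    obtain ⟨hu', hs, -⟩ := mem_side.1 hz
    obtain ⟨h1, h2, h3, h4, h5⟩ := hTP i j k s hs s' hs' t ht t' ht' u hu u' hu' hxyz
    subst h1 h2 h3 h4 h5
    simp only [α, β, γ]
    ring
  have htriangle : ∀ x ∈ side S T U, ∀ y ∈ side T U S, ∀ z ∈ side U S T,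
      g x * g y * g z = 1 → D (π₁ x) + D (π₂ y) + D (π₃ z) ≤ 0 := by
    intro x hx y hy z hz hxyz
    by_contra hcon
    push Not at hcon
    obtain ⟨a1, a2, a3⟩ := hf₁ x hx
    obtain ⟨b1, b2, b3⟩ := hf₂ y hy
    obtain ⟨c1, c2, c3⟩ := hf₃ z hz
    have h0 : Tri (f₁ x) (f₂ y) (f₃ z) = 0 := by
      refine tri_eq_zero B _ _ _ fun i j k hi hj hk => ?_
      rw [hB, hB, hB]
      exact htri i j k (by linarith [a3 i hi, b3 j hj, c3 k hk])
    have hterm : ∀ p q : G, f₁ x p * f₂ y q * f₃ z (p * q)⁻¹ ≠ 0 → p = g x ∧ q = g y := by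
      intro p q hpq
      have hp : f₁ x p ≠ 0 := fun h => hpq (by simp [h])
      have hq : f₂ y q ≠ 0 := fun h => hpq (by simp [h])
      have hr : f₃ z (p * q)⁻¹ ≠ 0 := fun h => hpq (by rw [h, mul_zero])
      obtain ⟨x', hx', ex, lx⟩ := a2 _ hp
      obtain ⟨y', hy', ey, ly⟩ := b2 _ hq
      obtain ⟨z', hz', ez, lz⟩ := c2 _ hr
      have h1 := hlab x hx y hy z hz hxyz
      have h2 := hlab x' hx' y' hy' z' hz' (by rw [← ex, ← ey, ← ez]; group)
      have h3 : x' = x := hαinj (by omega)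
      have h4 : y' = y := hβinj (by omega)
      rw [ex, ey, h3, h4]
      exact ⟨rfl, rfl⟩
    have h1 : Tri (f₁ x) (f₂ y) (f₃ z) = 1 := by
      unfold Tri
      rw [Finset.sum_eq_single (g x), Finset.sum_eq_single (g y)]
      · have : (g x * g y)⁻¹ = g z := inv_eq_of_mul_eq_one_right hxyz
        rw [this, a1, b1, c1]
        simp
      · intro q _ hq
        by_contra hc
        exact hq (hterm _ _ hc).2
      · simp
      · intro p _ hp
        refine Finset.sum_eq_zero fun q _ => ?_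
        by_contra hc
        exact hp (hterm _ _ hc).1
      · simp
    rw [h0] at h1
    exact zero_ne_one h1
  have s1 := side_sum_le S T U π₁ hπ₁ D
  have s2 := side_sum_le T U S π₂ hπ₂ D
  have s3 := side_sum_le U S T π₃ hπ₃ D
  have hblock : ∀ l, 3 * (((S l).card * (T l).card * (U l).card : ℕ) : ℝ) ^ ((2 : ℝ) / 3)
      ≤ (if (U l).Nonempty then ∑ p ∈ S l ×ˢ T l, Real.exp (-D (π₁ (l, p.1, p.2))) else 0)
        + (if (S l).Nonempty then ∑ p ∈ T l ×ˢ U l, Real.exp (-D (π₂ (l, p.1, p.2))) else 0)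
        + (if (T l).Nonempty then ∑ p ∈ U l ×ˢ S l, Real.exp (-D (π₃ (l, p.1, p.2))) else 0) := by
    intro l
    by_cases hall : (S l).Nonempty ∧ (T l).Nonempty ∧ (U l).Nonempty
    · obtain ⟨hS, hT, hU⟩ := hall
      rw [if_pos hS, if_pos hT, if_pos hU]
      refine block_bound (S l) (T l) (U l) (fun s t => D (π₁ (l, s, t)))
        (fun t u => D (π₂ (l, t, u))) (fun u s => D (π₃ (l, u, s))) hS hT hU ?_
      intro s hs t ht u hu
      refine htriangle _ (mem_side.2 ⟨hs, ht, hU⟩) _ (mem_side.2 ⟨ht, hu, hS⟩) _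
        (mem_side.2 ⟨hu, hs, hT⟩) ?_
      simp only [g]
      group
    · have h0 : (S l).card * (T l).card * (U l).card = 0 := by
        by_contra hc
        apply hall
        have h1 : (S l).card ≠ 0 := fun h => hc (by simp [h])
        have h2 : (T l).card ≠ 0 := fun h => hc (by simp [h])
        have h3 : (U l).card ≠ 0 := fun h => hc (by simp [h])
        exact ⟨Finset.card_ne_zero.1 h1, Finset.card_ne_zero.1 h2, Finset.card_ne_zero.1 h3⟩
      rw [h0, Nat.cast_zero, Real.zero_rpow (by norm_num), mul_zero]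
      have hnn : ∀ (c : Prop) [Decidable c] (s : Finset (G × G)) (F : G × G → ℝ),
          0 ≤ (if c then ∑ p ∈ s, Real.exp (F p) else 0) := by
        intro c _ s F
        split_ifs
        · exact Finset.sum_nonneg fun p _ => (Real.exp_pos _).le
        · exact le_rfl
      exact add_nonneg (add_nonneg (hnn _ _ _) (hnn _ _ _)) (hnn _ _ _)
  have hsum := Finset.sum_le_sum fun l (_ : l ∈ Finset.univ) => hblock l
  rw [← Finset.mul_sum, Finset.sum_add_distrib, Finset.sum_add_distrib] at hsum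
  linarith

end Pool.Agent.P.MP_e72dc0_lc.Sn
end

-- part Pool.Agent.P.MP_e72dc0_lc.Sn.Classes
section

/-! Module F: counting conjugacy classes and character degrees. -/

namespace Pool.Agent.P.MP_e72dc0_lc.Sn

open Finset
open scoped Classical

/-- Exponent bounding the `k`-th factor of the generating function. -/
noncomputable def pfA (s k : ℕ) : ℝ :=
  if k ≤ s then 2 * Real.sqrt s / Real.sqrt k else 2 * (s : ℝ) ^ 2 / (k : ℝ) ^ 2

noncomputable def pfG (s k : ℕ) : ℝ :=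
  if k ≤ s then 4 * Real.sqrt s * Real.sqrt k else 6 * s - 2 * (s : ℝ) ^ 2 / k

lemma pfG_large {s k : ℕ} (hs : 0 < s) (h : s ≤ k) : pfG s k = 6 * s - 2 * (s : ℝ) ^ 2 / k := by
  unfold pfG
  split_ifs with h1
  · have : k = s := le_antisymm h1 h
    subst this
    have hk : (0 : ℝ) < k := by exact_mod_cast hs
    rw [mul_assoc, Real.mul_self_sqrt hk.le]
    field_simp
    ring
  · rfl

lemma pfA_step {s : ℕ} (hs : 0 < s) (k : ℕ) : pfG s k + pfA s (k + 1) ≤ pfG s (k + 1) := by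
  by_cases h : k + 1 ≤ s
  · have h' : k ≤ s := by omega
    simp only [pfG, pfA, h, h', if_true]
    push_cast
    have hk : (0 : ℝ) ≤ k := Nat.cast_nonneg k
    have ha : 0 < Real.sqrt ((k : ℝ) + 1) := Real.sqrt_pos.2 (by linarith)
    have hb : 0 ≤ Real.sqrt (k : ℝ) := Real.sqrt_nonneg _
    have ha2 : Real.sqrt ((k : ℝ) + 1) ^ 2 = k + 1 := Real.sq_sqrt (by linarith)
    have hb2 : Real.sqrt (k : ℝ) ^ 2 = k := Real.sq_sqrt hk
    have hs0 : 0 ≤ Real.sqrt (s : ℝ) := Real.sqrt_nonneg _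
    have key : 1 / Real.sqrt ((k : ℝ) + 1)
        ≤ 2 * (Real.sqrt ((k : ℝ) + 1) - Real.sqrt (k : ℝ)) := by
      rw [div_le_iff₀ ha]
      nlinarith [sq_nonneg (Real.sqrt ((k : ℝ) + 1) - Real.sqrt (k : ℝ))]
    have := mul_le_mul_of_nonneg_left key (by positivity : 0 ≤ 2 * Real.sqrt (s : ℝ))
    rw [mul_one_div] at this
    linarith
  · have h' : s ≤ k := by omega
    rw [pfG_large hs h', pfG_large hs (by omega : s ≤ k + 1)]
    simp only [pfA, h, if_false]
    push_cast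
    have hk : (0 : ℝ) < k := by exact_mod_cast (lt_of_lt_of_le hs h')
    have key : 1 / ((k : ℝ) + 1) ^ 2 ≤ 1 / k - 1 / (k + 1) := by
      rw [div_sub_div _ _ hk.ne' (by positivity), div_le_div_iff₀ (by positivity) (by positivity)]
      nlinarith
    have := mul_le_mul_of_nonneg_left key (by positivity : 0 ≤ 2 * (s : ℝ) ^ 2)
    rw [mul_sub, mul_one_div, mul_one_div, mul_one_div] at this
    linarith

lemma sum_pfA_le {s : ℕ} (hs : 0 < s) (N : ℕ) : ∑ k ∈ range N, pfA s (k + 1) ≤ 6 * s := by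
  have h1 : ∀ N, ∑ k ∈ range N, pfA s (k + 1) ≤ pfG s N := by
    intro N
    induction N with
    | zero => simp [pfG]
    | succ N ih =>
      rw [sum_range_succ]
      linarith [pfA_step hs N]
  refine (h1 N).trans ?_
  unfold pfG
  split_ifs with h
  · have h2 : Real.sqrt (N : ℝ) ≤ Real.sqrt s := Real.sqrt_le_sqrt (by exact_mod_cast h)
    have h3 : Real.sqrt (s : ℝ) * Real.sqrt s = s := Real.mul_self_sqrt (Nat.cast_nonneg s)
    have h4 : 0 ≤ Real.sqrt (s : ℝ) := Real.sqrt_nonneg _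
    have h5 : (0 : ℝ) ≤ s := Nat.cast_nonneg s
    nlinarith
  · have : 0 ≤ 2 * (s : ℝ) ^ 2 / N := by positivity
    linarith

lemma geom_factor_le {s : ℕ} (hs : 0 < s) (k n : ℕ) :
    ∑ j ∈ range n, Real.exp (-(((k + 1 : ℕ) : ℝ) / s)) ^ j ≤ Real.exp (pfA s (k + 1)) := by
  set y : ℝ := ((k + 1 : ℕ) : ℝ) / s with hy
  have hs' : (0 : ℝ) < s := by exact_mod_cast hs
  have hk' : (0 : ℝ) < ((k + 1 : ℕ) : ℝ) := by positivity
  have hy0 : 0 < y := div_pos hk' hs'
  have hx0 : 0 ≤ Real.exp (-y) := (Real.exp_pos _).le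
  have hx1 : Real.exp (-y) < 1 := by
    rw [← Real.exp_zero]; exact Real.exp_lt_exp.2 (by linarith)
  have h1 : ∑ j ∈ range n, Real.exp (-y) ^ j ≤ (1 - Real.exp (-y))⁻¹ := by
    rw [← tsum_geometric_of_lt_one hx0 hx1]
    exact (summable_geometric_of_lt_one hx0 hx1).sum_le_tsum _ (fun j _ => pow_nonneg hx0 j)
  have hE : 1 + y + y ^ 2 / 2 ≤ Real.exp y := Real.quadratic_le_exp_of_nonneg hy0.le
  have hE1 : 0 < Real.exp y - 1 := by nlinarith
  have h2 : (1 - Real.exp (-y))⁻¹ = 1 + (Real.exp y - 1)⁻¹ := by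
    rw [Real.exp_neg]
    have := (Real.exp_pos y).ne'
    field_simp
    ring
  refine h1.trans ?_
  rw [h2]
  unfold pfA
  split_ifs with h
  · have h3 : (Real.exp y - 1)⁻¹ ≤ y⁻¹ := inv_anti₀ hy0 (by nlinarith)
    set u : ℝ := Real.sqrt s / Real.sqrt ((k + 1 : ℕ) : ℝ) with hu
    have hu0 : 0 ≤ u := by positivity
    have hu2 : u ^ 2 = y⁻¹ := by
      rw [hu, div_pow, Real.sq_sqrt hs'.le, Real.sq_sqrt hk'.le, hy, inv_div]
    have h4 : 1 + u ≤ Real.exp u := by linarith [Real.add_one_le_exp u]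
    have h5 : Real.exp (2 * Real.sqrt s / Real.sqrt ((k + 1 : ℕ) : ℝ)) = Real.exp u ^ 2 := by
      rw [← Real.exp_nat_mul, hu]; congr 1; push_cast; ring
    rw [h5]
    nlinarith
  · have h3 : (Real.exp y - 1)⁻¹ ≤ (y ^ 2 / 2)⁻¹ := inv_anti₀ (by positivity) (by nlinarith)
    have h4 : (y ^ 2 / 2)⁻¹ = 2 * (s : ℝ) ^ 2 / ((k + 1 : ℕ) : ℝ) ^ 2 := by
      rw [hy]; field_simp
    rw [← h4]
    linarith [Real.add_one_le_exp (y ^ 2 / 2)⁻¹]

lemma parts_sum_count {n : ℕ} (p : Nat.Partition n) :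
    ∑ k : Fin n, ((k : ℕ) + 1) * p.parts.count ((k : ℕ) + 1) = n := by
  rw [Fin.sum_univ_eq_sum_range (fun k => (k + 1) * p.parts.count (k + 1)) n]
  have h := Finset.sum_multiset_count_of_subset p.parts (range (n + 1)) (by
    intro a ha
    rw [Multiset.mem_toFinset] at ha
    rw [mem_range]
    exact Nat.lt_succ_of_le (Nat.Partition.le_of_mem_parts ha))
  rw [p.parts_sum, sum_range_succ'] at h
  simp only [smul_eq_mul, mul_zero, add_zero] at h
  refine Eq.trans ?_ h.symm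
  exact sum_congr rfl fun k _ => mul_comm _ _

lemma card_partition_le (n : ℕ) :
    (Fintype.card (Nat.Partition n) : ℝ) ≤ Real.exp (10 * Real.sqrt n) := by
  rcases Nat.eq_zero_or_pos n with rfl | hn
  · simp
  set s := Nat.sqrt n with hsdef
  have hs : 0 < s := Nat.sqrt_pos.2 hn
  have hs' : (0 : ℝ) < s := by exact_mod_cast hs
  let f : Fin n → ℕ → ℝ := fun k j => Real.exp (-((((k : ℕ) + 1 : ℕ) : ℝ) / s)) ^ j
  let c : Nat.Partition n → (Fin n → ℕ) := fun p k => p.parts.count ((k : ℕ) + 1)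
  have hc : Function.Injective c := by
    intro p q h
    ext1
    ext a
    by_cases h0 : a = 0
    · subst h0
      rw [Multiset.count_eq_zero.2 (fun h => lt_irrefl _ (p.parts_pos h)),
        Multiset.count_eq_zero.2 (fun h => lt_irrefl _ (q.parts_pos h))]
    by_cases h1 : a ≤ n
    · have := congrFun h ⟨a - 1, by omega⟩
      simp only [c] at this
      rwa [show a - 1 + 1 = a by omega] at this
    · rw [Multiset.count_eq_zero.2 (fun h => h1 (Nat.Partition.le_of_mem_parts h)),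
        Multiset.count_eq_zero.2 (fun h => h1 (Nat.Partition.le_of_mem_parts h))]
  have hprod : ∀ p, ∏ k, f k (c p k) = Real.exp (-((n : ℝ) / s)) := by
    intro p
    simp only [f, c, ← Real.exp_nat_mul, ← Real.exp_sum]
    congr 1
    have h := congrArg (fun x : ℕ => (x : ℝ)) (parts_sum_count p)
    simp only [Nat.cast_sum, Nat.cast_mul] at h
    rw [← h, sum_div, ← sum_neg_distrib]
    exact sum_congr rfl fun k _ => by ring
  have hmem : ∀ p, c p ∈ Fintype.piFinset fun _ : Fin n => range (n + 1) := by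
    intro p
    rw [Fintype.mem_piFinset]
    intro k
    rw [mem_range, Nat.lt_succ_iff]
    have h := parts_sum_count p
    have h2 := single_le_sum (f := fun k : Fin n => ((k : ℕ) + 1) * p.parts.count ((k : ℕ) + 1))
      (fun _ _ => Nat.zero_le _) (mem_univ k)
    simp only [h] at h2
    simp only [c]
    nlinarith
  have h1 : (Fintype.card (Nat.Partition n) : ℝ) * Real.exp (-((n : ℝ) / s))
      ≤ ∏ k : Fin n, ∑ j ∈ range (n + 1), f k j := by
    rw [prod_univ_sum]
    calc (Fintype.card (Nat.Partition n) : ℝ) * Real.exp (-((n : ℝ) / s))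
        = ∑ p : Nat.Partition n, ∏ k, f k (c p k) := by
          simp [hprod]
      _ = ∑ x ∈ univ.image c, ∏ k, f k (x k) := by
          rw [sum_image (fun a _ b _ h => hc h)]
      _ ≤ _ := by
          refine sum_le_sum_of_subset_of_nonneg ?_ ?_
          · intro x hx
            obtain ⟨p, -, rfl⟩ := mem_image.1 hx
            exact hmem p
          · intro x _ _
            exact prod_nonneg fun k _ => by positivity
  have h2 : ∏ k : Fin n, ∑ j ∈ range (n + 1), f k j ≤ Real.exp (6 * s) := by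
    calc ∏ k : Fin n, ∑ j ∈ range (n + 1), f k j
        ≤ ∏ k : Fin n, Real.exp (pfA s ((k : ℕ) + 1)) :=
          prod_le_prod (fun k _ => sum_nonneg fun j _ => by positivity)
            (fun k _ => geom_factor_le hs k (n + 1))
      _ = Real.exp (∑ k ∈ range n, pfA s (k + 1)) := by
          rw [← Real.exp_sum, Fin.sum_univ_eq_sum_range (fun k => pfA s (k + 1)) n]
      _ ≤ _ := Real.exp_le_exp.2 (sum_pfA_le hs n)
  have h3 : (Fintype.card (Nat.Partition n) : ℝ) ≤ Real.exp (6 * s + (n : ℝ) / s) := by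
    have := mul_le_mul_of_nonneg_right (h1.trans h2) (Real.exp_pos ((n : ℝ) / s)).le
    rwa [mul_assoc, ← Real.exp_add, neg_add_cancel, Real.exp_zero, mul_one, ← Real.exp_add] at this
  refine h3.trans (Real.exp_le_exp.2 ?_)
  have h4 : (s : ℝ) ≤ Real.sqrt n := Real.nat_sqrt_le_real_sqrt
  have h5 : Real.sqrt n ≤ s + 1 := Real.real_sqrt_le_nat_sqrt_succ
  have h6 : (1 : ℝ) ≤ s := by exact_mod_cast hs
  have h7 : Real.sqrt n * Real.sqrt n = n := Real.mul_self_sqrt (Nat.cast_nonneg n)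
  have h8 : (n : ℝ) / s ≤ 2 * Real.sqrt n := by
    rw [div_le_iff₀ hs']
    nlinarith [Real.sqrt_nonneg (n : ℝ)]
  nlinarith [Real.sqrt_nonneg (n : ℝ)]

theorem card_conjClasses_perm (n : ℕ) :
    (Nat.card (ConjClasses (Equiv.Perm (Fin n))) : ℝ) ≤ Real.exp (10 * Real.sqrt n) := by
  let f : ConjClasses (Equiv.Perm (Fin n)) → Nat.Partition (Fintype.card (Fin n)) :=
    Quotient.lift (fun σ => Equiv.Perm.partition σ)
      (fun a b h => Equiv.Perm.partition_eq_of_isConj.1 h)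
  have hf : Function.Injective f := by
    intro a b
    induction a using Quotient.inductionOn with | _ a => ?_
    induction b using Quotient.inductionOn with | _ b => ?_
    intro h
    exact Quotient.sound (Equiv.Perm.partition_eq_of_isConj.2 h)
  have h := Nat.card_le_card_of_injective f hf
  rw [Nat.card_eq_fintype_card (α := Nat.Partition _)] at h
  have h2 := card_partition_le (Fintype.card (Fin n))
  have h3 : (Nat.card (ConjClasses (Equiv.Perm (Fin n))) : ℝ)
      ≤ Fintype.card (Nat.Partition (Fintype.card (Fin n))) := by exact_mod_cast h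
  refine h3.trans (h2.trans ?_)
  rw [Fintype.card_fin]

theorem card_conjClasses_pi {m : ℕ} (G : Fin m → Type) [∀ i, Group (G i)] [∀ i, Finite (G i)] :
    Nat.card (ConjClasses (∀ i, G i)) ≤ ∏ i, Nat.card (ConjClasses (G i)) := by
  rw [← Nat.card_pi]
  let f : ConjClasses (∀ i, G i) → ∀ i, ConjClasses (G i) :=
    fun x i => ConjClasses.map (Pi.evalMonoidHom G i) x
  have : ∀ i, Finite (ConjClasses (G i)) := fun i => Quotient.finite _
  refine Nat.card_le_card_of_injective f ?_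
  intro a b
  obtain ⟨a, rfl⟩ := ConjClasses.mk_surjective a
  obtain ⟨b, rfl⟩ := ConjClasses.mk_surjective b
  intro h
  have h1 : ∀ i, ∃ c : G i, c * a i * c⁻¹ = b i := by
    intro i
    have h2 : ConjClasses.mk (a i) = ConjClasses.mk (b i) := congrFun h i
    exact isConj_iff.1 (ConjClasses.mk_eq_mk_iff_isConj.1 h2)
  choose c hc using h1
  exact ConjClasses.mk_eq_mk_iff_isConj.2 (isConj_iff.2 ⟨c, funext hc⟩)

theorem card_conjClasses_subgroup {G : Type} [Group G] [Finite G] (H : Subgroup G) :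
    Nat.card (ConjClasses H) ≤ H.index * Nat.card (ConjClasses G) := by
  have h1 := card_comm_eq_card_conjClasses_mul_card G
  have h2 := card_comm_eq_card_conjClasses_mul_card H
  let f : { p : H × H // Commute p.1 p.2 } → { p : G × G // Commute p.1 p.2 } :=
    fun p => ⟨(p.1.1, p.1.2), p.2.map H.subtype⟩
  have hf : Function.Injective f := by
    intro p q h
    have h' := congrArg Subtype.val h
    exact Subtype.ext (Prod.ext (Subtype.ext (congrArg Prod.fst h'))
      (Subtype.ext (congrArg Prod.snd h')))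
  have h3 := Nat.card_le_card_of_injective f hf
  rw [h1, h2, ← H.card_mul_index] at h3
  have h4 : 0 < Nat.card H := Nat.card_pos
  refine Nat.le_of_mul_le_mul_right ?_ h4
  calc _ ≤ _ := h3
    _ = _ := by ring

lemma sum_sq_degrees {H : Type} [Group H] [Finite H] {κ : Type} [Fintype κ] (d : κ → ℕ)
    (e : MonoidAlgebra ℂ H ≃ₐ[ℂ] ∀ k, Matrix (Fin (d k)) (Fin (d k)) ℂ) :
    Nat.card H = ∑ k, d k ^ 2 := by
  have := Fintype.ofFinite H
  have h := e.toLinearEquiv.finrank_eq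
  rw [Module.finrank_eq_card_basis (MonoidAlgebra.basis H ℂ), Module.finrank_pi_fintype] at h
  rw [Nat.card_eq_fintype_card, h]
  refine sum_congr rfl fun k _ => ?_
  simp [Module.finrank_matrix, sq]

lemma card_degrees_le {H : Type} [Group H] [Finite H] {κ : Type} [Fintype κ] (d : κ → ℕ)
    (e : MonoidAlgebra ℂ H ≃ₐ[ℂ] ∀ k, Matrix (Fin (d k)) (Fin (d k)) ℂ) :
    (univ.filter fun k => 0 < d k).card ≤ Nat.card (ConjClasses H) := by
  have := Fintype.ofFinite H
  have : Fintype (ConjClasses H) := @Fintype.ofFinite _ (Quotient.finite _)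
  let one : κ → ∀ k, Matrix (Fin (d k)) (Fin (d k)) ℂ := fun k => Pi.single k 1
  have hcen : ∀ k (x : MonoidAlgebra ℂ H), x * e.symm (one k) = e.symm (one k) * x := by
    intro k x
    apply e.injective
    simp only [map_mul, AlgEquiv.apply_symm_apply]
    funext j
    by_cases hj : j = k
    · subst hj; simp [one]
    · simp [one, Pi.single_eq_of_ne hj]
  have hcl : ∀ k (a b : H), IsConj a b →
      (e.symm (one k)).coeff a = (e.symm (one k)).coeff b := by
    intro k a b hab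
    obtain ⟨c, rfl⟩ := isConj_iff.1 hab
    have h := congrArg (fun x : MonoidAlgebra ℂ H => x.coeff (c * a))
      (hcen k (MonoidAlgebra.single c 1))
    simpa using h
  let φ : {k // 0 < d k} → ConjClasses H → ℂ := fun k =>
    Quotient.lift (fun a => (e.symm (one k)).coeff a) (hcl k)
  have hφ : LinearIndependent ℂ φ := by
    rw [Fintype.linearIndependent_iff]
    intro g hg k
    have h1 : ∑ j : {k // 0 < d k}, g j • e.symm (one j) = 0 := by
      ext a
      have := congrFun hg (ConjClasses.mk a)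
      rw [Finset.sum_apply] at this
      have h2 := map_sum (MonoidAlgebra.coeffLinearEquiv ℂ (S := ℂ) (M := H))
        (fun j : {k // 0 < d k} => g j • e.symm (one j)) univ
      simp only [map_smul, MonoidAlgebra.coeffLinearEquiv_apply] at h2
      rw [h2, Finsupp.finsetSum_apply]
      exact this
    have h2 : ∑ j : {k // 0 < d k}, g j • one j = 0 := by
      have := congrArg e h1
      simpa [map_sum] using this
    have h3 := congrFun h2 k
    rw [Finset.sum_apply, sum_eq_single k] at h3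
    · have h4 := congrFun (congrFun h3 ⟨0, k.2⟩) ⟨0, k.2⟩
      simpa [one] using h4
    · intro j _ hj
      have : (k : κ) ≠ j := fun h => hj (Subtype.ext h.symm)
      simp [one, Pi.single_eq_of_ne this]
    · simp
  have h := hφ.fintype_card_le_finrank
  rw [Module.finrank_fintype_fun_eq_card, Fintype.card_subtype] at h
  rw [Nat.card_eq_fintype_card]
  convert h

/-- Power mean inequality for the degrees of a Wedderburn decomposition. -/
theorem degrees_lower {H : Type} [Group H] [Finite H] {κ : Type} [Fintype κ] (d : κ → ℕ)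
    (e : MonoidAlgebra ℂ H ≃ₐ[ℂ] ∀ k, Matrix (Fin (d k)) (Fin (d k)) ℂ) (w : ℝ) (hw : 2 ≤ w) :
    (Nat.card H : ℝ) ^ (w / 2)
      ≤ (Nat.card (ConjClasses H) : ℝ) ^ ((w - 2) / 2) * ∑ k, (d k : ℝ) ^ w := by
  set s := univ.filter fun k => 0 < d k with hs
  have h1 : (Nat.card H : ℝ) = ∑ k ∈ s, (d k : ℝ) ^ 2 := by
    rw [sum_sq_degrees d e]
    push_cast
    rw [hs, sum_filter]
    refine sum_congr rfl fun k _ => ?_
    split_ifs with h
    · rfl
    · have : d k = 0 := by omega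
      simp [this]
  have h2 := Real.rpow_sum_le_const_mul_sum_rpow_of_nonneg s (p := w / 2)
    (f := fun k => (d k : ℝ) ^ 2) (by linarith) (fun k _ => by positivity)
  rw [h1]
  refine h2.trans ?_
  have h3 : (s.card : ℝ) ≤ Nat.card (ConjClasses H) := by exact_mod_cast card_degrees_le d e
  refine mul_le_mul ?_ ?_ (sum_nonneg fun k _ => by positivity) (by positivity)
  · rw [show w / 2 - 1 = (w - 2) / 2 by ring]
    exact Real.rpow_le_rpow (Nat.cast_nonneg _) h3 (by linarith)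
  · calc ∑ k ∈ s, ((d k : ℝ) ^ 2) ^ (w / 2) = ∑ k ∈ s, (d k : ℝ) ^ w := by
          refine sum_congr rfl fun k _ => ?_
          rw [← Real.rpow_natCast, ← Real.rpow_mul (Nat.cast_nonneg _)]
          congr 1; push_cast; ring
      _ ≤ _ := sum_le_sum_of_subset_of_nonneg (subset_univ _) fun k _ _ => by positivity

end Pool.Agent.P.MP_e72dc0_lc.Sn
end

-- part Pool.Agent.P.MP_e72dc0_lc.Sn.Final
section

/-! Assembly. -/

namespace Pool.Agent.P.MP_e72dc0_lc.Sn

open Finset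
open scoped Classical

theorem filt_perm : ∃ c : ℝ, 0 < c ∧ ∃ n₀ : ℕ, ∀ n : ℕ, n₀ ≤ n →
    Filt (Equiv.Perm (Fin n)) (n.factorial * Real.exp (-(c * Real.sqrt n))) := by
  obtain ⟨c, hc, n₀, h⟩ := analytic
  refine ⟨c, hc, n₀, fun n hn => ?_⟩
  obtain ⟨θ, hθ, hsum⟩ := h n hn
  obtain ⟨b, hb, hz⟩ := basisB n
  refine ⟨pairs n, inferInstance, fun i x => (b i).coeff x, fun i => θ * D6 n i, ?_, ?_, ?_, ?_⟩
  · rw [Fintype.card_coe, card_pairs, Fintype.card_perm, Fintype.card_fin]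
  · let L : MonoidAlgebra (ZMod 2) (Equiv.Perm (Fin n)) ≃ₗ[ZMod 2]
        (Equiv.Perm (Fin n) → ZMod 2) :=
      (MonoidAlgebra.coeffLinearEquiv (ZMod 2)).trans
        (Finsupp.linearEquivFunOnFinite (ZMod 2) (ZMod 2) _)
    exact hb.map' L.toLinearMap L.ker
  · intro i j k hpos
    rw [← tri_monoidAlgebra]
    apply hz
    rw [← mul_add, ← mul_add] at hpos
    have := (mul_pos_iff_of_pos_left hθ).1 hpos
    exact_mod_cast this
  · rw [sum_coe_sort (pairs n) (fun p => Real.exp (-(θ * D6 n p)))]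
    exact hsum

lemma sum_rpow_le_rpow_sum {ι : Type} [Fintype ι] (x : ι → ℝ) (hx : ∀ i, 0 ≤ x i) {p : ℝ}
    (hp : 1 ≤ p) : ∑ i, x i ^ p ≤ (∑ i, x i) ^ p := by
  have hS : 0 ≤ ∑ i, x i := sum_nonneg fun i _ => hx i
  have h1 : ∀ y : ℝ, 0 ≤ y → y ^ p = y * y ^ (p - 1) := by
    intro y hy
    have := Real.rpow_one_add' hy (y := p - 1) (by linarith)
    rwa [add_sub_cancel] at this
  rw [h1 _ hS, sum_mul]
  refine sum_le_sum fun i _ => ?_
  rw [h1 _ (hx i)]
  refine mul_le_mul_of_nonneg_left ?_ (hx i)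
  exact Real.rpow_le_rpow (hx i) (single_le_sum (fun j _ => hx j) (mem_univ i)) (by linarith)

theorem barrier : ∃ c : ℝ, 0 < c ∧ ∃ ε : ℝ, 0 < ε ∧ ∃ n₀ : ℕ,
    ∀ (m : ℕ) (n : Fin m → ℕ), (∀ i, n₀ ≤ n i) →
    ∀ H : Subgroup (∀ i, Equiv.Perm (Fin (n i))),
      (H.index : ℝ) ≤ Real.exp (c * ∑ i, Real.sqrt (n i)) →
    ∀ (ι : Type) [Fintype ι] (S T U : ι → Finset H),
      (∀ i j k, ∀ s ∈ S i, ∀ s' ∈ S j, ∀ t ∈ T j, ∀ t' ∈ T k, ∀ u ∈ U k, ∀ u' ∈ U i,
        s⁻¹ * s' * t⁻¹ * t' * u⁻¹ * u' = 1 → i = j ∧ j = k ∧ s = s' ∧ t = t' ∧ u = u') →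
    ∀ (κ : Type) [Fintype κ] (d : κ → ℕ),
      Nonempty (MonoidAlgebra ℂ H ≃ₐ[ℂ] ∀ k, Matrix (Fin (d k)) (Fin (d k)) ℂ) →
    ∀ w : ℝ, 2 ≤ w → w ≤ 2 + ε →
      ∑ i, (((S i).card * (T i).card * (U i).card : ℕ) : ℝ) ^ (w / 3)
        ≤ Real.exp (-(c * ∑ i, Real.sqrt (n i))) * ∑ k, (d k : ℝ) ^ w := by
  obtain ⟨c₀, hc₀, n₀, hfilt⟩ := filt_perm
  refine ⟨c₀ / 3, by positivity, 2 * (c₀ / 3) / (c₀ / 3 + 10), by positivity, n₀, ?_⟩
  intro m n hn H hH ι _ S T U hstpp κ _ d ⟨e⟩ w hw hw'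
  set c := c₀ / 3 with hcdef
  have hc : 0 < c := by positivity
  set N := ∑ i, Real.sqrt (n i) with hN
  have hN0 : 0 ≤ N := sum_nonneg fun i _ => Real.sqrt_nonneg _
  have hF := Filt.pi (fun i => Equiv.Perm (Fin (n i))) _ (fun i => hfilt (n i) (hn i))
  let emb : H ↪ (∀ i, Equiv.Perm (Fin (n i))) := ⟨Subtype.val, Subtype.val_injective⟩
  have h1 := hF.stpp (fun i => (S i).map emb) (fun i => (T i).map emb) (fun i => (U i).map emb) (by
    intro i j k s hs s' hs' t ht t' ht' u hu u' hu' h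
    obtain ⟨s1, hs1, rfl⟩ := mem_map.1 hs
    obtain ⟨s2, hs2, rfl⟩ := mem_map.1 hs'
    obtain ⟨t1, ht1, rfl⟩ := mem_map.1 ht
    obtain ⟨t2, ht2, rfl⟩ := mem_map.1 ht'
    obtain ⟨u1, hu1, rfl⟩ := mem_map.1 hu
    obtain ⟨u2, hu2, rfl⟩ := mem_map.1 hu'
    obtain ⟨a1, a2, a3, a4, a5⟩ := hstpp i j k s1 hs1 s2 hs2 t1 ht1 t2 ht2 u1 hu1 u2 hu2
      (Subtype.ext h)
    exact ⟨a1, a2, by rw [a3], by rw [a4], by rw [a5]⟩)
  simp only [card_map] at h1
  have hG : (Nat.card (∀ i, Equiv.Perm (Fin (n i))) : ℝ) = ∏ i, ((n i).factorial : ℝ) := by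
    rw [Nat.card_pi]
    push_cast
    refine prod_congr rfl fun i _ => ?_
    rw [Nat.card_eq_fintype_card, Fintype.card_perm, Fintype.card_fin]
  have hHpos : (0 : ℝ) < Nat.card H := by exact_mod_cast Nat.card_pos
  have hZ : ∏ i, ((n i).factorial * Real.exp (-(c₀ * Real.sqrt (n i))) : ℝ)
      ≤ Nat.card H * Real.exp (-(2 * c * N)) := by
    rw [prod_mul_distrib, ← hG, ← Real.exp_sum, sum_neg_distrib, ← mul_sum, ← hN,
      ← H.card_mul_index]
    push_cast
    rw [mul_assoc]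
    refine mul_le_mul_of_nonneg_left ?_ hHpos.le
    calc (H.index : ℝ) * Real.exp (-(c₀ * N))
        ≤ Real.exp (c * N) * Real.exp (-(c₀ * N)) :=
          mul_le_mul_of_nonneg_right hH (Real.exp_pos _).le
      _ = _ := by
          rw [← Real.exp_add]; congr 1; rw [hcdef]; ring
  have hK : (Nat.card (ConjClasses H) : ℝ) ≤ Real.exp ((c + 10) * N) := by
    have k1 : (Nat.card (ConjClasses H) : ℝ)
        ≤ H.index * Nat.card (ConjClasses (∀ i, Equiv.Perm (Fin (n i)))) := by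
      exact_mod_cast card_conjClasses_subgroup H
    have k2 : (Nat.card (ConjClasses (∀ i, Equiv.Perm (Fin (n i)))) : ℝ)
        ≤ ∏ i, (Nat.card (ConjClasses (Equiv.Perm (Fin (n i)))) : ℝ) := by
      exact_mod_cast card_conjClasses_pi (fun i => Equiv.Perm (Fin (n i)))
    have k3 : ∏ i, (Nat.card (ConjClasses (Equiv.Perm (Fin (n i)))) : ℝ) ≤ Real.exp (10 * N) := by
      rw [hN, mul_sum, Real.exp_sum]
      exact prod_le_prod (fun i _ => Nat.cast_nonneg _) fun i _ => card_conjClasses_perm (n i)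
    calc _ ≤ _ := k1
      _ ≤ Real.exp (c * N) * Real.exp (10 * N) :=
          mul_le_mul hH (k2.trans k3) (Nat.cast_nonneg _) (Real.exp_pos _).le
      _ = _ := by rw [← Real.exp_add]; congr 1; ring
  have hK' : (Nat.card (ConjClasses H) : ℝ) ^ ((w - 2) / 2) ≤ Real.exp (c * N) := by
    refine (Real.rpow_le_rpow (Nat.cast_nonneg _) hK (by linarith)).trans ?_
    rw [← Real.exp_mul, Real.exp_le_exp]
    have h2 : (w - 2) / 2 * (c + 10) ≤ c := by
      have h3 : w - 2 ≤ 2 * c / (c + 10) := by linarith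
      rw [le_div_iff₀ (by positivity)] at h3
      linarith
    nlinarith
  have hD : 0 ≤ ∑ k, (d k : ℝ) ^ w := sum_nonneg fun k _ => by positivity
  calc ∑ i, (((S i).card * (T i).card * (U i).card : ℕ) : ℝ) ^ (w / 3)
      = ∑ i, ((((S i).card * (T i).card * (U i).card : ℕ) : ℝ) ^ ((2 : ℝ) / 3)) ^ (w / 2) := by
        refine sum_congr rfl fun i _ => ?_
        rw [← Real.rpow_mul (Nat.cast_nonneg _)]
        congr 1; ring
    _ ≤ (∑ i, (((S i).card * (T i).card * (U i).card : ℕ) : ℝ) ^ ((2 : ℝ) / 3)) ^ (w / 2) :=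
        sum_rpow_le_rpow_sum _ (fun i => by positivity) (by linarith)
    _ ≤ (Nat.card H * Real.exp (-(2 * c * N))) ^ (w / 2) :=
        Real.rpow_le_rpow (sum_nonneg fun i _ => by positivity) (h1.trans hZ) (by linarith)
    _ = (Nat.card H : ℝ) ^ (w / 2) * Real.exp (-(2 * c * N) * (w / 2)) := by
        rw [Real.mul_rpow hHpos.le (Real.exp_pos _).le, ← Real.exp_mul]
    _ ≤ (Real.exp (c * N) * ∑ k, (d k : ℝ) ^ w) * Real.exp (-(2 * c * N)) := by
        refine mul_le_mul ((degrees_lower d e w hw).trans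
          (mul_le_mul_of_nonneg_right hK' hD)) ?_ (Real.exp_pos _).le (by positivity)
        rw [Real.exp_le_exp]
        have : 0 ≤ c * N := by positivity
        nlinarith
    _ = _ := by
        rw [mul_right_comm, ← Real.exp_add]
        congr 2; ring

end Pool.Agent.P.MP_e72dc0_lc.Sn
end
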