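import Pool.Agent.P.MP_db4732_co.Ent
import Mathlib

-- part Pool.Agent.P.MP_e72dc0_lc.TF.Defs
section

/-! Limit entropy for sequences of finite probability spaces carrying signed labels. -/

namespace Pool.Agent.P.MP_e72dc0_lc.TF

open Pool.Agent.P.MP_db4732_co.Ent Filter Topology

/-- A sequence of families of signed labels that is asymptotically lossless. -/
structure Fam where
  G : ℕ → Type
  grp : ∀ k, AddCommGroup (G k)
  fin : ∀ k, Fintype (G k)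
  Lab : ℕ → Type
  finL : ∀ k, Fintype (Lab k)
  fl : ∀ k, Lab k → Lab k
  sg : ∀ k, Lab k → Bool
  P : ∀ k, Lab k → Finset (G k)
  L : ℕ → ℝ
  η : ℕ → ℝ
  L_pos : ∀ k, 0 < L k
  L_top : Tendsto L atTop atTop
  η_zero : Tendsto η atTop (𝓝 0)
  η_nonneg : ∀ k, 0 ≤ η k
  fl_fl : ∀ k s, fl k (fl k s) = s
  direct : ∀ k s, ∀ p ∈ P k s, ∀ p' ∈ P k s, ∀ q ∈ P k (fl k s), ∀ q' ∈ P k (fl k s),
    p + q = p' + q' → p = p'
  det : ∀ k s r r', sg k r = sg k r' →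
    ∀ p ∈ P k s, ∀ q ∈ P k (fl k s), ∀ p' ∈ P k s, ∀ q' ∈ P k (fl k s),
    ∀ x ∈ P k r, ∀ y ∈ P k (fl k r), ∀ x' ∈ P k r', ∀ y' ∈ P k (fl k r'),
    p + q = x + y → p' + q' = x' + y' → p - x = p' - x' → r = r'
  cardG : ∀ k, Real.log (Fintype.card (G k)) ≤ (2 + η k) * L k
  cardLab : ∀ k, Real.log (Fintype.card (Lab k)) ≤ (1 + η k) * L k
  cardP : ∀ k s, Real.log (P k s).card ≤ (1 + η k) * L k
  ne : ∀ k, 0 < ∑ s, (P k s).card * (P k (fl k s)).card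
  many : ∀ k, (3 - η k) * L k ≤ Real.log ((∑ s, (P k s).card * (P k (fl k s)).card : ℕ) : ℝ)

instance instGrp (F : Fam) (k : ℕ) : AddCommGroup (F.G k) := F.grp k
instance instFinG (F : Fam) (k : ℕ) : Fintype (F.G k) := F.fin k
instance instFinL (F : Fam) (k : ℕ) : Fintype (F.Lab k) := F.finL k

/-- A sequence of finite probability spaces of bounded normalised entropy. -/
structure Sys (F : Fam) where
  Ω : ℕ → Type
  fin : ∀ k, Fintype (Ω k)
  p : ∀ k, Ω k → ℝ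
  hp : ∀ k, IsP (p k)
  bd : ∃ C : ℝ, ∀ k, ent (p k) id ≤ C * F.L k

instance instFinS {F : Fam} (S : Sys F) (k : ℕ) : Fintype (S.Ω k) := S.fin k

variable {F : Fam} {S S' S'' : Sys F}

/-- Random variables are partitions; the joint variable is the infimum; `X ≤ Y` means that `X`
determines `Y`. -/
abbrev RV (S : Sys F) := ∀ k, Setoid (S.Ω k)

/-- group valued variables -/
abbrev Pt (S : Sys F) := ∀ k, S.Ω k → F.G k

/-- label valued variables -/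
abbrev Lb (S : Sys F) := ∀ k, S.Ω k → F.Lab k

/-- normalised limit entropy -/
noncomputable def H (X : RV S) : ℝ :=
  limUnder (hyperfilter ℕ : Filter ℕ)
    fun k => ent (S.p k) (fun ω => Quotient.mk (X k) ω) / F.L k

/-- the partition of a function -/
def rv {α : ℕ → Type} (f : ∀ k, S.Ω k → α k) : RV S := fun k => Setoid.ker (f k)

/-- flipped label -/
def fl (s : Lb S) : Lb S := fun k ω => F.fl k (s k ω)

open Classical in
/-- first component of the decomposition of `d` along the label `s` -/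
noncomputable def Fam.pp (F : Fam) (k : ℕ) (s : F.Lab k) (d : F.G k) : F.G k :=
  if h : ∃ x ∈ F.P k s, d - x ∈ F.P k (F.fl k s) then h.choose else 0

/-- first component -/
noncomputable def pP (s : Lb S) (d : Pt S) : Pt S := fun k ω => F.pp k (s k ω) (d k ω)

/-- second component -/
noncomputable def qP (s : Lb S) (d : Pt S) : Pt S := pP (fl s) d

/-- `d` decomposes along `s` -/
def In (s : Lb S) (d : Pt S) : Prop :=
  ∀ k ω, ∃ x ∈ F.P k (s k ω), d k ω - x ∈ F.P k (F.fl k (s k ω))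

/-- `x` lies in the first set of `s` -/
def Mem (x : Pt S) (s : Lb S) : Prop := ∀ k ω, x k ω ∈ F.P k (s k ω)

/-- entropy preserving maps of systems -/
structure Ext (S' S : Sys F) where
  f : ∀ k, S'.Ω k → S.Ω k
  H_eq : ∀ X : RV S, H (S := S') (fun k => (X k).comap (f k)) = H X

/-- pull back of a partition -/
def Ext.rv (π : Ext S' S) (X : RV S) : RV S' := fun k => (X k).comap (π.f k)

/-- pull back of a function -/
def Ext.fn (π : Ext S' S) {α : ℕ → Type} (g : ∀ k, S.Ω k → α k) : ∀ k, S'.Ω k → α k :=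
  fun k ω => g k (π.f k ω)

/-- identity -/
def Ext.refl (S : Sys F) : Ext S S := ⟨fun _ ω => ω, fun _ => rfl⟩

/-- composition -/
def Ext.comp (ρ : Ext S'' S') (π : Ext S' S) : Ext S'' S :=
  ⟨fun k ω => π.f k (ρ.f k ω), fun X => (ρ.H_eq (π.rv X)).trans (π.H_eq X)⟩

@[simp] theorem Ext.H_rv (π : Ext S' S) (X : RV S) : H (π.rv X) = H X := π.H_eq X
@[simp] theorem Ext.rv_inf (π : Ext S' S) (X Y : RV S) : π.rv (X ⊓ Y) = π.rv X ⊓ π.rv Y := rfl
@[simp] theorem Ext.rv_top (π : Ext S' S) : π.rv ⊤ = ⊤ := rfl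
@[simp] theorem Ext.rv_rv (π : Ext S' S) {α : ℕ → Type} (g : ∀ k, S.Ω k → α k) :
    π.rv (TF.rv g) = TF.rv (π.fn g) := rfl
@[simp] theorem Ext.fn_fl (π : Ext S' S) (s : Lb S) : π.fn (fl s) = fl (π.fn s) := rfl
@[simp] theorem Ext.fn_pP (π : Ext S' S) (s : Lb S) (d : Pt S) :
    π.fn (pP s d) = pP (π.fn s) (π.fn d) := rfl
@[simp] theorem Ext.fn_qP (π : Ext S' S) (s : Lb S) (d : Pt S) :
    π.fn (qP s d) = qP (π.fn s) (π.fn d) := rfl
@[simp] theorem Ext.fn_add (π : Ext S' S) (x y : Pt S) : π.fn (x + y) = π.fn x + π.fn y := rfl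
@[simp] theorem Ext.fn_sub (π : Ext S' S) (x y : Pt S) : π.fn (x - y) = π.fn x - π.fn y := rfl
@[simp] theorem Ext.comp_rv (ρ : Ext S'' S') (π : Ext S' S) (X : RV S) :
    (ρ.comp π).rv X = ρ.rv (π.rv X) := rfl
@[simp] theorem Ext.comp_fn (ρ : Ext S'' S') (π : Ext S' S) {α : ℕ → Type}
    (g : ∀ k, S.Ω k → α k) : (ρ.comp π).fn g = ρ.fn (π.fn g) := rfl
@[simp] theorem Ext.refl_rv (X : RV S) : (Ext.refl S).rv X = X := rfl
@[simp] theorem Ext.refl_fn {α : ℕ → Type} (g : ∀ k, S.Ω k → α k) : (Ext.refl S).fn g = g := rfl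
theorem Ext.mono (π : Ext S' S) {X Y : RV S} (h : X ≤ Y) : π.rv X ≤ π.rv Y :=
  fun k _ _ hxy => h k hxy
theorem In.pull {s : Lb S} {d : Pt S} (h : In s d) (π : Ext S' S) : In (π.fn s) (π.fn d) :=
  fun k ω => h k (π.f k ω)
theorem Mem.pull {s : Lb S} {x : Pt S} (h : Mem x s) (π : Ext S' S) : Mem (π.fn x) (π.fn s) :=
  fun k ω => h k (π.f k ω)

/-- joint variable of the second components along a list of labels -/
noncomputable def cq (d : Pt S) (l : List (Lb S)) : RV S :=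
  l.foldr (fun s c => rv (qP s d) ⊓ c) ⊤

/-- joint variable of a list of labels -/
def lab (l : List (Lb S)) : RV S := l.foldr (fun s c => rv s ⊓ c) ⊤

@[simp] theorem cq_nil (d : Pt S) : cq d [] = ⊤ := rfl
@[simp] theorem cq_cons (d : Pt S) (s : Lb S) (l : List (Lb S)) :
    cq d (s :: l) = rv (qP s d) ⊓ cq d l := rfl
@[simp] theorem lab_nil : lab ([] : List (Lb S)) = ⊤ := rfl
@[simp] theorem lab_cons (s : Lb S) (l : List (Lb S)) : lab (s :: l) = rv s ⊓ lab l := rfl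

/-- the two components along `u` are independent given `Θ` -/
def Addi (Λ : RV S) (d : Pt S) (Θ : RV S) (u : Lb S) : Prop :=
  H (Θ ⊓ rv (pP u d)) + H (Θ ⊓ rv (qP u d)) ≤ H (Λ ⊓ rv d) + H Θ

/-- free system in the context `Λ` -/
structure Free (Λ : RV S) (d : Pt S) (l : List (Lb S)) : Prop where
  inc : ∀ s ∈ l, In s d
  le : ∀ s ∈ l, Λ ≤ rv s
  pt : H Λ + 2 ≤ H (Λ ⊓ rv d)
  one : ∀ s ∈ l, 1 ≤ H (rv s)
  two : l.Pairwise fun s u => 2 ≤ H (rv s ⊓ rv u)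

/-- `W` and `d` are independent given `U, c, t` and the second component along `t` -/
def Meas (U c W : RV S) (d : Pt S) (t : Lb S) : Prop :=
  H (U ⊓ c ⊓ rv t ⊓ rv (qP t d) ⊓ W) + H (U ⊓ rv t ⊓ rv d) ≤
    H (U ⊓ rv t ⊓ rv d ⊓ W) + H (U ⊓ c ⊓ rv t ⊓ rv (qP t d))

/-- three free labels -/
structure Fr3 (t a b : Lb S) (d : Pt S) : Prop where
  lab : 3 ≤ H (rv t ⊓ rv a ⊓ rv b)
  it : In t d
  ia : In a d
  ib : In b d
  pt : 5 ≤ H (rv t ⊓ rv a ⊓ rv b ⊓ rv d)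

/-- entropy of the labels and of the three second components; the atom has size `5 - co` -/
noncomputable def co (t a b : Lb S) (d : Pt S) : ℝ :=
  H (rv t ⊓ rv a ⊓ rv b ⊓ rv (qP t d) ⊓ rv (qP a d) ⊓ rv (qP b d))

/-- three independent points of one atom -/
structure Valid (t a b : Lb S) (d0 d1 d2 : Pt S) : Prop where
  f0 : Fr3 t a b d0
  f1 : Fr3 t a b d1
  f2 : Fr3 t a b d2
  t1 : qP t d1 = qP t d0
  t2 : qP t d2 = qP t d0
  a1 : qP a d1 = qP a d0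
  a2 : qP a d2 = qP a d0
  b1 : qP b d1 = qP b d0
  b2 : qP b d2 = qP b d0
  full : 15 ≤ H (rv t ⊓ rv a ⊓ rv b ⊓ rv d0 ⊓ rv d1 ⊓ rv d2) + 2 * co t a b d0

end Pool.Agent.P.MP_e72dc0_lc.TF
end

-- part Pool.Agent.P.MP_e72dc0_lc.TF.Base
section

namespace Pool.Agent.P.MP_e72dc0_lc.TF

open Pool.Agent.P.MP_db4732_co.Ent Filter Topology

variable {F : Fam} {S S' : Sys F}

theorem base_det {X Y : RV S} (h : X ≤ Y) (k : ℕ) :
    Det (S.p k) (fun ω => Quotient.mk (X k) ω) (fun ω => Quotient.mk (Y k) ω) :=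
  fun _ _ _ _ e => Quotient.sound (h k (Quotient.exact e))

theorem H_tendsto (X : RV S) :
    Tendsto (fun k => ent (S.p k) (fun ω => Quotient.mk (X k) ω) / F.L k)
      (hyperfilter ℕ : Filter ℕ) (𝓝 (H X)) := by
  obtain ⟨C, hC⟩ := S.bd
  have hm : ∀ k, ent (S.p k) (fun ω => Quotient.mk (X k) ω) / F.L k ∈ Set.Icc 0 C := by
    intro k
    have h0 : ent (S.p k) (fun _ => ()) ≤ ent (S.p k) (fun ω => Quotient.mk (X k) ω) :=
      ent_mono (S.hp k) fun _ _ _ _ _ => rfl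
    rw [ent_const (S.hp k)] at h0
    have h1 : ent (S.p k) (fun ω => Quotient.mk (X k) ω) ≤ ent (S.p k) id :=
      ent_mono (S.hp k) fun _ _ _ _ h => congrArg _ h
    exact ⟨div_nonneg h0 (F.L_pos k).le, (div_le_iff₀ (F.L_pos k)).2 (h1.trans (hC k))⟩
  obtain ⟨x, -, hx⟩ := (isCompact_Icc (a := (0 : ℝ)) (b := C)).ultrafilter_le_nhds
    ((hyperfilter ℕ).map fun k => ent (S.p k) (fun ω => Quotient.mk (X k) ω) / F.L k)
    (by
      rw [le_principal_iff, Ultrafilter.coe_map, mem_map]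
      exact univ_mem' hm)
  exact tendsto_nhds_limUnder ⟨x, hx⟩

theorem H_top : H (⊤ : RV S) = 0 := by
  refine tendsto_nhds_unique (H_tendsto ⊤) ?_
  have h : ∀ k, ent (S.p k) (fun ω => Quotient.mk ((⊤ : RV S) k) ω) / F.L k = 0 := by
    intro k
    have h0 : ent (S.p k) (fun ω => Quotient.mk ((⊤ : RV S) k) ω) = ent (S.p k) (fun _ => ()) :=
      le_antisymm (ent_mono (S.hp k) fun _ _ _ _ _ => Quotient.sound trivial)
        (ent_mono (S.hp k) fun _ _ _ _ _ => rfl)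
    rw [h0, ent_const (S.hp k), zero_div]
  simp only [h]
  exact tendsto_const_nhds

theorem H_mono {X Y : RV S} (h : X ≤ Y) : H Y ≤ H X := by
  refine le_of_tendsto_of_tendsto' (H_tendsto Y) (H_tendsto X) fun k => ?_
  exact div_le_div_of_nonneg_right (ent_mono (S.hp k) (base_det h k)) (F.L_pos k).le

/-- submodularity -/
theorem H_sub (X Y Z R : RV S) (hX : X ≤ Z) (hY : Y ≤ Z) (hR : X ⊓ Y ≤ R) :
    H R + H Z ≤ H X + H Y := by
  refine le_of_tendsto_of_tendsto' ((H_tendsto R).add (H_tendsto Z))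
    ((H_tendsto X).add (H_tendsto Y)) fun k => ?_
  rw [← add_div, ← add_div]
  refine div_le_div_of_nonneg_right (submod (S.hp k) (base_det hX k) (base_det hY k) ?_)
    (F.L_pos k).le
  intro ω ω' _ _ h
  have h1 := Prod.ext_iff.1 h
  exact Quotient.sound (hR k ⟨Quotient.exact h1.1, Quotient.exact h1.2⟩)

theorem H_nonneg (X : RV S) : 0 ≤ H X := by
  have := H_mono (le_top : X ≤ ⊤)
  rwa [H_top] at this

theorem H_congr {X Y : RV S} (h : X ≤ Y) (h' : Y ≤ X) : H X = H Y := by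
  rw [le_antisymm h h']

/-- a variable with few values on each class of `V` -/
theorem H_card {α : ℕ → Type} (V : RV S) (x : ∀ k, S.Ω k → α k) (τ : ℕ → ℕ) (c B : ℝ)
    (hτ : ∀ k, 0 < τ k) (hc : ∀ k, Real.log (τ k) ≤ (c + F.η k) * F.L k + B)
    (h : ∀ k ω1, ∃ T : Finset (α k), T.card ≤ τ k ∧ ∀ ω, V k ω ω1 → x k ω ∈ T) :
    H (V ⊓ rv x) ≤ H V + c := by
  classical
  have hf : (hyperfilter ℕ : Filter ℕ) ≤ atTop := by
    rw [← Nat.cofinite_eq_atTop]; exact hyperfilter_le_cofinite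
  have t1 : Tendsto F.η (hyperfilter ℕ : Filter ℕ) (𝓝 0) := F.η_zero.mono_left hf
  have t2 : Tendsto (fun k => B / F.L k) (hyperfilter ℕ : Filter ℕ) (𝓝 0) :=
    (tendsto_const_nhds.div_atTop F.L_top).mono_left hf
  have t3 := (H_tendsto V).add (((tendsto_const_nhds (x := c)).add t1).add t2)
  simp only [add_zero] at t3
  refine le_of_tendsto_of_tendsto' (H_tendsto (V ⊓ rv x)) t3 fun k => ?_
  have h1 : ent (S.p k) (fun ω => Quotient.mk ((V ⊓ rv x) k) ω) ≤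
      ent (S.p k) (fun ω => (Quotient.mk (V k) ω, x k ω)) := by
    refine ent_mono (S.hp k) fun ω ω' _ _ h => ?_
    have h1 := Prod.ext_iff.1 h
    exact Quotient.sound ⟨Quotient.exact h1.1, h1.2⟩
  have h2 : ent (S.p k) (fun ω => (Quotient.mk (V k) ω, x k ω)) ≤
      ent (S.p k) (fun ω => Quotient.mk (V k) ω) + Real.log (τ k) := by
    refine ent_le_add_log (S.hp k) (τ k) (hτ k) fun ω1 _ => ?_
    obtain ⟨T, hT, hx⟩ := h k ω1
    refine ⟨T.image fun a => (Quotient.mk (V k) ω1, a), Finset.card_image_le.trans hT,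
      fun ω _ he => Finset.mem_image.2 ⟨x k ω, hx ω (Quotient.exact he), ?_⟩⟩
    exact Prod.ext he.symm rfl
  have hL := F.L_pos k
  rw [div_le_iff₀ hL]
  have e : (ent (S.p k) (fun ω => Quotient.mk (V k) ω) / F.L k + (c + F.η k + B / F.L k)) * F.L k =
      ent (S.p k) (fun ω => Quotient.mk (V k) ω) + ((c + F.η k) * F.L k + B) := by
    field_simp
  rw [e]
  linarith [hc k]

end Pool.Agent.P.MP_e72dc0_lc.TF
end

-- part Pool.Agent.P.MP_e72dc0_lc.TF.Copy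
section

namespace Pool.Agent.P.MP_e72dc0_lc.TF

open Pool.Agent.P.MP_db4732_co.Ent Filter Topology

section CopyFin

variable {Ω α β : Type*} [Fintype Ω] {p : Ω → ℝ}

lemma copy_sum_sub {A : Ω → Prop} [Fintype {ω // A ω}] (g : Ω → ℝ) (hg : ∀ ω, ¬ A ω → g ω = 0) :
    ∑ w : {ω // A ω}, g w.1 = ∑ ω, g ω :=
  Fintype.sum_of_injective Subtype.val Subtype.val_injective _ _
    (fun ω hω => hg ω fun h => hω ⟨⟨ω, h⟩, rfl⟩) fun _ => rfl

lemma copy_isP_sub (hp : IsP p) {A : Ω → Prop} [Fintype {ω // A ω}]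
    (hA : ∀ ω, ¬ A ω → p ω = 0) : IsP fun w : {ω // A ω} => p w.1 :=
  ⟨fun w => hp.1 w.1, (copy_sum_sub p hA).trans hp.2⟩

lemma copy_ent_sub {A : Ω → Prop} [Fintype {ω // A ω}]
    (hA : ∀ ω, ¬ A ω → p ω = 0) (X : Ω → α) :
    ent (fun w : {ω // A ω} => p w.1) (fun w => X w.1) = ent p X := by
  classical
  have h1 : ∀ v, law (fun w : {ω // A ω} => p w.1) (fun w => X w.1) v = law p X v := fun v => by
    unfold law
    exact copy_sum_sub (fun ω => if X ω = v then p ω else 0) fun ω h => by simp [hA ω h]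
  unfold ent
  simp only [h1]
  rw [copy_sum_sub (fun ω => p ω * Real.log (law p X (X ω))) fun ω h => by simp [hA ω h]]

lemma copy_ent_congr (hp : IsP p) {X : Ω → α} {Y : Ω → β}
    (h : ∀ ω ω', X ω = X ω' ↔ Y ω = Y ω') : ent p X = ent p Y :=
  le_antisymm (ent_mono hp fun ω ω' _ _ e => (h ω ω').2 e)
    (ent_mono hp fun ω ω' _ _ e => (h ω ω').1 e)

lemma copy_unif [Nonempty Ω] : IsP fun _ : Ω => (1 : ℝ) / Fintype.card Ω := by
  have : (0 : ℝ) < Fintype.card Ω := by exact_mod_cast Fintype.card_pos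
  refine ⟨fun _ => by positivity, ?_⟩
  rw [Finset.sum_const, Finset.card_univ, nsmul_eq_mul]
  field_simp

lemma copy_ent_unif [Nonempty Ω] :
    ent (fun _ : Ω => (1 : ℝ) / Fintype.card Ω) id = Real.log (Fintype.card Ω) := by
  have : (0 : ℝ) < Fintype.card Ω := by exact_mod_cast Fintype.card_pos
  unfold ent
  simp only [law_id]
  rw [Finset.sum_const, Finset.card_univ, nsmul_eq_mul, one_div, Real.log_inv]
  field_simp

end CopyFin

variable {F : Fam} {S S' : Sys F}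

lemma copy_off (S : Sys F) (Z : RV S) (k : ℕ) (w : S.Ω k × S.Ω k) (h : ¬ Z k w.1 w.2) :
    glue (S.p k) (fun ω => Quotient.mk (Z k) ω) w = 0 := by
  by_contra h0
  exact h (Quotient.exact (glue_ne h0).1)

lemma copy_ent_nonneg {Ω α : Type*} [Fintype Ω] {p : Ω → ℝ} (hp : IsP p) (X : Ω → α) :
    0 ≤ ent p X := by
  rw [← ent_const hp]
  exact ent_mono hp fun _ _ _ _ _ => rfl

open Classical in
/-- the glued system -/
noncomputable def copySys (S : Sys F) (Z : RV S) : Sys F where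
  Ω k := {w : S.Ω k × S.Ω k // Z k w.1 w.2}
  fin _ := inferInstance
  p k w := glue (S.p k) (fun ω => Quotient.mk (Z k) ω) w.1
  hp k := copy_isP_sub (glue_isP (S.hp k) _) (copy_off S Z k)
  bd := by
    obtain ⟨C, hC⟩ := S.bd
    refine ⟨2 * C, fun k => ?_⟩
    have h1 := copy_ent_congr (copy_isP_sub (glue_isP (S.hp k) _) (copy_off S Z k))
      (X := id) (Y := fun w => id w.1) fun _ _ => Subtype.ext_iff
    rw [h1, copy_ent_sub (copy_off S Z k), ent_glue_id (S.hp k)]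
    linarith [hC k, copy_ent_nonneg (S.hp k) fun ω => Quotient.mk (Z k) ω]

lemma copy_ent_pull (S : Sys F) (Z : RV S) (k : ℕ) {α β : Type}
    (X : (copySys S Z).Ω k → α) (Y : S.Ω k × S.Ω k → β)
    (h : ∀ ω ω', X ω = X ω' ↔ Y ω.1 = Y ω'.1) :
    ent ((copySys S Z).p k) X = ent (glue (S.p k) fun ω => Quotient.mk (Z k) ω) Y := by
  classical
  rw [copy_ent_congr ((copySys S Z).hp k) (Y := fun w => Y w.1) h]
  exact copy_ent_sub (copy_off S Z k) Y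

/-- first projection -/
noncomputable def copyFst (S : Sys F) (Z : RV S) : Ext (copySys S Z) S where
  f _ w := w.1.1
  H_eq X := by
    unfold H
    congr 1
    funext k
    congr 1
    rw [copy_ent_pull S Z k _ (fun w => Quotient.mk (X k) w.1) fun ω ω' => by
      rw [Quotient.eq, Quotient.eq]; rfl]
    exact ent_glue_fst (S.hp k) _ fun ω => Quotient.mk (X k) ω

/-- second projection -/
noncomputable def copySnd (S : Sys F) (Z : RV S) : Ext (copySys S Z) S where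
  f _ w := w.1.2
  H_eq X := by
    unfold H
    congr 1
    funext k
    congr 1
    rw [copy_ent_pull S Z k _ (fun w => Quotient.mk (X k) w.2) fun ω ω' => by
      rw [Quotient.eq, Quotient.eq]; rfl]
    exact ent_glue_snd (S.hp k) _ fun ω => Quotient.mk (X k) ω

lemma copy_bot (S : Sys F) (Z : RV S) :
    H ((copyFst S Z).rv ⊥ ⊓ (copySnd S Z).rv ⊥) = 2 * H (⊥ : RV S) - H Z := by
  refine tendsto_nhds_unique (H_tendsto _) ?_
  refine (((H_tendsto (⊥ : RV S)).const_mul 2).sub (H_tendsto Z)).congr fun k => ?_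
  rw [copy_ent_pull S Z k _ id fun ω ω' => by
    rw [Quotient.eq]
    exact Prod.ext_iff.symm, ent_glue_id (S.hp k),
    copy_ent_congr (S.hp k) (X := fun ω => Quotient.mk ((⊥ : RV S) k) ω) (Y := id) fun ω ω' => by
      rw [Quotient.eq]; rfl]
  ring

/-- conditionally independent copy over `Z` -/
theorem copy (S : Sys F) (Z : RV S) : ∃ (S' : Sys F) (π₁ π₂ : Ext S' S),
    (∀ X : RV S, Z ≤ X → π₂.rv X = π₁.rv X) ∧
    (∀ (α : ℕ → Type) (g : ∀ k, S.Ω k → α k), Z ≤ rv g → π₂.fn g = π₁.fn g) ∧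
    ∀ X Y : RV S, X ≤ Z → Y ≤ Z → H (π₁.rv X ⊓ π₂.rv Y) = H X + H Y - H Z := by
  have e1 : ∀ X : RV S, Z ≤ X → (copySnd S Z).rv X = (copyFst S Z).rv X := by
    intro X hX
    funext k
    ext w w'
    have h1 : X k w.1.1 w.1.2 := hX k w.2
    have h2 : X k w'.1.1 w'.1.2 := hX k w'.2
    exact ⟨fun h => (X k).trans' h1 ((X k).trans' h ((X k).symm' h2)),
      fun h => (X k).trans' ((X k).symm' h1) ((X k).trans' h h2)⟩
  refine ⟨copySys S Z, copyFst S Z, copySnd S Z, e1, fun α g hg => ?_, fun X Y hX hY => ?_⟩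
  · funext k w
    exact (hg k w.2).symm
  · have hb := copy_bot S Z
    have a1 := (copyFst S Z).mono hX
    have a2 := (copySnd S Z).mono hY
    have a3 := (copyFst S Z).mono (bot_le : ⊥ ≤ X)
    have a4 := (copySnd S Z).mono (bot_le : ⊥ ≤ Y)
    rw [e1 Z le_rfl] at a2
    have u := H_sub ((copyFst S Z).rv X) ((copySnd S Z).rv Y) ((copyFst S Z).rv Z) _ a1 a2 le_rfl
    have l1 := H_sub ((copyFst S Z).rv ⊥) ((copyFst S Z).rv X ⊓ (copySnd S Z).rv ⊥)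
      ((copyFst S Z).rv X) ((copyFst S Z).rv ⊥ ⊓ (copySnd S Z).rv ⊥) a3 inf_le_left
      (inf_le_inf_left _ inf_le_right)
    have l2 := H_sub ((copySnd S Z).rv ⊥) ((copyFst S Z).rv X ⊓ (copySnd S Z).rv Y)
      ((copySnd S Z).rv Y) ((copyFst S Z).rv X ⊓ (copySnd S Z).rv ⊥) a4 inf_le_right
      (le_inf (inf_le_right.trans inf_le_left) inf_le_left)
    simp only [Ext.H_rv] at u l1 l2
    linarith

/-- incidences -/
abbrev copyInc (F : Fam) (k : ℕ) : Type := Σ s : F.Lab k, F.P k s × F.P k (F.fl k s)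

lemma copy_card (F : Fam) (k : ℕ) :
    Fintype.card (copyInc F k) = ∑ s, (F.P k s).card * (F.P k (F.fl k s)).card := by
  simp [copyInc]

lemma copy_ne (F : Fam) (k : ℕ) : Nonempty (copyInc F k) :=
  Fintype.card_pos_iff.1 (by rw [copy_card]; exact F.ne k)

lemma copy_inj (F : Fam) (k : ℕ) (w w' : copyInc F k) (h1 : w.1 = w'.1)
    (h2 : w.2.1.1 + w.2.2.1 = w'.2.1.1 + w'.2.2.1) : w = w' := by
  obtain ⟨s, x, y⟩ := w
  obtain ⟨s', x', y'⟩ := w'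
  obtain rfl : s = s' := h1
  have e : x.1 = x'.1 := F.direct k s _ x.2 _ x'.2 _ y.2 _ y'.2 h2
  obtain rfl : x = x' := Subtype.ext e
  obtain rfl : y = y' := Subtype.ext (add_left_cancel h2)
  rfl

/-- the uniform system on incidences -/
noncomputable def copyUnif (F : Fam) : Sys F where
  Ω := copyInc F
  fin _ := inferInstance
  p k _ := (1 : ℝ) / Fintype.card (copyInc F k)
  hp k := by
    have := copy_ne F k
    exact copy_unif
  bd := by
    obtain ⟨B, hB⟩ := F.η_zero.bddAbove_range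
    refine ⟨3 + 2 * B, fun k => ?_⟩
    have := copy_ne F k
    have hp := copy_unif (Ω := copyInc F k)
    have h1 := subadd hp (P := fun w => w.1) (Q := fun w => w.2.1.1 + w.2.2.1) (R := id)
      fun w w' _ _ e => copy_inj F k w w' (congrArg Prod.fst e) (congrArg Prod.snd e)
    have h2 := ent_le_log_card hp (X := fun w => w.1) (R := fun w => w.1) fun _ _ _ _ e => e
    have h3 := ent_le_log_card hp (X := fun w => w.2.1.1 + w.2.2.1)
      (R := fun w => w.2.1.1 + w.2.2.1) fun _ _ _ _ e => e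
    have h4 : F.η k * F.L k ≤ B * F.L k :=
      mul_le_mul_of_nonneg_right (hB ⟨k, rfl⟩) (F.L_pos k).le
    linarith [F.cardG k, F.cardLab k]

/-- a uniformly distributed incidence -/
theorem exist0 (F : Fam) : ∃ (S : Sys F) (d : Pt S) (s : Lb S), In s d ∧ 3 ≤ H (rv s ⊓ rv d) := by
  refine ⟨copyUnif F, fun _ w => w.2.1.1 + w.2.2.1, fun _ w => w.1,
    fun k w => ⟨w.2.1.1, w.2.1.2, by simp⟩, ?_⟩
  have h0 : Tendsto (fun k => 3 - F.η k) (hyperfilter ℕ : Filter ℕ) (𝓝 (3 - 0)) :=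
    (F.η_zero.mono_left Nat.hyperfilter_le_atTop).const_sub 3
  rw [sub_zero] at h0
  refine le_of_tendsto_of_tendsto' h0 (H_tendsto _) fun k => ?_
  rw [le_div_iff₀ (F.L_pos k)]
  have := copy_ne F k
  refine (F.many k).trans ?_
  rw [← copy_card, ← copy_ent_unif]
  refine ent_mono ((copyUnif F).hp k) fun w w' _ _ e => ?_
  have e' := Quotient.exact e
  exact copy_inj F k w w' e'.1 e'.2

end Pool.Agent.P.MP_e72dc0_lc.TF
end

-- part Pool.Agent.P.MP_e72dc0_lc.TF.Grp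
section

namespace Pool.Agent.P.MP_e72dc0_lc.TF

open Pool.Agent.P.MP_db4732_co.Ent Filter Topology

variable {F : Fam} {S S' : Sys F}

theorem grp_pp {k : ℕ} {s : F.Lab k} {d : F.G k}
    (h : ∃ x ∈ F.P k s, d - x ∈ F.P k (F.fl k s)) :
    F.pp k s d ∈ F.P k s ∧ d - F.pp k s d ∈ F.P k (F.fl k s) := by
  unfold Fam.pp
  rw [dif_pos h]
  exact h.choose_spec

theorem grp_pp_eq {k : ℕ} {s : F.Lab k} {x y : F.G k} (hx : x ∈ F.P k s)
    (hy : y ∈ F.P k (F.fl k s)) : F.pp k s (x + y) = x := by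
  have h := grp_pp (d := x + y) ⟨x, hx, by rwa [add_sub_cancel_left]⟩
  exact F.direct k s _ h.1 _ hx _ h.2 _ hy (by abel)

theorem grp_H_log {α : ℕ → Type} (V : RV S) (x : ∀ k, S.Ω k → α k) (c : ℝ) (hc : 0 ≤ c)
    (h : ∀ k ω1, ∃ T : Finset (α k), Real.log T.card ≤ (c + F.η k) * F.L k ∧
      ∀ ω, V k ω ω1 → x k ω ∈ T) :
    H (V ⊓ rv x) ≤ H V + c := by
  have h0 : ∀ k, 0 < ⌊Real.exp ((c + F.η k) * F.L k)⌋₊ := fun k =>
    Nat.floor_pos.2 (Real.one_le_exp (mul_nonneg (add_nonneg hc (F.η_nonneg k)) (F.L_pos k).le))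
  refine H_card V x (fun k => ⌊Real.exp ((c + F.η k) * F.L k)⌋₊) c 0 h0 (fun k => ?_)
    fun k ω1 => ?_
  · rw [add_zero, Real.log_le_iff_le_exp (by exact_mod_cast h0 k)]
    exact Nat.floor_le (Real.exp_pos _).le
  · obtain ⟨T, h1, h2⟩ := h k ω1
    refine ⟨T, ?_, h2⟩
    rcases Nat.eq_zero_or_pos T.card with h3 | h3
    · rw [h3]; exact Nat.zero_le _
    · exact Nat.le_floor ((Real.log_le_iff_le_exp (by exact_mod_cast h3)).1 h1)

@[simp] theorem fl_fl (s : Lb S) : fl (fl s) = s := by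
  funext k ω
  exact F.fl_fl k _

@[simp] theorem pP_fl (s : Lb S) (d : Pt S) : pP (fl s) d = qP s d := rfl

@[simp] theorem qP_fl (s : Lb S) (d : Pt S) : qP (fl s) d = pP s d := by
  unfold qP; rw [fl_fl]

@[simp] theorem rv_fl (s : Lb S) : rv (fl s) = rv s := by
  funext k
  ext a b
  change F.fl k (s k a) = F.fl k (s k b) ↔ s k a = s k b
  refine ⟨fun h => ?_, fun h => by rw [h]⟩
  rw [← F.fl_fl k (s k a), h, F.fl_fl]

theorem In.flip {s : Lb S} {d : Pt S} (h : In s d) : In (fl s) d := by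
  intro k ω
  obtain ⟨x, h1, h2⟩ := h k ω
  refine ⟨_, h2, ?_⟩
  change _ ∈ F.P k (F.fl k (F.fl k (s k ω)))
  rwa [F.fl_fl, sub_sub_cancel]

theorem In.memP {s : Lb S} {d : Pt S} (h : In s d) : Mem (pP s d) s := by
  exact fun k ω => (grp_pp (h k ω)).1

theorem In.memQ {s : Lb S} {d : Pt S} (h : In s d) : Mem (qP s d) (fl s) := by
  exact h.flip.memP

theorem In.add {s : Lb S} {d : Pt S} (h : In s d) : pP s d + qP s d = d := by
  funext k ω
  have h1 := grp_pp (h k ω)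
  have h2 : F.pp k (F.fl k (s k ω)) (d k ω - F.pp k (s k ω) (d k ω) + F.pp k (s k ω) (d k ω)) =
      d k ω - F.pp k (s k ω) (d k ω) := grp_pp_eq h1.2 (by rw [F.fl_fl]; exact h1.1)
  rw [sub_add_cancel] at h2
  change F.pp k (s k ω) (d k ω) + F.pp k (F.fl k (s k ω)) (d k ω) = d k ω
  rw [h2]; abel

theorem of_mem {s : Lb S} {x y : Pt S} (hx : Mem x s) (hy : Mem y (fl s)) :
    In s (x + y) ∧ pP s (x + y) = x ∧ qP s (x + y) = y := by
  refine ⟨fun k ω => ⟨x k ω, hx k ω, ?_⟩, ?_, ?_⟩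
  · change x k ω + y k ω - x k ω ∈ _
    rw [add_sub_cancel_left]
    exact hy k ω
  · funext k ω
    exact grp_pp_eq (hx k ω) (hy k ω)
  · funext k ω
    change F.pp k (F.fl k (s k ω)) (x k ω + y k ω) = y k ω
    rw [add_comm]
    exact grp_pp_eq (hy k ω) (by rw [F.fl_fl]; exact hx k ω)

theorem le_pP (s : Lb S) (d : Pt S) : rv s ⊓ rv d ≤ rv (pP s d) := by
  intro k a b h
  have h1 : s k a = s k b := h.1
  have h2 : d k a = d k b := h.2
  change F.pp k (s k a) (d k a) = F.pp k (s k b) (d k b)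
  rw [h1, h2]

theorem le_qP (s : Lb S) (d : Pt S) : rv s ⊓ rv d ≤ rv (qP s d) := by
  have := le_pP (fl s) d
  rwa [rv_fl] at this

theorem le_add (x y : Pt S) : rv x ⊓ rv y ≤ rv (x + y) := by
  intro k a b h
  have h1 : x k a = x k b := h.1
  have h2 : y k a = y k b := h.2
  change x k a + y k a = x k b + y k b
  rw [h1, h2]

theorem le_sub (x y : Pt S) : rv x ⊓ rv y ≤ rv (x - y) := by
  intro k a b h
  have h1 : x k a = x k b := h.1
  have h2 : y k a = y k b := h.2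
  change x k a - y k a = x k b - y k b
  rw [h1, h2]

/-- `z` is a function of `x` and `y` when it is their sum -/
theorem le_of_add {x y z : Pt S} (h : z = x + y) : rv x ⊓ rv y ≤ rv z := h ▸ le_add x y

theorem le_of_sub {x y z : Pt S} (h : z = x - y) : rv x ⊓ rv y ≤ rv z := h ▸ le_sub x y

theorem In.le_pq {s : Lb S} {d : Pt S} (h : In s d) : rv (pP s d) ⊓ rv (qP s d) ≤ rv d :=
  le_of_add h.add.symm

/-- (I1) -/
theorem In.le_diff {s : Lb S} {d : Pt S} (h : In s d) :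
    rv s ⊓ rv (pP s d - qP s d) ≤ rv d := by
  intro k a b hab
  have h1 : s k a = s k b := hab.1
  have h2 : pP s d k a - qP s d k a = pP s d k b - qP s d k b := hab.2
  have pa := h.memP k a
  have pb := h.memP k b
  have qa : qP s d k a ∈ F.P k (F.fl k (s k a)) := h.memQ k a
  have qb : qP s d k b ∈ F.P k (F.fl k (s k b)) := h.memQ k b
  rw [h1] at pa qa
  have e1 : pP s d k a = pP s d k b :=
    F.direct k _ _ pa _ pb _ qb _ qa (sub_eq_sub_iff_add_eq_add.1 h2)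
  have e2 : qP s d k a = qP s d k b := by
    rw [e1] at h2
    exact sub_right_injective h2
  have ea : pP s d k a + qP s d k a = d k a := congrFun (congrFun h.add k) a
  have eb : pP s d k b + qP s d k b = d k b := congrFun (congrFun h.add k) b
  change d k a = d k b
  rw [← ea, ← eb, e1, e2]

theorem H_pt (V : RV S) (d : Pt S) : H (V ⊓ rv d) ≤ H V + 2 := by
  exact grp_H_log V d 2 (by norm_num) fun k _ =>
    ⟨Finset.univ, F.cardG k, fun _ _ => Finset.mem_univ _⟩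

theorem H_lb (V : RV S) (s : Lb S) : H (V ⊓ rv s) ≤ H V + 1 := by
  exact grp_H_log V s 1 (by norm_num) fun k _ =>
    ⟨Finset.univ, F.cardLab k, fun _ _ => Finset.mem_univ _⟩

theorem H_mem {V : RV S} {x : Pt S} {s : Lb S} (hx : Mem x s) (hV : V ≤ rv s) :
    H (V ⊓ rv x) ≤ H V + 1 := by
  refine grp_H_log V x 1 (by norm_num) fun k ω1 => ⟨F.P k (s k ω1), F.cardP k _, fun ω h => ?_⟩
  have h1 : s k ω = s k ω1 := hV k h
  rw [← h1]
  exact hx k ω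

/-- (I2) -/
theorem H_det {V : RV S} {d : Pt S} {s r : Lb S} (hs : In s d) (hr : In r d) (h1 : V ≤ rv s)
    (h2 : V ≤ rv (pP s d - pP r d)) : H (V ⊓ rv r) ≤ H V := by
  classical
  have key := H_card V r (fun _ => 2) 0 (Real.log 2) (fun _ => by norm_num) (fun k => by
    have := mul_nonneg (F.η_nonneg k) (F.L_pos k).le
    push_cast
    linarith) fun k ω1 => ⟨Finset.univ.filter fun l => ∃ ω, V k ω ω1 ∧ r k ω = l, ?_,
      fun ω h => Finset.mem_filter.2 ⟨Finset.mem_univ _, ω, h, rfl⟩⟩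
  · rwa [add_zero] at key
  · refine (Finset.card_le_card_of_injOn (t := (Finset.univ : Finset Bool)) (F.sg k)
      (fun _ _ => Finset.mem_coe.2 (Finset.mem_univ _)) ?_).trans (by simp)
    intro l hl l' hl' hsg
    obtain ⟨a, ha, rfl⟩ := (Finset.mem_filter.1 (Finset.mem_coe.1 hl)).2
    obtain ⟨b, hb, rfl⟩ := (Finset.mem_filter.1 (Finset.mem_coe.1 hl')).2
    have hab : V k a b := (V k).trans' ha ((V k).symm' hb)
    have e1 : s k a = s k b := h1 k hab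
    have e2 : pP s d k a - pP r d k a = pP s d k b - pP r d k b := h2 k hab
    have pa := hs.memP k a
    have qa : qP s d k a ∈ F.P k (F.fl k (s k a)) := hs.memQ k a
    rw [e1] at pa qa
    have sa : pP s d k a + qP s d k a = d k a := congrFun (congrFun hs.add k) a
    have sb : pP s d k b + qP s d k b = d k b := congrFun (congrFun hs.add k) b
    have ra : pP r d k a + qP r d k a = d k a := congrFun (congrFun hr.add k) a
    have rb : pP r d k b + qP r d k b = d k b := congrFun (congrFun hr.add k) b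
    exact F.det k (s k b) _ _ hsg _ pa _ qa _ (hs.memP k b) _ (hs.memQ k b) _ (hr.memP k a) _
      (hr.memQ k a) _ (hr.memP k b) _ (hr.memQ k b) (sa.trans ra.symm) (sb.trans rb.symm) e2

end Pool.Agent.P.MP_e72dc0_lc.TF
end

-- part Pool.Agent.P.MP_e72dc0_lc.TF.Pair
section

namespace Pool.Agent.P.MP_e72dc0_lc.TF

open Pool.Agent.P.MP_db4732_co.Ent Filter Topology

variable {F : Fam} {S S' : Sys F}

theorem Free.perm {Λ : RV S} {d : Pt S} {l l' : List (Lb S)} (h : Free Λ d l) (hp : l.Perm l') :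
    Free Λ d l' where
  inc := fun s hs => h.inc s (hp.mem_iff.2 hs)
  le := fun s hs => h.le s (hp.mem_iff.2 hs)
  pt := h.pt
  one := fun s hs => h.one s (hp.mem_iff.2 hs)
  two := (hp.pairwise_iff (fun {x y} hxy => by rwa [inf_comm])).1 h.two

theorem Free.sublist {Λ : RV S} {d : Pt S} {l l' : List (Lb S)} (h : Free Λ d l)
    (hp : l'.Sublist l) : Free Λ d l' where
  inc := fun s hs => h.inc s (hp.subset hs)
  le := fun s hs => h.le s (hp.subset hs)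
  pt := h.pt
  one := fun s hs => h.one s (hp.subset hs)
  two := h.two.sublist hp

theorem Free.flip {Λ : RV S} {d : Pt S} {s : Lb S} {l : List (Lb S)} (h : Free Λ d (s :: l)) :
    Free Λ d (fl s :: l) where
  inc := fun u hu => by
    rcases List.mem_cons.1 hu with rfl | hu
    · exact (h.inc s (by simp)).flip
    · exact h.inc u (List.mem_cons_of_mem _ hu)
  le := fun u hu => by
    rcases List.mem_cons.1 hu with rfl | hu
    · rw [rv_fl]; exact h.le s (by simp)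
    · exact h.le u (List.mem_cons_of_mem _ hu)
  pt := h.pt
  one := fun u hu => by
    rcases List.mem_cons.1 hu with rfl | hu
    · rw [rv_fl]; exact h.one s (by simp)
    · exact h.one u (List.mem_cons_of_mem _ hu)
  two := by
    have := h.two
    rw [List.pairwise_cons] at this ⊢
    refine ⟨fun u hu => ?_, this.2⟩
    rw [rv_fl]; exact this.1 u hu

theorem Free.map_fl {Λ : RV S} {d : Pt S} {l l' : List (Lb S)} (h : Free Λ d (l ++ l')) :
    Free Λ d (l.map fl ++ l') := by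
  induction l generalizing l' with
  | nil => simpa using h
  | cons s l ih =>
    have h1 : Free Λ d (l ++ (fl s :: l')) :=
      (Free.flip (s := s) (l := l ++ l') h).perm List.perm_middle.symm
    have h2 := (ih h1).perm List.perm_middle
    simpa using h2

theorem Free.pt_eq {Λ : RV S} {d : Pt S} {l : List (Lb S)} (h : Free Λ d l) :
    H (Λ ⊓ rv d) = H Λ + 2 := le_antisymm (H_pt Λ d) h.pt

theorem Free.le_cq {Λ : RV S} {d : Pt S} {l : List (Lb S)} (h : Free Λ d l) :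
    Λ ⊓ rv d ≤ cq d l := by
  induction l with
  | nil => exact le_top
  | cons s l ih =>
    rw [cq_cons]
    refine le_inf ?_ (ih (h.sublist (List.sublist_cons_self s l)))
    exact (inf_le_inf_right _ (h.le s (by simp))).trans (le_qP s d)

/-- superadditivity of sizes, always true -/
theorem superadd {Λ Θ : RV S} {d : Pt S} {u : Lb S} (hu : In u d) (hΘ : Θ ≤ Λ) :
    H (Λ ⊓ rv d) + H Θ ≤ H (Θ ⊓ rv (pP u d)) + H (Θ ⊓ rv (qP u d)) := by
  have h1 := hu.le_pq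
  exact H_sub (Θ ⊓ rv (pP u d)) (Θ ⊓ rv (qP u d)) Θ (Λ ⊓ rv d) (by order) (by order) (by order)

theorem single {Λ : RV S} {d : Pt S} {s : Lb S} (h : Free Λ d [s]) :
    H (Λ ⊓ rv d) = H (Λ ⊓ rv (qP s d)) + 1 := by
  have hs : In s d := h.inc s (by simp)
  have hl : Λ ≤ rv s := h.le s (by simp)
  have h1 := hs.le_pq
  have e1 := h.pt_eq
  have e2 : H (Λ ⊓ rv (qP s d)) ≤ H Λ + 1 := H_mem hs.memQ (by rw [rv_fl]; exact hl)
  have e3 : H (Λ ⊓ rv (qP s d) ⊓ rv (pP s d)) ≤ H (Λ ⊓ rv (qP s d)) + 1 :=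
    H_mem hs.memP (by order)
  have e4 : H (Λ ⊓ rv d) ≤ H (Λ ⊓ rv (qP s d) ⊓ rv (pP s d)) := H_mono (by order)
  linarith

/-- the difference of the first components has entropy at most one -/
theorem Pair_diff {Λ : RV S} {d : Pt S} {s u : Lb S} (h : Free Λ d [s, u]) :
    H (Λ ⊓ rv (pP s d - pP u d)) ≤ H Λ + 1 := by
  have hs : In s d := h.inc s (by simp)
  have hu : In u d := h.inc u (by simp)
  have ls : Λ ≤ rv s := h.le s (by simp)
  have lu : Λ ≤ rv u := h.le u (by simp)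
  have e0 : 2 ≤ H (rv s ⊓ rv u) := by
    have := h.two
    simpa using this
  set x := pP s d - pP u d with hx
  have e1 := H_sub Λ (rv s ⊓ rv x ⊓ rv u) (rv s ⊓ rv u) (Λ ⊓ rv x) (by order) (by order)
    (by order)
  have e2 : H (rv s ⊓ rv x ⊓ rv u) ≤ H (rv s ⊓ rv x) := H_det hs hu (by order) (by order)
  have e3 := H_pt (rv s) x
  have e4 := H_lb (⊤ : RV S) s
  rw [top_inf_eq, H_top] at e4
  linarith

/-- opposite corners have total size at least one -/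
theorem Pair_key {Λ : RV S} {d : Pt S} {s u : Lb S} (h : Free Λ d [s, u]) :
    H (Λ ⊓ rv (pP s d) ⊓ rv (pP u d)) + H (Λ ⊓ rv (qP s d) ⊓ rv (qP u d)) ≤ 2 * H Λ + 3 := by
  have hs : In s d := h.inc s (by simp)
  have hu : In u d := h.inc u (by simp)
  have ls : Λ ≤ rv s := h.le s (by simp)
  have lu : Λ ≤ rv u := h.le u (by simp)
  have e0 := Pair_diff h
  set x := pP s d - pP u d with hx
  have hx' : x = qP u d - qP s d := by
    have a1 := hs.add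
    have a2 := hu.add
    rw [hx, sub_eq_sub_iff_add_eq_add, a1, add_comm, a2]
  have l1 : rv (pP s d) ⊓ rv x ≤ rv (pP u d) := le_of_sub (by rw [hx]; abel)
  have l2 : rv (qP s d) ⊓ rv x ≤ rv (qP u d) := le_of_add (by rw [hx']; abel)
  have e1 : H (Λ ⊓ rv (pP s d) ⊓ rv (pP u d)) ≤ H (Λ ⊓ rv x ⊓ rv (pP s d)) := H_mono (by order)
  have e2 : H (Λ ⊓ rv (qP s d) ⊓ rv (qP u d)) ≤ H (Λ ⊓ rv x ⊓ rv (qP s d)) := H_mono (by order)
  obtain ⟨T, π₁, π₂, c1, c2, ind⟩ := copy S (Λ ⊓ rv x)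
  have i1 := ind (Λ ⊓ rv x ⊓ rv (pP s d)) (Λ ⊓ rv x ⊓ rv (qP s d)) (by order) (by order)
  have cs : π₂.fn s = π₁.fn s := c2 _ s (by order)
  have cu : π₂.fn u = π₁.fn u := c2 _ u (by order)
  have cx : π₂.fn x = π₁.fn x := c2 _ x (by order)
  have cL : π₂.rv Λ = π₁.rv Λ := c1 Λ (by order)
  simp only [Ext.rv_inf, Ext.rv_rv, Ext.fn_qP, Ext.fn_pP, cs, cx, cL] at i1
  have hs1 := hs.pull π₁
  have hu1 := hu.pull π₁
  have hs2 := hs.pull π₂
  have hu2 := hu.pull π₂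
  rw [cs] at hs2
  rw [cu] at hu2
  have x1 : π₁.fn x = pP (π₁.fn s) (π₁.fn d) - pP (π₁.fn u) (π₁.fn d) := rfl
  have x2 : π₁.fn x = qP (π₁.fn u) (π₂.fn d) - qP (π₁.fn s) (π₂.fn d) := by
    rw [← cx, hx', Ext.fn_sub, Ext.fn_qP, Ext.fn_qP, cs, cu]
  have ls1 : π₁.rv Λ ≤ rv (π₁.fn s) := π₁.mono ls
  have lu1 : π₁.rv Λ ≤ rv (π₁.fn u) := π₁.mono lu
  have hL : H (π₁.rv Λ) = H Λ := π₁.H_rv Λ
  generalize π₁.fn x = y at *
  generalize π₁.fn s = s1 at *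
  generalize π₁.fn u = u1 at *
  generalize π₁.fn d = d1 at *
  generalize π₂.fn d = d2 at *
  generalize π₁.rv Λ = L at *
  obtain ⟨-, m1, m2⟩ := of_mem hs1.memP hs2.memQ
  obtain ⟨-, m3, -⟩ := of_mem hu1.memP hu2.memQ
  have he : pP u1 d1 + qP u1 d2 = pP s1 d1 + qP s1 d2 := by
    have := x1.symm.trans x2
    rw [sub_eq_sub_iff_add_eq_add] at this
    rw [this, add_comm]
  rw [he] at m3
  set e := pP s1 d1 + qP s1 d2 with hedef
  have k1 := le_pP s1 e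
  have k2 := le_qP s1 e
  have k3 := le_pP u1 e
  rw [m1] at k1
  rw [m2] at k2
  rw [m3] at k3
  have k4 : rv (pP s1 d1) ⊓ rv (pP u1 d1) ≤ rv y := le_of_sub x1
  have e3 : H (L ⊓ rv y ⊓ rv (pP s1 d1) ⊓ (L ⊓ rv y ⊓ rv (qP s1 d2))) ≤ H (L ⊓ rv e) :=
    H_mono (by order)
  have e4 := H_pt L e
  linarith

theorem pair {Λ : RV S} {d : Pt S} {s u : Lb S} (h : Free Λ d [s, u]) :
    H (Λ ⊓ rv d) = H (Λ ⊓ rv (qP s d) ⊓ rv (qP u d)) + 1 / 2 := by
  have hs : In s d := h.inc s (by simp)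
  have hu : In u d := h.inc u (by simp)
  have e0 := h.pt_eq
  have h' : Free Λ d [s, fl u] :=
    ((h.perm (List.Perm.swap u s [])).flip).perm (List.Perm.swap s (fl u) [])
  have k1 := Pair_key h
  have k2 := Pair_key h'
  rw [pP_fl, qP_fl] at k2
  have fs : Free Λ d [s] := h.sublist (by simp)
  have fu : Free Λ d [u] := h.sublist (by simp)
  have s1 := single fs
  have s2 := single fs.flip
  have s3 := single fu
  have s4 := single fu.flip
  rw [qP_fl] at s2 s4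
  have a1 := superadd (Λ := Λ) (Θ := Λ ⊓ rv (qP s d)) hu inf_le_left
  have a2 := superadd (Λ := Λ) (Θ := Λ ⊓ rv (pP s d)) hu inf_le_left
  have a3 := superadd (Λ := Λ) (Θ := Λ ⊓ rv (qP u d)) hs inf_le_left
  have a4 := superadd (Λ := Λ) (Θ := Λ ⊓ rv (pP u d)) hs inf_le_left
  rw [inf_right_comm Λ (rv (qP u d)) (rv (pP s d)), inf_right_comm Λ (rv (qP u d)) (rv (qP s d))]
    at a3
  rw [inf_right_comm Λ (rv (pP u d)) (rv (pP s d)), inf_right_comm Λ (rv (pP u d)) (rv (qP s d))]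
    at a4
  linarith

end Pool.Agent.P.MP_e72dc0_lc.TF
end

-- part Pool.Agent.P.MP_e72dc0_lc.TF.Step
section

namespace Pool.Agent.P.MP_e72dc0_lc.TF

open Pool.Agent.P.MP_db4732_co.Ent Filter Topology

variable {F : Fam} {S S' : Sys F}

theorem Step_one {T E a b X W : RV S} (hT : E ≤ T) (ha : E ≤ a) (hb : E ≤ b) (hX : E ≤ X) :
    H (T ⊓ X ⊓ W) + H (E ⊓ W) + H (T ⊓ a ⊓ b ⊓ X) + H (T ⊓ a) + H (T ⊓ b) ≤
      H (T ⊓ a ⊓ X) + H (T ⊓ b ⊓ X) + H (T ⊓ a ⊓ W) + H (T ⊓ b ⊓ W) + H E := by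
  have h1 := H_sub (T ⊓ a ⊓ W) (T ⊓ a ⊓ X) (T ⊓ a) (T ⊓ X ⊓ W ⊓ a)
    inf_le_left inf_le_left (by order)
  have h2 := H_sub (T ⊓ X ⊓ W ⊓ a) (T ⊓ X ⊓ W ⊓ b) (T ⊓ X ⊓ W) (T ⊓ a ⊓ b ⊓ X ⊓ W)
    inf_le_left inf_le_left (by order)
  have h3 := H_sub (T ⊓ b ⊓ W) (T ⊓ b ⊓ X) (T ⊓ b) (T ⊓ X ⊓ W ⊓ b)
    inf_le_left inf_le_left (by order)
  have h4 := H_sub (T ⊓ a ⊓ b ⊓ X ⊓ W) E (T ⊓ a ⊓ b ⊓ X) (E ⊓ W)
    inf_le_left (le_inf (le_inf (le_inf hT ha) hb) hX)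
    (le_inf inf_le_right (inf_le_left.trans inf_le_right))
  linarith

/-- the Ingleton inequality with the error terms of an auxiliary variable -/
theorem Step_ing {T E a b X Y W : RV S} (hT : E ≤ T) (ha : E ≤ a) (hb : E ≤ b) (hX : E ≤ X)
    (hY : E ≤ Y) (hXY : T ⊓ X ⊓ Y ≤ E) :
    H (T ⊓ W) + 3 * H (E ⊓ W) + H (T ⊓ a ⊓ b ⊓ X) + H (T ⊓ a ⊓ b ⊓ Y) + 2 * H (T ⊓ a) +
        2 * H (T ⊓ b) ≤
      H (T ⊓ a ⊓ X) + H (T ⊓ b ⊓ X) + H (T ⊓ a ⊓ Y) + H (T ⊓ b ⊓ Y) + 2 * H (T ⊓ a ⊓ W) +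
        2 * H (T ⊓ b ⊓ W) + 2 * H E := by
  have h1 := Step_one (W := W) hT ha hb hX
  have h2 := Step_one (W := W) hT ha hb hY
  have h3 := H_sub (T ⊓ X ⊓ W) (T ⊓ Y ⊓ W) (T ⊓ W) (E ⊓ W)
    (inf_le_inf_right _ inf_le_left) (inf_le_inf_right _ inf_le_left)
    (le_inf (le_trans (le_inf (inf_le_left.trans inf_le_left)
      (inf_le_right.trans (inf_le_left.trans inf_le_right))) hXY) (inf_le_left.trans inf_le_right))
  linarith

/-- the same inequality for a variable `x`, copied over `T ⊓ a ⊓ b` -/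
theorem Step_copy {T E a b X Y x : RV S} (hT : E ≤ T) (ha : E ≤ a) (hb : E ≤ b) (hX : E ≤ X)
    (hY : E ≤ Y) (hXY : T ⊓ X ⊓ Y ≤ E) (hx : T ⊓ a ⊓ b ⊓ x ≤ E) :
    H (T ⊓ x) + 4 * H E + H (T ⊓ a ⊓ b ⊓ X) + H (T ⊓ a ⊓ b ⊓ Y) + 2 * H (T ⊓ a) +
        2 * H (T ⊓ b) ≤
      H (T ⊓ a ⊓ X) + H (T ⊓ b ⊓ X) + H (T ⊓ a ⊓ Y) + H (T ⊓ b ⊓ Y) + 2 * H (T ⊓ a ⊓ x) +
        2 * H (T ⊓ b ⊓ x) + 3 * H (T ⊓ a ⊓ b) := by
  obtain ⟨S', π₁, π₂, e1, -, ind⟩ := copy S (T ⊓ a ⊓ b)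
  have eT := e1 T (inf_le_left.trans inf_le_left)
  have ea := e1 a (inf_le_left.trans inf_le_right)
  have eb := e1 b inf_le_right
  have hEZ : E ≤ T ⊓ a ⊓ b := le_inf (le_inf hT ha) hb
  have h := Step_ing (W := π₂.rv x) (π₁.mono hT) (π₁.mono ha) (π₁.mono hb) (π₁.mono hX)
    (π₁.mono hY) (π₁.mono hXY)
  have i1 := ind E (T ⊓ a ⊓ b ⊓ x) hEZ inf_le_left
  have i2 : π₁.rv E ⊓ π₂.rv (T ⊓ a ⊓ b ⊓ x) = π₁.rv E ⊓ π₂.rv x := by
    rw [Ext.rv_inf, e1 _ le_rfl, ← inf_assoc, inf_eq_left.2 (π₁.mono hEZ)]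
  have i3 := H_mono hx
  have j1 : H (π₁.rv T ⊓ π₂.rv x) = H (T ⊓ x) := by
    rw [← eT]; exact π₂.H_rv (T ⊓ x)
  have j2 : H (π₁.rv T ⊓ π₁.rv a ⊓ π₂.rv x) = H (T ⊓ a ⊓ x) := by
    rw [← eT, ← ea]; exact π₂.H_rv (T ⊓ a ⊓ x)
  have j3 : H (π₁.rv T ⊓ π₁.rv b ⊓ π₂.rv x) = H (T ⊓ b ⊓ x) := by
    rw [← eT, ← eb]; exact π₂.H_rv (T ⊓ b ⊓ x)
  rw [i2] at i1
  rw [j1, j2, j3, i1] at h
  simp only [← Ext.rv_inf, Ext.H_rv] at h
  linarith

/-- the inductive step for additivity (Ingleton inequality from a double Markov variable) -/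
theorem tstep {Λ Θ : RV S} {d : Pt S} {s t u : Lb S} (hs : In s d) (ht : In t d) (hu : In u d)
    (ls : Λ ≤ rv s) (lt : Λ ≤ rv t) (lu : Λ ≤ rv u) (h1 : Λ ⊓ rv d ≤ Θ) (h2 : Θ ≤ Λ)
    (A1 : Addi Λ d Θ s) (A2 : Addi Λ d (Θ ⊓ rv (pP s d)) t) (A3 : Addi Λ d (Θ ⊓ rv (qP s d)) t)
    (A4 : Addi Λ d (Θ ⊓ rv (qP t d)) s) (A5 : Addi Λ d (Θ ⊓ rv (qP s d)) u)
    (A6 : Addi Λ d (Θ ⊓ rv (qP t d)) u) :
    Addi Λ d (Θ ⊓ rv (qP s d) ⊓ rv (qP t d)) u := by
  unfold Addi at *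
  have es := hs.add
  have et := ht.add
  have k1 : Λ ⊓ rv d ≤ rv (qP s d) := (inf_le_inf_right _ ls).trans (le_qP s d)
  have k2 : Λ ⊓ rv d ≤ rv (qP t d) := (inf_le_inf_right _ lt).trans (le_qP t d)
  have k3 : Λ ⊓ rv d ≤ rv (pP u d) := (inf_le_inf_right _ lu).trans (le_pP u d)
  have k4 : Λ ⊓ rv d ≤ rv (qP u d) := (inf_le_inf_right _ lu).trans (le_qP u d)
  have ds := hs.le_pq
  have dt := ht.le_pq
  have du := hu.le_pq
  have dd := hs.le_diff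
  have x1 : rv (pP s d) ⊓ rv (qP t d) ≤ rv (pP s d - qP t d) := le_sub _ _
  have x2 : rv (pP t d) ⊓ rv (qP s d) ≤ rv (pP s d - qP t d) :=
    le_of_sub (by linear_combination (norm := abel) es - et)
  have x3 : rv (pP s d - qP t d) ⊓ rv (qP s d) ≤ rv (pP t d) :=
    le_of_add (by linear_combination (norm := abel) et - es)
  have y1 : rv (pP s d) ⊓ rv (pP t d) ≤ rv (pP s d - pP t d) := le_sub _ _
  have y2 : rv (qP t d) ⊓ rv (qP s d) ≤ rv (pP s d - pP t d) :=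
    le_of_sub (by linear_combination (norm := abel) es - et)
  have z : rv (pP s d - qP t d) ⊓ rv (pP s d - pP t d) ≤ rv (pP s d - qP s d) :=
    le_of_add (by linear_combination (norm := abel) et - es)
  generalize rv (pP s d - qP t d) = x at *
  generalize rv (pP s d - pP t d) = y at *
  generalize rv (pP s d - qP s d) = w at *
  generalize rv (pP s d) = ps at *
  generalize rv (qP s d) = qs at *
  generalize rv (pP t d) = pt at *
  generalize rv (qP t d) = qt at *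
  generalize rv (pP u d) = pu at *
  generalize rv (qP u d) = qu at *
  generalize rv d = D at *
  have m := Step_copy (x := x) h1 k1 k2 k3 k4
    (le_inf (inf_le_left.trans (inf_le_left.trans h2))
      (le_trans (le_inf (inf_le_left.trans inf_le_right) inf_le_right) du))
    (le_inf (inf_le_left.trans (inf_le_left.trans (inf_le_left.trans h2)))
      (le_trans (le_inf (le_trans (le_inf inf_le_right
        (inf_le_left.trans (inf_le_left.trans inf_le_right))) x3)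
        (inf_le_left.trans inf_le_right)) dt))
  have a1 := H_sub (Θ ⊓ qs ⊓ qt) (Θ ⊓ ps ⊓ pt) (Θ ⊓ y) (Λ ⊓ D)
    (le_inf (inf_le_left.trans inf_le_left)
      (le_trans (le_inf inf_le_right (inf_le_left.trans inf_le_right)) y2))
    (le_inf (inf_le_left.trans inf_le_left)
      (le_trans (le_inf (inf_le_left.trans inf_le_right) inf_le_right) y1))
    (le_inf (inf_le_left.trans (inf_le_left.trans (inf_le_left.trans h2)))
      (le_trans (le_inf (inf_le_right.trans (inf_le_left.trans inf_le_right))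
        (inf_le_left.trans (inf_le_left.trans inf_le_right))) ds))
  have a2 := H_sub (Θ ⊓ x) (Θ ⊓ y) Θ (Λ ⊓ D) inf_le_left inf_le_left
    (le_inf (inf_le_left.trans (inf_le_left.trans h2))
      (le_trans (le_inf (inf_le_left.trans (inf_le_left.trans (h2.trans ls)))
        (le_trans (inf_le_inf inf_le_right inf_le_right) z)) dd))
  have a3 := H_sub (Θ ⊓ ps ⊓ qt) (Θ ⊓ qs ⊓ qt) (Θ ⊓ qt) (Λ ⊓ D)
    (inf_le_inf_right _ inf_le_left) (inf_le_inf_right _ inf_le_left)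
    (le_inf (inf_le_left.trans (inf_le_left.trans (inf_le_left.trans h2)))
      (le_trans (inf_le_inf (inf_le_left.trans inf_le_right) (inf_le_left.trans inf_le_right)) ds))
  have b1 : H (Θ ⊓ qs ⊓ x) ≤ H (Θ ⊓ qs ⊓ pt) := H_mono (le_inf inf_le_left
    (le_trans (le_inf inf_le_right (inf_le_left.trans inf_le_right)) x2))
  have b2 : H (Θ ⊓ qt ⊓ x) ≤ H (Θ ⊓ qt ⊓ ps) := H_mono (le_inf inf_le_left
    (le_trans (le_inf inf_le_right (inf_le_left.trans inf_le_right)) x1))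
  have b3 : Θ ⊓ qt ⊓ qs = Θ ⊓ qs ⊓ qt := inf_right_comm _ _ _
  rw [b3] at A4
  linarith

end Pool.Agent.P.MP_e72dc0_lc.TF
end

-- part Pool.Agent.P.MP_e72dc0_lc.TF.Tadd
section

namespace Pool.Agent.P.MP_e72dc0_lc.TF

open Pool.Agent.P.MP_db4732_co.Ent Filter Topology

variable {F : Fam} {S S' : Sys F}

theorem Tadd_ctx (Λ c x : RV S) : Λ ⊓ (x ⊓ c) = Λ ⊓ c ⊓ x := by
  rw [inf_comm x c, inf_assoc]

theorem Tadd_nil {Λ : RV S} {d : Pt S} {u : Lb S} (h : Free Λ d [u]) :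
    Addi Λ d (Λ ⊓ cq d []) u := by
  have hu : In u d := h.inc u (by simp)
  have lu : Λ ≤ rv u := h.le u (by simp)
  have h1 := H_mem hu.memP lu
  have h2 := H_mem (V := Λ) hu.memQ (by rw [rv_fl]; exact lu)
  have h3 := h.pt
  unfold Addi
  rw [cq_nil, inf_top_eq]
  linarith

theorem Tadd_one {Λ : RV S} {d : Pt S} {u s : Lb S} (h : Free Λ d [u, s]) :
    Addi Λ d (Λ ⊓ cq d [s]) u := by
  have h1 := pair (h.perm (List.Perm.swap s u []))
  have h2 := pair (h.flip.perm (List.Perm.swap s (fl u) []))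
  have h3 := single (h.sublist (List.Sublist.cons u (List.Sublist.refl [s])))
  rw [qP_fl] at h2
  unfold Addi
  rw [cq_cons, cq_nil, inf_top_eq]
  linarith

theorem Tadd_aux {Λ : RV S} {d : Pt S} (n : ℕ) : ∀ (u : Lb S) (l : List (Lb S)), l.length ≤ n →
    Free Λ d (u :: l) → Addi Λ d (Λ ⊓ cq d l) u := by
  induction n with
  | zero =>
    intro u l hl h
    have : l = [] := List.length_eq_zero_iff.mp (Nat.le_zero.mp hl)
    subst this
    exact Tadd_nil h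
  | succ n ih =>
    intro u l hl h
    match l, hl, h with
    | [], _, h => exact Tadd_nil h
    | [s], _, h => exact Tadd_one h
    | s :: t :: l', hl, h =>
      have hl1 : l'.length + 1 ≤ n := by simpa using hl
      have hst : Free Λ d (s :: t :: l') := h.sublist (List.Sublist.cons u (List.Sublist.refl _))
      have hts : Free Λ d (t :: s :: l') := hst.perm (List.Perm.swap t s l')
      have hs1 : Free Λ d (s :: l') := hts.sublist (List.Sublist.cons t (List.Sublist.refl _))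
      have hl' : Free Λ d l' := hs1.sublist (List.Sublist.cons s (List.Sublist.refl _))
      have hfs : Free Λ d (t :: fl s :: l') := hst.flip.perm (List.Perm.swap t (fl s) l')
      have hus : Free Λ d (u :: s :: l') :=
        h.sublist (List.Sublist.cons_cons u (List.Sublist.cons_cons s
          (List.Sublist.cons t (List.Sublist.refl _))))
      have hut : Free Λ d (u :: t :: l') :=
        h.sublist (List.Sublist.cons_cons u (List.Sublist.cons s (List.Sublist.refl _)))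
      have A1 := ih s l' (by omega) hs1
      have A2 := ih t (fl s :: l') (by simpa using hl1) hfs
      have A3 := ih t (s :: l') (by simpa using hl1) hts
      have A4 := ih s (t :: l') (by simpa using hl1) hst
      have A5 := ih u (s :: l') (by simpa using hl1) hus
      have A6 := ih u (t :: l') (by simpa using hl1) hut
      rw [cq_cons, Tadd_ctx] at A2 A3 A4 A5 A6
      rw [qP_fl] at A2
      have key := tstep (Θ := Λ ⊓ cq d l') (h.inc s (by simp)) (h.inc t (by simp))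
        (h.inc u (by simp)) (h.le s (by simp)) (h.le t (by simp)) (h.le u (by simp))
        (le_inf inf_le_left hl'.le_cq) inf_le_left A1 A2 A3 A4 A5 A6
      have e : Λ ⊓ cq d (s :: t :: l') = Λ ⊓ cq d l' ⊓ rv (qP s d) ⊓ rv (qP t d) := by
        rw [cq_cons, cq_cons, ← inf_assoc (rv (qP s d)), Tadd_ctx, ← inf_assoc]
      rw [e]
      exact key

theorem addT {Λ : RV S} {d : Pt S} {u : Lb S} {l : List (Lb S)} (h : Free Λ d (u :: l)) :
    Addi Λ d (Λ ⊓ cq d l) u :=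
  Tadd_aux l.length u l le_rfl h

end Pool.Agent.P.MP_e72dc0_lc.TF
end

-- part Pool.Agent.P.MP_e72dc0_lc.TF.Tri
section

namespace Pool.Agent.P.MP_e72dc0_lc.TF

open Pool.Agent.P.MP_db4732_co.Ent Filter Topology

variable {F : Fam} {S S' : Sys F}

section
variable {t a b : Lb S} {d d0 d1 d2 : Pt S}

theorem tri_one (s : Lb S) : H (rv s) ≤ 1 := by
  have := H_lb ⊤ s
  rwa [top_inf_eq, H_top, zero_add] at this

theorem tri_two (s u : Lb S) : H (rv s ⊓ rv u) ≤ 2 := by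
  linarith [H_lb (rv s) u, tri_one s]

theorem Fr3.swap12 (h : Fr3 t a b d) : Fr3 a t b d := by
  refine ⟨?_, h.ia, h.it, h.ib, ?_⟩
  · rw [inf_comm (rv a)]
    exact h.lab
  · rw [inf_comm (rv a)]
    exact h.pt

theorem Fr3.swap23 (h : Fr3 t a b d) : Fr3 t b a d := by
  refine ⟨?_, h.it, h.ib, h.ia, ?_⟩
  · rw [inf_right_comm (rv t)]
    exact h.lab
  · rw [inf_right_comm (rv t)]
    exact h.pt

theorem Fr3.flip1 (h : Fr3 t a b d) : Fr3 (fl t) a b d := by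
  refine ⟨?_, h.it.flip, h.ia, h.ib, ?_⟩
  · rw [rv_fl]
    exact h.lab
  · rw [rv_fl]
    exact h.pt

theorem Fr3.flip2 (h : Fr3 t a b d) : Fr3 t (fl a) b d := by
  exact h.swap12.flip1.swap12

theorem Fr3.flip3 (h : Fr3 t a b d) : Fr3 t a (fl b) d := by
  exact h.swap23.flip2.swap23

theorem Fr3.pull (h : Fr3 t a b d) (π : Ext S' S) : Fr3 (π.fn t) (π.fn a) (π.fn b) (π.fn d) := by
  exact ⟨h.lab.trans (π.H_rv _).ge, h.it.pull π, h.ia.pull π, h.ib.pull π,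
    h.pt.trans (π.H_rv _).ge⟩

theorem Fr3.H3 (h : Fr3 t a b d) : H (rv t ⊓ rv a ⊓ rv b) = 3 := by
  linarith [h.lab, H_lb (rv t ⊓ rv a) b, tri_two t a]

theorem Fr3.H3d (h : Fr3 t a b d) : H (rv t ⊓ rv a ⊓ rv b ⊓ rv d) = 5 := by
  linarith [h.pt, h.H3, H_pt (rv t ⊓ rv a ⊓ rv b) d]

theorem Fr3.H2 (h : Fr3 t a b d) : H (rv a ⊓ rv b) = 2 := by
  have h1 := H_lb (rv a ⊓ rv b) t
  rw [inf_comm _ (rv t), ← inf_assoc] at h1
  linarith [h.lab, tri_two a b]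

theorem Fr3.H2d (h : Fr3 t a b d) : H (rv a ⊓ rv b ⊓ rv d) = 4 := by
  have h1 := H_lb (rv a ⊓ rv b ⊓ rv d) t
  rw [inf_comm _ (rv t), ← inf_assoc, ← inf_assoc] at h1
  linarith [h.pt, h.H2, H_pt (rv a ⊓ rv b) d]

theorem Fr3.H1 (h : Fr3 t a b d) : H (rv a) = 1 := by
  linarith [h.H2, H_lb (rv a) b, tri_one a]

theorem Fr3.H1d (h : Fr3 t a b d) : H (rv a ⊓ rv d) = 3 := by
  have h1 := H_lb (rv a ⊓ rv d) b
  rw [inf_right_comm] at h1
  linarith [h.H2d, h.H1, H_pt (rv a) d]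

theorem Fr3.H0d (h : Fr3 t a b d) : H (rv d) = 2 := by
  have h1 := H_lb (rv d) a
  have h2 := H_pt ⊤ d
  rw [inf_comm] at h1
  rw [top_inf_eq, H_top] at h2
  linarith [h.H1d]

theorem Fr3.free3 (h : Fr3 t a b d) : Free (rv t ⊓ rv a ⊓ rv b) d [t, a, b] := by
  refine ⟨?_, ?_, by linarith [h.H3, h.H3d], ?_, ?_⟩
  · simp only [List.forall_mem_cons]
    exact ⟨h.it, h.ia, h.ib, by simp⟩
  · simp only [List.forall_mem_cons]
    exact ⟨inf_le_left.trans inf_le_left, inf_le_left.trans inf_le_right, inf_le_right, by simp⟩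
  · simp only [List.forall_mem_cons]
    exact ⟨h.swap12.H1.ge, h.H1.ge, h.swap23.H1.ge, by simp⟩
  · simp only [List.pairwise_cons, List.forall_mem_cons]
    exact ⟨⟨h.swap23.swap12.H2.ge, h.swap12.H2.ge, by simp⟩, ⟨h.H2.ge, by simp⟩, by simp, by simp⟩

theorem Fr3.free2 (h : Fr3 t a b d) : Free (rv a ⊓ rv b) d [a, b] := by
  refine ⟨?_, ?_, by linarith [h.H2, h.H2d], ?_, ?_⟩
  · simp only [List.forall_mem_cons]
    exact ⟨h.ia, h.ib, by simp⟩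
  · simp only [List.forall_mem_cons]
    exact ⟨inf_le_left, inf_le_right, by simp⟩
  · simp only [List.forall_mem_cons]
    exact ⟨h.H1.ge, h.swap23.H1.ge, by simp⟩
  · simp only [List.pairwise_cons, List.forall_mem_cons]
    exact ⟨⟨h.H2.ge, by simp⟩, by simp, by simp⟩

theorem Fr3.free1 (h : Fr3 t a b d) : Free (rv a) d [a] := by
  refine ⟨?_, ?_, by linarith [h.H1, h.H1d], ?_, by simp⟩
  · simp only [List.forall_mem_cons]
    exact ⟨h.ia, by simp⟩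
  · simp only [List.forall_mem_cons]
    exact ⟨le_rfl, by simp⟩
  · simp only [List.forall_mem_cons]
    exact ⟨h.H1.ge, by simp⟩

theorem co_swap12 : co a t b d = co t a b d := by
  unfold co
  rw [inf_comm (rv a), inf_right_comm _ (rv (qP a d))]

theorem co_swap23 : co t b a d = co t a b d := by
  unfold co
  rw [inf_right_comm (rv t), inf_right_comm _ (rv (qP b d))]

theorem co_pull (π : Ext S' S) : co (π.fn t) (π.fn a) (π.fn b) (π.fn d) = co t a b d := by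
  exact π.H_rv (rv t ⊓ rv a ⊓ rv b ⊓ rv (qP t d) ⊓ rv (qP a d) ⊓ rv (qP b d))

/-- the two atoms add up to a quarter of size one half -/
theorem Fr3.co_add (h : Fr3 t a b d) : co t a b d + co t a (fl b) d = 19 / 2 := by
  have f3 := h.free3
  have h1 := addT (u := b) (l := [t, a])
    (f3.perm (List.perm_append_comm (l₁ := [t, a]) (l₂ := [b])))
  have h2 := superadd (Λ := rv t ⊓ rv a ⊓ rv b)
    (Θ := rv t ⊓ rv a ⊓ rv b ⊓ rv (qP t d) ⊓ rv (qP a d)) h.ib (inf_le_left.trans inf_le_left)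
  have h3 := pair (f3.sublist (List.sublist_append_left [t, a] [b]))
  unfold Addi at h1
  simp only [cq_cons, cq_nil, inf_top_eq, ← inf_assoc] at h1
  unfold co
  rw [rv_fl, qP_fl]
  linarith [h.H3d]

end

end Pool.Agent.P.MP_e72dc0_lc.TF
end

-- part Pool.Agent.P.MP_e72dc0_lc.TF.Tri2
section

namespace Pool.Agent.P.MP_e72dc0_lc.TF

open Pool.Agent.P.MP_db4732_co.Ent Filter Topology

variable {F : Fam} {S S' : Sys F}

section
variable {t a b : Lb S} {d d0 d1 d2 : Pt S}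

theorem Valid.co1 (h : Valid t a b d0 d1 d2) : co t a b d1 = co t a b d0 := by
  unfold co
  rw [h.t1, h.a1, h.b1]

theorem Valid.co2 (h : Valid t a b d0 d1 d2) : co t a b d2 = co t a b d0 := by
  unfold co
  rw [h.t2, h.a2, h.b2]

theorem Valid.swap12 (h : Valid t a b d0 d1 d2) : Valid a t b d0 d1 d2 := by
  refine ⟨h.f0.swap12, h.f1.swap12, h.f2.swap12, h.a1, h.a2, h.t1, h.t2, h.b1, h.b2, ?_⟩
  have := h.full
  rw [co_swap12, inf_comm (rv a) (rv t)]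
  exact this

theorem Valid.swap23 (h : Valid t a b d0 d1 d2) : Valid t b a d0 d1 d2 := by
  refine ⟨h.f0.swap23, h.f1.swap23, h.f2.swap23, h.t1, h.t2, h.b1, h.b2, h.a1, h.a2, ?_⟩
  have := h.full
  rw [co_swap23, inf_right_comm (rv t) (rv b) (rv a)]
  exact this

theorem Valid.pswap01 (h : Valid t a b d0 d1 d2) : Valid t a b d1 d0 d2 := by
  refine ⟨h.f1, h.f0, h.f2, h.t1.symm, h.t2.trans h.t1.symm, h.a1.symm, h.a2.trans h.a1.symm,
    h.b1.symm, h.b2.trans h.b1.symm, ?_⟩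
  have := h.full
  rw [h.co1, inf_right_comm (rv t ⊓ rv a ⊓ rv b) (rv d1) (rv d0)]
  exact this

theorem Valid.pswap12 (h : Valid t a b d0 d1 d2) : Valid t a b d0 d2 d1 := by
  refine ⟨h.f0, h.f2, h.f1, h.t2, h.t1, h.a2, h.a1, h.b2, h.b1, ?_⟩
  have := h.full
  rw [inf_right_comm (rv t ⊓ rv a ⊓ rv b ⊓ rv d0) (rv d2) (rv d1)]
  exact this

theorem Valid.pull (h : Valid t a b d0 d1 d2) (π : Ext S' S) :
    Valid (π.fn t) (π.fn a) (π.fn b) (π.fn d0) (π.fn d1) (π.fn d2) := by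
  refine ⟨h.f0.pull π, h.f1.pull π, h.f2.pull π, congrArg π.fn h.t1, congrArg π.fn h.t2,
    congrArg π.fn h.a1, congrArg π.fn h.a2, congrArg π.fn h.b1, congrArg π.fn h.b2, ?_⟩
  have h1 := π.H_rv (rv t ⊓ rv a ⊓ rv b ⊓ rv d0 ⊓ rv d1 ⊓ rv d2)
  simp only [Ext.rv_inf, Ext.rv_rv] at h1
  rw [h1, co_pull]
  exact h.full

theorem tri2_le (t a b : Lb S) (d : Pt S) : rv t ⊓ rv a ⊓ rv b ⊓ rv d ≤
    rv t ⊓ rv a ⊓ rv b ⊓ rv (qP t d) ⊓ rv (qP a d) ⊓ rv (qP b d) := by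
  have := le_qP t d
  have := le_qP a d
  have := le_qP b d
  order

theorem tri2_bounds (h : Valid t a b d0 d1 d2) :
    H (rv t ⊓ rv a ⊓ rv b ⊓ rv d0 ⊓ rv d1) + co t a b d0 ≤ 10 ∧
    H (rv t ⊓ rv a ⊓ rv b ⊓ rv d0 ⊓ rv d1 ⊓ rv d2) + co t a b d0 ≤
      H (rv t ⊓ rv a ⊓ rv b ⊓ rv d0 ⊓ rv d1) + 5 := by
  have l0 := tri2_le t a b d0
  have l1 := tri2_le t a b d1
  have l2 := tri2_le t a b d2
  rw [h.t1, h.a1, h.b1] at l1
  rw [h.t2, h.a2, h.b2] at l2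
  have e0 := h.f0.H3d
  have e1 := h.f1.H3d
  have e2 := h.f2.H3d
  have s1 := H_sub _ _ _ (rv t ⊓ rv a ⊓ rv b ⊓ rv d0 ⊓ rv d1) l0 l1 (by order)
  have s2 := H_sub (rv t ⊓ rv a ⊓ rv b ⊓ rv d0 ⊓ rv d1) _ _
    (rv t ⊓ rv a ⊓ rv b ⊓ rv d0 ⊓ rv d1 ⊓ rv d2) (inf_le_left.trans l0) l2 (by order)
  unfold co
  constructor <;> linarith

/-- two of the three points -/
theorem Valid.H01 (h : Valid t a b d0 d1 d2) :
    H (rv t ⊓ rv a ⊓ rv b ⊓ rv d0 ⊓ rv d1) = 10 - co t a b d0 := by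
  obtain ⟨h1, h2⟩ := tri2_bounds h
  have := h.full
  linarith

theorem Valid.H012 (h : Valid t a b d0 d1 d2) :
    H (rv t ⊓ rv a ⊓ rv b ⊓ rv d0 ⊓ rv d1 ⊓ rv d2) = 15 - 2 * co t a b d0 := by
  obtain ⟨h1, h2⟩ := tri2_bounds h
  have := h.full
  linarith

/-- a new point in the atom of `d` -/
theorem tri2_new (h : Fr3 t a b d) : ∃ (S' : Sys F) (π : Ext S' S) (e : Pt S'),
    Fr3 (π.fn t) (π.fn a) (π.fn b) e ∧ qP (π.fn t) e = qP (π.fn t) (π.fn d) ∧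
    qP (π.fn a) e = qP (π.fn a) (π.fn d) ∧ qP (π.fn b) e = qP (π.fn b) (π.fn d) ∧
    ∀ W : RV S, W ≤ rv t ⊓ rv a ⊓ rv b ⊓ rv d → H (π.rv W ⊓ rv e) = H W + 5 - co t a b d := by
  obtain ⟨S', π₁, π₂, -, e2, ind⟩ :=
    copy S (rv t ⊓ rv a ⊓ rv b ⊓ rv (qP t d) ⊓ rv (qP a d) ⊓ rv (qP b d))
  have et := e2 _ t (by order)
  have ea := e2 _ a (by order)
  have eb := e2 _ b (by order)
  have qt := e2 _ (qP t d) (by order)
  have qa := e2 _ (qP a d) (by order)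
  have qb := e2 _ (qP b d) (by order)
  simp only [Ext.fn_qP, et, ea, eb] at qt qa qb
  have hf := h.pull π₂
  rw [et, ea, eb] at hf
  refine ⟨S', π₁, π₂.fn d, hf, qt, qa, qb, fun W hW => ?_⟩
  have l0 := tri2_le t a b d
  have h1 := ind W _ (hW.trans l0) l0
  have h2 := π₁.mono hW
  simp only [Ext.rv_inf, Ext.rv_rv, et, ea, eb] at h1 h2
  rw [h.H3d] at h1
  unfold co
  rw [← h1]
  exact H_congr (by order) (by order)

theorem Fr3.valid (h : Fr3 t a b d) : ∃ (S' : Sys F) (π : Ext S' S) (d1 d2 : Pt S'),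
    Valid (π.fn t) (π.fn a) (π.fn b) (π.fn d) d1 d2 := by
  obtain ⟨S1, π, e, f1, qt, qa, qb, h1⟩ := tri2_new h
  obtain ⟨S2, ρ, e', f2, qt', qa', qb', h2⟩ := tri2_new (h.pull π)
  refine ⟨S2, ρ.comp π, ρ.fn e, e', h.pull _, f1.pull ρ, f2, congrArg ρ.fn qt, qt',
    congrArg ρ.fn qa, qa', congrArg ρ.fn qb, qb', ?_⟩
  have k1 := h1 _ le_rfl
  have k2 := h2 (π.rv (rv t ⊓ rv a ⊓ rv b ⊓ rv d) ⊓ rv e) inf_le_left
  rw [k1, co_pull, h.H3d] at k2
  rw [co_pull]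
  simp only [Ext.rv_inf, Ext.rv_rv] at k2
  simp only [Ext.comp_fn]
  linarith

end

/-- a new label through the point `d` -/
theorem tri2_lab {s : Lb S} {d : Pt S} (hs : In s d) (h : 3 ≤ H (rv s ⊓ rv d)) :
    ∃ (S' : Sys F) (π : Ext S' S) (r : Lb S'), In r (π.fn d) ∧
      ∀ W : RV S, W ≤ rv d → H W + 1 ≤ H (π.rv W ⊓ rv r) := by
  obtain ⟨S', π₁, π₂, -, e2, ind⟩ := copy S (rv d)
  have ed := e2 _ d le_rfl
  have hi := hs.pull π₂
  rw [ed] at hi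
  refine ⟨S', π₁, π₂.fn s, hi, fun W hW => ?_⟩
  have h1 := ind W (rv s ⊓ rv d) hW inf_le_right
  have h2 := π₁.mono hW
  simp only [Ext.rv_inf, Ext.rv_rv, ed] at h1 h2
  have h3 := H_pt (⊤ : RV S) d
  rw [top_inf_eq, H_top] at h3
  have h4 : H (π₁.rv W ⊓ rv (π₂.fn s)) = H (π₁.rv W ⊓ (rv (π₂.fn s) ⊓ rv (π₁.fn d))) :=
    H_congr (by order) (by order)
  linarith

theorem exist3 (F : Fam) : ∃ (S : Sys F) (t a b : Lb S) (d : Pt S), Fr3 t a b d := by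
  obtain ⟨S, d, s, hs, h⟩ := exist0 F
  obtain ⟨S1, π, r, hr, h1⟩ := tri2_lab hs h
  have h' : 3 ≤ H (rv (π.fn s) ⊓ rv (π.fn d)) := by
    have := π.H_rv (rv s ⊓ rv d)
    simp only [Ext.rv_inf, Ext.rv_rv] at this
    linarith
  obtain ⟨S2, ρ, u, hu, h2⟩ := tri2_lab (hs.pull π) h'
  have k1 := h1 (rv s ⊓ rv d) inf_le_right
  have k2 := h2 (π.rv (rv s ⊓ rv d) ⊓ rv r) (inf_le_left.trans (π.mono inf_le_right))
  simp only [Ext.rv_inf, Ext.rv_rv] at k1 k2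
  have k3 : H (rv (ρ.fn (π.fn s)) ⊓ rv (ρ.fn r) ⊓ rv u ⊓ rv (ρ.fn (π.fn d))) =
      H (rv (ρ.fn (π.fn s)) ⊓ rv (ρ.fn (π.fn d)) ⊓ rv (ρ.fn r) ⊓ rv u) :=
    H_congr (by order) (by order)
  have k4 := H_pt (rv (ρ.fn (π.fn s)) ⊓ rv (ρ.fn r) ⊓ rv u) (ρ.fn (π.fn d))
  exact ⟨S2, ρ.fn (π.fn s), ρ.fn r, u, ρ.fn (π.fn d), by linarith, (hs.pull π).pull ρ,
    hr.pull ρ, hu, by linarith⟩

end Pool.Agent.P.MP_e72dc0_lc.TF
end

-- part Pool.Agent.P.MP_e72dc0_lc.TF.LemA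
section

namespace Pool.Agent.P.MP_e72dc0_lc.TF

open Pool.Agent.P.MP_db4732_co.Ent Filter Topology

variable {F : Fam} {S S' : Sys F}

theorem LemA_xi {s r : Lb S} {e : Pt S} (hs : In s e) (hr : In r e) :
    pP s e - qP r e = pP r e - qP s e := by
  rw [sub_eq_sub_iff_add_eq_add, hs.add, hr.add]

theorem LemA_sub (Λ : RV S) {s r : Lb S} {d e ξ : Pt S} (hs : In s e) (hr : In r e)
    (qs : qP s d = qP s e) (qr : qP r d = qP r e) (h1 : Λ ≤ rv s) (h2 : Λ ≤ rv r)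
    (hξ : ξ = pP s e - qP r e) :
    H (Λ ⊓ rv d ⊓ rv e) - H (Λ ⊓ rv d) + H (Λ ⊓ rv ξ ⊓ rv (pP s e)) - H (Λ ⊓ rv ξ) ≤ 1 := by
  obtain ⟨S', π₁, π₂, e1, e2, ind⟩ := copy S (Λ ⊓ rv ξ)
  have hi := ind (Λ ⊓ rv ξ ⊓ rv d ⊓ rv e) (Λ ⊓ rv ξ ⊓ rv (pP s e)) (by order) (by order)
  have es : π₂.fn s = π₁.fn s := e2 _ s (by order)
  have er : π₂.fn r = π₁.fn r := e2 _ r (by order)
  have eξ : π₂.fn ξ = π₁.fn ξ := e2 _ ξ (by order)
  have eΛ : π₂.rv Λ = π₁.rv Λ := e1 Λ (by order)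
  simp only [Ext.rv_inf, Ext.rv_rv, Ext.fn_pP, es, eξ, eΛ] at hi
  have hΛd := π₁.H_rv (Λ ⊓ rv d)
  simp only [Ext.rv_inf, Ext.rv_rv] at hΛd
  have a1 : π₁.rv Λ ≤ rv (π₁.fn s) := π₁.mono h1
  have a2 : π₁.rv Λ ≤ rv (π₁.fn r) := π₁.mono h2
  have hs1 := hs.pull π₁
  have hr1 := hr.pull π₁
  have hs2 := hs.pull π₂
  have hr2 := hr.pull π₂
  rw [es] at hs2
  rw [er] at hr2
  have qs1 : qP (π₁.fn s) (π₁.fn d) = qP (π₁.fn s) (π₁.fn e) := congrArg π₁.fn qs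
  have qr1 : qP (π₁.fn r) (π₁.fn d) = qP (π₁.fn r) (π₁.fn e) := congrArg π₁.fn qr
  have x1 : π₁.fn ξ = pP (π₁.fn s) (π₁.fn e) - qP (π₁.fn r) (π₁.fn e) := congrArg π₁.fn hξ
  have x2 : π₁.fn ξ = pP (π₁.fn s) (π₂.fn e) - qP (π₁.fn r) (π₂.fn e) := by
    have : π₂.fn ξ = pP (π₂.fn s) (π₂.fn e) - qP (π₂.fn r) (π₂.fn e) := congrArg π₂.fn hξ
    rwa [eξ, es, er] at this
  have x3 := x1.trans (LemA_xi hs1 hr1)
  generalize π₁.fn s = s1 at *
  generalize π₁.fn r = r1 at *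
  generalize π₁.fn d = d1 at *
  generalize π₁.fn e = e1' at *
  generalize π₂.fn e = e2' at *
  generalize π₁.fn ξ = ξ1 at *
  generalize π₁.rv Λ = Λ1 at *
  have hf : pP r1 e1' + qP r1 e2' = pP s1 e2' + qP s1 d1 := by
    rw [qs1]
    have := x2.symm.trans x3
    rw [sub_eq_sub_iff_add_eq_add] at this
    exact this.symm
  have b1 := (of_mem hr1.memP hr2.memQ).2.1
  have b2 := le_pP r1 (pP r1 e1' + qP r1 e2')
  rw [b1] at b2
  have b3 := le_of_add hf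
  have b4 := le_qP s1 d1
  have b5 := le_qP r1 d1
  have b5' : rv (qP r1 d1) = rv (qP r1 e1') := by rw [qr1]
  have b6 := hr1.le_pq
  have b7 := le_of_sub x1
  have b8 := le_pP s1 e1'
  have c1 := H_mem (V := Λ1 ⊓ rv d1) hs2.memP (by order)
  have c2 : H (Λ1 ⊓ rv ξ1 ⊓ rv d1 ⊓ rv e1' ⊓ (Λ1 ⊓ rv ξ1 ⊓ rv (pP s1 e2'))) ≤
      H (Λ1 ⊓ rv d1 ⊓ rv (pP s1 e2')) := H_mono (by order)
  have c3 : H (Λ ⊓ rv d ⊓ rv e) ≤ H (Λ ⊓ rv ξ ⊓ rv d ⊓ rv e) := H_mono (by order)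
  linarith

theorem lemA (V : RV S) {s r : Lb S} {d e : Pt S} (hs : In s e) (hr : In r e)
    (qs : qP s d = qP s e) (qr : qP r d = qP r e) :
    H (V ⊓ rv s ⊓ rv r ⊓ rv e) +
      2 * (H (V ⊓ rv s ⊓ rv r ⊓ rv d ⊓ rv e) - H (V ⊓ rv s ⊓ rv r ⊓ rv d)) ≤ H V + 5 := by
  have h1 := LemA_sub (V ⊓ rv s ⊓ rv r) hs hr qs qr (by order) (by order) rfl
  have h2 := LemA_sub (V ⊓ rv s ⊓ rv r) hr hs qr qs (by order) (by order) (LemA_xi hs hr)
  have h3 := H_det (V := V ⊓ rv s ⊓ rv (pP s e - qP r e)) hs hr.flip (by order) inf_le_right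
  rw [rv_fl] at h3
  have h4 := H_pt (V ⊓ rv s) (pP s e - qP r e)
  have h5 := H_lb V s
  have h6 : H (V ⊓ rv s ⊓ rv r ⊓ rv (pP s e - qP r e)) =
      H (V ⊓ rv s ⊓ rv (pP s e - qP r e) ⊓ rv r) := H_congr (by order) (by order)
  have b1 := hr.le_pq
  have b2 : rv (pP s e) ⊓ rv (pP s e - qP r e) ≤ rv (qP r e) :=
    le_of_sub (sub_sub_cancel _ _).symm
  have h7 := H_sub (V ⊓ rv s ⊓ rv r ⊓ rv (pP s e - qP r e) ⊓ rv (pP s e))
    (V ⊓ rv s ⊓ rv r ⊓ rv (pP s e - qP r e) ⊓ rv (pP r e))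
    (V ⊓ rv s ⊓ rv r ⊓ rv (pP s e - qP r e)) (V ⊓ rv s ⊓ rv r ⊓ rv e)
    (by order) (by order) (by order)
  linarith

theorem LemA_four (V : RV S) (s r : Lb S) (d : Pt S) :
    H (V ⊓ rv s ⊓ rv r ⊓ rv d) ≤ H V + 4 := by
  have h1 := H_pt (V ⊓ rv s ⊓ rv r) d
  have h2 := H_lb (V ⊓ rv s) r
  have h3 := H_lb V s
  linarith

theorem twoPt (V : RV S) {s : Lb S} {d e : Pt S} (hd : In s d) (he : In s e)
    (q : qP s e = qP s d) :
    2 * H (V ⊓ rv d ⊓ rv e ⊓ rv s) - H (V ⊓ rv d ⊓ rv e) ≤ H V + 9 / 2 := by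
  obtain ⟨S', π₁, π₂, e1, e2, ind⟩ := copy S (V ⊓ rv d ⊓ rv e)
  have hi := ind (V ⊓ rv d ⊓ rv e ⊓ rv s) (V ⊓ rv d ⊓ rv e ⊓ rv s) (by order) (by order)
  have ed : π₂.fn d = π₁.fn d := e2 _ d (by order)
  have ee : π₂.fn e = π₁.fn e := e2 _ e (by order)
  have eV : π₂.rv V = π₁.rv V := e1 V (by order)
  simp only [Ext.rv_inf, Ext.rv_rv, ed, ee, eV] at hi
  have hV := π₁.H_rv V
  have hd1 := hd.pull π₁
  have he1 := he.pull π₁
  have hd2 := hd.pull π₂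
  have he2 := he.pull π₂
  have q1 : qP (π₁.fn s) (π₁.fn e) = qP (π₁.fn s) (π₁.fn d) := congrArg π₁.fn q
  have q2 : qP (π₂.fn s) (π₂.fn e) = qP (π₂.fn s) (π₂.fn d) := congrArg π₂.fn q
  rw [ed] at hd2 q2
  rw [ee] at he2 q2
  generalize π₁.fn s = s1 at *
  generalize π₂.fn s = r1 at *
  generalize π₁.fn d = d1 at *
  generalize π₁.fn e = e1' at *
  generalize π₁.rv V = V1 at *
  have a1 := lemA V1 he1 he2 q1.symm q2.symm
  have a2 := lemA V1 hd1 hd2 q1 q2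
  have a3 := LemA_four V1 s1 r1 d1
  have a4 := LemA_four V1 s1 r1 e1'
  have c1 : H (V1 ⊓ rv s1 ⊓ rv r1 ⊓ rv e1' ⊓ rv d1) = H (V1 ⊓ rv s1 ⊓ rv r1 ⊓ rv d1 ⊓ rv e1') :=
    H_congr (by order) (by order)
  have c2 : H (V1 ⊓ rv d1 ⊓ rv e1' ⊓ rv s1 ⊓ (V1 ⊓ rv d1 ⊓ rv e1' ⊓ rv r1)) =
      H (V1 ⊓ rv s1 ⊓ rv r1 ⊓ rv d1 ⊓ rv e1') := H_congr (by order) (by order)
  linarith

theorem LemA_centre (V : RV S) {s r : Lb S} {d0 d1 d2 : Pt S} (s1 : In s d1) (s2 : In s d2)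
    (r1 : In r d1) (r2 : In r d2) (a1 : qP s d0 = qP s d1) (a2 : qP s d0 = qP s d2)
    (b1 : qP r d0 = qP r d1) (b2 : qP r d0 = qP r d2) (X : RV S)
    (hX : V ⊓ rv s ⊓ rv r ⊓ rv d0 ⊓ rv d1 ⊓ rv d2 ≤ X) :
    2 * H X + H (V ⊓ rv s ⊓ rv r ⊓ rv d1) + H (V ⊓ rv s ⊓ rv r ⊓ rv d2) ≤
      2 * H (V ⊓ rv s ⊓ rv r ⊓ rv d0) + 2 * (H V + 5) := by
  have h1 := lemA V s1 r1 a1 b1
  have h2 := lemA V s2 r2 a2 b2
  have h3 := H_sub (V ⊓ rv s ⊓ rv r ⊓ rv d0 ⊓ rv d1) (V ⊓ rv s ⊓ rv r ⊓ rv d0 ⊓ rv d2)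
    (V ⊓ rv s ⊓ rv r ⊓ rv d0) X (by order) (by order) (by order)
  linarith

theorem threePt (V : RV S) {s : Lb S} {d0 d1 d2 : Pt S} (h0 : In s d0) (h1 : In s d1)
    (h2 : In s d2) (q1 : qP s d1 = qP s d0) (q2 : qP s d2 = qP s d0) :
    2 * H (V ⊓ rv d0 ⊓ rv d1 ⊓ rv d2 ⊓ rv s) - H (V ⊓ rv d0 ⊓ rv d1 ⊓ rv d2) ≤ H V + 5 := by
  obtain ⟨S', π₁, π₂, e1, e2, ind⟩ := copy S (V ⊓ rv d0 ⊓ rv d1 ⊓ rv d2)
  have hi := ind (V ⊓ rv d0 ⊓ rv d1 ⊓ rv d2 ⊓ rv s) (V ⊓ rv d0 ⊓ rv d1 ⊓ rv d2 ⊓ rv s)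
    (by order) (by order)
  have ed0 : π₂.fn d0 = π₁.fn d0 := e2 _ d0 (by order)
  have ed1 : π₂.fn d1 = π₁.fn d1 := e2 _ d1 (by order)
  have ed2 : π₂.fn d2 = π₁.fn d2 := e2 _ d2 (by order)
  have eV : π₂.rv V = π₁.rv V := e1 V (by order)
  simp only [Ext.rv_inf, Ext.rv_rv, ed0, ed1, ed2, eV] at hi
  have hV := π₁.H_rv V
  have a0 := h0.pull π₁
  have a1 := h1.pull π₁
  have a2 := h2.pull π₁
  have b0 := h0.pull π₂
  have b1 := h1.pull π₂
  have b2 := h2.pull π₂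
  have p1 : qP (π₁.fn s) (π₁.fn d1) = qP (π₁.fn s) (π₁.fn d0) := congrArg π₁.fn q1
  have p2 : qP (π₁.fn s) (π₁.fn d2) = qP (π₁.fn s) (π₁.fn d0) := congrArg π₁.fn q2
  have r1 : qP (π₂.fn s) (π₂.fn d1) = qP (π₂.fn s) (π₂.fn d0) := congrArg π₂.fn q1
  have r2 : qP (π₂.fn s) (π₂.fn d2) = qP (π₂.fn s) (π₂.fn d0) := congrArg π₂.fn q2
  rw [ed0] at b0 r1 r2
  rw [ed1] at b1 r1
  rw [ed2] at b2 r2
  generalize π₁.fn s = s' at *
  generalize π₂.fn s = r' at *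
  generalize π₁.fn d0 = x0 at *
  generalize π₁.fn d1 = x1 at *
  generalize π₁.fn d2 = x2 at *
  generalize π₁.rv V = V1 at *
  have c0 := LemA_centre V1 a1 a2 b1 b2 p1.symm p2.symm r1.symm r2.symm
    (V1 ⊓ rv x0 ⊓ rv x1 ⊓ rv x2 ⊓ rv s' ⊓ (V1 ⊓ rv x0 ⊓ rv x1 ⊓ rv x2 ⊓ rv r')) (by order)
  have c1 := LemA_centre V1 a0 a2 b0 b2 p1 (p1.trans p2.symm) r1 (r1.trans r2.symm)
    (V1 ⊓ rv x0 ⊓ rv x1 ⊓ rv x2 ⊓ rv s' ⊓ (V1 ⊓ rv x0 ⊓ rv x1 ⊓ rv x2 ⊓ rv r')) (by order)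
  have c2 := LemA_centre V1 a0 a1 b0 b1 p2 (p2.trans p1.symm) r2 (r2.trans r1.symm)
    (V1 ⊓ rv x0 ⊓ rv x1 ⊓ rv x2 ⊓ rv s' ⊓ (V1 ⊓ rv x0 ⊓ rv x1 ⊓ rv x2 ⊓ rv r')) (by order)
  linarith

end Pool.Agent.P.MP_e72dc0_lc.TF
end

-- part Pool.Agent.P.MP_e72dc0_lc.TF.LemB
section

namespace Pool.Agent.P.MP_e72dc0_lc.TF

open Pool.Agent.P.MP_db4732_co.Ent Filter Topology

variable {F : Fam} {S S' : Sys F}

/-- a copy of `e` over the labels, `q_t`, `q_a` and `p_b` -/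
theorem lemB_ext {t a b : Lb S} {e : Pt S} (h : Fr3 t a b e) :
    ∃ (S' : Sys F) (π : Ext S' S) (D : Pt S'), Fr3 (π.fn t) (π.fn a) (π.fn b) D ∧
      qP (π.fn t) D = π.fn (qP t e) ∧ qP (π.fn a) D = π.fn (qP a e) ∧
      pP (π.fn b) D = π.fn (pP b e) ∧
      ∀ X : RV S, X ≤ rv t ⊓ rv a ⊓ rv b ⊓ rv e →
        H (π.rv X ⊓ rv D) = H X + co t a b e - 9 / 2 := by
  obtain ⟨S', π₁, π₂, e1, e2, ind⟩ :=
    copy S (rv t ⊓ rv a ⊓ rv b ⊓ rv (qP t e) ⊓ rv (qP a e) ⊓ rv (pP b e))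
  have et : π₂.fn t = π₁.fn t := e2 _ t (by order)
  have ea : π₂.fn a = π₁.fn a := e2 _ a (by order)
  have eb : π₂.fn b = π₁.fn b := e2 _ b (by order)
  refine ⟨S', π₁, π₂.fn e, ?_, ?_, ?_, ?_, fun X hX => ?_⟩
  · have := h.pull π₂
    rwa [et, ea, eb] at this
  · rw [← et, ← Ext.fn_qP]
    exact e2 _ _ (by order)
  · rw [← ea, ← Ext.fn_qP]
    exact e2 _ _ (by order)
  · rw [← eb, ← Ext.fn_pP]
    exact e2 _ _ (by order)
  · have q1 := le_qP t e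
    have q2 := le_qP a e
    have q3 := le_pP b e
    have h1 := ind X (rv t ⊓ rv a ⊓ rv b ⊓ rv e) (by order) (by order)
    have h2 := h.co_add
    have h3 : co t a (fl b) e =
        H (rv t ⊓ rv a ⊓ rv b ⊓ rv (qP t e) ⊓ rv (qP a e) ⊓ rv (pP b e)) := by
      simp only [co, rv_fl, qP_fl]
    have h4 := π₁.mono (X := X) (Y := rv t ⊓ rv a ⊓ rv b) (by order)
    rw [Ext.rv_inf, e1 (rv t ⊓ rv a ⊓ rv b) (by order), h.H3d, ← inf_assoc, inf_eq_left.2 h4,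
      Ext.rv_rv] at h1
    linarith

theorem lemB_half {t a b : Lb S} {d D : Pt S} (h0 : Fr3 t a b d) (h1 : Fr3 t a b D)
    (qt : qP t D = qP t d) (qa : qP a D = qP a d) :
    H (rv t ⊓ rv a ⊓ rv d ⊓ rv D) ≤ 9 / 2 := by
  have p := pair h1.swap23.swap12.free2
  have p0 := h0.swap23.swap12.H2d
  have q1 := le_qP t D
  have q2 := le_qP a D
  have q3 := le_qP t d
  have q4 := le_qP a d
  rw [← qt] at q3
  rw [← qa] at q4
  have := H_sub (rv t ⊓ rv a ⊓ rv d) (rv t ⊓ rv a ⊓ rv D)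
    (rv t ⊓ rv a ⊓ rv (qP t D) ⊓ rv (qP a D)) (rv t ⊓ rv a ⊓ rv d ⊓ rv D)
    (by order) (by order) (by order)
  linarith

theorem lemB_side {t a : Lb S} {d D : Pt S} (h0 : In a d) (h1 : In a D)
    (qa : qP a D = qP a d) (h : 9 / 2 ≤ H (rv t ⊓ rv a ⊓ rv d ⊓ rv D)) :
    H (rv d ⊓ rv D ⊓ rv a) ≤ H (rv d ⊓ rv D ⊓ rv t) := by
  have h2 := twoPt ⊤ h0 h1 qa
  rw [H_top, top_inf_eq] at h2
  have := H_sub (rv d ⊓ rv D ⊓ rv t) (rv d ⊓ rv D ⊓ rv a) (rv d ⊓ rv D)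
    (rv t ⊓ rv a ⊓ rv d ⊓ rv D) (by order) (by order) (by order)
  linarith

theorem lemB_core {t a b : Lb S} {d0 d1 d2 D1 D2 : Pt S} (f0 : Fr3 t a b d0) (f1 : Fr3 t a b D1)
    (f2 : Fr3 t a b D2) (t1 : qP t D1 = qP t d0) (a1 : qP a D1 = qP a d0)
    (t2 : qP t D2 = qP t d0) (b2 : qP b D2 = qP b d0) (l1 : rv b ⊓ rv D1 ⊓ rv d0 ≤ rv d1)
    (l2 : rv a ⊓ rv D2 ⊓ rv d0 ≤ rv d2)
    (full : 6 ≤ H (rv t ⊓ rv a ⊓ rv b ⊓ rv d0 ⊓ rv D1 ⊓ rv D2)) :
    H (rv a ⊓ rv b ⊓ rv d0 ⊓ rv d1) + H (rv a ⊓ rv b ⊓ rv d0 ⊓ rv d2) ≤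
      H (rv a ⊓ rv b ⊓ rv d0 ⊓ rv d1 ⊓ rv d2) + 4 := by
  have u1 := lemB_half f0 f1 t1 a1
  have u2 := lemB_half f0.swap23 f2.swap23 t2 b2
  have ht := f0.swap12.H1d
  have s0 := H_sub (rv t ⊓ rv a ⊓ rv d0 ⊓ rv D1) (rv t ⊓ rv b ⊓ rv d0 ⊓ rv D2) (rv t ⊓ rv d0)
    (rv t ⊓ rv a ⊓ rv b ⊓ rv d0 ⊓ rv D1 ⊓ rv D2) (by order) (by order) (by order)
  have v1 := lemB_side (t := t) f0.ia f1.ia a1 (by linarith)
  have v2 := lemB_side (t := t) f0.ib f2.ib b2 (by linarith)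
  have s1 := H_sub (rv t ⊓ rv a ⊓ rv d0 ⊓ rv D1) (rv t ⊓ rv b ⊓ rv d0 ⊓ rv D1 ⊓ rv D2)
    (rv d0 ⊓ rv D1 ⊓ rv t) (rv t ⊓ rv a ⊓ rv b ⊓ rv d0 ⊓ rv D1 ⊓ rv D2)
    (by order) (by order) (by order)
  have s2 := H_sub (rv t ⊓ rv b ⊓ rv d0 ⊓ rv D2) (rv d0 ⊓ rv D1 ⊓ rv D2 ⊓ rv t)
    (rv d0 ⊓ rv D2 ⊓ rv t) (rv t ⊓ rv b ⊓ rv d0 ⊓ rv D1 ⊓ rv D2)
    (by order) (by order) (by order)
  have w := threePt ⊤ f0.it f1.it f2.it t1 t2
  rw [H_top, top_inf_eq] at w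
  have s3 := H_sub (rv a ⊓ rv b ⊓ rv d0 ⊓ rv D1 ⊓ rv D2) (rv d0 ⊓ rv D1 ⊓ rv D2 ⊓ rv t)
    (rv d0 ⊓ rv D1 ⊓ rv D2) (rv t ⊓ rv a ⊓ rv b ⊓ rv d0 ⊓ rv D1 ⊓ rv D2)
    (by order) (by order) (by order)
  have m1 := H_lb (rv d0 ⊓ rv D1 ⊓ rv a) b
  have m2 := H_lb (rv d0 ⊓ rv D2 ⊓ rv b) a
  have s4 := H_sub (rv d0 ⊓ rv D1 ⊓ rv a ⊓ rv b) (rv a ⊓ rv b ⊓ rv d0 ⊓ rv d1 ⊓ rv D2)
    (rv a ⊓ rv b ⊓ rv d0 ⊓ rv d1) (rv a ⊓ rv b ⊓ rv d0 ⊓ rv D1 ⊓ rv D2)
    (by order) (by order) (by order)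
  have s5 := H_sub (rv d0 ⊓ rv D2 ⊓ rv b ⊓ rv a) (rv a ⊓ rv b ⊓ rv d0 ⊓ rv d1 ⊓ rv d2)
    (rv a ⊓ rv b ⊓ rv d0 ⊓ rv d2) (rv a ⊓ rv b ⊓ rv d0 ⊓ rv d1 ⊓ rv D2)
    (by order) (by order) (by order)
  linarith

theorem lemB_rec {s : Lb S} {d0 d1 D : Pt S} (h : In s d1) (q : qP s d1 = qP s d0)
    (p : pP s D = pP s d1) : rv s ⊓ rv D ⊓ rv d0 ≤ rv d1 := by
  have h1 := h.le_pq
  have h2 := le_pP s D
  have h3 := le_qP s d0
  rw [q, ← p] at h1
  order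

theorem lemB {t a b : Lb S} {d0 d1 d2 : Pt S} (h : Valid t a b d0 d1 d2) :
    H (rv a ⊓ rv b ⊓ rv d0 ⊓ rv d1) + H (rv a ⊓ rv b ⊓ rv d0 ⊓ rv d2) ≤
      H (rv a ⊓ rv b ⊓ rv d0 ⊓ rv d1 ⊓ rv d2) + 4 := by
  obtain ⟨S1, π, D1, g1, x1, x2, x3, x4⟩ := lemB_ext h.f1
  have h' := h.pull π
  obtain ⟨S2, ρ, D2, g2, y1, y2, y3, y4⟩ := lemB_ext h'.f2.swap23
  have h'' := h'.pull ρ
  have z1 : qP (ρ.fn (π.fn t)) (ρ.fn D1) = qP (ρ.fn (π.fn t)) (ρ.fn (π.fn d0)) := by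
    rw [← Ext.fn_qP, x1, h.t1]; rfl
  have z2 : qP (ρ.fn (π.fn a)) (ρ.fn D1) = qP (ρ.fn (π.fn a)) (ρ.fn (π.fn d0)) := by
    rw [← Ext.fn_qP, x2, h.a1]; rfl
  have z3 : pP (ρ.fn (π.fn b)) (ρ.fn D1) = pP (ρ.fn (π.fn b)) (ρ.fn (π.fn d1)) := by
    rw [← Ext.fn_pP, x3]; rfl
  have z4 : qP (ρ.fn (π.fn t)) D2 = qP (ρ.fn (π.fn t)) (ρ.fn (π.fn d0)) := by
    rw [y1, h'.t2]; rfl
  have z5 : qP (ρ.fn (π.fn b)) D2 = qP (ρ.fn (π.fn b)) (ρ.fn (π.fn d0)) := by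
    rw [y2, h'.b2]; rfl
  have z6 : pP (ρ.fn (π.fn a)) D2 = pP (ρ.fn (π.fn a)) (ρ.fn (π.fn d2)) := by
    rw [y3]; rfl
  have l1 := lemB_rec h''.f1.ib h''.b1 z3
  have l2 := lemB_rec h''.f2.ia h''.a2 z6
  have k1 := x4 (rv t ⊓ rv a ⊓ rv b ⊓ rv d0 ⊓ rv d1 ⊓ rv d2) (by order)
  have k2 := y4 (π.rv (rv t ⊓ rv a ⊓ rv b ⊓ rv d0 ⊓ rv d1 ⊓ rv d2) ⊓ rv D1) (by
    simp only [Ext.rv_inf, Ext.rv_rv]; order)
  rw [k1, h.H012, h.co1, co_pull, co_swap23 (t := t) (a := a) (b := b) (d := d2), h.co2] at k2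
  simp only [Ext.rv_inf, Ext.rv_rv] at k2
  have full : 6 ≤ H (rv (ρ.fn (π.fn t)) ⊓ rv (ρ.fn (π.fn a)) ⊓ rv (ρ.fn (π.fn b)) ⊓
      rv (ρ.fn (π.fn d0)) ⊓ rv (ρ.fn D1) ⊓ rv D2) := by
    refine le_trans (by linarith) (k2.symm.le.trans (H_mono ?_))
    order
  have key := lemB_core h''.f0 (g1.pull ρ) g2.swap23 z1 z2 z4 z5 l1 l2 full
  have r1 := (ρ.comp π).H_rv (rv a ⊓ rv b ⊓ rv d0 ⊓ rv d1)
  have r2 := (ρ.comp π).H_rv (rv a ⊓ rv b ⊓ rv d0 ⊓ rv d2)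
  have r3 := (ρ.comp π).H_rv (rv a ⊓ rv b ⊓ rv d0 ⊓ rv d1 ⊓ rv d2)
  simp only [Ext.rv_inf, Ext.rv_rv, Ext.comp_fn] at r1 r2 r3
  linarith

end Pool.Agent.P.MP_e72dc0_lc.TF
end

-- part Pool.Agent.P.MP_e72dc0_lc.TF.Corner
section

namespace Pool.Agent.P.MP_e72dc0_lc.TF

open Pool.Agent.P.MP_db4732_co.Ent Filter Topology

variable {F : Fam} {S S' : Sys F}

section Abstract

variable {X : Type} (f : X → X) (sz : List X → ℝ)

/-- first moment of the signs along `l` in the context `m` -/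
def cornerA : List X → List X → ℝ
  | [], _ => 0
  | u :: l, m => sz (u :: m) - sz (f u :: m) + cornerA l m

/-- mixed second moment of the signs along `l` in the context `m` -/
def cornerB : List X → List X → ℝ
  | [], _ => 0
  | u :: l, m => cornerA f sz l (u :: m) - cornerA f sz l (f u :: m) + cornerB l m

/-- second moment of `k` plus the sum of the signs along `l` in the context `m` -/
def cornerQ : List X → List X → ℝ → ℝ
  | [], m, k => k ^ 2 * sz m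
  | u :: l, m, k => cornerQ l (u :: m) (k + 1) + cornerQ l (f u :: m) (k - 1)

/-- an additive size function on a class of lists -/
structure CornerSys (G : List X → Prop) : Prop where
  perm : ∀ l l', G l → l.Perm l' → G l'
  tail : ∀ u l, G (u :: l) → G l
  flip : ∀ u l, G (u :: l) → G (f u :: l)
  szp : ∀ l l', l.Perm l' → sz l = sz l'
  nn : ∀ l, G l → 0 ≤ sz l
  add : ∀ u l, G (u :: l) → sz l = sz (u :: l) + sz (f u :: l)
  s0 : sz [] = 2
  s1 : ∀ u, G [u] → sz [u] = 1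
  s2 : ∀ u v, G [u, v] → sz [u, v] = 1 / 2

variable {f sz} {G : List X → Prop}

theorem CornerSys.drop (h : CornerSys f sz G) : ∀ (l m : List X), G (l ++ m) → G m
  | [], _, hg => hg
  | u :: l, m, hg => h.drop l m (h.tail u _ hg)

theorem CornerSys.mid (h : CornerSys f sz G) {u : X} {l m : List X} (hg : G (u :: (l ++ m))) :
    G (l ++ u :: m) := h.perm _ _ hg List.perm_middle.symm

theorem CornerSys.unmid (h : CornerSys f sz G) {u : X} {l m : List X} (hg : G (l ++ u :: m)) :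
    G (u :: (l ++ m)) := h.perm _ _ hg List.perm_middle

theorem CornerSys.addA (h : CornerSys f sz G) (u : X) : ∀ (l m : List X), G (u :: (l ++ m)) →
    cornerA f sz l m = cornerA f sz l (u :: m) + cornerA f sz l (f u :: m)
  | [], _, _ => by simp [cornerA]
  | v :: l, m, hg => by
    have hg' : G (v :: u :: (l ++ m)) := h.perm _ _ hg (List.Perm.swap _ _ _)
    have ih := h.addA u l m (h.tail v _ hg')
    have g1 : G (v :: u :: m) :=
      h.drop l _ (h.mid (h.perm _ _ hg' (List.perm_middle.symm.cons v)))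
    have g2 : G (f v :: u :: m) := h.flip _ _ g1
    have a1 := h.add u (v :: m) (h.perm _ _ g1 (List.Perm.swap _ _ _))
    have a2 := h.add u (f v :: m) (h.perm _ _ g2 (List.Perm.swap _ _ _))
    have p1 := h.szp (u :: v :: m) (v :: u :: m) (List.Perm.swap _ _ _)
    have p2 := h.szp (f u :: v :: m) (v :: f u :: m) (List.Perm.swap _ _ _)
    have p3 := h.szp (u :: f v :: m) (f v :: u :: m) (List.Perm.swap _ _ _)
    have p4 := h.szp (f u :: f v :: m) (f v :: f u :: m) (List.Perm.swap _ _ _)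
    simp only [cornerA]
    linarith

theorem CornerSys.permA (h : CornerSys f sz G) : ∀ (l m m' : List X), m.Perm m' →
    cornerA f sz l m = cornerA f sz l m'
  | [], _, _, _ => by simp [cornerA]
  | v :: l, m, m', hp => by
    simp only [cornerA]
    rw [h.permA l m m' hp, h.szp _ _ (hp.cons v), h.szp _ _ (hp.cons (f v))]

theorem CornerSys.addB (h : CornerSys f sz G) (u : X) : ∀ (l m : List X), G (u :: (l ++ m)) →
    cornerB f sz l m = cornerB f sz l (u :: m) + cornerB f sz l (f u :: m)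
  | [], _, _ => by simp [cornerB]
  | v :: l, m, hg => by
    have hg' : G (v :: u :: (l ++ m)) := h.perm _ _ hg (List.Perm.swap _ _ _)
    have ih := h.addB u l m (h.tail v _ hg')
    have hf : G (f v :: u :: (l ++ m)) := h.flip _ _ hg'
    have g1 : G (u :: (l ++ v :: m)) :=
      h.perm _ _ hg' ((List.Perm.swap _ _ _).trans (List.perm_middle.symm.cons u))
    have g2 : G (u :: (l ++ f v :: m)) :=
      h.perm _ _ hf ((List.Perm.swap _ _ _).trans (List.perm_middle.symm.cons u))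
    have a1 := h.addA u l (v :: m) g1
    have a2 := h.addA u l (f v :: m) g2
    have p1 := h.permA l (u :: v :: m) (v :: u :: m) (List.Perm.swap _ _ _)
    have p2 := h.permA l (f u :: v :: m) (v :: f u :: m) (List.Perm.swap _ _ _)
    have p3 := h.permA l (u :: f v :: m) (f v :: u :: m) (List.Perm.swap _ _ _)
    have p4 := h.permA l (f u :: f v :: m) (f v :: f u :: m) (List.Perm.swap _ _ _)
    simp only [cornerB]
    linarith

theorem CornerSys.closed (h : CornerSys f sz G) : ∀ (l m : List X) (k : ℝ), G (l ++ m) →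
    cornerQ f sz l m k =
      (k ^ 2 + l.length) * sz m + 2 * k * cornerA f sz l m + 2 * cornerB f sz l m
  | [], m, k, _ => by simp [cornerQ, cornerA, cornerB]
  | u :: l, m, k, hg => by
    have hg : G (u :: (l ++ m)) := hg
    have i1 := h.closed l (u :: m) (k + 1) (h.mid hg)
    have i2 := h.closed l (f u :: m) (k - 1) (h.mid (h.flip _ _ hg))
    have a0 := h.add u m (h.drop l _ (h.mid hg))
    have a1 := h.addA u l m hg
    have a2 := h.addB u l m hg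
    simp only [cornerQ, cornerA, cornerB, List.length_cons, Nat.cast_add, Nat.cast_one]
    rw [i1, i2, a0, a1, a2]
    ring

theorem CornerSys.Q_nonneg (h : CornerSys f sz G) : ∀ (l m : List X) (k : ℝ), G (l ++ m) →
    0 ≤ cornerQ f sz l m k
  | [], m, k, hg => by
    simp only [cornerQ]
    exact mul_nonneg (sq_nonneg k) (h.nn m hg)
  | u :: l, m, k, hg => by
    have hg : G (u :: (l ++ m)) := hg
    simp only [cornerQ]
    exact add_nonneg (h.Q_nonneg l _ _ (h.mid hg)) (h.Q_nonneg l _ _ (h.mid (h.flip _ _ hg)))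

theorem CornerSys.lower (h : CornerSys f sz G) : ∀ (l m : List X) (k : ℝ), G (l ++ m) →
    (k + l.length) ^ 2 * sz (l ++ m) ≤ cornerQ f sz l m k
  | [], m, k, _ => by simp [cornerQ]
  | u :: l, m, k, hg => by
    have hg : G (u :: (l ++ m)) := hg
    have i1 := h.lower l (u :: m) (k + 1) (h.mid hg)
    have i2 := h.Q_nonneg l (f u :: m) (k - 1) (h.mid (h.flip _ _ hg))
    have p := h.szp (l ++ u :: m) (u :: (l ++ m)) List.perm_middle
    simp only [cornerQ, List.length_cons, Nat.cast_add, Nat.cast_one, List.cons_append]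
    rw [p] at i1
    have e : k + ((l.length : ℝ) + 1) = k + 1 + l.length := by ring
    rw [e]
    linarith

theorem CornerSys.A_one (h : CornerSys f sz G) (u : X) : ∀ l : List X, G (u :: l) →
    cornerA f sz l [u] = 0
  | [], _ => by simp [cornerA]
  | v :: l, hg => by
    have hg' : G (v :: u :: l) := h.perm _ _ hg (List.Perm.swap _ _ _)
    have ih := h.A_one u l (h.tail v _ hg')
    have g1 : G [v, u] :=
      h.drop l _ (h.perm _ _ hg' (List.perm_append_comm (l₁ := [v, u]) (l₂ := l)))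
    have s1 := h.s2 v u g1
    have s2 := h.s2 (f v) u (h.flip _ _ g1)
    simp only [cornerA]
    linarith

theorem CornerSys.B_zero (h : CornerSys f sz G) : ∀ l : List X, G l → cornerB f sz l [] = 0
  | [], _ => by simp [cornerB]
  | u :: l, hg => by
    have ih := h.B_zero l (h.tail u _ hg)
    have a1 := h.A_one u l hg
    have a2 := h.A_one (f u) l (h.flip _ _ hg)
    simp only [cornerB]
    linarith

theorem CornerSys.bound (h : CornerSys f sz G) (l : List X) (hg : G l) :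
    (l.length : ℝ) * sz l ≤ 2 := by
  have hg' : G (l ++ []) := by simpa using hg
  have c := h.closed l [] 0 hg'
  have w := h.lower l [] 0 hg'
  rw [c, h.B_zero l hg, h.s0] at w
  simp only [List.append_nil, zero_add] at w
  rcases Nat.eq_zero_or_pos l.length with h0 | h0
  · rw [h0]; norm_num
  · have hp : (0 : ℝ) < l.length := by exact_mod_cast h0
    have : (l.length : ℝ) * ((l.length : ℝ) * sz l) ≤ (l.length : ℝ) * 2 := by nlinarith
    exact le_of_mul_le_mul_left this hp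

end Abstract

theorem corner_cq_perm (d : Pt S) {l l' : List (Lb S)} (hp : l.Perm l') : cq d l = cq d l' := by
  induction hp with
  | nil => rfl
  | cons x _ ih => rw [cq_cons, cq_cons, ih]
  | swap x y l => rw [cq_cons, cq_cons, cq_cons, cq_cons, inf_left_comm]
  | trans _ _ ih1 ih2 => exact ih1.trans ih2

theorem corner {Λ : RV S} {d : Pt S} {l : List (Lb S)} (h : Free Λ d l) :
    (l.length : ℝ) * (H (Λ ⊓ rv d) - H (Λ ⊓ cq d l)) ≤ 2 := by
  have key : CornerSys (X := Lb S) fl (fun m => H (Λ ⊓ rv d) - H (Λ ⊓ cq d m))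
      (fun m => Free Λ d m) := by
    refine ⟨fun _ _ hf hp => hf.perm hp, fun u m hf => hf.sublist (List.sublist_cons_self u m),
      fun _ _ hf => hf.flip, fun _ _ hp => by simp only [corner_cq_perm d hp], ?_, ?_, ?_, ?_, ?_⟩
    · intro m hf
      have := H_mono (le_inf inf_le_left hf.le_cq : Λ ⊓ rv d ≤ Λ ⊓ cq d m)
      linarith
    · intro u m hf
      have a1 : H (Λ ⊓ cq d m ⊓ rv (pP u d)) + H (Λ ⊓ cq d m ⊓ rv (qP u d)) ≤
          H (Λ ⊓ rv d) + H (Λ ⊓ cq d m) := addT hf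
      have a2 := superadd (Λ := Λ) (Θ := Λ ⊓ cq d m) (hf.inc u (by simp)) inf_le_left
      have e1 : Λ ⊓ cq d (u :: m) = Λ ⊓ cq d m ⊓ rv (qP u d) := by
        rw [cq_cons, inf_assoc, inf_comm (cq d m)]
      have e2 : Λ ⊓ cq d (fl u :: m) = Λ ⊓ cq d m ⊓ rv (pP u d) := by
        rw [cq_cons, qP_fl, inf_assoc, inf_comm (cq d m)]
      simp only [e1, e2]
      linarith
    · have := h.pt_eq
      simp only [cq_nil, inf_top_eq]
      linarith
    · intro u hf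
      have := single hf
      simp only [cq_cons, cq_nil, inf_top_eq]
      linarith
    · intro u v hf
      have := pair hf
      simp only [cq_cons, cq_nil, inf_top_eq, ← inf_assoc]
      linarith
  exact key.bound l h

end Pool.Agent.P.MP_e72dc0_lc.TF
end

-- part Pool.Agent.P.MP_e72dc0_lc.TF.W1
section

namespace Pool.Agent.P.MP_e72dc0_lc.TF

open Pool.Agent.P.MP_db4732_co.Ent Filter Topology

variable {F : Fam} {S S' : Sys F}

/-- the entropy computation behind `w1`, inside one system -/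
theorem W1_core {U c W : RV S} {d e : Pt S} {T : Lb S} (hq : qP T e = qP T d)
    (cd : U ⊓ rv d ≤ c) (ce : U ⊓ rv e ≤ c)
    (hfree : H (U ⊓ rv d) + 1 ≤ H (U ⊓ rv d ⊓ rv T))
    (h1 : H (U ⊓ rv d ⊓ W) + H (U ⊓ rv d ⊓ rv e) ≤ H (U ⊓ rv d ⊓ rv e ⊓ W) + H (U ⊓ rv d))
    (h2 : H (U ⊓ rv e ⊓ W) + H (U ⊓ rv d ⊓ rv e) ≤ H (U ⊓ rv d ⊓ rv e ⊓ W) + H (U ⊓ rv e))
    (h3 : H (U ⊓ rv T ⊓ rv d) + H (U ⊓ rv T ⊓ rv e) ≤
      H (U ⊓ rv T ⊓ rv d ⊓ rv e) + H (U ⊓ c ⊓ rv T ⊓ rv (qP T d)))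
    (ind : H (U ⊓ rv d ⊓ rv e ⊓ W ⊓ rv T) =
      H (U ⊓ rv d ⊓ rv e ⊓ W) + H (U ⊓ rv T ⊓ rv d ⊓ rv e) - H (U ⊓ rv d ⊓ rv e)) :
    Meas U c W d T ∧ H (U ⊓ rv d ⊓ W) + 1 ≤ H (U ⊓ rv d ⊓ W ⊓ rv T) := by
  have qd := le_qP T d
  have qe := le_qP T e
  rw [hq] at qe
  constructor
  · unfold Meas
    have s1 := H_sub (U ⊓ rv e ⊓ W) (U ⊓ rv T ⊓ rv e) (U ⊓ rv e) (U ⊓ rv T ⊓ rv e ⊓ W)
      (by order) (by order) (by order)
    have s2 := H_sub (U ⊓ rv T ⊓ rv e ⊓ W) (U ⊓ rv T ⊓ rv d ⊓ W)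
      (U ⊓ c ⊓ rv T ⊓ rv (qP T d) ⊓ W) (U ⊓ rv d ⊓ rv e ⊓ W ⊓ rv T)
      (by order) (by order) (by order)
    linarith
  · have s1 := H_sub (U ⊓ rv d ⊓ W ⊓ rv T) (U ⊓ rv T ⊓ rv d ⊓ rv e) (U ⊓ rv d ⊓ rv T)
      (U ⊓ rv d ⊓ rv e ⊓ W ⊓ rv T) (by order) (by order) (by order)
    linarith

theorem W1_meas_pull {U c W : RV S} {d : Pt S} {t : Lb S} (h : Meas U c W d t) (π : Ext S' S) :
    Meas (π.rv U) (π.rv c) (π.rv W) (π.fn d) (π.fn t) := by
  unfold Meas at h ⊢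
  have a1 := π.H_rv (U ⊓ c ⊓ rv t ⊓ rv (qP t d) ⊓ W)
  have a2 := π.H_rv (U ⊓ rv t ⊓ rv d)
  have a3 := π.H_rv (U ⊓ rv t ⊓ rv d ⊓ W)
  have a4 := π.H_rv (U ⊓ c ⊓ rv t ⊓ rv (qP t d))
  simp only [Ext.rv_inf, Ext.rv_rv, Ext.fn_qP] at a1 a2 a3 a4
  linarith

theorem W1_lab_map (π : Ext S' S) (l : List (Lb S)) :
    lab (l.map fun s => π.fn s) = π.rv (lab l) := by
  induction l with
  | nil => rfl
  | cons s l ih => rw [List.map_cons, lab_cons, lab_cons, ih]; rfl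

/-- one label that is independent of `W` given `U, d` -/
theorem w1 {U c W : RV S} {d e : Pt S} {t : Lb S} (ht : In t d) (hq : qP t e = qP t d)
    (cd : U ⊓ rv d ≤ c) (ce : U ⊓ rv e ≤ c)
    (hfree : H (U ⊓ rv d) + 1 ≤ H (U ⊓ rv d ⊓ rv t))
    (h1 : H (U ⊓ rv d ⊓ W) + H (U ⊓ rv d ⊓ rv e) ≤ H (U ⊓ rv d ⊓ rv e ⊓ W) + H (U ⊓ rv d))
    (h2 : H (U ⊓ rv e ⊓ W) + H (U ⊓ rv d ⊓ rv e) ≤ H (U ⊓ rv d ⊓ rv e ⊓ W) + H (U ⊓ rv e))
    (h3 : H (U ⊓ rv t ⊓ rv d) + H (U ⊓ rv t ⊓ rv e) ≤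
      H (U ⊓ rv t ⊓ rv d ⊓ rv e) + H (U ⊓ c ⊓ rv t ⊓ rv (qP t d))) :
    ∃ (S' : Sys F) (π : Ext S' S) (t0 : Lb S'), In t0 (π.fn d) ∧
      Meas (π.rv U) (π.rv c) (π.rv W) (π.fn d) t0 ∧
      H (U ⊓ rv d ⊓ W) + 1 ≤ H (π.rv (U ⊓ rv d ⊓ W) ⊓ rv t0) := by
  obtain ⟨S1, π₁, π₂, e1, e2, ind⟩ := copy S (U ⊓ rv d ⊓ rv e)
  have eU : π₂.rv U = π₁.rv U := e1 U (by order)
  have ec : π₂.rv c = π₁.rv c := e1 c (by order)
  have ed : π₂.fn d = π₁.fn d := e2 _ d (by order)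
  have ee : π₂.fn e = π₁.fn e := e2 _ e (by order)
  have hin : In (π₂.fn t) (π₁.fn d) := ed ▸ ht.pull π₂
  have hq' : qP (π₂.fn t) (π₁.fn e) = qP (π₂.fn t) (π₁.fn d) := by
    rw [← ed, ← ee, ← Ext.fn_qP, ← Ext.fn_qP, hq]
  have cd' : π₁.rv U ⊓ rv (π₁.fn d) ≤ π₁.rv c := π₁.mono cd
  have ce' : π₁.rv U ⊓ rv (π₁.fn e) ≤ π₁.rv c := π₁.mono ce
  have a1 := π₁.H_rv (U ⊓ rv d)
  have a2 := π₁.H_rv (U ⊓ rv e)
  have a3 := π₁.H_rv (U ⊓ rv d ⊓ W)
  have a4 := π₁.H_rv (U ⊓ rv e ⊓ W)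
  have a5 := π₁.H_rv (U ⊓ rv d ⊓ rv e)
  have a6 := π₁.H_rv (U ⊓ rv d ⊓ rv e ⊓ W)
  have b1 := π₂.H_rv (U ⊓ rv d ⊓ rv t)
  have b2 := π₂.H_rv (U ⊓ rv t ⊓ rv d)
  have b3 := π₂.H_rv (U ⊓ rv t ⊓ rv e)
  have b4 := π₂.H_rv (U ⊓ rv t ⊓ rv d ⊓ rv e)
  have b5 := π₂.H_rv (U ⊓ c ⊓ rv t ⊓ rv (qP t d))
  have i1 := ind (U ⊓ rv d ⊓ rv e ⊓ W) (U ⊓ rv t ⊓ rv d ⊓ rv e) (by order) (by order)
  simp only [Ext.rv_inf, Ext.rv_rv, Ext.fn_qP, eU, ec, ed, ee] at a1 a2 a3 a4 a5 a6 b1 b2 b3 b4 b5 i1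
  have i2 : H (π₁.rv U ⊓ rv (π₁.fn d) ⊓ rv (π₁.fn e) ⊓ π₁.rv W ⊓ rv (π₂.fn t)) =
      H (π₁.rv U ⊓ rv (π₁.fn d) ⊓ rv (π₁.fn e) ⊓ π₁.rv W ⊓
        (π₁.rv U ⊓ rv (π₂.fn t) ⊓ rv (π₁.fn d) ⊓ rv (π₁.fn e))) :=
    H_congr (by order) (by order)
  obtain ⟨m1, m2⟩ := W1_core (U := π₁.rv U) (c := π₁.rv c) (W := π₁.rv W) hq' cd' ce'
    (by linarith) (by linarith) (by linarith) (by linarith) (by linarith)
  refine ⟨S1, π₁, π₂.fn t, hin, m1, ?_⟩
  simp only [Ext.rv_inf, Ext.rv_rv]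
  linarith

/-- many independent such labels -/
theorem w2 {U c W : RV S} {d : Pt S} {t : Lb S} (cd : U ⊓ rv d ≤ c) (ht : In t d)
    (hM : Meas U c W d t) (hf : H (U ⊓ rv d ⊓ W) + 1 ≤ H (U ⊓ rv d ⊓ W ⊓ rv t)) (M : ℕ) :
    ∃ (S' : Sys F) (π : Ext S' S) (l : List (Lb S')), l.length = M ∧
      (∀ r ∈ l, In r (π.fn d) ∧ Meas (π.rv U) (π.rv c) (π.rv W) (π.fn d) r) ∧
      H (U ⊓ rv d ⊓ W) + M ≤ H (π.rv (U ⊓ rv d ⊓ W) ⊓ lab l) := by
  induction M with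
  | zero =>
    refine ⟨S, Ext.refl S, [], rfl, by simp, ?_⟩
    simp
  | succ M ih =>
    obtain ⟨S1, π, l, hl, hall, hH⟩ := ih
    obtain ⟨S2, π₁, π₂, e1, e2, ind⟩ := copy S1 (π.rv (U ⊓ rv d ⊓ W))
    have eU : π₂.rv (π.rv U) = π₁.rv (π.rv U) := e1 _ (π.mono (by order))
    have ec : π₂.rv (π.rv c) = π₁.rv (π.rv c) := e1 _ (π.mono (by order))
    have eW : π₂.rv (π.rv W) = π₁.rv (π.rv W) := e1 _ (π.mono (by order))
    have eZ : π₂.rv (π.rv (U ⊓ rv d ⊓ W)) = π₁.rv (π.rv (U ⊓ rv d ⊓ W)) := e1 _ le_rfl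
    have ed : π₂.fn (π.fn d) = π₁.fn (π.fn d) :=
      e2 _ (π.fn d) (π.mono (X := U ⊓ rv d ⊓ W) (Y := rv d) (by order))
    refine ⟨S2, π₁.comp π, π₂.fn (π.fn t) :: l.map (fun s => π₁.fn s), by simp [hl], ?_, ?_⟩
    · intro r hr
      simp only [Ext.comp_rv, Ext.comp_fn]
      rcases List.mem_cons.1 hr with rfl | hr
      · refine ⟨ed ▸ (ht.pull π).pull π₂, ?_⟩
        have := W1_meas_pull (W1_meas_pull hM π) π₂
        rwa [eU, ec, eW, ed] at this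
      · obtain ⟨s, hs, rfl⟩ := List.mem_map.1 hr
        exact ⟨(hall s hs).1.pull π₁, W1_meas_pull (hall s hs).2 π₁⟩
    · have i1 := ind (π.rv (U ⊓ rv d ⊓ W) ⊓ lab l) (π.rv (U ⊓ rv d ⊓ W) ⊓ rv (π.fn t))
        inf_le_left inf_le_left
      have a1 := π.H_rv (U ⊓ rv d ⊓ W)
      have a2 := π.H_rv (U ⊓ rv d ⊓ W ⊓ rv t)
      rw [Ext.rv_inf, Ext.rv_rv] at a2
      rw [Ext.rv_inf π₁, Ext.rv_inf π₂, eZ, Ext.rv_rv] at i1
      rw [lab_cons, W1_lab_map, Ext.comp_rv]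
      have i2 : H (π₁.rv (π.rv (U ⊓ rv d ⊓ W)) ⊓ (rv (π₂.fn (π.fn t)) ⊓ π₁.rv (lab l))) =
          H (π₁.rv (π.rv (U ⊓ rv d ⊓ W)) ⊓ π₁.rv (lab l) ⊓
            (π₁.rv (π.rv (U ⊓ rv d ⊓ W)) ⊓ rv (π₂.fn (π.fn t)))) :=
        H_congr (by order) (by order)
      push_cast
      linarith

end Pool.Agent.P.MP_e72dc0_lc.TF
end

-- part Pool.Agent.P.MP_e72dc0_lc.TF.W3
section

namespace Pool.Agent.P.MP_e72dc0_lc.TF

open Pool.Agent.P.MP_db4732_co.Ent Filter Topology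

variable {F : Fam} {S S' : Sys F}

theorem w3_cq_append (d : Pt S) (a b : List (Lb S)) : cq d (a ++ b) = cq d a ⊓ cq d b := by
  induction a with
  | nil => simp
  | cons s a ih => simp [ih, inf_assoc]

theorem w3_lab_le {l : List (Lb S)} {s : Lb S} (h : s ∈ l) : lab l ≤ rv s := by
  induction l with
  | nil => simp at h
  | cons r l ih =>
    rcases List.mem_cons.1 h with rfl | h
    · exact inf_le_left
    · exact inf_le_right.trans (ih h)

theorem w3_upper {l l' : List (Lb S)} (h : l'.Sublist l) :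
    ∀ X : RV S, H (X ⊓ lab l) + l'.length ≤ H (X ⊓ lab l') + l.length := by
  induction h with
  | slnil => intro X; exact le_rfl
  | @cons a b s _ ih =>
    intro X
    have h1 := ih X
    have h2 := H_lb (X ⊓ lab b) s
    have h3 : H (X ⊓ lab (s :: b)) = H (X ⊓ lab b ⊓ rv s) := by
      rw [lab_cons]; exact H_congr (by order) (by order)
    rw [h3, List.length_cons]; push_cast; linarith
  | @cons_cons a b s _ ih =>
    intro X
    have h1 := ih (X ⊓ rv s)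
    simp only [lab_cons, List.length_cons, ← inf_assoc]; push_cast; linarith

theorem w3_lower {l l' : List (Lb S)} {Y X : RV S} (hf : H Y + l.length ≤ H (Y ⊓ lab l))
    (h : l'.Sublist l) (hX : Y ≤ X) : H X + l'.length ≤ H (X ⊓ lab l') := by
  have h1 := w3_upper h Y
  have h2 := H_sub Y (X ⊓ lab l') X (Y ⊓ lab l') hX (by order) (by order)
  linarith

theorem w3_free {U W : RV S} {d : Pt S} {lU l : List (Lb S)} (hF : Free U d lU)
    (hl : ∀ r ∈ l, In r d) (hf : H (U ⊓ rv d ⊓ W) + l.length ≤ H (U ⊓ rv d ⊓ W ⊓ lab l)) :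
    Free (U ⊓ lab l) d (l ++ lU) := by
  have one : ∀ X : RV S, U ⊓ rv d ⊓ W ≤ X → ∀ s ∈ l, H X + 1 ≤ H (X ⊓ rv s) := by
    intro X hX s hs
    simpa using w3_lower hf (List.singleton_sublist.2 hs) hX
  refine ⟨fun s hs => ?_, fun s hs => ?_, ?_, fun s hs => ?_, ?_⟩
  · rcases List.mem_append.1 hs with hs | hs
    exacts [hl s hs, hF.inc s hs]
  · rcases List.mem_append.1 hs with hs | hs
    exacts [inf_le_right.trans (w3_lab_le hs), inf_le_left.trans (hF.le s hs)]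
  · have h1 := w3_lower hf (List.Sublist.refl l) (inf_le_left : _ ≤ U ⊓ rv d)
    have h2 := w3_upper (List.nil_sublist l) U
    have h3 := hF.pt
    have h4 : H (U ⊓ lab l ⊓ rv d) = H (U ⊓ rv d ⊓ lab l) := H_congr (by order) (by order)
    simp only [lab_nil, inf_top_eq, List.length_nil, Nat.cast_zero] at h2
    linarith
  · rcases List.mem_append.1 hs with hs | hs
    · simpa [H_top] using one ⊤ le_top s hs
    · exact hF.one s hs
  · refine List.pairwise_append.2 ⟨List.pairwise_iff_forall_sublist.2 fun {a b} hab => ?_, hF.two,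
      fun a ha b hb => ?_⟩
    · have := w3_lower hf hab le_top
      simp only [H_top, lab_cons, lab_nil, inf_top_eq, top_inf_eq, List.length_cons,
        List.length_nil] at this
      push_cast at this
      linarith
    · have h0 := hF.le b hb
      have h1 := one (rv b) (by order) a ha
      have h2 := hF.one b hb
      rw [inf_comm]; linarith

theorem w3_meas {U c W : RV S} {d : Pt S} {l : List (Lb S)} {r : Lb S} (hr : r ∈ l)
    (cd : U ⊓ rv d ≤ c) (hM : Meas U c W d r)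
    (hf : H (U ⊓ rv d ⊓ W) + l.length ≤ H (U ⊓ rv d ⊓ W ⊓ lab l)) :
    H (U ⊓ lab l ⊓ c ⊓ rv (qP r d) ⊓ W) + H (U ⊓ lab l ⊓ rv d) ≤
      H (U ⊓ lab l ⊓ rv d ⊓ W) + H (U ⊓ lab l ⊓ c ⊓ rv (qP r d)) := by
  have hlr := w3_lab_le hr
  have hq := le_qP r d
  have up : ∀ X : RV S, X ≤ rv r → H (X ⊓ lab l) + 1 ≤ H X + l.length := by
    intro X hX
    have := w3_upper (List.singleton_sublist.2 hr) X
    simpa [inf_eq_left.2 hX] using this
  have u1 := up (U ⊓ c ⊓ rv r ⊓ rv (qP r d) ⊓ W) (by order)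
  have u2 := up (U ⊓ rv r ⊓ rv d) (by order)
  have l0 := H_lb (U ⊓ rv d ⊓ W) r
  have l1 := H_sub (U ⊓ rv d ⊓ W ⊓ rv r) (U ⊓ lab l ⊓ c ⊓ rv (qP r d))
    (U ⊓ c ⊓ rv r ⊓ rv (qP r d)) (U ⊓ rv d ⊓ W ⊓ lab l) (by order) (by order) (by order)
  have e1 : H (U ⊓ lab l ⊓ c ⊓ rv (qP r d) ⊓ W) = H (U ⊓ c ⊓ rv r ⊓ rv (qP r d) ⊓ W ⊓ lab l) :=
    H_congr (by order) (by order)
  have e2 : H (U ⊓ lab l ⊓ rv d) = H (U ⊓ rv r ⊓ rv d ⊓ lab l) := H_congr (by order) (by order)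
  have e3 : H (U ⊓ lab l ⊓ rv d ⊓ W) = H (U ⊓ rv d ⊓ W ⊓ lab l) := H_congr (by order) (by order)
  have e4 : H (U ⊓ rv r ⊓ rv d ⊓ W) = H (U ⊓ rv d ⊓ W ⊓ rv r) := H_congr (by order) (by order)
  unfold Meas at hM
  linarith

theorem w3_chain {L W : RV S} {d : Pt S} {lU l : List (Lb S)} (hF : Free L d (l ++ lU))
    (hM : ∀ r ∈ l, H (L ⊓ cq d lU ⊓ rv (qP r d) ⊓ W) + H (L ⊓ rv d) ≤
      H (L ⊓ rv d ⊓ W) + H (L ⊓ cq d lU ⊓ rv (qP r d))) (l' : List (Lb S)) (h : l'.Sublist l) :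
    H (L ⊓ cq d (l'.map fl ++ lU)) + H (L ⊓ cq d lU ⊓ W) ≤
      H (L ⊓ cq d (l'.map fl ++ lU) ⊓ W) + H (L ⊓ cq d lU) := by
  induction l' with
  | nil => simp only [List.map_nil, List.nil_append]; linarith
  | cons r l' ih =>
    have ih := ih ((List.sublist_cons_self r l').trans h)
    have hr : r ∈ l := h.subset (by simp)
    have f1 : Free L d ((r :: l').map fl ++ lU) := (hF.sublist (h.append_right lU)).map_fl
    have f2 : Free L d (r :: (l'.map fl ++ lU)) := by simpa using Free.flip f1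
    have a := addT f2
    have m := hM r hr
    have hpq := (f2.inc r (by simp)).le_pq
    have hc : cq d (l'.map fl ++ lU) ≤ cq d lU := by rw [w3_cq_append]; exact inf_le_right
    simp only [List.map_cons, List.cons_append, cq_cons, qP_fl]
    unfold Addi at a
    generalize cq d (l'.map fl ++ lU) = C at *
    have s1 := H_sub (L ⊓ C ⊓ rv (pP r d) ⊓ W) (L ⊓ C ⊓ rv (qP r d) ⊓ W) (L ⊓ C ⊓ W)
      (L ⊓ rv d ⊓ W) (by order) (by order) (by order)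
    have s2 := H_sub (L ⊓ C ⊓ rv (qP r d)) (L ⊓ cq d lU ⊓ rv (qP r d) ⊓ W)
      (L ⊓ cq d lU ⊓ rv (qP r d)) (L ⊓ C ⊓ rv (qP r d) ⊓ W) (by order) (by order) (by order)
    have e1 : H (L ⊓ (rv (pP r d) ⊓ C)) = H (L ⊓ C ⊓ rv (pP r d)) := H_congr (by order) (by order)
    have e2 : H (L ⊓ (rv (pP r d) ⊓ C) ⊓ W) = H (L ⊓ C ⊓ rv (pP r d) ⊓ W) :=
      H_congr (by order) (by order)
    linarith

theorem w3 {U W : RV S} {d : Pt S} {lU l : List (Lb S)} (hF : Free U d lU)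
    (hl : ∀ r ∈ l, In r d ∧ Meas U (cq d lU) W d r)
    (hf : H (U ⊓ rv d ⊓ W) + l.length ≤ H (U ⊓ rv d ⊓ W ⊓ lab l)) :
    (l.length : ℝ) * (H (U ⊓ cq d lU ⊓ W) + H (U ⊓ rv d) - H (U ⊓ rv d ⊓ W) - H (U ⊓ cq d lU))
      ≤ 2 := by
  have cd := hF.le_cq
  have f0 := w3_free hF (fun r hr => (hl r hr).1) hf
  have ch := w3_chain f0 (fun r hr => w3_meas hr cd (hl r hr).2 hf) l (List.Sublist.refl l)
  have f1 := f0.map_fl
  have co := corner (f1.sublist (List.sublist_append_left _ _))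
  have cd1 := f1.le_cq
  have hc : cq d (l.map fl ++ lU) ≤ cq d (l.map fl) := by rw [w3_cq_append]; exact inf_le_left
  rw [List.length_map] at co
  refine le_trans (mul_le_mul_of_nonneg_left ?_ (Nat.cast_nonneg _)) co
  generalize cq d (l.map fl ++ lU) = C at *
  generalize cq d (l.map fl) = C' at *
  generalize cq d lU = c at *
  have m1 : H (U ⊓ lab l ⊓ C') ≤ H (U ⊓ lab l ⊓ C) := H_mono (by order)
  have m2 : H (U ⊓ lab l ⊓ C ⊓ W) ≤ H (U ⊓ rv d ⊓ W ⊓ lab l) := H_mono (by order)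
  have l1 := w3_lower hf (List.Sublist.refl l) (show _ ≤ U ⊓ c ⊓ W by order)
  have l2 := w3_lower hf (List.Sublist.refl l) (show _ ≤ U ⊓ rv d by order)
  have u1 := w3_upper (List.nil_sublist l) (U ⊓ rv d ⊓ W)
  have u2 := w3_upper (List.nil_sublist l) (U ⊓ c)
  simp only [lab_nil, inf_top_eq, List.length_nil, Nat.cast_zero] at u1 u2
  have e1 : H (U ⊓ lab l ⊓ c ⊓ W) = H (U ⊓ c ⊓ W ⊓ lab l) := H_congr (by order) (by order)
  have e2 : H (U ⊓ lab l ⊓ rv d) = H (U ⊓ rv d ⊓ lab l) := H_congr (by order) (by order)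
  have e3 : H (U ⊓ lab l ⊓ c) = H (U ⊓ c ⊓ lab l) := H_congr (by order) (by order)
  linarith

end Pool.Agent.P.MP_e72dc0_lc.TF
end

-- part Pool.Agent.P.MP_e72dc0_lc.TF.Wlem
section

namespace Pool.Agent.P.MP_e72dc0_lc.TF

open Pool.Agent.P.MP_db4732_co.Ent Filter Topology

variable {F : Fam} {S S' : Sys F}

theorem Ext.rv_cq (π : Ext S' S) (d : Pt S) (l : List (Lb S)) :
    π.rv (cq d l) = cq (π.fn d) (l.map fun s => π.fn s) := by
  induction l with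
  | nil => rfl
  | cons s l ih => simp only [cq_cons, List.map_cons, Ext.rv_inf, Ext.rv_rv, Ext.fn_qP, ih]

theorem Free.pull {Λ : RV S} {d : Pt S} {l : List (Lb S)} (h : Free Λ d l) (π : Ext S' S) :
    Free (π.rv Λ) (π.fn d) (l.map fun s => π.fn s) := by
  refine ⟨fun s hs => ?_, fun s hs => ?_, ?_, fun s hs => ?_, ?_⟩
  · obtain ⟨u, hu, rfl⟩ := List.mem_map.1 hs
    exact (h.inc u hu).pull π
  · obtain ⟨u, hu, rfl⟩ := List.mem_map.1 hs
    exact π.mono (h.le u hu)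
  · have h1 := π.H_rv (Λ ⊓ rv d)
    simp only [Ext.rv_inf, Ext.rv_rv] at h1
    rw [h1, π.H_rv]
    exact h.pt
  · obtain ⟨u, hu, rfl⟩ := List.mem_map.1 hs
    have h1 := π.H_rv (rv u)
    simp only [Ext.rv_rv] at h1
    rw [h1]
    exact h.one u hu
  · rw [List.pairwise_map]
    refine h.two.imp fun {s u} hsu => ?_
    have h1 := π.H_rv (rv s ⊓ rv u)
    simp only [Ext.rv_inf, Ext.rv_rv] at h1
    rw [h1]
    exact hsu

theorem wlem_le_cq {U : RV S} {d e : Pt S} {l : List (Lb S)} (h : ∀ s ∈ l, U ≤ rv s)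
    (hU : ∀ s ∈ l, qP s e = qP s d) : U ⊓ rv e ≤ cq d l := by
  induction l with
  | nil => exact le_top
  | cons s l ih =>
    rw [cq_cons]
    refine le_inf ?_ (ih (fun u hu => h u (List.mem_cons_of_mem _ hu))
      fun u hu => hU u (List.mem_cons_of_mem _ hu))
    rw [← hU s List.mem_cons_self]
    exact (inf_le_inf_right _ (h s List.mem_cons_self)).trans (le_qP s e)

theorem wlem {U W : RV S} {d e : Pt S} {t : Lb S} {lU : List (Lb S)} (hF : Free U d lU)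
    (ht : In t d) (hq : qP t e = qP t d) (hU : ∀ s ∈ lU, qP s e = qP s d)
    (hfree : H (U ⊓ rv d) + 1 ≤ H (U ⊓ rv d ⊓ rv t))
    (h1 : H (U ⊓ rv d ⊓ W) + H (U ⊓ rv d ⊓ rv e) ≤ H (U ⊓ rv d ⊓ rv e ⊓ W) + H (U ⊓ rv d))
    (h2 : H (U ⊓ rv e ⊓ W) + H (U ⊓ rv d ⊓ rv e) ≤ H (U ⊓ rv d ⊓ rv e ⊓ W) + H (U ⊓ rv e))
    (h3 : H (U ⊓ rv t ⊓ rv d) + H (U ⊓ rv t ⊓ rv e) ≤
      H (U ⊓ rv t ⊓ rv d ⊓ rv e) + H (U ⊓ cq d lU ⊓ rv t ⊓ rv (qP t d))) :
    H (U ⊓ cq d lU ⊓ W) + H (U ⊓ rv d) ≤ H (U ⊓ rv d ⊓ W) + H (U ⊓ cq d lU) := by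
  have cd : U ⊓ rv d ≤ cq d lU := wlem_le_cq hF.le fun _ _ => rfl
  have ce : U ⊓ rv e ≤ cq d lU := wlem_le_cq hF.le hU
  obtain ⟨S₁, π₁, t0, a1, a2, a3⟩ := w1 ht hq cd ce hfree h1 h2 h3
  have key : ∀ M : ℕ, (M : ℝ) *
      (H (U ⊓ cq d lU ⊓ W) + H (U ⊓ rv d) - H (U ⊓ rv d ⊓ W) - H (U ⊓ cq d lU)) ≤ 2 := by
    intro M
    have e1 := π₁.H_rv (U ⊓ rv d ⊓ W)
    obtain ⟨S₂, π₂, l, b1, b2, b3⟩ := w2 (U := π₁.rv U) (c := π₁.rv (cq d lU)) (W := π₁.rv W)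
      (d := π₁.fn d) (π₁.mono cd) a1 a2 (by rw [← e1] at a3; exact a3) M
    have hF' := hF.pull (π₂.comp π₁)
    have c1 := (π₂.comp π₁).rv_cq d lU
    have c2 := w3 (W := (π₂.comp π₁).rv W) (l := l) hF' (fun r hr => by
      rw [← c1]; exact b2 r hr) (by
      have e2 := π₂.H_rv (π₁.rv U ⊓ rv (π₁.fn d) ⊓ π₁.rv W)
      rw [← e2, ← b1] at b3
      exact b3)
    rw [← c1, b1] at c2
    have f1 := (π₂.comp π₁).H_rv (U ⊓ cq d lU ⊓ W)
    have f2 := (π₂.comp π₁).H_rv (U ⊓ rv d)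
    have f3 := (π₂.comp π₁).H_rv (U ⊓ rv d ⊓ W)
    have f4 := (π₂.comp π₁).H_rv (U ⊓ cq d lU)
    rw [← f1, ← f2, ← f3, ← f4]
    exact c2
  by_contra hn
  have hp : 0 < H (U ⊓ cq d lU ⊓ W) + H (U ⊓ rv d) - H (U ⊓ rv d ⊓ W) - H (U ⊓ cq d lU) := by
    linarith [not_le.1 hn]
  obtain ⟨M, hM⟩ := exists_nat_gt
    (2 / (H (U ⊓ cq d lU ⊓ W) + H (U ⊓ rv d) - H (U ⊓ rv d ⊓ W) - H (U ⊓ cq d lU)))
  rw [div_lt_iff₀ hp] at hM
  linarith [key M]

end Pool.Agent.P.MP_e72dc0_lc.TF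
end

-- part Pool.Agent.P.MP_e72dc0_lc.TF.LemC
section

namespace Pool.Agent.P.MP_e72dc0_lc.TF

open Pool.Agent.P.MP_db4732_co.Ent Filter Topology

variable {F : Fam} {S S' : Sys F}

section
variable {t a b : Lb S} {d0 d1 d2 e : Pt S}

theorem lemC (h : Valid t a b d0 d1 d2) : H (rv a ⊓ rv b ⊓ rv d0 ⊓ rv d1) = 9 / 2 := by
  have e0 := h.f0.H2d
  have e1 := h.f1.H2d
  have e2 := h.f2.H2d
  have e3 := h.f0.H3d
  have e4 := h.f2.H3d
  have hp := pair h.f0.free2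
  have b0 := lemB h
  have b2 := lemB h.pswap12.pswap01
  have h02 := h.pswap12.H01
  have hU : ∀ s ∈ [a, b], qP s d2 = qP s d0 := by
    intro s hs
    rcases List.mem_cons.1 hs with rfl | hs
    · exact h.a2
    · rcases List.mem_cons.1 hs with rfl | hs
      · exact h.b2
      · cases hs
  have c1 : H (rv a ⊓ rv b ⊓ rv d0 ⊓ rv t) = H (rv t ⊓ rv a ⊓ rv b ⊓ rv d0) :=
    H_congr (by order) (by order)
  have c2 : H (rv a ⊓ rv b ⊓ rv d0 ⊓ rv d2 ⊓ rv d1) =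
      H (rv a ⊓ rv b ⊓ rv d0 ⊓ rv d1 ⊓ rv d2) := H_congr (by order) (by order)
  have c3 : H (rv a ⊓ rv b ⊓ rv d2 ⊓ rv d0 ⊓ rv d1) =
      H (rv a ⊓ rv b ⊓ rv d0 ⊓ rv d1 ⊓ rv d2) := H_congr (by order) (by order)
  have c4 : H (rv a ⊓ rv b ⊓ rv d2 ⊓ rv d0) = H (rv a ⊓ rv b ⊓ rv d0 ⊓ rv d2) :=
    H_congr (by order) (by order)
  have c5 : H (rv a ⊓ rv b ⊓ rv t ⊓ rv d0) = H (rv t ⊓ rv a ⊓ rv b ⊓ rv d0) :=
    H_congr (by order) (by order)
  have c6 : H (rv a ⊓ rv b ⊓ rv t ⊓ rv d2) = H (rv t ⊓ rv a ⊓ rv b ⊓ rv d2) :=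
    H_congr (by order) (by order)
  have c7 : H (rv a ⊓ rv b ⊓ rv t ⊓ rv d0 ⊓ rv d2) =
      H (rv t ⊓ rv a ⊓ rv b ⊓ rv d0 ⊓ rv d2) := H_congr (by order) (by order)
  have c8 : H (rv a ⊓ rv b ⊓ cq d0 [a, b] ⊓ rv t ⊓ rv (qP t d0)) = co t a b d0 := by
    simp only [cq_cons, cq_nil, co]
    exact H_congr (by order) (by order)
  have w := wlem (U := rv a ⊓ rv b) (W := rv d1) (e := d2) (t := t) h.f0.free2 h.f0.it h.t2 hU
    (by linarith) (by linarith) (by linarith) (by linarith)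
  have qa0 := le_qP a d0
  have qb0 := le_qP b d0
  have qa1 : rv a ⊓ rv d1 ≤ rv (qP a d0) := h.a1 ▸ le_qP a d1
  have qb1 : rv b ⊓ rv d1 ≤ rv (qP b d0) := h.b1 ▸ le_qP b d1
  have c9 : H (rv a ⊓ rv b ⊓ cq d0 [a, b] ⊓ rv d1) = H (rv a ⊓ rv b ⊓ rv d1) := by
    simp only [cq_cons, cq_nil]
    exact H_congr (by order) (by order)
  have c10 : H (rv a ⊓ rv b ⊓ cq d0 [a, b]) =
      H (rv a ⊓ rv b ⊓ rv (qP a d0) ⊓ rv (qP b d0)) := by
    simp only [cq_cons, cq_nil]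
    exact H_congr (by order) (by order)
  have s1 := H_sub (rv a ⊓ rv b ⊓ rv d0) (rv a ⊓ rv b ⊓ rv d1)
    (rv a ⊓ rv b ⊓ rv (qP a d0) ⊓ rv (qP b d0)) (rv a ⊓ rv b ⊓ rv d0 ⊓ rv d1)
    (by order) (by order) (by order)
  linarith

theorem lemC2 (h : Valid t a b d0 d1 d2) : H (rv a ⊓ rv b ⊓ rv d0 ⊓ rv d1 ⊓ rv d2) = 5 := by
  have e0 := h.f0.H2d
  have b0 := lemB h
  have c1 := lemC h
  have c2 := lemC h.pswap12
  have s1 := H_sub (rv a ⊓ rv b ⊓ rv d0 ⊓ rv d1) (rv a ⊓ rv b ⊓ rv d0 ⊓ rv d2)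
    (rv a ⊓ rv b ⊓ rv d0) (rv a ⊓ rv b ⊓ rv d0 ⊓ rv d1 ⊓ rv d2)
    (by order) (by order) (by order)
  linarith

theorem lemC3 (h : Valid t a b d0 d1 d2) : H (rv a ⊓ rv d0 ⊓ rv d1) ≤ co t a b d0 - 1 := by
  have c1 := lemC h
  have c2 := lemC h.swap23.swap12
  have c3 := h.H01
  have s1 := H_sub (rv a ⊓ rv b ⊓ rv d0 ⊓ rv d1) (rv t ⊓ rv a ⊓ rv d0 ⊓ rv d1)
    (rv a ⊓ rv d0 ⊓ rv d1) (rv t ⊓ rv a ⊓ rv b ⊓ rv d0 ⊓ rv d1)
    (by order) (by order) (by order)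
  linarith

theorem pad (h : Fr3 t a b e) : ∃ (S' : Sys F) (π : Ext S' S) (f : Pt S'),
    In (π.fn t) f ∧ In (π.fn a) f ∧ qP (π.fn t) f = π.fn (qP t e) ∧
    pP (π.fn a) f = π.fn (pP a e) ∧
    (∀ X : RV S, X ≤ rv a ⊓ rv t ⊓ rv e → H X + 1 / 2 ≤ H (π.rv X ⊓ rv f)) ∧
    H (π.rv (rv a ⊓ rv e) ⊓ rv f) ≤ co t (fl a) b e - 1 := by
  obtain ⟨S1, π1, g1, g2, hv⟩ := h.flip2.valid
  have c1 := lemC hv.swap23.swap12
  have c3 := lemC3 hv
  rw [co_pull] at c3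
  simp only [Ext.fn_fl, rv_fl] at c1 c3
  have e4 := (h.swap23.swap12.pull π1).H2d
  obtain ⟨S2, ρ1, ρ2, e1, e2, ind⟩ := copy S1 (rv (π1.fn a) ⊓ rv (π1.fn t) ⊓ rv (π1.fn e))
  have ea : ρ2.fn (π1.fn a) = ρ1.fn (π1.fn a) := e2 _ _ (by order)
  have et : ρ2.fn (π1.fn t) = ρ1.fn (π1.fn t) := e2 _ _ (by order)
  have ee : ρ2.fn (π1.fn e) = ρ1.fn (π1.fn e) := e2 _ _ (by order)
  refine ⟨S2, ρ1.comp π1, ρ2.fn g1, ?_, ?_, ?_, ?_, ?_, ?_⟩
  · have := hv.f1.it.pull ρ2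
    rwa [et] at this
  · have := hv.f1.ia.flip.pull ρ2
    simp only [Ext.fn_fl, fl_fl] at this
    rwa [ea] at this
  · have := congrArg ρ2.fn hv.t1
    simp only [Ext.fn_qP] at this
    simp only [Ext.comp_fn, Ext.fn_qP]
    rwa [et, ee] at this
  · have := congrArg ρ2.fn hv.a1
    simp only [Ext.fn_fl, qP_fl, Ext.fn_pP] at this
    simp only [Ext.comp_fn, Ext.fn_pP]
    rwa [ea, ee] at this
  · intro X hX
    have hX1 : π1.rv X ≤ rv (π1.fn a) ⊓ rv (π1.fn t) ⊓ rv (π1.fn e) := π1.mono hX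
    have hX2 : ρ1.rv (π1.rv X) ≤
        rv (ρ1.fn (π1.fn a)) ⊓ rv (ρ1.fn (π1.fn t)) ⊓ rv (ρ1.fn (π1.fn e)) := ρ1.mono hX1
    have i1 := ind (π1.rv X) (rv (π1.fn a) ⊓ rv (π1.fn t) ⊓ rv (π1.fn e) ⊓ rv g1) hX1 (by order)
    simp only [Ext.rv_inf, Ext.rv_rv, Ext.H_rv] at i1
    rw [ea, et, ee] at i1
    have k1 : H (rv (π1.fn a) ⊓ rv (π1.fn t) ⊓ rv (π1.fn e) ⊓ rv g1) =
        H (rv (π1.fn t) ⊓ rv (π1.fn a) ⊓ rv (π1.fn e) ⊓ rv g1) := H_congr (by order) (by order)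
    have k2 : H (rv (π1.fn a) ⊓ rv (π1.fn t) ⊓ rv (π1.fn e)) =
        H (rv (π1.fn t) ⊓ rv (π1.fn a) ⊓ rv (π1.fn e)) := H_congr (by order) (by order)
    have k3 : H (ρ1.rv (π1.rv X) ⊓ (rv (ρ1.fn (π1.fn a)) ⊓ rv (ρ1.fn (π1.fn t)) ⊓
        rv (ρ1.fn (π1.fn e)) ⊓ rv (ρ2.fn g1))) = H (ρ1.rv (π1.rv X) ⊓ rv (ρ2.fn g1)) :=
      H_congr (by order) (by order)
    simp only [Ext.comp_rv]
    linarith
  · have := ρ2.H_rv (rv (π1.fn a) ⊓ rv (π1.fn e) ⊓ rv g1)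
    simp only [Ext.rv_inf, Ext.rv_rv] at this
    rw [ea, ee] at this
    simp only [Ext.rv_inf, Ext.rv_rv, Ext.comp_fn]
    linarith

end

end Pool.Agent.P.MP_e72dc0_lc.TF
end

-- part Pool.Agent.P.MP_e72dc0_lc.TF.LemD
section

namespace Pool.Agent.P.MP_e72dc0_lc.TF

open Pool.Agent.P.MP_db4732_co.Ent Filter Topology

variable {F : Fam} {S S' : Sys F}

theorem lemD_lat (T A D0 D1 D2 G1 G2 : RV S) (m1 : A ⊓ D0 ⊓ G1 ≤ D1) (m2 : A ⊓ D0 ⊓ G2 ≤ D2) :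
    H (T ⊓ A ⊓ D0 ⊓ D1 ⊓ D2 ⊓ G1 ⊓ G2) ≤ H (A ⊓ D0 ⊓ G1 ⊓ G2 ⊓ T) ∧
    H (A ⊓ D0 ⊓ G1 ⊓ G2) + H (A ⊓ D1) + H (A ⊓ D2) ≤
      H (A ⊓ D0 ⊓ D1 ⊓ D2) + H (A ⊓ D1 ⊓ G1) + H (A ⊓ D2 ⊓ G2) := by
  refine ⟨H_mono (by order), ?_⟩
  have s1 := H_sub (A ⊓ D0 ⊓ D1 ⊓ D2) (A ⊓ D1 ⊓ G1) (A ⊓ D1) (A ⊓ D0 ⊓ D1 ⊓ D2 ⊓ G1)
    (by order) (by order) (by order)
  have s2 := H_sub (A ⊓ D0 ⊓ D1 ⊓ D2 ⊓ G1) (A ⊓ D2 ⊓ G2) (A ⊓ D2) (A ⊓ D0 ⊓ G1 ⊓ G2)
    (by order) (by order) (by order)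
  linarith

theorem lemD_le {a : Lb S} {d0 d f : Pt S} (hd : In a d) (p : pP a f = pP a d)
    (q : qP a d = qP a d0) : rv a ⊓ rv d0 ⊓ rv f ≤ rv d := by
  have e := hd.le_pq
  rw [← p, q] at e
  refine le_trans (le_inf ?_ ?_) e
  · exact le_trans (le_inf (inf_le_left.trans inf_le_left) inf_le_right) (le_pP a f)
  · exact le_trans inf_le_left (le_qP a d0)

theorem lemD_core {t a b : Lb S} {d0 d1 d2 f1 f2 : Pt S} (h : Valid t a b d0 d1 d2) (c : ℝ)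
    (i1 : In t f1) (i2 : In t f2) (q1 : qP t f1 = qP t d1) (q2 : qP t f2 = qP t d2)
    (p1 : pP a f1 = pP a d1) (p2 : pP a f2 = pP a d2)
    (lo : 6 ≤ H (rv t ⊓ rv a ⊓ rv d0 ⊓ rv d1 ⊓ rv d2 ⊓ rv f1 ⊓ rv f2))
    (u1 : H (rv a ⊓ rv d1 ⊓ rv f1) ≤ c) (u2 : H (rv a ⊓ rv d2 ⊓ rv f2) ≤ c) :
    12 - 2 * c ≤ H (rv a ⊓ rv d0 ⊓ rv d1 ⊓ rv d2) := by
  have three := threePt (rv a) h.f0.it i1 i2 (q1.trans h.t1) (q2.trans h.t2)
  have ha := h.f0.H1
  have ha1 := h.f1.H1d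
  have ha2 := h.f2.H1d
  obtain ⟨s0, s1⟩ := lemD_lat (rv t) (rv a) (rv d0) (rv d1) (rv d2) (rv f1) (rv f2)
    (lemD_le h.f1.ia p1 h.a1) (lemD_le h.f2.ia p2 h.a2)
  linarith

theorem lemD_lat2 (T A D0 D1 D2 G : RV S) :
    T ⊓ A ⊓ D0 ⊓ D1 ⊓ D2 ≤ A ⊓ T ⊓ D1 ∧ T ⊓ A ⊓ D0 ⊓ D1 ⊓ D2 ⊓ G ≤ A ⊓ T ⊓ D2 :=
  ⟨by order, by order⟩

theorem lemD {t a b : Lb S} {d0 d1 d2 : Pt S} (h : Valid t a b d0 d1 d2) :
    2 * co t a b d0 - 5 ≤ H (rv a ⊓ rv d0 ⊓ rv d1 ⊓ rv d2) := by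
  have c1 : co t (fl a) b d1 = 19 / 2 - co t a b d0 := by
    have e1 := h.f1.swap23.co_add
    have e2 : co t b a d1 = co t a b d1 := co_swap23
    have e3 : co t b (fl a) d1 = co t (fl a) b d1 := co_swap23
    have e4 := h.co1
    linarith
  have c2 : co t (fl a) b d2 = 19 / 2 - co t a b d0 := by
    have e1 := h.f2.swap23.co_add
    have e2 : co t b a d2 = co t a b d2 := co_swap23
    have e3 : co t b (fl a) d2 = co t (fl a) b d2 := co_swap23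
    have e4 := h.co2
    linarith
  have g5 : H (rv t ⊓ rv a ⊓ rv d0 ⊓ rv d1 ⊓ rv d2) = 5 := lemC2 h.swap23.swap12
  obtain ⟨S1, π1, f1, it1, -, q1, p1, lo1, up1⟩ := pad h.f1
  have hv1 := h.pull π1
  obtain ⟨S2, π2, f2, it2, -, q2, p2, lo2, up2⟩ := pad hv1.f2
  have hv2 := hv1.pull π2
  have l1 := lo1 (rv t ⊓ rv a ⊓ rv d0 ⊓ rv d1 ⊓ rv d2) (lemD_lat2 _ _ _ _ _ ⊤).1
  have l2 := lo2 (π1.rv (rv t ⊓ rv a ⊓ rv d0 ⊓ rv d1 ⊓ rv d2) ⊓ rv f1)
    (lemD_lat2 (rv (π1.fn t)) (rv (π1.fn a)) (rv (π1.fn d0)) (rv (π1.fn d1)) (rv (π1.fn d2))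
      (rv f1)).2
  have c2' : co (π1.fn t) (fl (π1.fn a)) (π1.fn b) (π1.fn d2) = co t (fl a) b d2 :=
    co_pull (t := t) (a := fl a) (b := b) (d := d2) π1
  have u1 := π2.H_rv (π1.rv (rv a ⊓ rv d1) ⊓ rv f1)
  have o := (π2.comp π1).H_rv (rv a ⊓ rv d0 ⊓ rv d1 ⊓ rv d2)
  have tq1 : qP (π2.fn (π1.fn t)) (π2.fn f1) = qP (π2.fn (π1.fn t)) (π2.fn (π1.fn d1)) :=
    congrArg (fun g => π2.fn g) q1
  have pa1 : pP (π2.fn (π1.fn a)) (π2.fn f1) = pP (π2.fn (π1.fn a)) (π2.fn (π1.fn d1)) :=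
    congrArg (fun g => π2.fn g) p1
  simp only [Ext.rv_inf, Ext.rv_rv, Ext.comp_fn] at l1 l2 u1 o up1 up2
  have key := lemD_core hv2 (17 / 2 - co t a b d0) (it1.pull π2) it2 tq1 q2 pa1 p2
    (by linarith only [l1, l2, g5]) (by linarith only [u1, up1, c1])
    (by linarith only [up2, c2, c2'])
  linarith only [key, o]

theorem lemE {t a b : Lb S} {d0 d1 d2 : Pt S} (h : Valid t a b d0 d1 d2) : 5 ≤ co t a b d0 := by
  have hD := lemD h
  have a0 := h.f0.H1d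
  have a1 := h.f1.H1d
  have a2 := h.f2.H1d
  have b01 := lemC3 h
  have b02 := lemC3 h.pswap12
  have b12 := lemC3 h.pswap01.pswap12
  have c1 := h.co1
  have hv : Valid b a t d0 d1 d2 := h.swap23.swap12.swap23
  have t0 := hv.f0.H2d
  have t1 := hv.f1.H2d
  have t01 := lemC hv
  have pr := pair hv.f0.free2
  have sg := single h.f0.free1
  have w := wlem (U := rv a) (W := rv d2) (d := d0) (e := d1) (t := t) (lU := [a]) h.f0.free1
    h.f0.it h.t1 (by intro s hs; rw [List.mem_singleton.mp hs]; exact h.a1)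
    (by
      have : H (rv a ⊓ rv d0 ⊓ rv t) = H (rv a ⊓ rv t ⊓ rv d0) := H_congr (by order) (by order)
      linarith)
    (by linarith) (by linarith)
    (by
      have : H (rv a ⊓ cq d0 [a] ⊓ rv t ⊓ rv (qP t d0)) =
          H (rv a ⊓ rv t ⊓ rv (qP a d0) ⊓ rv (qP t d0)) := by
        simp only [cq_cons, cq_nil, inf_top_eq]
        exact H_congr (by order) (by order)
      linarith)
  simp only [cq_cons, cq_nil, inf_top_eq] at w
  have m : H (rv a ⊓ rv d2) ≤ H (rv a ⊓ rv (qP a d0) ⊓ rv d2) := H_mono (by order)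
  linarith

theorem no_fam (F : Fam) : False := by
  obtain ⟨S, t, a, b, d, h⟩ := exist3 F
  obtain ⟨S1, π1, e1, e2, h1⟩ := h.valid
  obtain ⟨S2, π2, f1, f2, h2⟩ := h.flip3.valid
  have e1 := lemE h1
  have e2 := lemE h2
  rw [co_pull] at e1 e2
  have := h.co_add
  linarith

end Pool.Agent.P.MP_e72dc0_lc.TF
end

-- part Pool.Agent.P.MP_e72dc0_lc.TF.Sdpp
section

namespace Pool.Agent.P.MP_e72dc0_lc.TF

/-- simultaneous double product property -/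
def Sdpp {G ι : Type} [AddCommGroup G] (A B : ι → Finset G) : Prop :=
  (∀ i, ∀ a ∈ A i, ∀ a' ∈ A i, ∀ b ∈ B i, ∀ b' ∈ B i, a - a' + (b - b') = 0 → a = a' ∧ b = b') ∧
  ∀ i j k, ∀ a ∈ A i, ∀ a' ∈ A j, ∀ b ∈ B j, ∀ b' ∈ B k, a - a' + (b - b') = 0 → i = k

/-- the family beats the bound with exponent `2 + c` -/
def Beats {G ι : Type} [Fintype G] [Fintype ι] (A B : ι → Finset G) (c : ℝ) : Prop :=
  (Fintype.card G : ℝ) ^ (3 / 2 : ℝ) < ∑ i, (((A i).card * (B i).card : ℕ) : ℝ) ^ (1 + c / 2)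

end Pool.Agent.P.MP_e72dc0_lc.TF
end

-- part Pool.Agent.P.MP_e72dc0_lc.TF.Tensor
section

namespace Pool.Agent.P.MP_e72dc0_lc.TF

theorem tensor_two_le {G ι : Type} [AddCommGroup G] [Fintype G] [Fintype ι] {A B : ι → Finset G}
    (h : Sdpp A B) {c : ℝ} (hc : 0 < c) (hb : Beats A B c) : 2 ≤ Fintype.card G := by
  classical
  by_contra hlt
  have hpos : 0 < Fintype.card G := Fintype.card_pos
  have h1 : Fintype.card G = 1 := by omega
  have hsub : Subsingleton G := Fintype.card_le_one_iff_subsingleton.1 h1.le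
  have hle : ∀ s : Finset G, s.card ≤ 1 := fun s => h1 ▸ Finset.card_le_univ s
  have hc' : (1 + c / 2 : ℝ) ≠ 0 := by positivity
  unfold Beats at hb
  rw [h1] at hb
  simp only [Nat.cast_one, Real.one_rpow] at hb
  by_cases hex : ∃ i, (A i).Nonempty ∧ (B i).Nonempty
  · obtain ⟨i, ⟨a, ha⟩, ⟨b, hb'⟩⟩ := hex
    rw [Finset.sum_eq_single i] at hb
    · have h2 : ((A i).card * (B i).card : ℕ) ≤ 1 := by
        have := Nat.mul_le_mul (hle (A i)) (hle (B i))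
        simpa using this
      have h3 : (((A i).card * (B i).card : ℕ) : ℝ) ≤ 1 := by exact_mod_cast h2
      have h4 := Real.rpow_le_one (Nat.cast_nonneg _) h3 (by positivity : (0 : ℝ) ≤ 1 + c / 2)
      linarith
    · intro k _ hk
      by_cases hBk : (B k).Nonempty
      · obtain ⟨b', hb''⟩ := hBk
        exact absurd (h.2 i i k a ha a ha b hb' b' hb'' (Subsingleton.elim _ _)).symm hk
      · rw [Finset.not_nonempty_iff_eq_empty] at hBk
        rw [hBk, Finset.card_empty, Nat.mul_zero, Nat.cast_zero, Real.zero_rpow hc']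
    · intro hi
      exact absurd (Finset.mem_univ i) hi
  · have hz : ∑ i, (((A i).card * (B i).card : ℕ) : ℝ) ^ (1 + c / 2) = 0 := by
      refine Finset.sum_eq_zero fun i _ => ?_
      have h0 : (A i).card * (B i).card = 0 := by
        by_contra hne
        obtain ⟨hA, hB⟩ := mul_ne_zero_iff.1 hne
        exact hex ⟨i, Finset.card_ne_zero.1 hA, Finset.card_ne_zero.1 hB⟩
      rw [h0, Nat.cast_zero, Real.zero_rpow hc']
    linarith

theorem tensor_sdpp {G ι : Type} [AddCommGroup G] {A B : ι → Finset G} (h : Sdpp A B) (M : ℕ) :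
    Sdpp (fun f : Fin M → ι => Fintype.piFinset fun j => A (f j))
      (fun f : Fin M → ι => Fintype.piFinset fun j => B (f j)) := by
  constructor
  · intro i a ha a' ha' b hb b' hb' e
    rw [Fintype.mem_piFinset] at ha ha' hb hb'
    have key : ∀ j, a j = a' j ∧ b j = b' j := fun j =>
      h.1 (i j) _ (ha j) _ (ha' j) _ (hb j) _ (hb' j) (congrFun e j)
    exact ⟨funext fun j => (key j).1, funext fun j => (key j).2⟩
  · intro i j k a ha a' ha' b hb b' hb' e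
    rw [Fintype.mem_piFinset] at ha ha' hb hb'
    exact funext fun t =>
      h.2 (i t) (j t) (k t) _ (ha t) _ (ha' t) _ (hb t) _ (hb' t) (congrFun e t)

theorem tensor_beats {G ι : Type} [Fintype G] [Fintype ι] {A B : ι → Finset G} {c : ℝ}
    (hb : Beats A B c) {M : ℕ} (hM : M ≠ 0) :
    Beats (fun f : Fin M → ι => Fintype.piFinset fun j => A (f j))
      (fun f : Fin M → ι => Fintype.piFinset fun j => B (f j)) c := by
  classical
  unfold Beats at hb ⊢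
  have e1 : ((Fintype.card (Fin M → G) : ℕ) : ℝ) ^ (3 / 2 : ℝ)
      = ((Fintype.card G : ℝ) ^ (3 / 2 : ℝ)) ^ M := by
    rw [Fintype.card_fun, Fintype.card_fin, Nat.cast_pow,
      ← Real.rpow_natCast, ← Real.rpow_natCast, ← Real.rpow_mul (Nat.cast_nonneg _),
      ← Real.rpow_mul (Nat.cast_nonneg _), mul_comm]
  have e2 : ∑ f : Fin M → ι, ((((Fintype.piFinset fun j => A (f j)).card
        * (Fintype.piFinset fun j => B (f j)).card : ℕ) : ℝ)) ^ (1 + c / 2)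
      = (∑ i, (((A i).card * (B i).card : ℕ) : ℝ) ^ (1 + c / 2)) ^ M := by
    have e3 : (∑ i, (((A i).card * (B i).card : ℕ) : ℝ) ^ (1 + c / 2)) ^ M
        = ∏ _j : Fin M, ∑ i, (((A i).card * (B i).card : ℕ) : ℝ) ^ (1 + c / 2) := by
      rw [Finset.prod_const, Finset.card_univ, Fintype.card_fin]
    rw [e3, Finset.prod_univ_sum, Fintype.piFinset_univ]
    refine Finset.sum_congr rfl fun f _ => ?_
    rw [Fintype.card_piFinset, Fintype.card_piFinset, ← Finset.prod_mul_distrib, Nat.cast_prod,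
      Real.finsetProd_rpow _ _ (fun j _ => Nat.cast_nonneg _)]
  rw [e1, e2]
  exact pow_lt_pow_left₀ hb (by positivity) hM

theorem tensor {G ι : Type} [AddCommGroup G] [Fintype G] [Fintype ι] {A B : ι → Finset G}
    (h : Sdpp A B) {c : ℝ} (hc : 0 < c) (hb : Beats A B c) (N0 : ℕ) :
    ∃ (G' ι' : Type) (_ : AddCommGroup G') (_ : Fintype G') (_ : Fintype ι')
      (A' B' : ι' → Finset G'), Sdpp A' B' ∧ Beats A' B' c ∧ N0 ≤ Fintype.card G' := by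
  classical
  refine ⟨Fin (N0 + 1) → G, Fin (N0 + 1) → ι, inferInstance, inferInstance, inferInstance, _, _,
    tensor_sdpp h (N0 + 1), tensor_beats hb (Nat.succ_ne_zero N0), ?_⟩
  rw [Fintype.card_fun, Fintype.card_fin]
  have h2 := tensor_two_le h hc hb
  calc N0 ≤ N0 + 1 := Nat.le_succ _
    _ ≤ 2 ^ (N0 + 1) := Nat.lt_two_pow_self.le
    _ ≤ _ := Nat.pow_le_pow_left h2 _

end Pool.Agent.P.MP_e72dc0_lc.TF
end

-- part Pool.Agent.P.MP_e72dc0_lc.TF.Prune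
section

namespace Pool.Agent.P.MP_e72dc0_lc.TF

theorem prune_mul_le {G ι : Type} [AddCommGroup G] [Fintype G] {A B : ι → Finset G}
    (h : Sdpp A B) (i : ι) : (A i).card * (B i).card ≤ Fintype.card G := by
  classical
  rw [← Finset.card_product, ← Finset.card_univ]
  refine Finset.card_le_card_of_injOn (fun p => p.1 + p.2) (fun _ _ => Finset.mem_univ _) ?_
  rintro ⟨a, b⟩ hp ⟨a', b'⟩ hq e
  simp only [Finset.coe_product, Set.mem_prod, Finset.mem_coe] at hp hq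
  have e' : a + b = a' + b' := e
  obtain ⟨h1, h2⟩ := h.1 i a hp.1 a' hq.1 b hp.2 b' hq.2 (by
    rw [show a - a' + (b - b') = a + b - (a' + b') by abel, e', sub_self])
  exact Prod.ext h1 h2

theorem prune_sum_le {G ι : Type} [Fintype G] {A : ι → Finset G} {I : Finset ι}
    (h : ∀ i ∈ I, ∀ k ∈ I, ∀ a ∈ A i, a ∈ A k → i = k) :
    ∑ i ∈ I, ((A i).card : ℝ) ≤ Fintype.card G := by
  classical
  have h1 : (I.biUnion A).card = ∑ i ∈ I, (A i).card :=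
    Finset.card_biUnion fun i hi k hk hne =>
      Finset.disjoint_left.2 fun a ha ha' => hne (h i hi k hk a ha ha')
  have h2 : (I.biUnion A).card ≤ Fintype.card G := Finset.card_le_univ _
  rw [h1] at h2
  exact_mod_cast h2

theorem prune {G ι : Type} [AddCommGroup G] [Fintype G] [Fintype ι] {A B : ι → Finset G}
    (h : Sdpp A B) {c : ℝ} (hc : 0 < c) (hc1 : c ≤ 1 / 4) (hb : Beats A B c)
    (hN : 8 ≤ (Fintype.card G : ℝ) ^ (c / 2)) :
    ∃ T : Finset ι, (T.card : ℝ) ≤ (Fintype.card G : ℝ) ^ (1 / 2 + c) ∧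
      (∀ i ∈ T, ((A i).card : ℝ) ≤ (Fintype.card G : ℝ) ^ (1 / 2 + c) ∧
        ((B i).card : ℝ) ≤ (Fintype.card G : ℝ) ^ (1 / 2 + c)) ∧
      (Fintype.card G : ℝ) ^ (3 / 2 - c) ≤ ∑ i ∈ T, (((A i).card * (B i).card : ℕ) : ℝ) := by
  classical
  have hm := prune_mul_le h
  set I : Finset ι := Finset.univ.filter fun i => 0 < (A i).card * (B i).card with hI
  have hne : ∀ i ∈ I, (A i).Nonempty ∧ (B i).Nonempty := fun i hi => by
    have := (Finset.mem_filter.1 hi).2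
    exact ⟨Finset.card_pos.1 (Nat.pos_of_mul_pos_right this),
      Finset.card_pos.1 (Nat.pos_of_mul_pos_left this)⟩
  have hA : ∑ i ∈ I, ((A i).card : ℝ) ≤ Fintype.card G := prune_sum_le fun i _ k hk a ha ha' => by
    obtain ⟨b, hb⟩ := (hne k hk).2
    exact h.2 i k k a ha a ha' b hb b hb (by simp)
  have hB : ∑ i ∈ I, ((B i).card : ℝ) ≤ Fintype.card G := prune_sum_le fun i hi k _ b hb hb' => by
    obtain ⟨a, ha⟩ := (hne i hi).1
    exact h.2 i i k a ha a ha b hb b hb' (by simp)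
  unfold Beats at hb
  have hN0 : (0 : ℝ) < Fintype.card G := by exact_mod_cast Fintype.card_pos
  generalize hNe : (Fintype.card G : ℝ) = N at *
  have hm' : ∀ i, (((A i).card * (B i).card : ℕ) : ℝ) ≤ N := fun i => by
    rw [← hNe]; exact_mod_cast hm i
  obtain ⟨u, hu⟩ : ∃ u, u = N ^ (1 / 2 - c) := ⟨_, rfl⟩
  obtain ⟨v, hv⟩ : ∃ v, v = N ^ (1 / 2 + c) := ⟨_, rfl⟩
  obtain ⟨w, hw⟩ : ∃ w, w = N ^ (c / 2) := ⟨_, rfl⟩
  have hu0 : 0 < u := hu ▸ Real.rpow_pos_of_pos hN0 _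
  have hv0 : 0 < v := hv ▸ Real.rpow_pos_of_pos hN0 _
  have huv : u * v = N := by
    rw [hu, hv, ← Real.rpow_add hN0]; norm_num
  have e1 : N ^ (3 / 2 - c) = N * u := by
    rw [hu, show 3 / 2 - c = 1 + (1 / 2 - c) by ring, Real.rpow_add hN0, Real.rpow_one]
  have e2 : N ^ (3 / 2 : ℝ) = N * u * w * w := by
    rw [← e1, hw, ← Real.rpow_add hN0, ← Real.rpow_add hN0]; congr 1; ring
  rw [← hw] at hN
  rw [← hv, e1]
  have hsum : 8 * (N * u) ≤ ∑ i, (((A i).card * (B i).card : ℕ) : ℝ) := by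
    have h1 : ∑ i, (((A i).card * (B i).card : ℕ) : ℝ) ^ (1 + c / 2) ≤
        ∑ i, (((A i).card * (B i).card : ℕ) : ℝ) * w := by
      refine Finset.sum_le_sum fun i _ => ?_
      rw [Real.rpow_add' (Nat.cast_nonneg _) (by linarith), Real.rpow_one, hw]
      exact mul_le_mul_of_nonneg_left
        (Real.rpow_le_rpow (Nat.cast_nonneg _) (hm' i) (by linarith)) (Nat.cast_nonneg _)
    rw [← Finset.sum_mul] at h1
    have h2 := lt_of_mul_lt_mul_right (e2 ▸ hb.trans_le h1) (by linarith : 0 ≤ w)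
    have h3 := mul_le_mul_of_nonneg_left hN (mul_pos hN0 hu0).le
    linarith
  set T : Finset ι := I.filter fun i =>
    (((A i).card : ℝ) + (B i).card) / 2 * u < (((A i).card * (B i).card : ℕ) : ℝ) ∧
      ((A i).card : ℝ) ≤ v ∧ ((B i).card : ℝ) ≤ v with hT
  have hTI : T ⊆ I := Finset.filter_subset _ _
  refine ⟨T, ?_, fun i hi => (Finset.mem_filter.1 hi).2.2, ?_⟩
  · have h1 : ∑ _i ∈ T, u ≤ ∑ i ∈ T, (((A i).card : ℝ) + (B i).card) / 2 := by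
      refine Finset.sum_le_sum fun i hi => ?_
      have h2 := (Finset.mem_filter.1 hi).2.1
      push_cast at h2
      have ha : (0 : ℝ) ≤ (A i).card := Nat.cast_nonneg _
      have hb : (0 : ℝ) ≤ (B i).card := Nat.cast_nonneg _
      by_contra hlt
      have h3 := mul_le_mul_of_nonneg_left (not_le.1 hlt).le
        (by linarith : 0 ≤ (((A i).card : ℝ) + (B i).card) / 2)
      nlinarith [sq_nonneg (((A i).card : ℝ) - (B i).card)]
    have h2 : ∑ i ∈ T, (((A i).card : ℝ) + (B i).card) / 2 ≤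
        ∑ i ∈ I, (((A i).card : ℝ) + (B i).card) / 2 :=
      Finset.sum_le_sum_of_subset_of_nonneg hTI fun i _ _ => by positivity
    rw [← Finset.sum_div I, Finset.sum_add_distrib] at h2
    rw [Finset.sum_const, nsmul_eq_mul] at h1
    have h3 : (T.card : ℝ) * u ≤ v * u := by linarith
    exact le_of_mul_le_mul_right h3 hu0
  · have h0 : ∑ i, (((A i).card * (B i).card : ℕ) : ℝ) =
        ∑ i ∈ I, (((A i).card * (B i).card : ℕ) : ℝ) := by
      refine (Finset.sum_subset (Finset.subset_univ _) fun i _ hi => ?_).symm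
      have : ¬ 0 < (A i).card * (B i).card := fun h =>
        hi (Finset.mem_filter.2 ⟨Finset.mem_univ _, h⟩)
      rw [Nat.eq_zero_of_not_pos this]; simp
    have h1 : ∑ i ∈ I, (((A i).card * (B i).card : ℕ) : ℝ) ≤
        ∑ i ∈ I, ((if i ∈ T then (((A i).card * (B i).card : ℕ) : ℝ) else 0) +
          3 / 2 * u * (((A i).card : ℝ) + (B i).card)) := by
      refine Finset.sum_le_sum fun i hi => ?_
      have ha : (0 : ℝ) ≤ u * (A i).card := by positivity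
      have hb : (0 : ℝ) ≤ u * (B i).card := by positivity
      split_ifs with hiT
      · linarith
      · have h2 := hm' i
        by_cases c1 : ((A i).card : ℝ) ≤ v
        · by_cases c2 : ((B i).card : ℝ) ≤ v
          · have c3 : ¬ (((A i).card : ℝ) + (B i).card) / 2 * u <
                (((A i).card * (B i).card : ℕ) : ℝ) := fun c3 =>
              hiT (Finset.mem_filter.2 ⟨hi, c3, c1, c2⟩)
            have := not_lt.1 c3
            linarith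
          · have := mul_le_mul_of_nonneg_left (not_le.1 c2).le hu0.le
            linarith
        · have := mul_le_mul_of_nonneg_left (not_le.1 c1).le hu0.le
          linarith
    rw [Finset.sum_add_distrib, ← Finset.mul_sum, Finset.sum_add_distrib, Finset.sum_ite_mem,
      Finset.inter_eq_right.2 hTI] at h1
    have h2 := mul_le_mul_of_nonneg_left (add_le_add hA hB) (by positivity : 0 ≤ 3 / 2 * u)
    have h3 := mul_pos hN0 hu0
    linarith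

end Pool.Agent.P.MP_e72dc0_lc.TF
end

-- part Pool.Agent.P.MP_e72dc0_lc.TF.Strong
section

namespace Pool.Agent.P.MP_e72dc0_lc.TF

open Pool.Agent.P.MP_db4732_co.Ent Filter Topology

variable {F : Fam} {S S' : Sys F}

section
variable {G ι : Type} [AddCommGroup G]

/-- first set of a signed label -/
def strongP (A B : ι → Finset G) (T : Finset ι) (s : T × Bool) : Finset G :=
  if s.2 = true then A s.1 else (B s.1).map (Equiv.neg G).toEmbedding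

theorem strong_mem_t {A B : ι → Finset G} {T : Finset ι} {t : T} {x : G} :
    x ∈ strongP A B T (t, true) ↔ x ∈ A t := by simp [strongP]

theorem strong_mem_f {A B : ι → Finset G} {T : Finset ι} {t : T} {x : G} :
    x ∈ strongP A B T (t, false) ↔ -x ∈ B t := by
  simp [strongP, Finset.mem_map_equiv]

theorem strong_card_t {A B : ι → Finset G} {T : Finset ι} (t : T) :
    (strongP A B T (t, true)).card = (A t).card := by simp [strongP]

theorem strong_card_f {A B : ι → Finset G} {T : Finset ι} (t : T) :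
    (strongP A B T (t, false)).card = (B t).card := by simp [strongP]

theorem strong_direct {A B : ι → Finset G} (h : Sdpp A B) (T : Finset ι) (s : T × Bool) :
    ∀ p ∈ strongP A B T s, ∀ p' ∈ strongP A B T s, ∀ q ∈ strongP A B T (s.1, !s.2),
      ∀ q' ∈ strongP A B T (s.1, !s.2), p + q = p' + q' → p = p' := by
  obtain ⟨t, _ | _⟩ := s
  · intro p hp p' hp' q hq q' hq' e
    have h1 := h.1 t q (strong_mem_t.1 hq) q' (strong_mem_t.1 hq') (-p') (strong_mem_f.1 hp')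
      (-p) (strong_mem_f.1 hp) (by linear_combination (norm := abel1) e)
    exact (neg_injective h1.2).symm
  · intro p hp p' hp' q hq q' hq' e
    exact (h.1 t p (strong_mem_t.1 hp) p' (strong_mem_t.1 hp') (-q') (strong_mem_f.1 hq')
      (-q) (strong_mem_f.1 hq) (by linear_combination (norm := abel1) e)).1

theorem strong_det {A B : ι → Finset G} (h : Sdpp A B) (T : Finset ι) (s r r' : T × Bool)
    (hr : r.2 = r'.2) :
    ∀ p ∈ strongP A B T s, ∀ q ∈ strongP A B T (s.1, !s.2), ∀ p' ∈ strongP A B T s,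
      ∀ q' ∈ strongP A B T (s.1, !s.2), ∀ x ∈ strongP A B T r, ∀ y ∈ strongP A B T (r.1, !r.2),
      ∀ x' ∈ strongP A B T r', ∀ y' ∈ strongP A B T (r'.1, !r'.2),
      p + q = x + y → p' + q' = x' + y' → p - x = p' - x' → r = r' := by
  obtain ⟨t, σ⟩ := s
  obtain ⟨u, τ⟩ := r
  obtain ⟨u', τ'⟩ := r'
  obtain rfl : τ = τ' := hr
  intro p hp q hq p' hp' q' _ x hx y hy x' hx' y' _ e1 _ e3
  refine Prod.ext (Subtype.ext ?_) rfl
  cases σ <;> cases τ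
  · exact h.2 u t u' y (strong_mem_t.1 hy) q (strong_mem_t.1 hq) (-p') (strong_mem_f.1 hp')
      (-x') (strong_mem_f.1 hx') (by linear_combination (norm := abel1) e3 - e1)
  · exact (h.2 u' t u x' (strong_mem_t.1 hx') q (strong_mem_t.1 hq) (-p') (strong_mem_f.1 hp')
      (-y) (strong_mem_f.1 hy) (by linear_combination (norm := abel1) e3 - e1)).symm
  · exact h.2 u t u' y (strong_mem_t.1 hy) p' (strong_mem_t.1 hp') (-q) (strong_mem_f.1 hq)
      (-x') (strong_mem_f.1 hx') (by linear_combination (norm := abel1) e3 - e1)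
  · exact (h.2 u' t u x' (strong_mem_t.1 hx') p' (strong_mem_t.1 hp') (-q) (strong_mem_f.1 hq)
      (-y) (strong_mem_f.1 hy) (by linear_combination (norm := abel1) e3 - e1)).symm

theorem strong_sum (A B : ι → Finset G) (T : Finset ι) :
    ∑ i ∈ T, (A i).card * (B i).card ≤
      ∑ s : T × Bool, (strongP A B T s).card * (strongP A B T (s.1, !s.2)).card := by
  rw [Fintype.sum_prod_type, ← Finset.sum_coe_sort T]
  refine Finset.sum_le_sum fun t _ => ?_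
  rw [Fintype.sum_bool, Bool.not_true, strong_card_t, strong_card_f]
  exact Nat.le_add_right _ _

end

theorem strong_log {n : ℕ} {y : ℝ} (hy : 1 ≤ y) (h : (n : ℝ) ≤ y) : Real.log n ≤ Real.log y := by
  rcases Nat.eq_zero_or_pos n with rfl | hn
  · simpa using Real.log_nonneg hy
  · exact Real.log_le_log (Nat.cast_pos.2 hn) h

theorem strong : ∃ c : ℝ, 0 < c ∧ ∀ (G ι : Type) [AddCommGroup G] [Fintype G] [Fintype ι]
    (A B : ι → Finset G), Sdpp A B → ¬ Beats A B c := by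
  by_contra hcon
  have key : ∀ k : ℕ, ∃ (G ι : Type) (_ : AddCommGroup G) (_ : Fintype G) (A B : ι → Finset G)
      (T : Finset ι), Sdpp A B ∧ k + 2 ≤ Fintype.card G ∧
      8 ≤ (Fintype.card G : ℝ) ^ (1 / ((k : ℝ) + 4) / 2) ∧
      (T.card : ℝ) ≤ (Fintype.card G : ℝ) ^ (1 / 2 + 1 / ((k : ℝ) + 4)) ∧
      (∀ i ∈ T, ((A i).card : ℝ) ≤ (Fintype.card G : ℝ) ^ (1 / 2 + 1 / ((k : ℝ) + 4)) ∧
        ((B i).card : ℝ) ≤ (Fintype.card G : ℝ) ^ (1 / 2 + 1 / ((k : ℝ) + 4))) ∧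
      (Fintype.card G : ℝ) ^ (3 / 2 - 1 / ((k : ℝ) + 4)) ≤
        ∑ i ∈ T, (((A i).card * (B i).card : ℕ) : ℝ) := by
    intro k
    have hk : (0 : ℝ) ≤ k := Nat.cast_nonneg k
    have hc : (0 : ℝ) < 1 / ((k : ℝ) + 4) := by positivity
    have hc1 : 1 / ((k : ℝ) + 4) ≤ 1 / 4 := one_div_le_one_div_of_le (by norm_num) (by linarith)
    obtain ⟨G, ι, _, _, _, A, B, hs, hb⟩ : ∃ (G ι : Type) (_ : AddCommGroup G) (_ : Fintype G)
        (_ : Fintype ι) (A B : ι → Finset G), Sdpp A B ∧ Beats A B (1 / ((k : ℝ) + 4)) := by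
      by_contra h
      exact hcon ⟨_, hc, fun G ι _ _ _ A B hs hb => h ⟨G, ι, _, _, _, A, B, hs, hb⟩⟩
    obtain ⟨G', ι', _, _, _, A', B', hs', hb', hN⟩ :=
      tensor hs hc hb (max (k + 2) (8 ^ (2 * (k + 4))))
    have h8 : 8 ≤ (Fintype.card G' : ℝ) ^ (1 / ((k : ℝ) + 4) / 2) := by
      have h1 : (8 : ℝ) ^ (2 * (k + 4)) ≤ Fintype.card G' := by
        exact_mod_cast (le_max_right _ _).trans hN
      have h2 := Real.rpow_le_rpow (by positivity) h1 (z := 1 / ((k : ℝ) + 4) / 2) (by positivity)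
      rw [← Real.rpow_natCast, ← Real.rpow_mul (by norm_num)] at h2
      have h3 : ((2 * (k + 4) : ℕ) : ℝ) * (1 / ((k : ℝ) + 4) / 2) = 1 := by
        push_cast
        field_simp
      rwa [h3, Real.rpow_one] at h2
    obtain ⟨T, h1, h2, h3⟩ := prune hs' hc hc1 hb' h8
    exact ⟨G', ι', _, _, A', B', T, hs', (le_max_left _ _).trans hN, h8, h1, h2, h3⟩
  choose G ι grp fin A B T hs hN h8 hT hAB hsum using key
  have hN1 : ∀ k, (1 : ℝ) < Fintype.card (G k) := fun k => by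
    have := hN k
    exact_mod_cast (show 1 < Fintype.card (G k) by omega)
  have hN0 : ∀ k, (0 : ℝ) < Fintype.card (G k) := fun k => by linarith [hN1 k]
  have hlog : ∀ k, 0 < Real.log (Fintype.card (G k)) := fun k => Real.log_pos (hN1 k)
  have hc : ∀ k : ℕ, (0 : ℝ) < 1 / ((k : ℝ) + 4) := fun k => by positivity
  have hone : ∀ k : ℕ, (1 : ℝ) ≤ (Fintype.card (G k) : ℝ) ^ (1 / 2 + 1 / ((k : ℝ) + 4)) := fun k =>
    Real.one_le_rpow (hN1 k).le (by linarith [hc k])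
  have hbig : ∀ k : ℕ, (Fintype.card (G k) : ℝ) ^ (3 / 2 - 1 / ((k : ℝ) + 4)) ≤
      ((∑ s : T k × Bool, (strongP (A k) (B k) (T k) s).card *
        (strongP (A k) (B k) (T k) (s.1, !s.2)).card : ℕ) : ℝ) := fun k => by
    refine (hsum k).trans ?_
    rw [← Nat.cast_sum]
    exact Nat.cast_le.2 (strong_sum _ _ _)
  refine no_fam
    { G := G, grp := grp, fin := fin, Lab := fun k => T k × Bool, finL := fun _ => inferInstance
      fl := fun _ s => (s.1, !s.2), sg := fun _ s => s.2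
      P := fun k => strongP (A k) (B k) (T k)
      L := fun k => Real.log (Fintype.card (G k)) / 2
      η := fun k => 4 * (1 / ((k : ℝ) + 4))
      L_pos := fun k => by linarith [hlog k]
      L_top := ?_, η_zero := ?_
      η_nonneg := fun k => by linarith [hc k]
      fl_fl := fun k s => by simp
      direct := fun k s => strong_direct (hs k) (T k) s
      det := fun k s r r' => strong_det (hs k) (T k) s r r'
      cardG := fun k => by nlinarith [hlog k, hc k]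
      cardLab := fun k => ?_, cardP := fun k s => ?_, ne := fun k => ?_, many := fun k => ?_ }
  · refine Tendsto.atTop_div_const (by norm_num) (Real.tendsto_log_atTop.comp ?_)
    refine tendsto_atTop_mono (fun k => ?_) tendsto_natCast_atTop_atTop
    exact Nat.cast_le.2 (by have := hN k; omega)
  · have h1 : Tendsto (fun k : ℕ => ((k : ℝ) + 4)⁻¹) atTop (𝓝 0) :=
      tendsto_inv_atTop_zero.comp (tendsto_atTop_add_const_right _ _ tendsto_natCast_atTop_atTop)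
    simpa using h1.const_mul 4
  · have h1 : ((Fintype.card (T k × Bool) : ℕ) : ℝ) ≤
        8 * (Fintype.card (G k) : ℝ) ^ (1 / 2 + 1 / ((k : ℝ) + 4)) := by
      rw [Fintype.card_prod, Fintype.card_coe, Fintype.card_bool]
      push_cast
      linarith [hT k, hone k]
    have h2 := strong_log (by linarith [hone k]) h1
    have h3 := Real.log_le_log (by norm_num) (h8 k)
    rw [Real.log_mul (by norm_num) (by linarith [hone k]), Real.log_rpow (hN0 k)] at h2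
    rw [Real.log_rpow (hN0 k)] at h3
    nlinarith [hlog k, hc k]
  · have h1 : ((strongP (A k) (B k) (T k) s).card : ℝ) ≤
        (Fintype.card (G k) : ℝ) ^ (1 / 2 + 1 / ((k : ℝ) + 4)) := by
      obtain ⟨t, _ | _⟩ := s
      · rw [strong_card_f]
        exact (hAB k t t.2).2
      · rw [strong_card_t]
        exact (hAB k t t.2).1
    have h2 := strong_log (hone k) h1
    rw [Real.log_rpow (hN0 k)] at h2
    nlinarith [hlog k, hc k]
  · exact Nat.cast_pos.1 ((Real.rpow_pos_of_pos (hN0 k) _).trans_le (hbig k))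
  · have h2 := Real.log_le_log (Real.rpow_pos_of_pos (hN0 k) _) (hbig k)
    rw [Real.log_rpow (hN0 k)] at h2
    nlinarith [hlog k, hc k]

end Pool.Agent.P.MP_e72dc0_lc.TF
end

-- part Pool.Agent.P.MP_e72dc0_lc.TF.Main
section

namespace Pool.Agent.P.MP_e72dc0_lc.TF

theorem main_mono {x : ℕ} {e e' : ℝ} (h0 : 0 < e) (h : e ≤ e') : (x : ℝ) ^ e ≤ (x : ℝ) ^ e' := by
  rcases Nat.eq_zero_or_pos x with rfl | hx
  · rw [Nat.cast_zero, Real.zero_rpow h0.ne', Real.zero_rpow (h0.trans_le h).ne']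
  · exact Real.rpow_le_rpow_of_exponent_le (by exact_mod_cast hx) h

theorem main : ∃ c : ℝ, 0 < c ∧ ∀ (G : Type) [AddCommGroup G] [Fintype G] (n : ℕ)
    (A B : Fin n → Finset G), Sdpp A B →
      (∀ w : ℝ, 2 ≤ w → w ≤ 2 + c → ∑ i, (((A i).card * (B i).card : ℕ) : ℝ) ^ (w / 2) ≤
        (Fintype.card G : ℝ) ^ (3 / 2 : ℝ)) ∧
      (2 ≤ n → (∀ i, (n : ℝ) ^ (2 - c) ≤ (((A i).card * (B i).card : ℕ) : ℝ)) →
        (n : ℝ) ^ (2 + c) < Fintype.card G) := by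
  obtain ⟨c0, hc0, h⟩ := strong
  set c1 := min c0 1 with hc1
  have c1pos : 0 < c1 := lt_min hc0 one_pos
  have c1le : c1 ≤ c0 := min_le_left _ _
  have c1one : c1 ≤ 1 := min_le_right _ _
  refine ⟨c1 / 4, by positivity, fun G _ _ n A B hS => ?_⟩
  have key : ∀ w : ℝ, 2 ≤ w → w ≤ 2 + c1 →
      ∑ i, (((A i).card * (B i).card : ℕ) : ℝ) ^ (w / 2) ≤ (Fintype.card G : ℝ) ^ (3 / 2 : ℝ) := by
    intro w h1 h2
    have := h G (Fin n) A B hS
    unfold Beats at this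
    refine le_trans (Finset.sum_le_sum fun i _ => main_mono (by linarith) (by linarith))
      (not_lt.mp this)
  refine ⟨fun w h1 h2 => key w h1 (by linarith), fun hn hA => ?_⟩
  by_contra hG
  rw [not_lt] at hG
  have hn1 : (1 : ℝ) < n := by exact_mod_cast hn
  have hn0 : (0 : ℝ) < n := by linarith
  have k1 := key (2 + c1) (by linarith) le_rfl
  have k2 : ∑ _i : Fin n, ((n : ℝ) ^ (2 - c1 / 4)) ^ ((2 + c1) / 2) ≤
      ∑ i, (((A i).card * (B i).card : ℕ) : ℝ) ^ ((2 + c1) / 2) :=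
    Finset.sum_le_sum fun i _ => Real.rpow_le_rpow (by positivity) (hA i) (by positivity)
  have k3 : (Fintype.card G : ℝ) ^ (3 / 2 : ℝ) ≤ ((n : ℝ) ^ (2 + c1 / 4)) ^ (3 / 2 : ℝ) :=
    Real.rpow_le_rpow (by positivity) hG (by norm_num)
  rw [Finset.sum_const, Finset.card_univ, Fintype.card_fin, nsmul_eq_mul,
    ← Real.rpow_mul hn0.le, mul_comm, ← Real.rpow_add_one hn0.ne'] at k2
  rw [← Real.rpow_mul hn0.le] at k3
  have k4 := (Real.rpow_le_rpow_left_iff hn1).mp (k2.trans (k1.trans k3))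
  nlinarith

end Pool.Agent.P.MP_e72dc0_lc.TF
end
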